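import Pool.Agent.Lib.MP_a763a9_pr.H59.Regular

/-!
Colour refinement.
-/

set_option autoImplicit false
set_option linter.unusedVariables false
set_option linter.unusedSectionVars false

namespace Pool.Agent.Lib.MP_a763a9_pr.H59

open Finset

/-- Colour refinement: the colour at level `r + 1` records the colour at level `r` and the
multiset of the colours of the neighbours at level `r`. -/
def col {V : Type} (nb : V → Finset V) (lab : V → ℕ) : ℕ → V → ℕ
  | 0, v => lab v
  | r + 1, v => Encodable.encode (col nb lab r v, (nb v).val.map (col nb lab r))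

/-- Decoding a colour. -/
def dec (a : ℕ) : ℕ × Multiset ℕ := (Encodable.decode (α := ℕ × Multiset ℕ) a).getD (0, 0)

lemma dec_encode (p : ℕ × Multiset ℕ) : dec (Encodable.encode p) = p := by
  unfold dec
  rw [Encodable.encodek]; rfl

/-- The label recorded in a colour at level `r`. -/
def labOf : ℕ → ℕ → ℕ
  | 0, a => a
  | r + 1, a => labOf r (dec a).1

lemma labOf_col {V : Type} (nb : V → Finset V) (lab : V → ℕ) (r : ℕ) (v : V) :
    labOf r (col nb lab r v) = lab v := by
  induction r with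
  | zero => rfl
  | succ r ih =>
    show labOf r (dec (Encodable.encode (col nb lab r v, (nb v).val.map (col nb lab r)))).1 = lab v
    rw [dec_encode]; exact ih

lemma col_refines {V : Type} [Fintype V] [DecidableEq V] (nb : V → Finset V) (lab : V → ℕ)
    (r : ℕ) : Refines nb (col nb lab r) (col nb lab (r + 1)) := by
  have key : ∀ x x', col nb lab (r + 1) x = col nb lab (r + 1) x' →
      col nb lab r x = col nb lab r x' ∧
      (nb x).val.map (col nb lab r) = (nb x').val.map (col nb lab r) := by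
    intro x x' h
    have := Encodable.encode_injective h
    exact ⟨congrArg Prod.fst this, congrArg Prod.snd this⟩
  refine ⟨fun x x' h => (key x x' h).1, fun x x' h b => ?_⟩
  have h2 := congrArg (Multiset.count b) (key x x' h).2
  rw [Multiset.count_map, Multiset.count_map] at h2
  have e : ∀ y, #{z ∈ nb y | col nb lab r z = b} =
      Multiset.card (Multiset.filter (fun a => b = col nb lab r a) (nb y).val) := by
    intro y
    rw [Finset.card_def, Finset.filter_val]
    congr 1
    exact Multiset.filter_congr fun z _ => eq_comm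
  rw [e, e, h2]

/-- The local functional as a function of the colour at level `r + 1`. -/
noncomputable def psi (L : ℕ) (g : ℕ → ℕ → ℝ) (h : ℕ → ℕ → ℝ) (r : ℕ) (F : ℕ → ℕ → ℝ)
    (a : ℕ) : ℝ :=
  T1 L (g (labOf r (dec a).1)) (F (dec a).1) +
    1 / 2 * ((dec a).2.map fun b => T2 L h (F (dec a).1) (F b)).sum

lemma psi_col {V : Type} (nb : V → Finset V) (lab : V → ℕ) (L : ℕ) (g : ℕ → ℕ → ℝ)
    (h : ℕ → ℕ → ℝ) (r : ℕ) (F : ℕ → ℕ → ℝ) (v : V) :
    psi L g h r F (col nb lab (r + 1) v) = T1 L (g (lab v)) (F (col nb lab r v)) +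
      1 / 2 * ∑ w ∈ nb v, T2 L h (F (col nb lab r v)) (F (col nb lab r w)) := by
  have e : dec (col nb lab (r + 1) v) = (col nb lab r v, (nb v).val.map (col nb lab r)) :=
    dec_encode _
  unfold psi
  rw [e]
  simp only [labOf_col, Multiset.map_map]
  rfl

lemma sum_psi {V : Type} [Fintype V] [DecidableEq V] (nb : V → Finset V) (lab : V → ℕ) (L : ℕ)
    (g : ℕ → ℕ → ℝ) (h : ℕ → ℕ → ℝ) (r : ℕ) (F : ℕ → ℕ → ℝ) :
    ∑ v, psi L g h r F (col nb lab (r + 1) v) =
      ∑ v, T1 L (g (lab v)) (F (col nb lab r v)) +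
      1 / 2 * ∑ p ∈ prs nb, T2 L h (F (col nb lab r p.1)) (F (col nb lab r p.2)) := by
  rw [sum_congr rfl fun v _ => psi_col nb lab L g h r F v, sum_add_distrib, ← mul_sum]
  congr 2
  unfold prs
  rw [sum_filter, Fintype.sum_prod_type]
  refine sum_congr rfl fun x _ => ?_
  rw [← sum_filter]
  refine sum_congr ?_ fun _ _ => rfl
  ext y; simp

/-- A bound for `psi`. -/
noncomputable def psiB (L : ℕ) (g : ℕ → ℕ → ℝ) (h : ℕ → ℕ → ℝ) (r : ℕ) (a : ℕ) : ℝ :=
  |g (labOf r (dec a).1) 0| + ∑ i ∈ range L, |g (labOf r (dec a).1) (i + 1) -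
    g (labOf r (dec a).1) i| + 1 / 2 * (Multiset.card (dec a).2 * t2 L h)

lemma psi_bound (L : ℕ) (g : ℕ → ℕ → ℝ) (h : ℕ → ℕ → ℝ) (r : ℕ) {F : ℕ → ℕ → ℝ}
    (h0 : ∀ a i, 0 ≤ F a i) (h1 : ∀ a i, F a i ≤ 1) (a : ℕ) :
    |psi L g h r F a| ≤ psiB L g h r a := by
  unfold psi psiB
  refine (abs_add_le _ _).trans (add_le_add (T1_bound _ (h0 _) (h1 _)) ?_)
  rw [abs_mul, abs_of_nonneg (show (0:ℝ) ≤ 1 / 2 by norm_num)]
  refine mul_le_mul_of_nonneg_left ?_ (by norm_num)
  have key : ∀ M : Multiset ℕ, |(M.map fun b => T2 L h (F (dec a).1) (F b)).sum| ≤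
      Multiset.card M * t2 L h := by
    intro M
    induction M using Multiset.induction_on with
    | empty => simp
    | cons b M ih =>
      rw [Multiset.map_cons, Multiset.sum_cons, Multiset.card_cons]
      refine (abs_add_le _ _).trans ?_
      have := T2_bound (L := L) h (h0 (dec a).1) (h1 (dec a).1) (h0 b) (h1 b)
      push_cast
      linarith
  exact key _

lemma psiB_nonneg (L : ℕ) (g : ℕ → ℕ → ℝ) (h : ℕ → ℕ → ℝ) (r a : ℕ) : 0 ≤ psiB L g h r a := by
  have := psi_bound L g h r (F := fun _ _ => 0) (fun _ _ => le_rfl) (fun _ _ => zero_le_one) a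
  exact (abs_nonneg _).trans this

/-- There are finitely many possible colours. -/
lemma exists_colors (Δ Λ r : ℕ) : ∃ S : Finset ℕ, ∀ (V : Type) (nb : V → Finset V)
    (lab : V → ℕ), (∀ v, #(nb v) ≤ Δ) → (∀ v, lab v < Λ) → ∀ v, col nb lab r v ∈ S := by
  induction r with
  | zero => exact ⟨range Λ, fun V nb lab _ hl v => mem_range.mpr (hl v)⟩
  | succ r ih =>
    obtain ⟨S, hS⟩ := ih
    refine ⟨(S ×ˢ (Multiset.powerset (Δ • S.val)).toFinset).image Encodable.encode, ?_⟩
    intro V nb lab hd hl v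
    have hS' := hS V nb lab hd hl
    refine mem_image.mpr ⟨(col nb lab r v, (nb v).val.map (col nb lab r)), ?_, rfl⟩
    refine mem_product.mpr ⟨hS' v, ?_⟩
    simp only [Multiset.mem_toFinset, Multiset.mem_powerset]
    rw [Multiset.le_iff_count]
    intro a
    rw [Multiset.count_nsmul]
    by_cases ha : a ∈ S
    · rw [Multiset.count_eq_one_of_mem S.nodup ha, mul_one]
      refine (Multiset.count_le_card _ _).trans ?_
      rw [Multiset.card_map]
      exact hd v
    · have : Multiset.count a ((nb v).val.map (col nb lab r)) = 0 := by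
        rw [Multiset.count_eq_zero]
        intro hm
        obtain ⟨w, _, hw⟩ := Multiset.mem_map.mp hm
        exact ha (hw ▸ hS' w)
      rw [this]; exact Nat.zero_le _

/-- The frequency of a colour. -/
noncomputable def freq {V : Type} [Fintype V] (nb : V → Finset V) (lab : V → ℕ) (r : ℕ)
    (γ : ℕ) : ℝ := (#{v | col nb lab r v = γ} : ℝ) / Fintype.card V

lemma sum_freq {V : Type} [Fintype V] (nb : V → Finset V) (lab : V → ℕ) (r : ℕ)
    {S : Finset ℕ} (hS : ∀ v, col nb lab r v ∈ S) (f : ℕ → ℝ) :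
    (∑ v, f (col nb lab r v)) / Fintype.card V = ∑ γ ∈ S, freq nb lab r γ * f γ := by
  rw [← sum_fiberwise_of_maps_to (fun v _ => hS v), sum_div]
  refine sum_congr rfl fun γ _ => ?_
  rw [sum_congr rfl (g := fun _ => f γ) (fun v hv => by rw [(mem_filter.mp hv).2]), sum_const,
    nsmul_eq_mul]
  unfold freq
  ring

end Pool.Agent.Lib.MP_a763a9_pr.H59
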