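import Pool.Agent.Lib.MP_a763a9_pr.H59.Far

/-!
Choice of a small uniform field with bounded susceptibility, and the upper bound for `log Z`.
-/

set_option autoImplicit false
set_option linter.unusedSectionVars false
set_option linter.unusedVariables false

namespace Pool.Agent.Lib.MP_a763a9_pr.H59

open Finset

variable {V : Type} [Fintype V] [DecidableEq V]
variable {E : Finset (V × V)} {β : ℝ} {θ : V → ℝ}

/-- Site weights with fields `θ v + s`. -/
noncomputable def fw (θ : V → ℝ) (s : ℝ) : V → Bool → ℝ :=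
  fun v b => Real.exp ((θ v + s) * sg b)

lemma fw_free (s : ℝ) (v : V) : Free (fw θ s) v := ⟨Real.exp_pos _, Real.exp_pos _⟩

lemma fw_adm (s : ℝ) : Adm (fw θ s) :=
  ⟨fun _ _ => (Real.exp_pos _).le, fun _ => ⟨true, Real.exp_pos _⟩⟩

/-- The total magnetization. -/
def Mg (σ : V → Bool) : ℝ := ∑ v, sg (σ v)

lemma wgt_fw (s : ℝ) (σ : V → Bool) :
    wgt (fw θ s) E β σ = wgt (fw θ 0) E β σ * Real.exp (s * Mg σ) := by
  unfold wgt fw Mg
  have : ∏ v, Real.exp ((θ v + s) * sg (σ v)) =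
      (∏ v, Real.exp ((θ v + 0) * sg (σ v))) * Real.exp (s * ∑ v, sg (σ v)) := by
    rw [← Real.exp_sum, ← Real.exp_sum, ← Real.exp_add, mul_sum, ← sum_add_distrib]
    congr 1
    exact sum_congr rfl fun v _ => by ring
  rw [this]; ring

lemma hasDerivAt_sum_fw (f : (V → Bool) → ℝ) (s : ℝ) :
    HasDerivAt (fun s => ∑ σ, wgt (fw θ s) E β σ * f σ)
      (∑ σ, wgt (fw θ s) E β σ * (f σ * Mg σ)) s := by
  have h : ∀ σ ∈ (univ : Finset (V → Bool)), HasDerivAt (fun s => wgt (fw θ s) E β σ * f σ)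
      (wgt (fw θ s) E β σ * (f σ * Mg σ)) s := by
    intro σ _
    have e : (fun s => wgt (fw θ s) E β σ * f σ) =
        fun s => wgt (fw θ 0) E β σ * Real.exp (s * Mg σ) * f σ := by
      funext s; rw [wgt_fw]
    rw [e, wgt_fw s σ]
    have h1 : HasDerivAt (fun s : ℝ => s * Mg σ) (Mg σ) s := by
      simpa using (hasDerivAt_id s).mul_const (Mg σ)
    have h2 := ((h1.exp.const_mul (wgt (fw θ 0) E β σ)).mul_const (f σ))
    exact h2.congr_deriv (by ring)
  have := HasDerivAt.fun_sum h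
  simpa using this

lemma hasDerivAt_Ex_fw (f : (V → Bool) → ℝ) (s : ℝ) :
    HasDerivAt (fun s => Ex (fw θ s) E β f)
      (Ex (fw θ s) E β (fun σ => f σ * Mg σ) - Ex (fw θ s) E β f * Ex (fw θ s) E β Mg) s := by
  have h1 := hasDerivAt_sum_fw (E := E) (β := β) (θ := θ) f s
  have h2 := hasDerivAt_sum_fw (E := E) (β := β) (θ := θ) (fun _ => 1) s
  have hZ := (Zf_pos (E := E) (β := β) (fw_adm (θ := θ) s)).ne'
  have e : (fun s => ∑ σ, wgt (fw θ s) E β σ * (1 : ℝ)) = fun s => Zf (fw θ s) E β := by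
    funext s; simp [Zf]
  rw [e] at h2
  have h3 := h1.fun_div h2 hZ
  refine HasDerivAt.congr_deriv h3 ?_
  unfold Ex
  simp only [one_mul]
  field_simp

lemma sg_eq_ind (b : Bool) : sg b = 2 * ind b + (-1) := by cases b <;> simp [sg, ind]; norm_num

lemma cov_Mg (h : Adm (fw θ 0)) (s : ℝ) (v : V) :
    Ex (fw θ s) E β (fun σ => ind (σ v) * Mg σ) -
      Ex (fw θ s) E β (fun σ => ind (σ v)) * Ex (fw θ s) E β Mg =
      2 * chi (fw θ s) E β v := by
  have hA := fw_adm (θ := θ) s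
  have e1 : (fun σ : V → Bool => ind (σ v) * Mg σ) =
      fun σ => (∑ y, 2 * (ind (σ v) * ind (σ y))) + (-(Fintype.card V : ℝ)) * ind (σ v) := by
    funext σ
    unfold Mg
    simp only [sg_eq_ind, sum_add_distrib, sum_const, card_univ, nsmul_eq_mul, mul_add, mul_sum]
    rw [sum_congr rfl (fun y _ => by ring :
      ∀ y ∈ univ, ind (σ v) * (2 * ind (σ y)) = 2 * (ind (σ v) * ind (σ y)))]
    ring
  have e2 : (Mg : (V → Bool) → ℝ) =
      fun σ => (∑ y, 2 * ind (σ y)) + (-(Fintype.card V : ℝ)) := by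
    funext σ
    unfold Mg
    simp only [sg_eq_ind, sum_add_distrib, sum_const, card_univ, nsmul_eq_mul]
    ring
  rw [e1, Ex_add, Ex_sum, Ex_const_mul]
  rw [e2, Ex_add, Ex_sum, Ex_const hA]
  simp only [Ex_const_mul]
  unfold chi cv xv qv
  rw [sum_sub_distrib, ← mul_sum, ← mul_sum, ← mul_sum]
  ring

lemma exists_field (hβ : 0 ≤ β) {ε : ℝ} (hε : 0 < ε) :
    ∃ s ∈ Set.Ioo 0 ε, ∑ v, chi (fw θ s) E β v ≤ (Fintype.card V : ℝ) / (2 * ε) := by
  set m := fun s : ℝ => ∑ v, qv (fw θ s) E β v with hm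
  have hd : ∀ s, HasDerivAt m (∑ v, 2 * chi (fw θ s) E β v) s := by
    intro s
    have : ∀ v ∈ (univ : Finset V), HasDerivAt (fun s => qv (fw θ s) E β v)
        (2 * chi (fw θ s) E β v) s := by
      intro v _
      rw [← cov_Mg (fw_adm 0) s v]
      exact hasDerivAt_Ex_fw _ s
    have := HasDerivAt.fun_sum this
    simpa using this
  obtain ⟨s, hs, he⟩ := exists_hasDerivAt_eq_slope m _ hε
    (fun s _ => (hd s).continuousAt.continuousWithinAt) (fun s _ => hd s)
  refine ⟨s, hs, ?_⟩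
  rw [← mul_sum] at he
  have h1 : m ε ≤ Fintype.card V := by
    have : ∑ v : V, qv (fw θ ε) E β v ≤ ∑ v : V, 1 := sum_le_sum fun v _ => qv_le_one (fw_adm ε) v
    simpa using this
  have h0 : 0 ≤ m 0 := sum_nonneg fun v _ => qv_nonneg (fw_adm 0) v
  have h2 : 2 * ∑ v, chi (fw θ s) E β v ≤ Fintype.card V / ε := by
    rw [he, sub_zero]
    exact div_le_div_of_nonneg_right (by linarith) hε.le
  have h3 : (Fintype.card V : ℝ) / (2 * ε) = (Fintype.card V / ε) / 2 := by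
    rw [div_div, mul_comm]
  rw [h3]
  linarith

lemma abs_Mg_le (σ : V → Bool) : |Mg σ| ≤ Fintype.card V := by
  unfold Mg
  refine (abs_sum_le_sum_abs _ _).trans ?_
  have : ∑ v : V, |sg (σ v)| ≤ ∑ v : V, 1 := sum_le_sum fun v _ => by
    cases σ v <;> simp [sg]
  simpa using this

lemma log_Zf_fw_le {s : ℝ} (hs : 0 ≤ s) :
    Real.log (Zf (fw θ 0) E β) ≤ Real.log (Zf (fw θ s) E β) + s * Fintype.card V := by
  have h0 := Zf_pos (E := E) (β := β) (fw_adm (θ := θ) 0)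
  have hs' := Zf_pos (E := E) (β := β) (fw_adm (θ := θ) s)
  have h1 : Zf (fw θ 0) E β ≤ Real.exp (s * Fintype.card V) * Zf (fw θ s) E β := by
    unfold Zf
    rw [mul_sum]
    refine sum_le_sum fun σ _ => ?_
    rw [wgt_fw s σ]
    have : 1 ≤ Real.exp (s * Fintype.card V) * Real.exp (s * Mg σ) := by
      rw [← Real.exp_add]
      apply Real.one_le_exp
      have := (abs_le.mp (abs_Mg_le σ)).1
      nlinarith
    have hw : 0 ≤ wgt (fw θ 0) E β σ := wgt_nonneg (fw_adm 0) σ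
    nlinarith
  have h2 := Real.log_le_log h0 h1
  rw [Real.log_mul (Real.exp_pos _).ne' hs'.ne', Real.log_exp] at h2
  linarith

lemma Fv_fw (s : ℝ) (v : V) (q : ℝ) : Fv (fw θ s) v q = (θ v + s) * (2 * q - 1) + S1 q := by
  unfold Fv fw
  rw [Real.log_exp, Real.log_exp]
  simp [sg]; ring

/-- Upper bound for `log Z` by the Bethe functional on graphs with the shell and loser
structure. -/
theorem upper {b : ℝ} {Δ ρ : ℕ} (hβ : 0 ≤ β) (hb : ∀ v, |θ v| ≤ b) (hd : DegLe E Δ)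
    {far : V → V → Prop} (hS : Shells E far ρ) (hρ : 0 < ρ)
    (hL : ∀ z, ∃ L, Loser E Δ far z L) {ε : ℝ} (hε : 0 < ε) (hε1 : ε ≤ 1) :
    ∃ (q : V → ℝ) (ξ : V × V → ℝ),
      (∀ v, 1 / (1 + Real.exp (2 * (b + 1)) * Real.exp (2 * β * Δ)) ≤ q v) ∧
      (∀ v, 1 / (1 + Real.exp (2 * (b + 1)) * Real.exp (2 * β * Δ)) ≤ 1 - q v) ∧
      (∀ e ∈ E, Tab (q e.1) (q e.2) (ξ e)) ∧
      Real.log (Zf (fw θ 0) E β) ≤ FB (fw θ 0) E β q ξ + Fintype.card V *
        (2 * ε + Δ * ((1 + Real.exp (2 * (b + 1)) * Real.exp (2 * β * Δ)) ^ 4 + Real.log 2) /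
          Real.sqrt ρ * (1 / (2 * ε))) := by
  obtain ⟨s, ⟨hs0, hsε⟩, hchi⟩ := exists_field (E := E) (β := β) (θ := θ) hβ hε
  have hρ' : (0 : ℝ) < ρ := by exact_mod_cast hρ
  have hsq : 0 < Real.sqrt ρ := Real.sqrt_pos.mpr hρ'
  set M := Real.exp (2 * (b + 1)) with hM
  have hB : Bdd M (fw θ s) := by
    intro v _
    have h1 := abs_le.mp (hb v)
    unfold fw
    rw [hM, ← Real.exp_add, ← Real.exp_add]
    constructor
    · apply Real.exp_le_exp.mpr
      simp only [sg, if_true, Bool.false_eq_true, if_false]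
      linarith
    · apply Real.exp_le_exp.mpr
      simp only [sg, if_true, Bool.false_eq_true, if_false]
      linarith
  have key := log_Zf_le_chi (φ := fw θ s) hβ (Real.exp_pos _).le hd hS hρ hsq hL (fw_adm s) hB
    (fun v => fw_free s v)
  refine ⟨qv (fw θ s) E β, fun e => xv (fw θ s) E β e.1 e.2,
    fun v => (qv_bounds (fw_adm s) hβ (Real.exp_pos _).le hB hd (fw_free s v)).1,
    fun v => (qv_bounds (fw_adm s) hβ (Real.exp_pos _).le hB hd (fw_free s v)).2,
    fun e _ => tab_xv (fw_adm s) e.1 e.2, ?_⟩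
  have h1 := log_Zf_fw_le (E := E) (β := β) (θ := θ) hs0.le
  have h2 : FBm (fw θ s) E β ≤ FB (fw θ 0) E β (qv (fw θ s) E β)
      (fun e => xv (fw θ s) E β e.1 e.2) + s * Fintype.card V := by
    unfold FBm FB
    have : ∑ v, Fv (fw θ s) v (qv (fw θ s) E β v) ≤
        ∑ v, (Fv (fw θ 0) v (qv (fw θ s) E β v) + s) := by
      refine sum_le_sum fun v _ => ?_
      rw [Fv_fw, Fv_fw]
      have := qv_le_one (E := E) (β := β) (fw_adm (θ := θ) s) v
      nlinarith
    rw [sum_add_distrib, sum_const, card_univ, nsmul_eq_mul] at this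
    linarith
  have hcard : (0 : ℝ) ≤ Fintype.card V := Nat.cast_nonneg _
  set C := (1 + M * Real.exp (2 * β * Δ)) ^ 4 with hC
  have hC0 : 0 ≤ C := by positivity
  have hlog : 0 ≤ Real.log 2 := Real.log_nonneg (by norm_num)
  have h3 : C * Real.sqrt ρ / ρ + Real.log 2 / Real.sqrt ρ = (C + Real.log 2) / Real.sqrt ρ := by
    have : (ρ : ℝ) = Real.sqrt ρ * Real.sqrt ρ := (Real.mul_self_sqrt hρ'.le).symm
    nth_rewrite 2 [this]
    field_simp
  rw [h3] at key
  have h4 : (Δ : ℝ) * ((C + Real.log 2) / Real.sqrt ρ) * ∑ v, chi (fw θ s) E β v ≤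
      (Δ : ℝ) * ((C + Real.log 2) / Real.sqrt ρ) * (Fintype.card V / (2 * ε)) :=
    mul_le_mul_of_nonneg_left hchi (by positivity)
  have h5 : (Δ : ℝ) * ((C + Real.log 2) / Real.sqrt ρ) * (Fintype.card V / (2 * ε)) =
      Fintype.card V * (Δ * (C + Real.log 2) / Real.sqrt ρ * (1 / (2 * ε))) := by
    field_simp
  have h6 : 2 * s * Fintype.card V ≤ 2 * ε * Fintype.card V :=
    mul_le_mul_of_nonneg_right (by linarith) hcard
  have : (Fintype.card V : ℝ) * (2 * ε + Δ * (C + Real.log 2) / Real.sqrt ρ * (1 / (2 * ε))) =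
      2 * ε * Fintype.card V +
      Fintype.card V * (Δ * (C + Real.log 2) / Real.sqrt ρ * (1 / (2 * ε))) := by ring
  rw [this, ← h5]
  linarith

end Pool.Agent.Lib.MP_a763a9_pr.H59
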