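import Mathlib

/-!
A minimal system of weights on a finite network.
-/

set_option autoImplicit false
set_option linter.unusedVariables false
set_option linter.unusedSectionVars false

namespace Pool.Agent.Lib.MP_a763a9_pr.H59

open Finset Filter Topology

variable {V : Type} [Fintype V] [DecidableEq V]

/-- The feasible systems of weights. -/
structure Wt (F : Finset V) (I : Finset (V × V)) (U : V → ℝ) (c : V × V → ℝ) (i : V)
    (w : V → ℝ) : Prop where
  nonneg : ∀ v, 0 ≤ w v
  le : ∀ v, w v ≤ Real.sqrt (U v / U i)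
  off : ∀ v, v ∉ F → w v = 0
  one : w i = 1
  fwd : ∀ e ∈ I, c e * w e.1 ≤ U e.1 * w e.2
  bwd : ∀ e ∈ I, c e * w e.2 ≤ U e.2 * w e.1

lemma isCompact_wt (F : Finset V) (I : Finset (V × V)) (U : V → ℝ) (c : V × V → ℝ) (i : V) :
    IsCompact {w : V → ℝ | Wt F I U c i w} := by
  have e : {w : V → ℝ | Wt F I U c i w} =
      Set.Icc (fun _ => (0 : ℝ)) (fun v => Real.sqrt (U v / U i)) ∩
      ((⋂ v, ⋂ (_ : v ∉ F), {w : V → ℝ | w v = 0}) ∩ ({w : V → ℝ | w i = 1} ∩
      ((⋂ e ∈ I, {w : V → ℝ | c e * w e.1 ≤ U e.1 * w e.2}) ∩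
      (⋂ e ∈ I, {w : V → ℝ | c e * w e.2 ≤ U e.2 * w e.1})))) := by
    ext w
    simp only [Set.mem_ofPred_eq, Set.mem_inter_iff, Set.mem_iInter, Set.mem_Icc]
    constructor
    · intro h
      exact ⟨⟨fun v => h.nonneg v, fun v => h.le v⟩, h.off, h.one, h.fwd, h.bwd⟩
    · rintro ⟨⟨h1, h2⟩, h3, h4, h5, h6⟩
      exact ⟨h1, h2, h3, h4, h5, h6⟩
  rw [e]
  refine isCompact_Icc.inter_right ?_
  refine IsClosed.inter ?_ (IsClosed.inter ?_ (IsClosed.inter ?_ ?_))
  · exact isClosed_iInter fun v => isClosed_iInter fun _ =>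
      isClosed_eq (continuous_apply v) continuous_const
  · exact isClosed_eq (continuous_apply i) continuous_const
  · exact isClosed_biInter fun e _ => isClosed_le (by fun_prop) (by fun_prop)
  · exact isClosed_biInter fun e _ => isClosed_le (by fun_prop) (by fun_prop)

lemma exists_wt {F : Finset V} {I : Finset (V × V)} {U : V → ℝ} {c : V × V → ℝ} {i : V}
    (hi : i ∈ F) (hU : ∀ v ∈ F, 0 < U v) (hI : ∀ e ∈ I, e.1 ∈ F ∧ e.2 ∈ F)
    (hI' : ∀ e ∈ I, e.1 ≠ e.2) (hc : ∀ e ∈ I, 0 ≤ c e)
    (hc' : ∀ e ∈ I, c e ^ 2 ≤ U e.1 * U e.2) :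
    ∃ w, Wt F I U c i w ∧ ∀ k ∈ F, k ≠ i → w k ≠ 0 →
      (∃ e ∈ I, e.2 = k ∧ c e * w e.1 = U e.1 * w e.2) ∨
      (∃ e ∈ I, e.1 = k ∧ c e * w e.2 = U e.2 * w e.1) := by
  have hne : {w : V → ℝ | Wt F I U c i w}.Nonempty := by
    refine ⟨fun v => if v ∈ F then Real.sqrt (U v / U i) else 0, ?_⟩
    have aux : ∀ x y : V, x ∈ F → y ∈ F → ∀ r : ℝ, 0 ≤ r → r ^ 2 ≤ U x * U y →
        r * Real.sqrt (U x / U i) ≤ U x * Real.sqrt (U y / U i) := by
      intro x y hx hy r hr hr2
      have hx0 := hU x hx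
      have hy0 := hU y hy
      have hi0 := hU i hi
      refine le_of_sq_le_sq ?_ (by positivity)
      rw [mul_pow, mul_pow, Real.sq_sqrt (by positivity), Real.sq_sqrt (by positivity)]
      have e1 : r ^ 2 * (U x / U i) = r ^ 2 * U x / U i := by ring
      have e2 : U x ^ 2 * (U y / U i) = (U x * U y) * U x / U i := by ring
      rw [e1, e2]
      exact div_le_div_of_nonneg_right (mul_le_mul_of_nonneg_right hr2 hx0.le) hi0.le
    refine ⟨?_, ?_, ?_, ?_, ?_, ?_⟩
    · intro v; split_ifs
      · exact Real.sqrt_nonneg _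
      · exact le_rfl
    · intro v; split_ifs
      · exact le_rfl
      · exact Real.sqrt_nonneg _
    · intro v hv; simp [hv]
    · simp [hi, div_self (hU i hi).ne']
    · intro e he
      obtain ⟨h1, h2⟩ := hI e he
      simp only [h1, h2, if_true]
      exact aux _ _ h1 h2 _ (hc e he) (hc' e he)
    · intro e he
      obtain ⟨h1, h2⟩ := hI e he
      simp only [h1, h2, if_true]
      exact aux _ _ h2 h1 _ (hc e he) (by rw [mul_comm]; exact hc' e he)
  obtain ⟨w, hw, hmin⟩ := (isCompact_wt F I U c i).exists_isMinOn hne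
    (f := fun w => ∑ v, w v) (by fun_prop)
  refine ⟨w, hw, ?_⟩
  intro k hk hki hwk
  by_contra hcon
  push Not at hcon
  obtain ⟨hc1, hc2⟩ := hcon
  have hw : Wt F I U c i w := hw
  have hwk' : 0 < w k := lt_of_le_of_ne (hw.nonneg k) (Ne.symm hwk)
  have ev1 : ∀ᶠ δ : ℝ in 𝓝[>] 0, δ ≤ w k :=
    (tendsto_id.mono_left nhdsWithin_le_nhds).eventually_le_const hwk'
  have ev2 : ∀ᶠ δ : ℝ in 𝓝[>] 0, ∀ e ∈ I, e.2 = k → c e * w e.1 ≤ U e.1 * (w k - δ) := by
    rw [eventually_all_finset]
    intro e he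
    by_cases h : e.2 = k
    · have hlt : c e * w e.1 < U e.1 * w k := by
        rcases (hw.fwd e he).eq_or_lt with h' | h'
        · exact absurd h' (hc1 e he h)
        · rwa [h] at h'
      have ht : Tendsto (fun δ : ℝ => U e.1 * (w k - δ)) (𝓝[>] 0) (𝓝 (U e.1 * (w k - 0))) :=
        Tendsto.mono_left (Continuous.tendsto (by fun_prop) _) nhdsWithin_le_nhds
      rw [sub_zero] at ht
      filter_upwards [ht.eventually_const_le hlt] with δ hδ _
      exact hδ
    · exact Eventually.of_forall fun δ h' => absurd h' h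
  have ev3 : ∀ᶠ δ : ℝ in 𝓝[>] 0, ∀ e ∈ I, e.1 = k → c e * w e.2 ≤ U e.2 * (w k - δ) := by
    rw [eventually_all_finset]
    intro e he
    by_cases h : e.1 = k
    · have hlt : c e * w e.2 < U e.2 * w k := by
        rcases (hw.bwd e he).eq_or_lt with h' | h'
        · exact absurd h' (hc2 e he h)
        · rwa [h] at h'
      have ht : Tendsto (fun δ : ℝ => U e.2 * (w k - δ)) (𝓝[>] 0) (𝓝 (U e.2 * (w k - 0))) :=
        Tendsto.mono_left (Continuous.tendsto (by fun_prop) _) nhdsWithin_le_nhds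
      rw [sub_zero] at ht
      filter_upwards [ht.eventually_const_le hlt] with δ hδ _
      exact hδ
    · exact Eventually.of_forall fun δ h' => absurd h' h
  obtain ⟨δ, h1, h2, h3, hδ⟩ := (ev1.and (ev2.and (ev3.and self_mem_nhdsWithin))).exists
  have hδ : 0 < δ := hδ
  have hle : ∀ v, Function.update w k (w k - δ) v ≤ w v := by
    intro v
    by_cases hv : v = k
    · subst hv; simp [hδ.le]
    · rw [Function.update_of_ne hv]
  have hw' : Wt F I U c i (Function.update w k (w k - δ)) := by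
    refine ⟨?_, ?_, ?_, ?_, ?_, ?_⟩
    · intro v
      by_cases hv : v = k
      · subst hv; simp; exact h1
      · rw [Function.update_of_ne hv]; exact hw.nonneg v
    · intro v; exact (hle v).trans (hw.le v)
    · intro v hv
      have : v ≠ k := by rintro rfl; exact hv hk
      rw [Function.update_of_ne this]; exact hw.off v hv
    · rw [Function.update_of_ne (Ne.symm hki)]; exact hw.one
    · intro e he
      obtain ⟨m1, m2⟩ := hI e he
      have hU1 := (hU _ m1).le
      by_cases h : e.2 = k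
      · have h' : e.1 ≠ k := by rw [← h]; exact hI' e he
        rw [Function.update_of_ne h', h, Function.update_self]
        exact h2 e he h
      · rw [Function.update_of_ne h]
        exact (mul_le_mul_of_nonneg_left (hle _) (hc e he)).trans (hw.fwd e he)
    · intro e he
      obtain ⟨m1, m2⟩ := hI e he
      by_cases h : e.1 = k
      · have h' : e.2 ≠ k := by rw [← h]; exact (hI' e he).symm
        rw [Function.update_of_ne h', h, Function.update_self]
        exact h3 e he h
      · rw [Function.update_of_ne h]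
        exact (mul_le_mul_of_nonneg_left (hle _) (hc e he)).trans (hw.bwd e he)
  have hm := hmin (show Function.update w k (w k - δ) ∈ {w : V → ℝ | Wt F I U c i w} from hw')
  have hm : ∑ v, w v ≤ ∑ v, Function.update w k (w k - δ) v := hm
  have hlt : ∑ v, Function.update w k (w k - δ) v < ∑ v, w v := by
    refine sum_lt_sum (fun v _ => hle v) ⟨k, mem_univ k, ?_⟩
    simp [hδ]
  linarith

/-- The total of the second variations of the edges is at least the sum of the vertex terms. -/
lemma weights_sum {F : Finset V} {I : Finset (V × V)} {U : V → ℝ} {c T : V × V → ℝ} {i : V}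
    {w : V → ℝ} (hU : ∀ v ∈ F, 0 < U v) (hI : ∀ e ∈ I, e.1 ∈ F ∧ e.2 ∈ F)
    (hc : ∀ e ∈ I, 0 ≤ c e) (hT : ∀ e ∈ I, T e = U e.1 * U e.2 - c e ^ 2)
    (hT' : ∀ e ∈ I, 0 < T e) (hw : Wt F I U c i w)
    (hp : ∀ k ∈ F, k ≠ i → w k ≠ 0 →
      (∃ e ∈ I, e.2 = k ∧ c e * w e.1 = U e.1 * w e.2) ∨
      (∃ e ∈ I, e.1 = k ∧ c e * w e.2 = U e.2 * w e.1)) :
    ∑ v ∈ univ.erase i, w v ^ 2 / U v ≤
      ∑ e ∈ I, c e / T e * (w e.1 * (w e.2 - c e / U e.1 * w e.1) +
        w e.2 * (w e.1 - c e / U e.2 * w e.2)) := by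
  set g1 : V × V → ℝ := fun e => c e / T e * (w e.1 * (w e.2 - c e / U e.1 * w e.1)) with hg1
  set g2 : V × V → ℝ := fun e => c e / T e * (w e.2 * (w e.1 - c e / U e.2 * w e.2)) with hg2
  have g1nn : ∀ e ∈ I, 0 ≤ g1 e := by
    intro e he
    have hu := hU _ (hI e he).1
    have : 0 ≤ w e.2 - c e / U e.1 * w e.1 := by
      have := hw.fwd e he
      rw [div_mul_eq_mul_div, sub_nonneg, div_le_iff₀ hu]; linarith
    exact mul_nonneg (div_nonneg (hc e he) (hT' e he).le) (mul_nonneg (hw.nonneg _) this)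
  have g2nn : ∀ e ∈ I, 0 ≤ g2 e := by
    intro e he
    have hu := hU _ (hI e he).2
    have : 0 ≤ w e.1 - c e / U e.2 * w e.2 := by
      have := hw.bwd e he
      rw [div_mul_eq_mul_div, sub_nonneg, div_le_iff₀ hu]; linarith
    exact mul_nonneg (div_nonneg (hc e he) (hT' e he).le) (mul_nonneg (hw.nonneg _) this)
  have e1 : ∑ e ∈ I, c e / T e * (w e.1 * (w e.2 - c e / U e.1 * w e.1) +
        w e.2 * (w e.1 - c e / U e.2 * w e.2)) =
      ∑ v, (∑ e ∈ I with e.1 = v, g1 e + ∑ e ∈ I with e.2 = v, g2 e) := by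
    rw [sum_add_distrib, sum_fiberwise, sum_fiberwise, ← sum_add_distrib]
    exact sum_congr rfl fun e _ => by rw [hg1, hg2]; ring
  rw [e1]
  have s1 : ∀ v, 0 ≤ ∑ e ∈ I with e.1 = v, g1 e :=
    fun v => sum_nonneg fun e he => g1nn e (mem_filter.mp he).1
  have s2 : ∀ v, 0 ≤ ∑ e ∈ I with e.2 = v, g2 e :=
    fun v => sum_nonneg fun e he => g2nn e (mem_filter.mp he).1
  refine le_trans ?_ (sum_le_sum_of_subset_of_nonneg (subset_univ (univ.erase i))
    (fun v _ _ => add_nonneg (s1 v) (s2 v)))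
  refine sum_le_sum fun v hv => ?_
  have hvi : v ≠ i := (mem_erase.mp hv).1
  by_cases hwv : w v = 0
  · rw [hwv]; simp; exact add_nonneg (s1 v) (s2 v)
  have hvF : v ∈ F := by
    by_contra h; exact hwv (hw.off v h)
  have hwv' : 0 < w v := lt_of_le_of_ne (hw.nonneg v) (Ne.symm hwv)
  rcases hp v hvF hvi hwv with ⟨e, he, hev, ht⟩ | ⟨e, he, hev, ht⟩
  · have hmem : e ∈ I.filter (fun e => e.2 = v) := mem_filter.mpr ⟨he, hev⟩
    have := single_le_sum (f := g2) (fun e he => g2nn e (mem_filter.mp he).1) hmem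
    have hval : g2 e = w v ^ 2 / U v := by
      have hu1 := hU _ (hI e he).1
      have hu2 := hU _ (hI e he).2
      rw [hev] at ht hu2
      have hce : 0 < c e := by
        rcases (hc e he).eq_or_lt with h | h
        · rw [← h, zero_mul] at ht
          have := mul_pos hu1 hwv'; linarith
        · exact h
      have hTe := hT' e he
      have hw1 : w e.1 = U e.1 * w v / c e := by
        rw [eq_div_iff hce.ne']; linarith
      rw [hg2]
      simp only
      rw [hev, hw1]
      have h3 := hT e he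
      rw [hev] at h3
      have h4 : U e.1 * w v / c e - c e / U v * w v = w v * T e / (c e * U v) := by
        rw [h3]; field_simp
      rw [h4]
      field_simp
    rw [← hval]
    linarith [s1 v]
  · have hmem : e ∈ I.filter (fun e => e.1 = v) := mem_filter.mpr ⟨he, hev⟩
    have := single_le_sum (f := g1) (fun e he => g1nn e (mem_filter.mp he).1) hmem
    have hval : g1 e = w v ^ 2 / U v := by
      have hu1 := hU _ (hI e he).1
      have hu2 := hU _ (hI e he).2
      rw [hev] at ht hu1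
      have hce : 0 < c e := by
        rcases (hc e he).eq_or_lt with h | h
        · rw [← h, zero_mul] at ht
          have := mul_pos hu2 hwv'; linarith
        · exact h
      have hTe := hT' e he
      have hw1 : w e.2 = U e.2 * w v / c e := by
        rw [eq_div_iff hce.ne']; linarith
      rw [hg1]
      simp only
      rw [hev, hw1]
      have h3 := hT e he
      rw [hev] at h3
      have h4 : U e.2 * w v / c e - c e / U v * w v = w v * T e / (c e * U v) := by
        rw [h3]; field_simp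
      rw [h4]
      field_simp
    rw [← hval]
    linarith [s2 v]

end Pool.Agent.Lib.MP_a763a9_pr.H59
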