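import Pool.Agent.Lib.MP_a763a9_pr.H59.Second
import Pool.Agent.Lib.MP_a763a9_pr.H59.Weights

/-!
Every locally consistent point of the Bethe functional is at most `log Z`.
-/

set_option autoImplicit false
set_option linter.unusedSectionVars false
set_option linter.unusedVariables false

namespace Pool.Agent.Lib.MP_a763a9_pr.H59

open Finset Filter Topology

variable {V : Type} [Fintype V] [DecidableEq V]
variable {φ : V → Bool → ℝ} {E : Finset (V × V)} {β : ℝ}

/-- Locally consistent marginals. -/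
structure Loc (φ : V → Bool → ℝ) (E : Finset (V × V)) (q : V → ℝ) (ξ : V × V → ℝ) : Prop where
  q0 : ∀ v, 0 ≤ q v
  q1 : ∀ v, q v ≤ 1
  x0 : ∀ e, 0 ≤ ξ e
  x1 : ∀ e, ξ e ≤ 1
  cf : ∀ v, φ v false = 0 → q v = 1
  ct : ∀ v, φ v true = 0 → q v = 0
  tab : ∀ e ∈ E, Tab (q e.1) (q e.2) (ξ e)

lemma Tab.x1 {a b x : ℝ} (h : Tab a b x) : x ≤ 1 := by have := h.a1; have := h.h10; linarith

lemma not_free_cases (h : Adm φ) {v : V} (hv : ¬ Free φ v) : φ v false = 0 ∨ φ v true = 0 := by
  by_contra hc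
  push Not at hc
  exact hv ⟨lt_of_le_of_ne (h.nonneg v true) (Ne.symm hc.2),
    lt_of_le_of_ne (h.nonneg v false) (Ne.symm hc.1)⟩

lemma Loc.degen (h : Adm φ) {q : V → ℝ} {ξ : V × V → ℝ} (hq : Loc φ E q ξ) {v : V}
    (hv : ¬ Free φ v) : q v = 0 ∨ q v = 1 := by
  rcases not_free_cases h hv with h' | h'
  · exact Or.inr (hq.cf v h')
  · exact Or.inl (hq.ct v h')

lemma isCompact_loc (φ : V → Bool → ℝ) (E : Finset (V × V)) :
    IsCompact {p : (V → ℝ) × (V × V → ℝ) | Loc φ E p.1 p.2} := by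
  have e : {p : (V → ℝ) × (V × V → ℝ) | Loc φ E p.1 p.2} =
      (Set.Icc (fun _ => (0 : ℝ)) (fun _ => 1) ×ˢ Set.Icc (fun _ => (0 : ℝ)) (fun _ => 1)) ∩
      ((⋂ v, ⋂ (_ : φ v false = 0), {p : (V → ℝ) × (V × V → ℝ) | p.1 v = 1}) ∩
      ((⋂ v, ⋂ (_ : φ v true = 0), {p : (V → ℝ) × (V × V → ℝ) | p.1 v = 0}) ∩
      ((⋂ e ∈ E, {p : (V → ℝ) × (V × V → ℝ) | 0 ≤ p.2 e}) ∩
      ((⋂ e ∈ E, {p : (V → ℝ) × (V × V → ℝ) | 0 ≤ p.1 e.1 - p.2 e}) ∩
      ((⋂ e ∈ E, {p : (V → ℝ) × (V × V → ℝ) | 0 ≤ p.1 e.2 - p.2 e}) ∩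
      (⋂ e ∈ E, {p : (V → ℝ) × (V × V → ℝ) | 0 ≤ 1 - p.1 e.1 - p.1 e.2 + p.2 e})))))) := by
    ext p
    simp only [Set.mem_ofPred_eq, Set.mem_inter_iff, Set.mem_iInter, Set.mem_Icc, Set.mem_prod]
    constructor
    · intro h
      exact ⟨⟨⟨fun v => h.q0 v, fun v => h.q1 v⟩, ⟨fun v => h.x0 v, fun v => h.x1 v⟩⟩, h.cf, h.ct,
        fun e he => (h.tab e he).h11, fun e he => (h.tab e he).h10, fun e he => (h.tab e he).h01,
        fun e he => (h.tab e he).h00⟩
    · rintro ⟨⟨⟨h1, h2⟩, ⟨h3, h4⟩⟩, h5, h6, h7, h8, h9, h10⟩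
      exact ⟨h1, h2, h3, h4, h5, h6, fun e he => ⟨h7 e he, h8 e he, h9 e he, h10 e he⟩⟩
  rw [e]
  refine (isCompact_Icc.prod isCompact_Icc).inter_right ?_
  refine IsClosed.inter ?_ (IsClosed.inter ?_ (IsClosed.inter ?_ (IsClosed.inter ?_
    (IsClosed.inter ?_ ?_))))
  · exact isClosed_iInter fun v => isClosed_iInter fun _ => isClosed_eq (by fun_prop) (by fun_prop)
  · exact isClosed_iInter fun v => isClosed_iInter fun _ => isClosed_eq (by fun_prop) (by fun_prop)
  · exact isClosed_biInter fun e _ => isClosed_le (by fun_prop) (by fun_prop)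
  · exact isClosed_biInter fun e _ => isClosed_le (by fun_prop) (by fun_prop)
  · exact isClosed_biInter fun e _ => isClosed_le (by fun_prop) (by fun_prop)
  · exact isClosed_biInter fun e _ => isClosed_le (by fun_prop) (by fun_prop)

lemma continuous_S1 : Continuous S1 := by
  unfold S1
  exact Real.continuous_negMulLog.add (Real.continuous_negMulLog.comp (by fun_prop))

lemma continuous_FB (φ : V → Bool → ℝ) (E : Finset (V × V)) (β : ℝ) :
    Continuous (fun p : (V → ℝ) × (V × V → ℝ) => FB φ E β p.1 p.2) := by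
  unfold FB
  refine Continuous.add ?_ ?_
  · refine continuous_finsetSum _ fun v _ => ?_
    unfold Fv
    have := continuous_S1.comp (show Continuous
      (fun p : (V → ℝ) × (V × V → ℝ) => p.1 v) by fun_prop)
    simp only [Function.comp_def] at this
    fun_prop
  · refine continuous_finsetSum _ fun e _ => ?_
    unfold Ke S2
    have h1 := continuous_S1.comp (show Continuous
      (fun p : (V → ℝ) × (V × V → ℝ) => p.1 e.1) by fun_prop)
    have h2 := continuous_S1.comp (show Continuous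
      (fun p : (V → ℝ) × (V × V → ℝ) => p.1 e.2) by fun_prop)
    simp only [Function.comp_def] at h1 h2
    have h3 := Real.continuous_negMulLog.comp (show Continuous
      (fun p : (V → ℝ) × (V × V → ℝ) => p.2 e) by fun_prop)
    have h4 := Real.continuous_negMulLog.comp (show Continuous
      (fun p : (V → ℝ) × (V × V → ℝ) => p.1 e.1 - p.2 e) by fun_prop)
    have h5 := Real.continuous_negMulLog.comp (show Continuous
      (fun p : (V → ℝ) × (V × V → ℝ) => p.1 e.2 - p.2 e) by fun_prop)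
    have h6 := Real.continuous_negMulLog.comp (show Continuous
      (fun p : (V → ℝ) × (V × V → ℝ) => 1 - p.1 e.1 - p.1 e.2 + p.2 e) by fun_prop)
    simp only [Function.comp_def] at h3 h4 h5 h6
    have h7 : Continuous (fun p : (V → ℝ) × (V × V → ℝ) =>
      β * (1 - 2 * p.1 e.1 - 2 * p.1 e.2 + 4 * p.2 e)) := by fun_prop
    exact ((h7.add (((h3.add h4).add h5).add h6)).sub h1).sub h2

lemma S1_gt (A : ℝ) : ∃ t, 0 < t ∧ t < 1 ∧ A * t < S1 t := by
  refine ⟨Real.exp (-(|A| + 1)), Real.exp_pos _, ?_, ?_⟩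
  · exact Real.exp_lt_one_iff.mpr (by have := abs_nonneg A; linarith)
  · set t := Real.exp (-(|A| + 1)) with ht
    have ht0 : 0 < t := Real.exp_pos _
    have ht1 : t ≤ 1 := Real.exp_le_one_iff.mpr (by have := abs_nonneg A; linarith)
    have h1 : 0 ≤ Real.negMulLog (1 - t) := Real.negMulLog_nonneg (by linarith) (by linarith)
    have h2 : Real.negMulLog t = t * (|A| + 1) := by
      unfold Real.negMulLog
      rw [ht, Real.log_exp]; ring
    unfold S1
    rw [h2]
    have := le_abs_self A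
    nlinarith

lemma S1_one_sub (t : ℝ) : S1 (1 - t) = S1 t := by
  unfold S1
  rw [sub_sub_cancel]; ring

/-- Perturbing a degenerate vertex. -/
lemma FB_perturb (hβ : 0 ≤ β) (hE : ∀ e ∈ E, e.1 ≠ e.2) {q : V → ℝ} {ξ : V × V → ℝ}
    (hq : Loc φ E q ξ) {v : V} (hv : q v = 0 ∨ q v = 1) (hf : Free φ v) {u : ℝ} (hu : 0 ≤ u)
    (hu1 : u ≤ 1) : ∃ ξ', Loc φ E (Function.update q v u) ξ' ∧
      FB φ E β q ξ + S1 u - (|Real.log (φ v true)| + |Real.log (φ v false)| +
        E.card * (2 * β)) * |u - q v| ≤ FB φ E β (Function.update q v u) ξ' := by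
  set q' := Function.update q v u with hq'
  have hq'v : q' v = u := by rw [hq']; simp
  have hq'n : ∀ x, x ≠ v → q' x = q x := fun x hx => by rw [hq', Function.update_of_ne hx]
  have q'0 : ∀ x, 0 ≤ q' x := by
    intro x
    by_cases hx : x = v
    · rw [hx, hq'v]; exact hu
    · rw [hq'n x hx]; exact hq.q0 x
  have q'1 : ∀ x, q' x ≤ 1 := by
    intro x
    by_cases hx : x = v
    · rw [hx, hq'v]; exact hu1
    · rw [hq'n x hx]; exact hq.q1 x
  set ξ' : V × V → ℝ := fun e => if e.1 = v ∨ e.2 = v then q' e.1 * q' e.2 else ξ e with hξ'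
  have hS : S1 (q v) = 0 := by rcases hv with h | h <;> rw [h] <;> simp [S1_zero, S1_one]
  refine ⟨ξ', ⟨q'0, q'1, ?_, ?_, ?_, ?_, ?_⟩, ?_⟩
  · intro e; rw [hξ']; simp only; split_ifs
    · exact mul_nonneg (q'0 _) (q'0 _)
    · exact hq.x0 e
  · intro e; rw [hξ']; simp only; split_ifs
    · exact mul_le_one₀ (q'1 _) (q'0 _) (q'1 _)
    · exact hq.x1 e
  · intro x hx
    have : x ≠ v := by rintro rfl; have := hf.2; linarith
    rw [hq'n x this]; exact hq.cf x hx
  · intro x hx
    have : x ≠ v := by rintro rfl; have := hf.1; linarith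
    rw [hq'n x this]; exact hq.ct x hx
  · intro e he
    rw [hξ']; simp only
    by_cases hc : e.1 = v ∨ e.2 = v
    · rw [if_pos hc]
      exact tab_prod (q'0 _) (q'1 _) (q'0 _) (q'1 _)
    · rw [if_neg hc]
      push Not at hc
      rw [hq'n _ hc.1, hq'n _ hc.2]
      exact hq.tab e he
  · unfold FB
    have h1 : ∑ x, Fv φ x (q' x) - ∑ x, Fv φ x (q x) = Fv φ v u - Fv φ v (q v) := by
      rw [← sum_sub_distrib]
      have : ∑ x, (Fv φ x (q' x) - Fv φ x (q x)) = Fv φ v (q' v) - Fv φ v (q v) := by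
        refine sum_eq_single v (fun x _ hx => ?_) (fun h => absurd (mem_univ _) h)
        rw [hq'n x hx, sub_self]
      rw [this, hq'v]
    have h2 : Fv φ v u - Fv φ v (q v) ≥ S1 u -
        (|Real.log (φ v true)| + |Real.log (φ v false)|) * |u - q v| := by
      unfold Fv
      rw [hS]
      have a1 : -(|Real.log (φ v true)| * |u - q v|) ≤ (u - q v) * Real.log (φ v true) := by
        rw [← abs_mul, mul_comm]; exact neg_abs_le _
      have a2 : -(|Real.log (φ v false)| * |u - q v|) ≤ -((u - q v) * Real.log (φ v false)) := by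
        rw [← abs_mul, mul_comm]
        have := le_abs_self ((u - q v) * Real.log (φ v false))
        linarith
      linarith
    have h3 : ∑ e ∈ E, (Ke β (q e.1) (q e.2) (ξ e) - 2 * β * |u - q v|) ≤
        ∑ e ∈ E, Ke β (q' e.1) (q' e.2) (ξ' e) := by
      refine sum_le_sum fun e he => ?_
      have hab : ∀ y : ℝ, 0 ≤ y → y ≤ 1 → (u - q v) * (1 - 2 * y) ≤ |u - q v| := by
        intro y hy hy1
        refine (le_abs_self _).trans ?_
        rw [abs_mul]
        refine mul_le_of_le_one_right (abs_nonneg _) ?_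
        rw [abs_le]; constructor <;> linarith
      have hT := hq.tab e he
      by_cases hc1 : e.1 = v
      · have hc2 : e.2 ≠ v := by rw [← hc1]; exact (hE e he).symm
        have e1 : ξ' e = q' e.1 * q' e.2 := by rw [hξ']; simp [hc1]
        have e2 : ξ e = q e.1 * q e.2 := tab_degen_left hT (by rw [hc1]; exact hv)
        rw [e1, e2, Ke_prod, Ke_prod, hq'n _ hc2, hc1, hq'v]
        have := mul_le_mul_of_nonneg_left (hab _ (hq.q0 e.2) (hq.q1 e.2)) hβ
        linarith
      · by_cases hc2 : e.2 = v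
        · have e1 : ξ' e = q' e.1 * q' e.2 := by rw [hξ']; simp [hc2]
          have e2 : ξ e = q e.1 * q e.2 := tab_degen_right hT (by rw [hc2]; exact hv)
          rw [e1, e2, Ke_prod, Ke_prod, hq'n _ hc1, hc2, hq'v]
          have := mul_le_mul_of_nonneg_left (hab _ (hq.q0 e.1) (hq.q1 e.1)) hβ
          linarith
        · have e1 : ξ' e = ξ e := by rw [hξ']; simp [hc1, hc2]
          rw [e1, hq'n _ hc1, hq'n _ hc2]
          have : 0 ≤ 2 * β * |u - q v| := by positivity
          linarith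
    rw [sum_sub_distrib, sum_const, nsmul_eq_mul] at h3
    linarith

/-- Improving one table. -/
lemma FB_update (hβ : 0 ≤ β) {q : V → ℝ} {ξ : V × V → ℝ} (hq : Loc φ E q ξ) {e : V × V}
    (he : e ∈ E) {x : ℝ} (hx : Opt β (q e.1) (q e.2) x) (hne : ξ e ≠ x) :
    Loc φ E q (Function.update ξ e x) ∧ FB φ E β q ξ < FB φ E β q (Function.update ξ e x) := by
  constructor
  · refine ⟨hq.q0, hq.q1, ?_, ?_, hq.cf, hq.ct, ?_⟩
    · intro f
      by_cases hf : f = e
      · rw [hf, Function.update_self]; exact hx.p11.le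
      · rw [Function.update_of_ne hf]; exact hq.x0 f
    · intro f
      by_cases hf : f = e
      · rw [hf, Function.update_self]; exact hx.tab.x1
      · rw [Function.update_of_ne hf]; exact hq.x1 f
    · intro f hf'
      by_cases hf : f = e
      · rw [hf, Function.update_self]; exact hx.tab
      · rw [Function.update_of_ne hf]; exact hq.tab f hf'
  · unfold FB
    have : ∑ f ∈ E, Ke β (q f.1) (q f.2) (ξ f) <
        ∑ f ∈ E, Ke β (q f.1) (q f.2) (Function.update ξ e x f) := by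
      refine sum_lt_sum (fun f hf' => ?_) ⟨e, he, ?_⟩
      · by_cases hf : f = e
        · subst hf
          rw [Function.update_self]
          exact (hx.lt (hq.tab _ he) hne).le
        · rw [Function.update_of_ne hf]
      · rw [Function.update_self]
        exact hx.lt (hq.tab e he) hne
    linarith

/-- The main step: at a maximum of the perturbed functional there is a direction of
positive second variation. -/
theorem no_interior_max (h : Adm φ) (hβ : 0 ≤ β) (hE : ∀ e ∈ E, e.1 ≠ e.2) {i : V}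
    (hi : Free φ i) {q : V → ℝ} {ξ : V × V → ℝ} (hq : Loc φ E q ξ)
    (hin : ∀ v, Free φ v → 0 < q v ∧ q v < 1)
    (hopt : ∀ e ∈ E, Free φ e.1 → Free φ e.2 → Opt β (q e.1) (q e.2) (ξ e))
    {M1 M0 κ : ℝ} (hκ : 0 < κ)
    (hmax : ∀ q' ξ', Loc φ E q' ξ' →
      FB φ E β q' ξ' - S1 (q' i) - (q' i * M1 + (1 - q' i) * M0) + κ * (q' i * (q' i - 1)) ≤
      FB φ E β q ξ - S1 (q i) - (q i * M1 + (1 - q i) * M0) + κ * (q i * (q i - 1))) :
    False := by
  classical
  set F := univ.filter (fun v => Free φ v) with hF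
  set I := E.filter (fun e => Free φ e.1 ∧ Free φ e.2) with hI
  set U : V → ℝ := fun v => q v * (1 - q v) with hU
  set c : V × V → ℝ := fun e => ξ e - q e.1 * q e.2 with hc
  set T : V × V → ℝ := fun e => U e.1 * U e.2 - c e ^ 2 with hT
  have hIo : ∀ e ∈ I, Opt β (q e.1) (q e.2) (ξ e) := fun e he => by
    obtain ⟨h1, h2, h3⟩ := mem_filter.mp he
    exact hopt e h1 h2 h3
  have hTp : ∀ e ∈ I, 0 < T e := fun e he => (hIo e he).T_pos
  have hUp : ∀ v ∈ F, 0 < U v := fun v hv => by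
    obtain ⟨h1, h2⟩ := hin v (mem_filter.mp hv).2
    exact mul_pos h1 (by linarith)
  obtain ⟨w, hw, hp⟩ := exists_wt (F := F) (I := I) (U := U) (c := c) (i := i)
    (mem_filter.mpr ⟨mem_univ _, hi⟩) hUp
    (fun e he => by
      obtain ⟨h1, h2, h3⟩ := mem_filter.mp he
      exact ⟨mem_filter.mpr ⟨mem_univ _, h2⟩, mem_filter.mpr ⟨mem_univ _, h3⟩⟩)
    (fun e he => hE e (mem_filter.mp he).1) (fun e he => (hIo e he).cov)
    (fun e he => by have := hTp e he; simp only [hT] at this; linarith)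
  have hwoff : ∀ v, ¬ Free φ v → w v = 0 := fun v hv => hw.off v (by
    intro hv'; exact hv (mem_filter.mp hv').2)
  set d : V × V → ℝ := fun e => if e ∈ E then
    (if Free φ e.1 ∧ Free φ e.2 then dd (q e.1) (q e.2) (ξ e) (w e.1) (w e.2)
      else w e.1 * q e.2 + q e.1 * w e.2) else 0 with hd
  set qt : ℝ → V → ℝ := fun t v => q v + t * w v with hqt
  set ξt : ℝ → V × V → ℝ := fun t e => ξ e + t * d e with hξt
  -- the product form of the tables at clamped vertices
  have hprod : ∀ e ∈ E, ¬ (Free φ e.1 ∧ Free φ e.2) → ∀ t, ξt t e = qt t e.1 * qt t e.2 := by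
    intro e he hne t
    have hde : d e = w e.1 * q e.2 + q e.1 * w e.2 := by simp [hd, he, hne]
    have hx : ξ e = q e.1 * q e.2 := by
      by_cases h1 : Free φ e.1
      · have h2 : ¬ Free φ e.2 := fun h2 => hne ⟨h1, h2⟩
        exact tab_degen_right (hq.tab e he) (hq.degen h h2)
      · exact tab_degen_left (hq.tab e he) (hq.degen h h1)
    have hww : w e.1 * w e.2 = 0 := by
      by_cases h1 : Free φ e.1
      · have h2 : ¬ Free φ e.2 := fun h2 => hne ⟨h1, h2⟩
        rw [hwoff _ h2, mul_zero]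
      · rw [hwoff _ h1, zero_mul]
    simp only [hξt, hqt]
    rw [hde, hx]
    linear_combination (-(t ^ 2)) * hww
  -- feasibility
  have hq01 : ∀ v, ∀ᶠ t : ℝ in 𝓝 0, 0 ≤ qt t v ∧ qt t v ≤ 1 := by
    intro v
    by_cases hv : Free φ v
    · obtain ⟨h1, h2⟩ := hin v hv
      have ht : Tendsto (fun t : ℝ => qt t v) (𝓝 0) (𝓝 (q v + 0 * w v)) := by
        simp only [hqt]; apply Continuous.tendsto; fun_prop
      rw [zero_mul, add_zero] at ht
      filter_upwards [ht.eventually_const_le h1, ht.eventually_le_const h2] with t a b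
      exact ⟨a, b⟩
    · refine Eventually.of_forall fun t => ?_
      simp only [hqt]
      rw [hwoff v hv, mul_zero, add_zero]
      exact ⟨hq.q0 v, hq.q1 v⟩
  have hfeas : ∀ᶠ t : ℝ in 𝓝 0, Loc φ E (qt t) (ξt t) := by
    have h01 : ∀ᶠ t : ℝ in 𝓝 0, ∀ v, 0 ≤ qt t v ∧ qt t v ≤ 1 := eventually_all.mpr hq01
    have htab : ∀ᶠ t : ℝ in 𝓝 0, ∀ e ∈ I, Tab (qt t e.1) (qt t e.2) (ξt t e) := by
      rw [eventually_all_finset]
      intro e he
      have ho := hIo e he
      have t1 : Tendsto (fun t : ℝ => ξt t e) (𝓝 0) (𝓝 (ξ e + 0 * d e)) := by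
        simp only [hξt]; apply Continuous.tendsto; fun_prop
      have t2 : Tendsto (fun t : ℝ => qt t e.1 - ξt t e) (𝓝 0)
          (𝓝 (q e.1 + 0 * w e.1 - (ξ e + 0 * d e))) := by
        simp only [hξt, hqt]; apply Continuous.tendsto; fun_prop
      have t3 : Tendsto (fun t : ℝ => qt t e.2 - ξt t e) (𝓝 0)
          (𝓝 (q e.2 + 0 * w e.2 - (ξ e + 0 * d e))) := by
        simp only [hξt, hqt]; apply Continuous.tendsto; fun_prop
      have t4 : Tendsto (fun t : ℝ => 1 - qt t e.1 - qt t e.2 + ξt t e) (𝓝 0)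
          (𝓝 (1 - (q e.1 + 0 * w e.1) - (q e.2 + 0 * w e.2) + (ξ e + 0 * d e))) := by
        simp only [hξt, hqt]; apply Continuous.tendsto; fun_prop
      simp only [zero_mul, add_zero] at t1 t2 t3 t4
      filter_upwards [t1.eventually_const_le ho.p11, t2.eventually_const_le ho.p10,
        t3.eventually_const_le ho.p01, t4.eventually_const_le ho.p00] with t a b c d
      exact ⟨a, b, c, d⟩
    filter_upwards [h01, htab] with t h1 h2
    have tabs : ∀ e ∈ E, Tab (qt t e.1) (qt t e.2) (ξt t e) := by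
      intro e he
      by_cases hc : Free φ e.1 ∧ Free φ e.2
      · exact h2 e (mem_filter.mpr ⟨he, hc⟩)
      · rw [hprod e he hc t]
        exact tab_prod (h1 _).1 (h1 _).2 (h1 _).1 (h1 _).2
    refine ⟨fun v => (h1 v).1, fun v => (h1 v).2, ?_, ?_, ?_, ?_, tabs⟩
    · intro e
      by_cases he : e ∈ E
      · exact (tabs e he).h11
      · have : d e = 0 := by simp [hd, he]
        simp only [hξt]; rw [this, mul_zero, add_zero]; exact hq.x0 e
    · intro e
      by_cases he : e ∈ E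
      · exact (tabs e he).x1
      · have : d e = 0 := by simp [hd, he]
        simp only [hξt]; rw [this, mul_zero, add_zero]; exact hq.x1 e
    · intro v hv
      have : ¬ Free φ v := fun hf => by have := hf.2; linarith
      simp only [hqt]; rw [hwoff v this, mul_zero, add_zero]; exact hq.cf v hv
    · intro v hv
      have : ¬ Free φ v := fun hf => by have := hf.1; linarith
      simp only [hqt]; rw [hwoff v this, mul_zero, add_zero]; exact hq.ct v hv
  -- second variations
  have sV : ∀ v ∈ (univ : Finset V), Sec (fun t => Fv φ v (qt t v)) (-(w v ^ 2 / U v)) := by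
    intro v _
    by_cases hv : Free φ v
    · obtain ⟨h1, h2⟩ := hin v hv
      have s1 := Sec.S1 (w v) h1 h2
      have s2 := Sec.affine (q v * Real.log (φ v true) + (1 - q v) * Real.log (φ v false))
        (w v * Real.log (φ v true) - w v * Real.log (φ v false))
      refine (s2.add s1).congr (fun t => ?_) ?_
      · simp only [hqt]; unfold Fv; ring
      · simp only [hU]; ring
    · have s2 := Sec.affine (Fv φ v (q v)) 0
      refine s2.congr (fun t => ?_) ?_
      · simp only [hqt]; rw [hwoff v hv]; simp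
      · rw [hwoff v hv]; simp
  have sE : ∀ e ∈ E, Sec (fun t => Ke β (qt t e.1) (qt t e.2) (ξt t e))
      (if Free φ e.1 ∧ Free φ e.2 then De (q e.1) (q e.2) (ξ e) (w e.1) (w e.2) else 0) := by
    intro e he
    by_cases hc : Free φ e.1 ∧ Free φ e.2
    · rw [if_pos hc]
      obtain ⟨a1, a2⟩ := hin _ hc.1
      obtain ⟨b1, b2⟩ := hin _ hc.2
      have := Sec.Ke (hopt e he hc.1 hc.2) a1 a2 b1 b2 (w e.1) (w e.2)
      refine this.congr (fun t => ?_) rfl
      have hde : d e = dd (q e.1) (q e.2) (ξ e) (w e.1) (w e.2) := by simp [hd, he, hc]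
      simp only [hqt, hξt]; rw [hde]
    · rw [if_neg hc]
      have hww : w e.1 * w e.2 = 0 := by
        by_cases h1 : Free φ e.1
        · have h2 : ¬ Free φ e.2 := fun h2 => hc ⟨h1, h2⟩
          rw [hwoff _ h2, mul_zero]
        · rw [hwoff _ h1, zero_mul]
      have s := Sec.affine (β * ((1 - 2 * q e.1) * (1 - 2 * q e.2)))
        (-2 * β * (w e.1 * (1 - 2 * q e.2) + w e.2 * (1 - 2 * q e.1)))
      refine s.congr (fun t => ?_) rfl
      rw [hprod e he hc t, Ke_prod]
      simp only [hqt]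
      linear_combination (4 * β * t ^ 2) * hww
  have sS : Sec (fun t => S1 (qt t i)) (-(1 / U i)) := by
    obtain ⟨h1, h2⟩ := hin i hi
    refine (Sec.S1 (w i) h1 h2).congr (fun t => rfl) ?_
    rw [hw.one]; simp [hU]
  have sL : Sec (fun t => (qt t i * M1 + (1 - qt t i) * M0)) 0 := by
    refine (Sec.affine (q i * M1 + (1 - q i) * M0) (w i * M1 - w i * M0)).congr (fun t => ?_) rfl
    simp only [hqt]; ring
  have sK : Sec (fun t => κ * (qt t i * (qt t i - 1))) (2 * κ) := by
    refine ((Sec.affine (κ * (q i * (q i - 1))) (κ * (2 * q i - 1))).add (Sec.sq κ)).congr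
      (fun t => ?_) (by ring)
    simp only [hqt]; rw [hw.one]; ring
  have sAll := (((((Sec.sum univ sV).add (Sec.sum E sE)).sub sS).sub sL).add sK)
  -- the total is positive
  have hsum : ∑ e ∈ E, (if Free φ e.1 ∧ Free φ e.2 then
      De (q e.1) (q e.2) (ξ e) (w e.1) (w e.2) else 0) =
      ∑ e ∈ I, c e / T e * (w e.1 * (w e.2 - c e / U e.1 * w e.1) +
        w e.2 * (w e.1 - c e / U e.2 * w e.2)) := by
    rw [hI, sum_filter]
    refine sum_congr rfl fun e _ => ?_
    split_ifs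
    · rfl
    · rfl
  have hws := weights_sum (F := F) (I := I) (U := U) (c := c) (T := T) (i := i) hUp
    (fun e he => by
      obtain ⟨h1, h2, h3⟩ := mem_filter.mp he
      exact ⟨mem_filter.mpr ⟨mem_univ _, h2⟩, mem_filter.mpr ⟨mem_univ _, h3⟩⟩)
    (fun e he => (hIo e he).cov) (fun e _ => rfl) hTp hw hp
  have hvs : ∑ v, -(w v ^ 2 / U v) = -(∑ v ∈ univ.erase i, w v ^ 2 / U v) - 1 / U i := by
    rw [sum_neg_distrib, ← add_sum_erase univ _ (mem_univ i), hw.one]; ring
  have hpos : 0 < ∑ v, -(w v ^ 2 / U v) + ∑ e ∈ E, (if Free φ e.1 ∧ Free φ e.2 then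
      De (q e.1) (q e.2) (ξ e) (w e.1) (w e.2) else 0) - -(1 / U i) - 0 + 2 * κ := by
    rw [hsum, hvs]; linarith
  -- contradiction with the maximum
  have hle : ∀ᶠ t : ℝ in 𝓝[>] 0, ((∑ v, Fv φ v (qt t v) + ∑ e ∈ E, Ke β (qt t e.1) (qt t e.2)
      (ξt t e) - S1 (qt t i) - (qt t i * M1 + (1 - qt t i) * M0) + κ * (qt t i * (qt t i - 1))) +
      (∑ v, Fv φ v (qt (-t) v) + ∑ e ∈ E, Ke β (qt (-t) e.1) (qt (-t) e.2)
      (ξt (-t) e) - S1 (qt (-t) i) - (qt (-t) i * M1 + (1 - qt (-t) i) * M0) +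
      κ * (qt (-t) i * (qt (-t) i - 1))) -
      2 * (∑ v, Fv φ v (qt 0 v) + ∑ e ∈ E, Ke β (qt 0 e.1) (qt 0 e.2)
      (ξt 0 e) - S1 (qt 0 i) - (qt 0 i * M1 + (1 - qt 0 i) * M0) +
      κ * (qt 0 i * (qt 0 i - 1)))) / t ^ 2 ≤ 0 := by
    have hneg : Tendsto (fun t : ℝ => -t) (𝓝 0) (𝓝 0) := by
      have := (continuous_neg (G := ℝ)).tendsto 0
      rwa [neg_zero] at this
    filter_upwards [hfeas.filter_mono nhdsWithin_le_nhds,
      (hneg.eventually hfeas).filter_mono nhdsWithin_le_nhds, self_mem_nhdsWithin] with t a b ht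
    have m1 := hmax _ _ a
    have m2 := hmax _ _ b
    have q0 : qt 0 = q := by funext v; simp [hqt]
    have x0 : ξt 0 = ξ := by funext v; simp [hξt]
    rw [q0, x0]
    unfold FB at m1 m2
    refine div_nonpos_of_nonpos_of_nonneg ?_ (by positivity)
    linarith
  have := le_of_tendsto sAll hle
  linarith

/-- The interpolation inequality. -/
theorem step_le (h : Adm φ) (hβ : 0 ≤ β) (hE : ∀ e ∈ E, e.1 ≠ e.2) {i : V}
    (hi : Free φ i) {M1 M0 : ℝ}
    (h1 : ∀ q ξ, Loc φ E q ξ → q i = 1 → FB φ E β q ξ ≤ M1)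
    (h0 : ∀ q ξ, Loc φ E q ξ → q i = 0 → FB φ E β q ξ ≤ M0)
    {q : V → ℝ} {ξ : V × V → ℝ} (hq : Loc φ E q ξ) :
    FB φ E β q ξ ≤ S1 (q i) + q i * M1 + (1 - q i) * M0 := by
  by_contra hcon
  push Not at hcon
  set κ := FB φ E β q ξ - (S1 (q i) + q i * M1 + (1 - q i) * M0) with hκ
  have hκ0 : 0 < κ := by linarith
  set Ξ : (V → ℝ) × (V × V → ℝ) → ℝ := fun p =>
    FB φ E β p.1 p.2 - S1 (p.1 i) - (p.1 i * M1 + (1 - p.1 i) * M0) + κ * (p.1 i * (p.1 i - 1))
    with hΞ
  have hcont : Continuous Ξ := by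
    have h1 := continuous_FB φ E β
    have h2 := continuous_S1.comp (show Continuous
      (fun p : (V → ℝ) × (V × V → ℝ) => p.1 i) by fun_prop)
    simp only [Function.comp_def] at h2
    have h3 : Continuous (fun p : (V → ℝ) × (V × V → ℝ) => p.1 i * M1 + (1 - p.1 i) * M0) := by
      fun_prop
    have h4 : Continuous (fun p : (V → ℝ) × (V × V → ℝ) => κ * (p.1 i * (p.1 i - 1))) := by
      fun_prop
    exact ((h1.sub h2).sub h3).add h4
  obtain ⟨⟨q', ξ'⟩, hm, hmax⟩ := (isCompact_loc φ E).exists_isMaxOn ⟨(q, ξ), hq⟩ hcont.continuousOn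
  have hq' : Loc φ E q' ξ' := hm
  have hmax' : ∀ q2 ξ2, Loc φ E q2 ξ2 → Ξ (q2, ξ2) ≤ Ξ (q', ξ') := fun q2 ξ2 h2 =>
    hmax (show (q2, ξ2) ∈ {p : (V → ℝ) × (V × V → ℝ) | Loc φ E p.1 p.2} from h2)
  have hΞ0 : 0 < Ξ (q', ξ') := by
    refine lt_of_lt_of_le ?_ (hmax' q ξ hq)
    simp only [hΞ]
    have h2 : -(1/4) ≤ q i * (q i - 1) := by nlinarith [sq_nonneg (q i - 1/2)]
    nlinarith
  have hne0 : q' i ≠ 0 := by
    intro h
    have := h0 q' ξ' hq' h
    simp only [hΞ] at hΞ0
    rw [h, S1_zero] at hΞ0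
    linarith
  have hne1 : q' i ≠ 1 := by
    intro h
    have := h1 q' ξ' hq' h
    simp only [hΞ] at hΞ0
    rw [h, S1_one] at hΞ0
    linarith
  have hin : ∀ v, Free φ v → 0 < q' v ∧ q' v < 1 := by
    intro v hv
    by_cases hvi : v = i
    · rw [hvi]
      exact ⟨lt_of_le_of_ne (hq'.q0 i) (Ne.symm hne0), lt_of_le_of_ne (hq'.q1 i) hne1⟩
    by_contra hcon
    have hdeg : q' v = 0 ∨ q' v = 1 := by
      by_contra hd
      push Not at hd
      exact hcon ⟨lt_of_le_of_ne (hq'.q0 v) (Ne.symm hd.1), lt_of_le_of_ne (hq'.q1 v) hd.2⟩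
    obtain ⟨t, ht0, ht1, ht⟩ := S1_gt (|Real.log (φ v true)| + |Real.log (φ v false)| +
        E.card * (2 * β))
    obtain ⟨u, hu0, hu1, huS, hud⟩ : ∃ u, 0 ≤ u ∧ u ≤ 1 ∧ S1 u = S1 t ∧ |u - q' v| = t := by
      rcases hdeg with h | h
      · exact ⟨t, ht0.le, ht1.le, rfl, by rw [h, sub_zero, abs_of_pos ht0]⟩
      · refine ⟨1 - t, by linarith, by linarith, S1_one_sub t, ?_⟩
        rw [h, show (1 - t - 1 : ℝ) = -t by ring, abs_neg, abs_of_pos ht0]
    obtain ⟨ξ2, hL, hF⟩ := FB_perturb hβ hE hq' hdeg hv hu0 hu1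
    have := hmax' _ _ hL
    simp only [hΞ] at this
    rw [Function.update_of_ne (Ne.symm hvi)] at this
    rw [huS, hud] at hF
    linarith
  have hopt : ∀ e ∈ E, Free φ e.1 → Free φ e.2 → Opt β (q' e.1) (q' e.2) (ξ' e) := by
    intro e he f1 f2
    obtain ⟨a1, a2⟩ := hin _ f1
    obtain ⟨b1, b2⟩ := hin _ f2
    obtain ⟨x, hx⟩ := exists_opt hβ a1 a2 b1 b2
    by_cases hxe : ξ' e = x
    · rw [hxe]; exact hx
    · obtain ⟨hL, hF⟩ := FB_update hβ hq' he hx hxe
      have := hmax' _ _ hL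
      simp only [hΞ] at this
      linarith
  exact no_interior_max h hβ hE hi hq' hin hopt hκ0 (fun q2 ξ2 h2 => hmax' q2 ξ2 h2)

lemma S1_interp {q Z1 Z0 : ℝ} (h0 : 0 ≤ q) (h1 : q ≤ 1) (hZ1 : 0 < Z1) (hZ0 : 0 < Z0) :
    S1 q + q * Real.log Z1 + (1 - q) * Real.log Z0 ≤ Real.log (Z1 + Z0) := by
  have hZ : 0 < Z1 + Z0 := by linarith
  have a := negMulLog_le h0 (div_pos hZ1 hZ)
  have b := negMulLog_le (show 0 ≤ 1 - q by linarith) (div_pos hZ0 hZ)
  rw [Real.log_div hZ1.ne' hZ.ne'] at a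
  rw [Real.log_div hZ0.ne' hZ.ne'] at b
  have c : Z1 / (Z1 + Z0) + Z0 / (Z1 + Z0) = 1 := by rw [← add_div, div_self hZ.ne']
  unfold S1
  linarith

open Classical in
/-- The number of free vertices. -/
noncomputable def nFree (φ : V → Bool → ℝ) : ℕ := (univ.filter (fun v => Free φ v)).card

lemma nFree_clamp {i : V} (hi : Free φ i) (b : Bool) : nFree (clamp φ i b) < nFree φ := by
  classical
  unfold nFree
  apply card_lt_card
  refine ⟨fun v hv => ?_, fun hsub => ?_⟩
  · have := (free_clamp_iff b).mp (mem_filter.mp hv).2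
    exact mem_filter.mpr ⟨mem_univ _, this.2⟩
  · have hm : i ∈ univ.filter (fun v => Free φ v) := mem_filter.mpr ⟨mem_univ _, hi⟩
    have := (free_clamp_iff b).mp (mem_filter.mp (hsub hm)).2
    exact this.1 rfl

lemma nFree_zero (h0 : nFree φ = 0) (v : V) : ¬ Free φ v := by
  classical
  intro hv
  unfold nFree at h0
  have := card_eq_zero.mp h0
  have hm : v ∈ (univ.filter (fun v => Free φ v)) := mem_filter.mpr ⟨mem_univ _, hv⟩
  rw [this] at hm
  exact absurd hm (by simp)

lemma FB_clamped (h : Adm φ) (hall : ∀ v, ¬ Free φ v) {q : V → ℝ} {ξ : V × V → ℝ}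
    (hq : Loc φ E q ξ) : FB φ E β q ξ = Real.log (Zf φ E β) := by
  rw [log_Zf_clamped h hall]
  have hqe : ∀ v, q v = qv φ E β v := by
    intro v
    rcases not_free_cases h (hall v) with h' | h'
    · rw [hq.cf v h']
      unfold qv
      rw [Ex_congr (g := fun _ => 1), Ex_const h]
      intro σ hσ
      have : σ v = true := by
        by_contra hne
        have : σ v = false := by simpa using hne
        apply hσ
        unfold wgt
        rw [prod_eq_zero (mem_univ v) (by rw [this, h']), zero_mul]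
      rw [this]; simp [ind]
    · rw [hq.ct v h']
      unfold qv
      rw [Ex_congr (g := fun _ => 0), Ex_const h]
      intro σ hσ
      have : σ v = false := by
        by_contra hne
        have : σ v = true := by simpa using hne
        apply hσ
        unfold wgt
        rw [prod_eq_zero (mem_univ v) (by rw [this, h']), zero_mul]
      rw [this]; simp [ind]
  have hq2 : q = qv φ E β := funext hqe
  unfold FBm FB
  rw [hq2]
  congr 1
  refine sum_congr rfl fun e he => ?_
  have t1 := hq.tab e he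
  have t2 := tab_xv (E := E) (β := β) h e.1 e.2
  have dg := hq.degen h (hall e.1)
  rw [tab_degen_left t1 dg, hq2]
  rw [hq2] at dg
  show _ = Ke β (qv φ E β e.1) (qv φ E β e.2) (xv φ E β e.1 e.2)
  rw [tab_degen_left t2 dg]

lemma Loc.clamp {q : V → ℝ} {ξ : V × V → ℝ} (hq : Loc φ E q ξ) {i : V} (hi : Free φ i)
    {b : Bool} (hqi : q i = ind b) : Loc (clamp φ i b) E q ξ := by
  refine ⟨hq.q0, hq.q1, hq.x0, hq.x1, ?_, ?_, hq.tab⟩
  · intro v hv
    by_cases hvi : v = i
    · subst hvi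
      cases b
      · rw [clamp_self_same] at hv; have := hi.2; linarith
      · rw [hqi]; simp [ind]
    · rw [clamp_of_ne b hvi] at hv; exact hq.cf v hv
  · intro v hv
    by_cases hvi : v = i
    · subst hvi
      cases b
      · rw [hqi]; simp [ind]
      · rw [clamp_self_same] at hv; have := hi.1; linarith
    · rw [clamp_of_ne b hvi] at hv; exact hq.ct v hv

lemma FB_clamp {q : V → ℝ} {ξ : V × V → ℝ} {i : V} {b : Bool} (hqi : q i = ind b) :
    FB (clamp φ i b) E β q ξ = FB φ E β q ξ := by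
  unfold FB
  congr 1
  refine sum_congr rfl fun v _ => ?_
  by_cases hvi : v = i
  · subst hvi
    unfold Fv
    rw [hqi]
    cases b
    · rw [clamp_self_same]; simp [ind]
    · rw [clamp_self_same]; simp [ind]
  · unfold Fv
    rw [clamp_of_ne b hvi]

theorem FB_le_aux (hβ : 0 ≤ β) (hE : ∀ e ∈ E, e.1 ≠ e.2) :
    ∀ (n : ℕ) (φ : V → Bool → ℝ), Adm φ → nFree φ ≤ n →
    ∀ q ξ, Loc φ E q ξ → FB φ E β q ξ ≤ Real.log (Zf φ E β) := by
  intro n
  induction n with
  | zero =>
    intro φ h hn q ξ hq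
    exact (FB_clamped h (fun v => nFree_zero (Nat.le_zero.mp hn) v) hq).le
  | succ n ih =>
    intro φ h hn q ξ hq
    by_cases hex : ∃ i, Free φ i
    · obtain ⟨i, hi⟩ := hex
      have hA := fun b => hi.adm_clamp h b
      have hM : ∀ b q ξ, Loc φ E q ξ → q i = ind b → FB φ E β q ξ ≤
          Real.log (Zf (clamp φ i b) E β) := by
        intro b q ξ hq hqi
        rw [← FB_clamp hqi]
        exact ih _ (hA b) (by have := nFree_clamp hi b; omega) q ξ (hq.clamp hi hqi)
      have key := step_le h hβ hE hi (fun q ξ hq h1 => hM true q ξ hq (by rw [h1]; simp [ind]))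
        (fun q ξ hq h0 => hM false q ξ hq (by rw [h0]; simp [ind])) hq
      refine key.trans ?_
      rw [Zf_clamp (φ := φ) (E := E) (β := β) i]
      exact S1_interp (hq.q0 i) (hq.q1 i) (Zf_pos (hA true)) (Zf_pos (hA false))
    · push Not at hex
      exact (FB_clamped h hex hq).le

/-- **Ruozzi's inequality**: on every locally consistent point the Bethe functional is at most
`log Z`. -/
theorem FB_le_log_Zf (hβ : 0 ≤ β) (hE : ∀ e ∈ E, e.1 ≠ e.2) (h : Adm φ) {q : V → ℝ}
    {ξ : V × V → ℝ} (hq : Loc φ E q ξ) : FB φ E β q ξ ≤ Real.log (Zf φ E β) :=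
  FB_le_aux hβ hE _ φ h le_rfl q ξ hq

end Pool.Agent.Lib.MP_a763a9_pr.H59
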