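import Pool.Agent.Lib.MP_a763a9_pr.H59.Color
import Pool.Agent.Lib.MP_a763a9_pr.H59.Ruozzi
import Pool.Agent.Lib.MP_a763a9_pr.H59.Field

/-!
Comparison of the free energies of two graphs with nearly the same colour frequencies.
-/

set_option autoImplicit false
set_option linter.unusedVariables false
set_option linter.unusedSectionVars false

namespace Pool.Agent.Lib.MP_a763a9_pr.H59

open Finset

/-- `E` contains one orientation of every edge. -/
structure Edg {V : Type} (nb : V → Finset V) (E : Finset (V × V)) : Prop where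
  iff : ∀ x y, y ∈ nb x ↔ (x, y) ∈ E ∨ (y, x) ∈ E
  asym : ∀ x y, (x, y) ∈ E → (y, x) ∉ E

section Edg

variable {V : Type} [Fintype V] [DecidableEq V] {nb : V → Finset V} {E : Finset (V × V)}

lemma Edg.symm (h : Edg nb E) (x y : V) : y ∈ nb x ↔ x ∈ nb y := by
  rw [h.iff, h.iff, or_comm]

lemma Edg.ne (h : Edg nb E) : ∀ e ∈ E, e.1 ≠ e.2 := by
  rintro ⟨x, y⟩ he (rfl : x = y)
  exact h.asym x x he he

lemma Edg.sum_prs (h : Edg nb E) (f : V → V → ℝ) :
    ∑ p ∈ prs nb, f p.1 p.2 = ∑ e ∈ E, (f e.1 e.2 + f e.2 e.1) := by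
  have e1 : prs nb = E ∪ E.map (Equiv.prodComm V V).toEmbedding := by
    ext ⟨x, y⟩
    simp only [prs, mem_filter, mem_univ, true_and, mem_union, mem_map, Equiv.coe_toEmbedding,
      Equiv.prodComm_apply]
    rw [h.iff]
    constructor
    · rintro (h1 | h1)
      · exact Or.inl h1
      · exact Or.inr ⟨(y, x), h1, rfl⟩
    · rintro (h1 | ⟨⟨a, b⟩, h1, h2⟩)
      · exact Or.inl h1
      · right
        simp only [Prod.swap_prod_mk, Prod.mk.injEq] at h2
        rw [← h2.1, ← h2.2]; exact h1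
  have hdis : Disjoint E (E.map (Equiv.prodComm V V).toEmbedding) := by
    rw [disjoint_left]
    rintro ⟨x, y⟩ h1 h2
    simp only [mem_map, Equiv.coe_toEmbedding, Equiv.prodComm_apply] at h2
    obtain ⟨⟨a, b⟩, h3, h4⟩ := h2
    simp only [Prod.swap_prod_mk, Prod.mk.injEq] at h4
    rw [h4.1, h4.2] at h3
    exact h.asym _ _ h1 h3
  rw [e1, sum_union hdis, sum_map, sum_add_distrib]
  rfl

lemma Edg.degLe (h : Edg nb E) {Δ : ℕ} (hd : ∀ v, #(nb v) ≤ Δ) : DegLe E Δ := by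
  intro v
  refine le_trans ?_ (hd v)
  refine card_le_card_of_injOn (fun e => if e.1 = v then e.2 else e.1) ?_ ?_
  · rintro ⟨x, y⟩ he
    simp only [coe_filter, Set.mem_ofPred_eq, mem_coe] at he ⊢
    rw [h.iff]
    split_ifs with hx
    · left; rw [← hx]; exact he.1
    · rcases he.2 with h1 | h1
      · exact absurd h1 hx
      · right; rw [← h1]; exact he.1
  · rintro ⟨x, y⟩ he ⟨x', y'⟩ he' heq
    simp only [coe_filter, Set.mem_ofPred_eq] at he he' heq
    by_cases hx : x = v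
    · by_cases hx' : x' = v
      · simp only [hx, hx', if_true] at heq
        rw [hx, hx', heq]
      · have hy' : y' = v := he'.2.resolve_left hx'
        simp only [hx, hx', if_true, if_false] at heq
        exfalso
        subst hx hy'
        rw [heq] at he
        exact h.asym _ _ he.1 he'.1
    · have hy : y = v := he.2.resolve_left hx
      by_cases hx' : x' = v
      · simp only [hx, hx', if_true, if_false] at heq
        exfalso
        subst hx' hy
        rw [heq] at he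
        exact h.asym _ _ he.1 he'.1
      · have hy' : y' = v := he'.2.resolve_left hx'
        simp only [hx, hx', if_false] at heq
        rw [heq, hy, hy']

lemma Edg.card_le (h : Edg nb E) {Δ : ℕ} (hd : ∀ v, #(nb v) ≤ Δ) :
    (#E : ℝ) ≤ Δ * Fintype.card V := by
  have h1 := h.sum_prs (fun _ _ => (1 : ℝ))
  have h2 := sum_prs_fst hd (f := fun _ => (1 : ℝ)) (fun _ => zero_le_one)
  rw [h1] at h2
  simp only [sum_const, nsmul_eq_mul, card_univ, mul_one] at h2
  have : (0 : ℝ) ≤ #E := Nat.cast_nonneg _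
  linarith

end Edg

/-- The grid. -/
noncomputable def gx (η : ℝ) (L i : ℕ) : ℝ := η + (1 - 2 * η) * (i / L)

lemma gx_lo {η : ℝ} (h2 : η < 1 / 2) (L i : ℕ) : η ≤ gx η L i := by
  unfold gx
  have : 0 ≤ (1 - 2 * η) * ((i : ℝ) / L) := mul_nonneg (by linarith) (by positivity)
  linarith

lemma gx_hi {η : ℝ} (h2 : η < 1 / 2) {L i : ℕ} (hi : i ≤ L) : η ≤ 1 - gx η L i := by
  unfold gx
  have h1 : (i : ℝ) / L ≤ 1 := div_le_one_of_le₀ (by exact_mod_cast hi) (Nat.cast_nonneg _)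
  nlinarith

lemma gx_mono {η : ℝ} (h2 : η < 1 / 2) {L i j : ℕ} (hij : i ≤ j) : gx η L i ≤ gx η L j := by
  unfold gx
  have : (i : ℝ) / L ≤ j / L := div_le_div_of_nonneg_right (by exact_mod_cast hij) (Nat.cast_nonneg _)
  nlinarith

lemma exists_gx {η : ℝ} (h0 : 0 < η) (h2 : η < 1 / 2) {L : ℕ} (hL : 0 < L) {q : ℝ}
    (hq : η ≤ q) (hq1 : η ≤ 1 - q) : ∃ l ≤ L, |q - gx η L l| ≤ 1 / L := by
  have hw : 0 < 1 - 2 * η := by linarith
  have hL' : (0 : ℝ) < L := by exact_mod_cast hL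
  set t := (q - η) / (1 - 2 * η) * L with ht
  have ht0 : 0 ≤ t := mul_nonneg (div_nonneg (by linarith) hw.le) hL'.le
  have ht1 : t ≤ L := by
    rw [ht]
    have : (q - η) / (1 - 2 * η) ≤ 1 := by rw [div_le_one hw]; linarith
    nlinarith
  refine ⟨⌊t⌋₊, ?_, ?_⟩
  · have := Nat.floor_le_floor ht1
    simpa using this
  · have f1 := Nat.floor_le ht0
    have f2 := Nat.lt_floor_add_one t
    have e : q - gx η L ⌊t⌋₊ = (1 - 2 * η) * ((t - ⌊t⌋₊) / L) := by
      unfold gx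
      have : q = η + (1 - 2 * η) * (t / L) := by
        have h1 : t / L = (q - η) / (1 - 2 * η) := by rw [ht]; field_simp
        rw [h1, mul_div_cancel₀ _ hw.ne']; ring
      nth_rewrite 1 [this]
      ring
    rw [e, abs_of_nonneg (mul_nonneg hw.le (div_nonneg (by linarith) hL'.le))]
    have h3 : (t - ⌊t⌋₊) / L ≤ 1 / L := div_le_div_of_nonneg_right (by linarith) hL'.le
    have h4 : 0 ≤ (t - ⌊t⌋₊) / L := div_nonneg (by linarith) hL'.le
    nlinarith

/-- The vertex functional on levels. -/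
noncomputable def gl (θ : ℕ → ℝ) (η : ℝ) (L : ℕ) (a i : ℕ) : ℝ :=
  θ a * (2 * gx η L i - 1) + S1 (gx η L i)

/-- The edge functional on levels. -/
noncomputable def hl (β η : ℝ) (L i j : ℕ) : ℝ := Kb β (gx η L i) (gx η L j)

lemma hl_symm {β η : ℝ} (hβ : 0 ≤ β) (h0 : 0 < η) (h2 : η < 1 / 2) {L : ℕ} :
    ∀ i ≤ L, ∀ j ≤ L, hl β η L i j = hl β η L j i := by
  intro i hi j hj
  have a1 := gx_lo h2 L i
  have a2 := gx_hi h2 hi
  have b1 := gx_lo h2 L j
  have b2 := gx_hi h2 hj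
  exact Kb_comm hβ (by linarith) (by linarith) (by linarith) (by linarith)

lemma hl_super {β η : ℝ} (hβ : 0 ≤ β) (h0 : 0 < η) (h2 : η < 1 / 2) {L : ℕ} :
    ∀ i < L, ∀ j < L, 0 ≤ hl β η L (i + 1) (j + 1) - hl β η L i (j + 1) -
      hl β η L (i + 1) j + hl β η L i j := by
  intro i hi j hj
  have a1 := gx_lo h2 L i
  have a2 := gx_hi h2 (show i + 1 ≤ L by omega)
  have b1 := gx_lo h2 L j
  have b2 := gx_hi h2 (show j + 1 ≤ L by omega)
  have := Kb_supermod hβ (show 0 < gx η L i by linarith) (show gx η L (i + 1) < 1 by linarith)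
    (show 0 < gx η L j by linarith) (show gx η L (j + 1) < 1 by linarith)
    (gx_mono h2 (Nat.le_succ i)) (gx_mono h2 (Nat.le_succ j))
  unfold hl
  linarith

/-- The free energy. -/
noncomputable def lZ {V : Type} [Fintype V] [DecidableEq V] (θ : ℕ → ℝ) (lab : V → ℕ)
    (E : Finset (V × V)) (β : ℝ) : ℝ := Real.log (Zf (fw (fun v => θ (lab v)) 0) E β)

section

variable {V : Type} [Fintype V] [DecidableEq V] {nb : V → Finset V} {E : Finset (V × V)}

lemma sum_prs_hl {β η : ℝ} (hβ : 0 ≤ β) (h0 : 0 < η) (h2 : η < 1 / 2) {L : ℕ} (h : Edg nb E)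
    {l : V → ℕ} (hl' : ∀ v, l v ≤ L) :
    1 / 2 * ∑ p ∈ prs nb, hl β η L (l p.1) (l p.2) = ∑ e ∈ E, hl β η L (l e.1) (l e.2) := by
  rw [h.sum_prs (fun x y => hl β η L (l x) (l y)), mul_sum]
  refine sum_congr rfl fun e _ => ?_
  rw [hl_symm hβ h0 h2 (l e.2) (hl' _) (l e.1) (hl' _)]
  ring

/-- Ruozzi's inequality on levels. -/
lemma ruozzi_levels {β η : ℝ} (hβ : 0 ≤ β) (h0 : 0 < η) (h2 : η < 1 / 2) {L : ℕ}
    (h : Edg nb E) (θ : ℕ → ℝ) (lab : V → ℕ) {l : V → ℕ} (hl' : ∀ v, l v ≤ L) :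
    ∑ v, gl θ η L (lab v) (l v) + 1 / 2 * ∑ p ∈ prs nb, hl β η L (l p.1) (l p.2) ≤
      lZ θ lab E β := by
  rw [sum_prs_hl hβ h0 h2 h hl']
  set q : V → ℝ := fun v => gx η L (l v) with hq
  have q1 : ∀ v, η ≤ q v := fun v => gx_lo h2 L (l v)
  have q2 : ∀ v, η ≤ 1 - q v := fun v => gx_hi h2 (hl' v)
  have hex : ∀ e : V × V, ∃ x, Opt β (q e.1) (q e.2) x := by
    intro e
    have := q1 e.1
    have := q1 e.2
    have := q2 e.1
    have := q2 e.2
    exact exists_opt hβ (by linarith) (by linarith) (by linarith) (by linarith)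
  choose ξ hξ using hex
  have hLoc : Loc (fw (fun v => θ (lab v)) 0) E q ξ := by
    refine ⟨fun v => ?_, fun v => ?_, fun e => (hξ e).p11.le, fun e => (hξ e).tab.x1,
      fun v hv => ?_, fun v hv => ?_, fun e _ => (hξ e).tab⟩
    · have := q1 v; linarith
    · have := q2 v; linarith
    · exact absurd hv (Real.exp_pos _).ne'
    · exact absurd hv (Real.exp_pos _).ne'
  have := FB_le_log_Zf (β := β) hβ h.ne (fw_adm (θ := fun v => θ (lab v)) 0) hLoc
  refine le_trans (le_of_eq ?_) this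
  unfold FB
  congr 1
  · refine sum_congr rfl fun v _ => ?_
    rw [Fv_fw]
    unfold gl
    rw [add_zero]
  · refine sum_congr rfl fun e _ => ?_
    unfold hl
    exact Kb_eq (hξ e)

/-- The constant of the quantization error. -/
noncomputable def Cq (β b η : ℝ) (Δ : ℕ) : ℝ :=
  (2 * b - Real.log η) + Δ * (2 * (2 * β + Lc β η - Real.log η))

/-- Quantization. -/
lemma quantize {β η b : ℝ} (hβ : 0 ≤ β) (h0 : 0 < η) (h2 : η < 1 / 2) {L Δ : ℕ} (hL : 0 < L)
    (h : Edg nb E) (hd : ∀ v, #(nb v) ≤ Δ) (θ : ℕ → ℝ) (lab : V → ℕ)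
    (hb : ∀ v, |θ (lab v)| ≤ b) {q : V → ℝ} {ξ : V × V → ℝ} (q1 : ∀ v, η ≤ q v)
    (q2 : ∀ v, η ≤ 1 - q v) (hT : ∀ e ∈ E, Tab (q e.1) (q e.2) (ξ e)) :
    ∃ l : V → ℕ, (∀ v, l v ≤ L) ∧ FB (fw (fun v => θ (lab v)) 0) E β q ξ ≤
      ∑ v, gl θ η L (lab v) (l v) + 1 / 2 * ∑ p ∈ prs nb, hl β η L (l p.1) (l p.2) +
      Fintype.card V * (Cq β b η Δ / L) := by
  choose l hl1 hl2 using fun v => exists_gx h0 h2 hL (q1 v) (q2 v)
  refine ⟨l, hl1, ?_⟩
  rw [sum_prs_hl hβ h0 h2 h hl1]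
  have hL' : (0 : ℝ) < L := by exact_mod_cast hL
  have hlog : Real.log η ≤ 0 := Real.log_nonpos h0.le (by linarith)
  have hLc : 0 ≤ Lc β η := by unfold Lc; linarith
  unfold FB
  have s1 : ∑ v, Fv (fw (fun v => θ (lab v)) 0) v (q v) ≤
      ∑ v, (gl θ η L (lab v) (l v) + (2 * b - Real.log η) / L) := by
    refine sum_le_sum fun v _ => ?_
    rw [Fv_fw]
    unfold gl
    have a := S1_lip h0 (q1 v) (q2 v) (gx_lo h2 L (l v)) (gx_hi h2 (hl1 v))
    have a' := (le_abs_self _).trans a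
    have c1 : θ (lab v) * (q v - gx η L (l v)) ≤ b * |q v - gx η L (l v)| := by
      refine (le_abs_self _).trans ?_
      rw [abs_mul]
      exact mul_le_mul_of_nonneg_right (hb v) (abs_nonneg _)
    have hb0 : 0 ≤ b := (abs_nonneg _).trans (hb v)
    have c2 : (2 * b - Real.log η) * |q v - gx η L (l v)| ≤ (2 * b - Real.log η) * (1 / L) :=
      mul_le_mul_of_nonneg_left (hl2 v) (by linarith)
    have e : (2 * b - Real.log η) / L = (2 * b - Real.log η) * (1 / L) := by ring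
    rw [e, add_zero]
    linarith
  have s2 : ∑ e ∈ E, Ke β (q e.1) (q e.2) (ξ e) ≤
      ∑ e ∈ E, (hl β η L (l e.1) (l e.2) + 2 * (2 * β + Lc β η - Real.log η) / L) := by
    refine sum_le_sum fun e he => ?_
    have k1 := Ke_le_Kb hβ (show 0 < q e.1 by have := q1 e.1; linarith)
      (show q e.1 < 1 by have := q2 e.1; linarith) (show 0 < q e.2 by have := q1 e.2; linarith)
      (show q e.2 < 1 by have := q2 e.2; linarith) (hT e he)
    have k2 := (le_abs_self _).trans (Kb_lip hβ h0 (q1 e.1) (q2 e.1) (q1 e.2) (q2 e.2)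
      (gx_lo h2 L (l e.1)) (gx_hi h2 (hl1 e.1)) (gx_lo h2 L (l e.2)) (gx_hi h2 (hl1 e.2)))
    have a1 := (neg_abs_le _).trans' (neg_le_neg
      (S1_lip h0 (q1 e.1) (q2 e.1) (gx_lo h2 L (l e.1)) (gx_hi h2 (hl1 e.1))))
    have a2 := (neg_abs_le _).trans' (neg_le_neg
      (S1_lip h0 (q1 e.2) (q2 e.2) (gx_lo h2 L (l e.2)) (gx_hi h2 (hl1 e.2))))
    unfold hl
    have b1 : (2 * β + Lc β η - Real.log η) * |q e.1 - gx η L (l e.1)| ≤
        (2 * β + Lc β η - Real.log η) * (1 / L) :=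
      mul_le_mul_of_nonneg_left (hl2 _) (by linarith)
    have b2 : (2 * β + Lc β η - Real.log η) * |q e.2 - gx η L (l e.2)| ≤
        (2 * β + Lc β η - Real.log η) * (1 / L) :=
      mul_le_mul_of_nonneg_left (hl2 _) (by linarith)
    have ee : 2 * (2 * β + Lc β η - Real.log η) / L =
        (2 * β + Lc β η - Real.log η) * (1 / L) + (2 * β + Lc β η - Real.log η) * (1 / L) := by
      ring
    rw [ee]
    linarith
  rw [sum_add_distrib, sum_const, nsmul_eq_mul, card_univ] at s1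
  rw [sum_add_distrib, sum_const, nsmul_eq_mul] at s2
  have s3 : (#E : ℝ) * (2 * (2 * β + Lc β η - Real.log η) / L) ≤
      Δ * Fintype.card V * (2 * (2 * β + Lc β η - Real.log η) / L) :=
    mul_le_mul_of_nonneg_right (h.card_le hd) (div_nonneg (by linarith) hL'.le)
  have e : Fintype.card V * (Cq β b η Δ / L) = Fintype.card V * ((2 * b - Real.log η) / L) +
      Δ * Fintype.card V * (2 * (2 * β + Lc β η - Real.log η) / L) := by
    unfold Cq; ring
  rw [e]
  linarith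

end

/-- Shell and loser structures. -/
def Good {V : Type} [Fintype V] [DecidableEq V] (E : Finset (V × V)) (Δ ρ : ℕ) : Prop :=
  ∃ far : V → V → Prop, Shells E far ρ ∧ ∀ z, ∃ L, Loser E Δ far z L

/-- **Comparison**: graphs with nearly the same colour frequencies and one of them locally
tree-like. -/
theorem compare {β : ℝ} (hβ : 0 ≤ β) (θ : ℕ → ℝ) (Δ Λ : ℕ) {ε : ℝ} (hε : 0 < ε) :
    ∃ (R ρ : ℕ) (δ : ℝ), 0 < δ ∧ ∀ (V V' : Type) [Fintype V] [DecidableEq V] [Nonempty V]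
      [Fintype V'] [DecidableEq V'] [Nonempty V'] (nb : V → Finset V) (E : Finset (V × V))
      (lab : V → ℕ) (nb' : V' → Finset V') (E' : Finset (V' × V')) (lab' : V' → ℕ),
      Edg nb E → Edg nb' E' → (∀ v, #(nb v) ≤ Δ) → (∀ v, #(nb' v) ≤ Δ) → (∀ v, lab v < Λ) →
      (∀ v, lab' v < Λ) → Good E Δ ρ →
      (∀ r ≤ R, ∀ γ, |freq nb lab r γ - freq nb' lab' r γ| ≤ δ) →
      lZ θ lab E β / Fintype.card V ≤ lZ θ lab' E' β / Fintype.card V' + ε := by
  -- constants
  set b := ∑ a ∈ range Λ, |θ a| with hb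
  have hb0 : 0 ≤ b := sum_nonneg fun _ _ => abs_nonneg _
  have hbθ : ∀ a < Λ, |θ a| ≤ b := fun a ha =>
    single_le_sum (f := fun a => |θ a|) (fun _ _ => abs_nonneg _) (mem_range.mpr ha)
  set M := Real.exp (2 * (b + 1)) * Real.exp (2 * β * Δ) with hM
  have hM1 : 1 < M := by
    rw [hM, ← Real.exp_add]
    exact Real.one_lt_exp_iff.mpr (by positivity)
  set η := 1 / (1 + M) with hη
  have h0 : 0 < η := by positivity
  have h2 : η < 1 / 2 := by
    rw [hη]
    exact one_div_lt_one_div_of_lt (by norm_num) (by linarith)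
  set ε1 := min 1 (ε / 16) with hε1
  have hε1p : 0 < ε1 := lt_min one_pos (by linarith)
  have hε11 : ε1 ≤ 1 := min_le_left _ _
  have hε12 : ε1 ≤ ε / 16 := min_le_right _ _
  set C := (1 + M) ^ 4 + Real.log 2 with hC
  have hC0 : 0 ≤ C := by
    have : 0 ≤ Real.log 2 := Real.log_nonneg (by norm_num)
    positivity
  -- the radius
  obtain ⟨ρ, hρ⟩ := exists_nat_gt ((8 * (Δ * C * (1 / (2 * ε1))) / ε) ^ 2 + 1)
  have hρ1 : 1 < (ρ : ℝ) := by
    have : 0 ≤ (8 * (Δ * C * (1 / (2 * ε1))) / ε) ^ 2 := sq_nonneg _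
    linarith
  have hρp : 0 < ρ := by
    have : (0 : ℝ) < ρ := by linarith
    exact_mod_cast this
  have herr : Δ * C / Real.sqrt ρ * (1 / (2 * ε1)) ≤ ε / 8 := by
    have hsq : 8 * (Δ * C * (1 / (2 * ε1))) / ε ≤ Real.sqrt ρ := by
      apply Real.le_sqrt_of_sq_le; linarith
    have hsp : 0 < Real.sqrt ρ := Real.sqrt_pos.mpr (by linarith)
    have e : Δ * C / Real.sqrt ρ * (1 / (2 * ε1)) = (Δ * C * (1 / (2 * ε1))) / Real.sqrt ρ := by
      ring
    rw [e, div_le_iff₀ hsp]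
    rw [div_le_iff₀ hε] at hsq
    nlinarith
  -- the grid
  obtain ⟨L, hL⟩ := exists_nat_gt (|8 * Cq β b η Δ / ε|)
  have hLp : 0 < L := by
    have : (0 : ℝ) < L := lt_of_le_of_lt (abs_nonneg _) hL
    exact_mod_cast this
  have hLp' : (0 : ℝ) < L := by exact_mod_cast hLp
  have hgrid : Cq β b η Δ / L ≤ ε / 8 := by
    rw [div_le_iff₀ hLp']
    have h1 : 8 * Cq β b η Δ / ε < L := lt_of_le_of_lt (le_abs_self _) hL
    rw [div_lt_iff₀ hε] at h1
    linarith
  -- the number of levels of refinement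
  set τ := t2 L (hl β η L) with hτ
  have hτ0 : 0 ≤ τ := by
    rw [hτ]; unfold t2
    positivity
  obtain ⟨R, hR⟩ := exists_nat_gt (L * (8 * (Δ * τ) / ε) ^ 2)
  have hRp : 0 < R := by
    have : (0 : ℝ) < R := lt_of_le_of_lt (by positivity) hR
    exact_mod_cast this
  have hRp' : (0 : ℝ) < R := by exact_mod_cast hRp
  have hreg : Δ * Real.sqrt (L / R) * τ ≤ ε / 8 := by
    have h1 : (8 * (Δ * τ) / ε) ^ 2 * (L / R) ≤ 1 := by
      rw [mul_div_assoc', div_le_one hRp']; linarith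
    have h2 : 8 * (Δ * τ) / ε * Real.sqrt (L / R) ≤ 1 := by
      refine le_of_sq_le_sq ?_ zero_le_one
      rw [mul_pow, Real.sq_sqrt (by positivity), one_pow]
      exact h1
    have e : 8 * (Δ * τ) / ε * Real.sqrt (L / R) = 8 * (Δ * Real.sqrt (L / R) * τ) / ε := by ring
    rw [e, div_le_one hε] at h2
    linarith
  -- the accuracy of the frequencies
  choose S hS using fun r => exists_colors Δ Λ r
  set W := ∑ r ∈ range R, ∑ γ ∈ S (r + 1), psiB L (gl θ η L) (hl β η L) r γ with hW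
  have hW0 : 0 ≤ W := sum_nonneg fun _ _ => sum_nonneg fun _ _ => psiB_nonneg _ _ _ _ _
  refine ⟨R, ρ, ε / (8 * (W + 1)), by positivity, ?_⟩
  intro V V' _ _ _ _ _ _ nb E lab nb' E' lab' hE hE' hd hd' hlab hlab' hG hfreq
  obtain ⟨far, hSh, hLo⟩ := hG
  have hn : (0 : ℝ) < Fintype.card V := by exact_mod_cast Fintype.card_pos
  have hn' : (0 : ℝ) < Fintype.card V' := by exact_mod_cast Fintype.card_pos
  -- upper bound
  obtain ⟨q, ξ, q1, q2, hT, hup⟩ := upper (θ := fun v => θ (lab v)) (b := b) hβ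
    (fun v => hbθ _ (hlab v)) (hE.degLe hd) hSh hρp hLo hε1p hε11
  rw [← hM] at q1 q2 hup
  rw [← hη] at q1 q2
  obtain ⟨l, hl1, hq⟩ := quantize hβ h0 h2 hLp hE hd θ lab (fun v => hbθ _ (hlab v)) q1 q2 hT
  -- regularity
  obtain ⟨r, hr, hinc⟩ := exists_level (col nb lab) (fun r => (col_refines nb lab r).base) L R
    hRp l
  have hT2 := T2_le hE.symm hd (col_refines nb lab r) (hl_super hβ h0 h2) hl1
    (mul_nonneg hn.le (Real.sqrt_nonneg _)) hinc
  set F : ℕ → ℕ → ℝ := fun γ i => avc (col nb lab r) (fun v => crisp (l v) i) γ with hF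
  have cr0 : ∀ i v, 0 ≤ crisp (l v) i := fun i v => by unfold crisp; split_ifs <;> norm_num
  have cr1 : ∀ i v, crisp (l v) i ≤ 1 := fun i v => by unfold crisp; split_ifs <;> norm_num
  have F0 : ∀ γ i, 0 ≤ F γ i := fun γ i => avc_nonneg (cr0 i) γ
  have F1 : ∀ γ i, F γ i ≤ 1 := fun γ i => avc_le_one (cr1 i) γ
  have Fa : ∀ γ, Antitone (F γ) := fun γ i j hij => avc_mono (fun v => by
    unfold crisp
    split_ifs with h1 h2
    · exact le_rfl
    · omega
    · norm_num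
    · exact le_rfl) γ
  -- the vertex terms
  have hV : ∑ v, gl θ η L (lab v) (l v) = ∑ v, T1 L (gl θ η L (lab v)) (F (col nb lab r v)) := by
    have e1 : ∑ v, gl θ η L (lab v) (l v) = ∑ v, T1 L (gl θ η L (lab v)) (crisp (l v)) :=
      sum_congr rfl fun v _ => (T1_crisp (hl1 v) _).symm
    rw [e1]
    unfold T1
    rw [sum_add_distrib, sum_add_distrib]
    congr 1
    rw [sum_comm, sum_comm (s := (univ : Finset V))]
    refine sum_congr rfl fun i _ => ?_
    refine sum_avc (col nb lab r) (fun v => crisp (l v) i) _ fun v w hvw => ?_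
    have : lab v = lab w := by
      rw [← labOf_col nb lab r v, hvw, labOf_col]
    rw [this]
  -- comparison of the functionals
  have hΦ : ∑ v, gl θ η L (lab v) (l v) + 1 / 2 * ∑ p ∈ prs nb, hl β η L (l p.1) (l p.2) ≤
      ∑ v, psi L (gl θ η L) (hl β η L) r F (col nb lab (r + 1) v) +
      Fintype.card V * (ε / 8) := by
    rw [sum_psi, hV]
    have e : 1 / 2 * (2 * (Δ * (Fintype.card V * Real.sqrt (L / R))) * τ) =
        Fintype.card V * (Δ * Real.sqrt (L / R) * τ) := by ring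
    have h3 := mul_le_mul_of_nonneg_left hreg hn.le
    have h4 := mul_le_mul_of_nonneg_left hT2 (show (0:ℝ) ≤ 1 / 2 by norm_num)
    rw [mul_add, e] at h4
    linarith
  have hΦ' : ∑ v, psi L (gl θ η L) (hl β η L) r F (col nb' lab' (r + 1) v) ≤
      lZ θ lab' E' β := by
    rw [sum_psi]
    exact fuzzy (prs nb') L (fun v => gl θ η L (lab' v)) (hl β η L)
      (fun v => F (col nb' lab' r v)) (fun v => Fa _) (fun v => F0 _) (fun v => F1 _) _
      (fun l' hl' => ruozzi_levels hβ h0 h2 hE' θ lab' hl')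
  -- the frequencies
  have hfr : (∑ v, psi L (gl θ η L) (hl β η L) r F (col nb lab (r + 1) v)) / Fintype.card V ≤
      (∑ v, psi L (gl θ η L) (hl β η L) r F (col nb' lab' (r + 1) v)) / Fintype.card V' +
      ε / 8 := by
    rw [sum_freq nb lab (r + 1) (hS (r + 1) V nb lab hd hlab),
      sum_freq nb' lab' (r + 1) (hS (r + 1) V' nb' lab' hd' hlab')]
    have h3 : ∑ γ ∈ S (r + 1), freq nb lab (r + 1) γ * psi L (gl θ η L) (hl β η L) r F γ -
        ∑ γ ∈ S (r + 1), freq nb' lab' (r + 1) γ * psi L (gl θ η L) (hl β η L) r F γ ≤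
        ∑ γ ∈ S (r + 1), ε / (8 * (W + 1)) * psiB L (gl θ η L) (hl β η L) r γ := by
      rw [← sum_sub_distrib]
      refine sum_le_sum fun γ _ => ?_
      rw [← sub_mul]
      refine (le_abs_self _).trans ?_
      rw [abs_mul]
      exact mul_le_mul (hfreq (r + 1) hr γ) (psi_bound _ _ _ _ F0 F1 γ) (abs_nonneg _)
        (by positivity)
    rw [← mul_sum] at h3
    have h4 : ∑ γ ∈ S (r + 1), psiB L (gl θ η L) (hl β η L) r γ ≤ W :=
      single_le_sum (f := fun r => ∑ γ ∈ S (r + 1), psiB L (gl θ η L) (hl β η L) r γ)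
        (fun _ _ => sum_nonneg fun _ _ => psiB_nonneg _ _ _ _ _) (mem_range.mpr hr)
    have h5 : ε / (8 * (W + 1)) * ∑ γ ∈ S (r + 1), psiB L (gl θ η L) (hl β η L) r γ ≤ ε / 8 := by
      calc _ ≤ ε / (8 * (W + 1)) * (W + 1) :=
            mul_le_mul_of_nonneg_left (by linarith) (by positivity)
        _ = ε / 8 := by field_simp
    linarith
  -- conclusion
  have u1 : lZ θ lab E β ≤ ∑ v, psi L (gl θ η L) (hl β η L) r F (col nb lab (r + 1) v) +
      Fintype.card V * (5 * ε / 8) := by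
    have k1 : (Fintype.card V : ℝ) * (2 * ε1 + Δ * C / Real.sqrt ρ * (1 / (2 * ε1))) ≤
        Fintype.card V * (ε / 4) := mul_le_mul_of_nonneg_left (by linarith) hn.le
    have k2 : (Fintype.card V : ℝ) * (Cq β b η Δ / L) ≤ Fintype.card V * (ε / 8) :=
      mul_le_mul_of_nonneg_left hgrid hn.le
    have k3 : (0:ℝ) ≤ Fintype.card V * ε := by positivity
    unfold lZ
    linarith
  have u2 : lZ θ lab E β / Fintype.card V ≤
      (∑ v, psi L (gl θ η L) (hl β η L) r F (col nb lab (r + 1) v)) / Fintype.card V +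
      5 * ε / 8 := by
    rw [div_add' _ _ _ hn.ne']
    exact div_le_div_of_nonneg_right (by linarith) hn.le
  have u3 : (∑ v, psi L (gl θ η L) (hl β η L) r F (col nb' lab' (r + 1) v)) /
      Fintype.card V' ≤ lZ θ lab' E' β / Fintype.card V' :=
    div_le_div_of_nonneg_right hΦ' hn'.le
  linarith

end Pool.Agent.Lib.MP_a763a9_pr.H59
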