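import Mathlib

/-!
The extended Ising model on finite graphs, random rooted graphs, and locally tree-like sequences
of random graphs.
-/

namespace Pool.Agent.Lib.MP_a763a9_pr.H59

open MeasureTheory Filter Topology

/-- The spin `1` or `-1` coded by a bit. -/
def spin (b : Bool) : ℝ := if b then 1 else -1

/-- The degree of a vertex. -/
noncomputable def deg {V : Type} (G : SimpleGraph V) (v : V) : ℕ := (G.neighborSet v).ncard

open Classical in
/-- The partition function of the extended Ising model on a finite graph `G`: the sum over all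
`σ ∈ {-1,1}^V` of `exp (β ∑_{uv ∈ E} σ_u σ_v + ∑_v (k d_v + h) σ_v)`. The double sum over `u, v`
counts every edge twice, hence the factor `1 / 2`. -/
noncomputable def Z {V : Type} [Fintype V] (G : SimpleGraph V) (β k h : ℝ) : ℝ :=
  ∑ σ : V → Bool, Real.exp
    (β * ((1 / 2) * ∑ u, ∑ v, if G.Adj u v then spin (σ u) * spin (σ v) else 0) +
      ∑ v, (k * deg G v + h) * spin (σ v))

/-- The ball of radius `r` around `v` in `G` (the subgraph induced on the vertices at distance
at most `r` from `v`), rooted at `v`, is isomorphic to the finite rooted graph `(H, o)`. -/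
def BallIso {V : Type} (G : SimpleGraph V) (v : V) (r : ℕ) {m : ℕ} (H : SimpleGraph (Fin m))
    (o : Fin m) : Prop :=
  ∃ f : H ≃g G.induce {w | G.edist v w ≤ r}, (f o : V) = v

/-- The fraction of the `n` vertices having the property `p`. -/
noncomputable def frac {n : ℕ} (p : Fin n → Prop) : ℝ := (Set.ncard {v | p v} : ℝ) / n

/-- The random variables `X n`, on possibly different probability spaces, converge to the
constant `c` in probability. -/
def TendstoInProb {Ω : ℕ → Type} [∀ n, MeasurableSpace (Ω n)] (P : ∀ n, Measure (Ω n))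
    (X : ∀ n, Ω n → ℝ) (c : ℝ) : Prop :=
  ∀ ε > 0, Tendsto (fun n => P n {ω | ε < |X n ω - c|}) atTop (𝓝 0)

/-- A random locally finite connected rooted graph, defined on a probability space. -/
structure RandomRooted where
  /-- the sample space -/
  Ω : Type
  /-- its events -/
  [mΩ : MeasurableSpace Ω]
  /-- the probability -/
  μ : Measure Ω
  [prob : IsProbabilityMeasure μ]
  /-- the vertex set -/
  V : Ω → Type
  /-- the graph -/
  T : ∀ ω, SimpleGraph (V ω)
  /-- the root -/
  root : ∀ ω, V ω
  locallyFinite : ∀ ω v, ((T ω).neighborSet v).Finite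
  connected : ∀ ω, (T ω).Connected
  measurable : ∀ (r m : ℕ) (H : SimpleGraph (Fin m)) (o : Fin m),
    MeasurableSet {ω | BallIso (T ω) (root ω) r H o}

attribute [instance] RandomRooted.mΩ RandomRooted.prob

/-- The sequence of random graphs `G n` on `n` vertices is locally tree-like. -/
structure LocallyTreeLike {Ω : ℕ → Type} [∀ n, MeasurableSpace (Ω n)] (P : ∀ n, Measure (Ω n))
    (G : ∀ n, Ω n → SimpleGraph (Fin n)) : Prop where
  /-- every `G n` is a random graph -/
  measurable : ∀ (n : ℕ) (A : Set (SimpleGraph (Fin n))), MeasurableSet (G n ⁻¹' A)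
  /-- uniform sparsity: the degree `D n` of a uniformly chosen vertex of `G n` converges in
  distribution to a random variable `D` (with law `ν` and finite mean), and the mean of `D n`
  converges to the mean of `D` -/
  sparse : ∃ ν : Measure ℕ, IsProbabilityMeasure ν ∧ Integrable (fun k : ℕ => (k : ℝ)) ν ∧
    (∀ k : ℕ, Tendsto (fun n => ∫ ω, frac (fun v => deg (G n ω) v = k) ∂P n) atTop
      (𝓝 (ν.real {k}))) ∧
    Tendsto (fun n => ∫ ω, (∑ v, (deg (G n ω) v : ℝ)) / n ∂P n) atTop (𝓝 (∫ k : ℕ, (k : ℝ) ∂ν))
  /-- local convergence in probability to a random rooted graph which is almost surely a tree -/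
  localLimit : ∃ X : RandomRooted, (∀ᵐ ω ∂X.μ, (X.T ω).IsTree) ∧
    ∀ (r : ℕ), 1 ≤ r → ∀ (m : ℕ) (H : SimpleGraph (Fin m)) (o : Fin m),
      TendstoInProb P (fun n ω => frac (fun v => BallIso (G n ω) v r H o))
        (X.μ.real {ω | BallIso (X.T ω) (X.root ω) r H o})

end Pool.Agent.Lib.MP_a763a9_pr.H59
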