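import Pool.Agent.Lib.MP_a763a9_pr.H59.Reveal

/-!
The optimal edge table for given marginals: existence, optimality, the dual formula,
supermodularity and Lipschitz bounds.
-/

set_option autoImplicit false
set_option linter.unusedVariables false

namespace Pool.Agent.Lib.MP_a763a9_pr.H59

open Real

/-- `x` is the optimal table for marginals `a`, `b`. -/
structure Opt (β a b x : ℝ) : Prop where
  p11 : 0 < x
  p10 : 0 < a - x
  p01 : 0 < b - x
  p00 : 0 < 1 - a - b + x
  cov : 0 ≤ x - a * b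
  odds : log x + log (1 - a - b + x) - log (a - x) - log (b - x) = 4 * β

lemma Opt.tab {β a b x : ℝ} (h : Opt β a b x) : Tab a b x :=
  ⟨h.p11.le, h.p10.le, h.p01.le, h.p00.le⟩

lemma Opt.symm {β a b x : ℝ} (h : Opt β a b x) : Opt β b a x := by
  have e : 1 - b - a + x = 1 - a - b + x := by ring
  refine ⟨h.p11, h.p01, h.p10, ?_, ?_, ?_⟩
  · rw [e]; exact h.p00
  · have := h.cov; linarith
  · rw [e]; have := h.odds; linarith

lemma exists_opt {β a b : ℝ} (hβ : 0 ≤ β) (ha : 0 < a) (ha1 : a < 1) (hb : 0 < b) (hb1 : b < 1) :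
    ∃ x, Opt β a b x := by
  set f : ℝ → ℝ := fun x => x * (1 - a - b + x) - exp (4 * β) * ((a - x) * (b - x)) with hf
  have hc : Continuous f := by rw [hf]; fun_prop
  have h4 : 1 ≤ exp (4 * β) := one_le_exp (by linarith)
  have hab : a * b ≤ min a b := le_min (by nlinarith) (by nlinarith)
  have h0 : f (a * b) ≤ 0 := by
    have : f (a * b) = a * b * ((1 - a) * (1 - b)) * (1 - exp (4 * β)) := by rw [hf]; ring
    rw [this]
    have h1 : 0 ≤ a * b * ((1 - a) * (1 - b)) := by
      have := mul_pos ha hb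
      have := mul_pos (sub_pos.mpr ha1) (sub_pos.mpr hb1)
      positivity
    nlinarith
  have h1 : 0 ≤ f (min a b) := by
    rcases min_choice a b with h | h
    · rw [h]; simp only [hf, sub_self, zero_mul, mul_zero, sub_zero]; nlinarith
    · rw [h]; simp only [hf, sub_self, mul_zero, sub_zero]; nlinarith
  obtain ⟨x, ⟨hx0, hx1⟩, hx⟩ := intermediate_value_Icc hab hc.continuousOn
    (show (0:ℝ) ∈ Set.Icc (f (a * b)) (f (min a b)) from ⟨h0, h1⟩)
  have hxa := hx1.trans (min_le_left _ _)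
  have hxb := hx1.trans (min_le_right _ _)
  have hx' : x * (1 - a - b + x) = exp (4 * β) * ((a - x) * (b - x)) := by
    simp only [hf] at hx; linarith
  have hxpos : 0 < x := lt_of_lt_of_le (mul_pos ha hb) hx0
  have h00 : 0 < 1 - a - b + x := by
    have : 0 < (1 - a) * (1 - b) := mul_pos (by linarith) (by linarith)
    nlinarith
  have hprod : 0 < exp (4 * β) * ((a - x) * (b - x)) := by rw [← hx']; exact mul_pos hxpos h00
  have hprod' : 0 < (a - x) * (b - x) := pos_of_mul_pos_right hprod (exp_pos _).le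
  have ha' : 0 < a - x := by
    rcases (sub_nonneg.mpr hxa).eq_or_lt with h | h
    · rw [← h] at hprod'; simp at hprod'
    · exact h
  have hb' : 0 < b - x := by
    rcases (sub_nonneg.mpr hxb).eq_or_lt with h | h
    · rw [← h] at hprod'; simp at hprod'
    · exact h
  refine ⟨x, hxpos, ha', hb', h00, by linarith, ?_⟩
  have := congrArg log hx'
  rw [log_mul hxpos.ne' h00.ne', log_mul (exp_pos _).ne' hprod'.ne', log_exp,
    log_mul ha'.ne' hb'.ne'] at this
  linarith

lemma negMulLog_lt {p s : ℝ} (hp : 0 ≤ p) (hs : 0 < s) (hne : p ≠ s) :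
    negMulLog p < -p * log s + (s - p) := by
  rcases hp.eq_or_lt with h | h
  · rw [← h]; simpa using hs
  · unfold negMulLog
    have h1 : log (s / p) < s / p - 1 := log_lt_sub_one_of_pos (div_pos hs h) (by
      intro hc; rw [div_eq_one_iff_eq h.ne'] at hc; exact hne hc.symm)
    rw [log_div hs.ne' h.ne'] at h1
    have h2 : p * (log s - log p) < p * (s / p - 1) := mul_lt_mul_of_pos_left h1 h
    have h3 : p * (s / p - 1) = s - p := by field_simp
    rw [h3] at h2
    nlinarith

/-- The optimal table strictly maximizes the edge term. -/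
lemma Opt.lt {β a b x y : ℝ} (h : Opt β a b x) (hy : Tab a b y) (hne : y ≠ x) :
    Ke β a b y < Ke β a b x := by
  have h1 := negMulLog_lt hy.h11 h.p11 hne
  have h2 := negMulLog_le hy.h10 h.p10
  have h3 := negMulLog_le hy.h01 h.p01
  have h4 := negMulLog_le hy.h00 h.p00
  have ho := h.odds
  unfold Ke S2
  have e1 : negMulLog x = -(x * log x) := by unfold negMulLog; ring
  have e2 : negMulLog (a - x) = -((a - x) * log (a - x)) := by unfold negMulLog; ring
  have e3 : negMulLog (b - x) = -((b - x) * log (b - x)) := by unfold negMulLog; ring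
  have e4 : negMulLog (1 - a - b + x) = -((1 - a - b + x) * log (1 - a - b + x)) := by
    unfold negMulLog; ring
  rw [e1, e2, e3, e4]
  have hβ : β * (1 - 2 * a - 2 * b + 4 * y) =
      β * (1 - 2 * a - 2 * b + 4 * x) + (4 * β) * (y - x) := by ring
  rw [hβ, ← ho]
  nlinarith

lemma Opt.le {β a b x y : ℝ} (h : Opt β a b x) (hy : Tab a b y) :
    Ke β a b y ≤ Ke β a b x := by
  by_cases hne : y = x
  · rw [hne]
  · exact (h.lt hy hne).le

/-- The log partition function of a pair of bits. -/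
noncomputable def Lam (β s t : ℝ) : ℝ := log (1 + exp s + exp t + exp (s + t + 4 * β))

lemma Lam_arg_pos (β s t : ℝ) : 0 < 1 + exp s + exp t + exp (s + t + 4 * β) := by positivity

/-- The dual bound. -/
lemma dual_le {β a b y : ℝ} (hy : Tab a b y) (s t : ℝ) :
    S2 a b y + 4 * β * y ≤ Lam β s t - s * a - t * b := by
  have hZ := Lam_arg_pos β s t
  set Z := 1 + exp s + exp t + exp (s + t + 4 * β) with hZd
  have h1 := negMulLog_le hy.h11 (div_pos (exp_pos (s + t + 4 * β)) hZ)
  have h2 := negMulLog_le hy.h10 (div_pos (exp_pos s) hZ)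
  have h3 := negMulLog_le hy.h01 (div_pos (exp_pos t) hZ)
  have h4 := negMulLog_le hy.h00 (div_pos one_pos hZ)
  rw [log_div (exp_pos _).ne' hZ.ne', log_exp] at h1 h2 h3
  rw [log_div one_ne_zero hZ.ne', log_one] at h4
  have hs : exp (s + t + 4 * β) / Z + exp s / Z + exp t / Z + 1 / Z = 1 := by
    rw [← add_div, ← add_div, ← add_div, div_eq_one_iff_eq hZ.ne', hZd]; ring
  unfold S2 Lam
  rw [← hZd]
  linarith

lemma Opt.dual_eq {β a b x : ℝ} (h : Opt β a b x) :
    S2 a b x + 4 * β * x = Lam β (log ((a - x) / (1 - a - b + x))) (log ((b - x) / (1 - a - b + x)))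
      - log ((a - x) / (1 - a - b + x)) * a - log ((b - x) / (1 - a - b + x)) * b := by
  have h00 := h.p00
  have h10 := h.p10
  have h01 := h.p01
  have h11 := h.p11
  have ho := h.odds
  unfold Lam
  have hx : exp (4 * β) = x * (1 - a - b + x) / ((a - x) * (b - x)) := by
    rw [← ho, exp_sub, exp_sub, exp_add, exp_log h11, exp_log h00, exp_log h10, exp_log h01]
    field_simp
  have e : 1 + exp (log ((a - x) / (1 - a - b + x))) + exp (log ((b - x) / (1 - a - b + x))) +
      exp (log ((a - x) / (1 - a - b + x)) + log ((b - x) / (1 - a - b + x)) + 4 * β) =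
      1 / (1 - a - b + x) := by
    rw [exp_add, exp_add, exp_log (div_pos h10 h00), exp_log (div_pos h01 h00), hx]
    field_simp
    ring
  rw [e, log_div one_ne_zero h00.ne', log_one, log_div h10.ne' h00.ne', log_div h01.ne' h00.ne']
  unfold S2 negMulLog
  rw [← ho]
  ring

lemma Opt.cell_bounds {β a b x η : ℝ} (h : Opt β a b x) (hβ : 0 ≤ β) (hη : 0 < η)
    (ha : η ≤ a) (ha1 : η ≤ 1 - a) (hb : η ≤ b) (hb1 : η ≤ 1 - b) :
    exp (-(4 * β)) * η ^ 4 ≤ a - x ∧ exp (-(4 * β)) * η ^ 4 ≤ b - x ∧ η ^ 2 ≤ 1 - a - b + x ∧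
      η ^ 2 ≤ x := by
  have h11 : η ^ 2 ≤ x := by
    have := h.cov
    nlinarith [mul_le_mul ha hb hη.le (by linarith)]
  have h00 : η ^ 2 ≤ 1 - a - b + x := by
    have := h.cov
    nlinarith [mul_le_mul ha1 hb1 hη.le (by linarith)]
  have hx : exp (-(4 * β)) * (x * (1 - a - b + x)) = (a - x) * (b - x) := by
    have h10 := h.p10
    have h01 := h.p01
    rw [← h.odds, neg_sub, exp_sub, exp_sub, exp_add, exp_log h.p11, exp_log h.p00,
      exp_log h.p10, exp_log h.p01]
    have := h.p00.ne'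
    have := h.p11.ne'
    field_simp
  have hm : exp (-(4 * β)) * η ^ 4 ≤ (a - x) * (b - x) := by
    rw [← hx]
    refine mul_le_mul_of_nonneg_left ?_ (exp_pos _).le
    calc η ^ 4 = η ^ 2 * η ^ 2 := by ring
      _ ≤ _ := mul_le_mul h11 h00 (by positivity) h.p11.le
  have h1 := h.p10
  have h2 := h.p01
  have h3 := h.p00
  have h4 := h.p11
  refine ⟨?_, ?_, h00, h11⟩
  · refine hm.trans ?_
    nlinarith
  · refine hm.trans ?_
    nlinarith

/-- The optimal value of the edge term. -/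
noncomputable def Kb (β a b : ℝ) : ℝ :=
  open Classical in if h : ∃ x, Opt β a b x then Ke β a b h.choose else 0

lemma Kb_eq {β a b x : ℝ} (h : Opt β a b x) : Kb β a b = Ke β a b x := by
  have hex : ∃ x, Opt β a b x := ⟨x, h⟩
  unfold Kb
  rw [dif_pos hex]
  exact le_antisymm (h.le hex.choose_spec.tab) (hex.choose_spec.le h.tab)

lemma Ke_comm (β a b x : ℝ) : Ke β a b x = Ke β b a x := by
  unfold Ke; rw [S2_comm]; ring

lemma Ke_le_Kb {β a b y : ℝ} (hβ : 0 ≤ β) (ha : 0 < a) (ha1 : a < 1) (hb : 0 < b) (hb1 : b < 1)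
    (hy : Tab a b y) : Ke β a b y ≤ Kb β a b := by
  obtain ⟨x, hx⟩ := exists_opt hβ ha ha1 hb hb1
  rw [Kb_eq hx]; exact hx.le hy

lemma Kb_comm {β a b : ℝ} (hβ : 0 ≤ β) (ha : 0 < a) (ha1 : a < 1) (hb : 0 < b) (hb1 : b < 1) :
    Kb β a b = Kb β b a := by
  obtain ⟨x, hx⟩ := exists_opt hβ ha ha1 hb hb1
  rw [Kb_eq hx, Kb_eq hx.symm, Ke_comm]

lemma exp_supermod {c x x' y y' : ℝ} (hc : 1 ≤ c) (hx : 0 < x) (hy : 0 < y) (hxx : x ≤ x')
    (hyy : y ≤ y') : (1 + x' + y + x' * y * c) * (1 + x + y' + x * y' * c) ≤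
      (1 + x + y + x * y * c) * (1 + x' + y' + x' * y' * c) := by
  have : 0 ≤ (c - 1) * ((x' - x) * (y' - y)) :=
    mul_nonneg (by linarith) (mul_nonneg (by linarith) (by linarith))
  nlinarith

lemma Lam_supermod {β s s' t t' : ℝ} (hβ : 0 ≤ β) (hs : s ≤ s') (ht : t ≤ t') :
    Lam β s' t + Lam β s t' ≤ Lam β s t + Lam β s' t' := by
  unfold Lam
  rw [← log_mul (Lam_arg_pos _ _ _).ne' (Lam_arg_pos _ _ _).ne',
    ← log_mul (Lam_arg_pos _ _ _).ne' (Lam_arg_pos _ _ _).ne']
  refine log_le_log (mul_pos (Lam_arg_pos _ _ _) (Lam_arg_pos _ _ _)) ?_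
  simp only [exp_add]
  exact exp_supermod (one_le_exp (by linarith)) (exp_pos s) (exp_pos t)
    (exp_le_exp.mpr hs) (exp_le_exp.mpr ht)

/-- The optimal edge term is supermodular. -/
theorem Kb_supermod {β a a' b b' : ℝ} (hβ : 0 ≤ β) (ha : 0 < a) (ha1 : a' < 1) (hb : 0 < b)
    (hb1 : b' < 1) (haa : a ≤ a') (hbb : b ≤ b') :
    Kb β a' b + Kb β a b' ≤ Kb β a b + Kb β a' b' := by
  obtain ⟨x, hx⟩ := exists_opt hβ ha (by linarith) hb (by linarith)
  obtain ⟨x', hx'⟩ := exists_opt (a := a') (b := b') hβ (by linarith) ha1 (by linarith) hb1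
  obtain ⟨y, hy⟩ := exists_opt (a := a') (b := b) hβ (by linarith) ha1 hb (by linarith)
  obtain ⟨y', hy'⟩ := exists_opt (a := a) (b := b') hβ ha (by linarith) (by linarith) hb1
  rw [Kb_eq hx, Kb_eq hx', Kb_eq hy, Kb_eq hy']
  have d := hx.dual_eq
  have d' := hx'.dual_eq
  set s := log ((a - x) / (1 - a - b + x))
  set t := log ((b - x) / (1 - a - b + x))
  set s' := log ((a' - x') / (1 - a' - b' + x'))
  set t' := log ((b' - x') / (1 - a' - b' + x'))
  have e := dual_le (β := β) hy.tab (max s s') (min t t')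
  have e' := dual_le (β := β) hy'.tab (min s s') (max t t')
  have hL : Lam β (max s s') (min t t') + Lam β (min s s') (max t t') ≤
      Lam β s t + Lam β s' t' := by
    rcases le_total s s' with h | h <;> rcases le_total t t' with g | g
    · rw [max_eq_right h, min_eq_left g, min_eq_left h, max_eq_right g]
      exact Lam_supermod hβ h g
    · rw [max_eq_right h, min_eq_right g, min_eq_left h, max_eq_left g]
      linarith
    · rw [max_eq_left h, min_eq_left g, min_eq_right h, max_eq_right g]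
    · rw [max_eq_left h, min_eq_right g, min_eq_right h, max_eq_left g]
      have := Lam_supermod hβ h g
      linarith
  have hS : s * a + s' * a' ≤ max s s' * a' + min s s' * a := by
    rcases le_total s s' with h | h
    · rw [max_eq_right h, min_eq_left h]; linarith
    · rw [max_eq_left h, min_eq_right h]; nlinarith
  have hT : t * b + t' * b' ≤ min t t' * b + max t t' * b' := by
    rcases le_total t t' with h | h
    · rw [max_eq_right h, min_eq_left h]
    · rw [max_eq_left h, min_eq_right h]; nlinarith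
  unfold Ke
  linarith

/-- The Lipschitz constant. -/
noncomputable def Lc (β η : ℝ) : ℝ := 4 * β - 4 * log η

lemma log_ratio_bound {β η u v : ℝ} (hβ : 0 ≤ β) (hη : 0 < η) (hη1 : η ≤ 1)
    (hu : exp (-(4 * β)) * η ^ 4 ≤ u) (hu1 : u ≤ 1) (hv : η ^ 2 ≤ v) (hv1 : v ≤ 1) :
    |log (u / v)| ≤ Lc β η := by
  have h1 : 0 < exp (-(4 * β)) * η ^ 4 := by positivity
  have hu0 : 0 < u := lt_of_lt_of_le h1 hu
  have hv0 : 0 < v := lt_of_lt_of_le (by positivity) hv
  have hl : log η ≤ 0 := log_nonpos hη.le hη1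
  rw [log_div hu0.ne' hv0.ne', abs_le]
  have a1 := log_le_log h1 hu
  rw [log_mul (exp_pos _).ne' (by positivity), log_exp, log_pow] at a1
  have a2 := log_nonpos hu0.le hu1
  have a3 := log_le_log (by positivity) hv
  rw [log_pow] at a3
  have a4 := log_nonpos hv0.le hv1
  unfold Lc
  push_cast at a1 a3
  constructor <;> linarith

lemma Kb_lip_aux {β η a b a' b' : ℝ} (hβ : 0 ≤ β) (hη : 0 < η)
    (ha : η ≤ a) (ha1 : η ≤ 1 - a) (hb : η ≤ b) (hb1 : η ≤ 1 - b)
    (ha' : η ≤ a') (ha1' : η ≤ 1 - a') (hb' : η ≤ b') (hb1' : η ≤ 1 - b') :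
    (Kb β a b + S1 a + S1 b) - (Kb β a' b' + S1 a' + S1 b') ≤
      (2 * β + Lc β η) * (|a - a'| + |b - b'|) := by
  obtain ⟨x, hx⟩ := exists_opt (a := a) (b := b) hβ (by linarith) (by linarith) (by linarith)
    (by linarith)
  obtain ⟨x', hx'⟩ := exists_opt (a := a') (b := b') hβ (by linarith) (by linarith) (by linarith)
    (by linarith)
  rw [Kb_eq hx, Kb_eq hx']
  have d' := hx'.dual_eq
  obtain ⟨c1, c2, c3, c4⟩ := hx'.cell_bounds hβ hη ha' ha1' hb' hb1'
  have := hx'.p10
  have := hx'.p01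
  have := hx'.p00
  have := hx'.p11
  have hs := log_ratio_bound hβ hη (by linarith) c1 (by linarith) c3 (by linarith)
  have ht := log_ratio_bound hβ hη (by linarith) c2 (by linarith) c3 (by linarith)
  set s' := log ((a' - x') / (1 - a' - b' + x'))
  set t' := log ((b' - x') / (1 - a' - b' + x'))
  have e := dual_le (β := β) hx.tab s' t'
  have g1 : s' * (a' - a) ≤ Lc β η * |a - a'| := by
    refine (le_abs_self _).trans ?_
    rw [abs_mul, abs_sub_comm a' a]
    exact mul_le_mul_of_nonneg_right hs (abs_nonneg _)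
  have g2 : t' * (b' - b) ≤ Lc β η * |b - b'| := by
    refine (le_abs_self _).trans ?_
    rw [abs_mul, abs_sub_comm b' b]
    exact mul_le_mul_of_nonneg_right ht (abs_nonneg _)
  have g3 : 2 * β * (a' - a) ≤ 2 * β * |a - a'| := by
    rw [abs_sub_comm a a']
    exact mul_le_mul_of_nonneg_left (le_abs_self _) (by linarith)
  have g4 : 2 * β * (b' - b) ≤ 2 * β * |b - b'| := by
    rw [abs_sub_comm b b']
    exact mul_le_mul_of_nonneg_left (le_abs_self _) (by linarith)
  unfold Ke
  nlinarith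

lemma Kb_lip {β η a b a' b' : ℝ} (hβ : 0 ≤ β) (hη : 0 < η)
    (ha : η ≤ a) (ha1 : η ≤ 1 - a) (hb : η ≤ b) (hb1 : η ≤ 1 - b)
    (ha' : η ≤ a') (ha1' : η ≤ 1 - a') (hb' : η ≤ b') (hb1' : η ≤ 1 - b') :
    |(Kb β a b + S1 a + S1 b) - (Kb β a' b' + S1 a' + S1 b')| ≤
      (2 * β + Lc β η) * (|a - a'| + |b - b'|) := by
  rw [abs_le]
  constructor
  · have := Kb_lip_aux hβ hη ha' ha1' hb' hb1' ha ha1 hb hb1
    rw [abs_sub_comm a' a, abs_sub_comm b' b] at this
    linarith
  · exact Kb_lip_aux hβ hη ha ha1 hb hb1 ha' ha1' hb' hb1'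

lemma S1_lip_aux {η a a' : ℝ} (hη : 0 < η) (ha : η ≤ a) (ha1 : η ≤ 1 - a) (ha' : η ≤ a')
    (ha1' : η ≤ 1 - a') : S1 a - S1 a' ≤ (-log η) * |a - a'| := by
  have h1 := negMulLog_le (p := a) (s := a') (by linarith) (by linarith)
  have h2 := negMulLog_le (p := 1 - a) (s := 1 - a') (by linarith) (by linarith)
  have e1 : S1 a' = -(a' * log a') - (1 - a') * log (1 - a') := by unfold S1 negMulLog; ring
  rw [e1]
  unfold S1
  have l1 : log η ≤ log a' := log_le_log hη ha'
  have l2 : log a' ≤ 0 := log_nonpos (by linarith) (by linarith)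
  have l3 : log η ≤ log (1 - a') := log_le_log hη ha1'
  have l4 : log (1 - a') ≤ 0 := log_nonpos (by linarith) (by linarith)
  have h3 : (a' - a) * (log a' - log (1 - a')) ≤ (-log η) * |a - a'| := by
    refine (le_abs_self _).trans ?_
    rw [abs_mul, abs_sub_comm a' a, mul_comm]
    refine mul_le_mul_of_nonneg_right ?_ (abs_nonneg _)
    rw [abs_le]; constructor <;> linarith
  linarith

lemma S1_lip {η a a' : ℝ} (hη : 0 < η) (ha : η ≤ a) (ha1 : η ≤ 1 - a) (ha' : η ≤ a')
    (ha1' : η ≤ 1 - a') : |S1 a - S1 a'| ≤ (-log η) * |a - a'| := by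
  rw [abs_le]
  constructor
  · have := S1_lip_aux hη ha' ha1' ha ha1
    rw [abs_sub_comm a' a] at this
    linarith
  · exact S1_lip_aux hη ha ha1 ha' ha1'

lemma S2_prod {a b : ℝ} : S2 a b (a * b) = S1 a + S1 b := by
  have e1 : a - a * b = a * (1 - b) := by ring
  have e2 : b - a * b = (1 - a) * b := by ring
  have e3 : 1 - a - b + a * b = (1 - a) * (1 - b) := by ring
  unfold S2 S1
  rw [e1, e2, e3, negMulLog_mul, negMulLog_mul, negMulLog_mul, negMulLog_mul]
  ring

lemma Ke_prod {β a b : ℝ} : Ke β a b (a * b) = β * ((1 - 2 * a) * (1 - 2 * b)) := by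
  unfold Ke; rw [S2_prod]; ring

lemma tab_prod {a b : ℝ} (ha : 0 ≤ a) (ha1 : a ≤ 1) (hb : 0 ≤ b) (hb1 : b ≤ 1) :
    Tab a b (a * b) := by
  refine ⟨mul_nonneg ha hb, ?_, ?_, ?_⟩
  · nlinarith
  · nlinarith
  · nlinarith

lemma tab_zero_left {b x : ℝ} (h : Tab 0 b x) : x = 0 * b := by
  have := h.h11; have := h.h10; linarith

lemma tab_one_left {b x : ℝ} (h : Tab 1 b x) : x = 1 * b := by
  have := h.h00; have := h.h01; linarith

lemma tab_degen_left {a b x : ℝ} (h : Tab a b x) (ha : a = 0 ∨ a = 1) : x = a * b := by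
  rcases ha with rfl | rfl
  · exact tab_zero_left h
  · exact tab_one_left h

lemma tab_degen_right {a b x : ℝ} (h : Tab a b x) (hb : b = 0 ∨ b = 1) : x = a * b := by
  rw [mul_comm]; exact tab_degen_left h.symm hb

end Pool.Agent.Lib.MP_a763a9_pr.H59
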