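import Mathlib

/-!
Elementary facts on the entropies of one bit and of a pair of bits.
-/

set_option autoImplicit false

namespace Pool.Agent.Lib.MP_a763a9_pr.H59

open Real

/-- The entropy of a bit with probability `q`. -/
noncomputable def S1 (q : ℝ) : ℝ := negMulLog q + negMulLog (1 - q)

/-- The entropy of a pair of bits with marginals `a`, `b` and `P(both) = x`. -/
noncomputable def S2 (a b x : ℝ) : ℝ :=
  negMulLog x + negMulLog (a - x) + negMulLog (b - x) + negMulLog (1 - a - b + x)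

/-- `u log ((u+v)/u) + v log ((u+v)/v)`. -/
noncomputable def gf (u v : ℝ) : ℝ := negMulLog u + negMulLog v - negMulLog (u + v)

lemma S2_eq (a b x : ℝ) : S2 a b x = gf x (a - x) + gf (b - x) (1 - a - b + x) + S1 a := by
  unfold S2 gf S1
  have h1 : x + (a - x) = a := by ring
  have h2 : b - x + (1 - a - b + x) = 1 - a := by ring
  rw [h1, h2]; ring

lemma S2_comm (a b x : ℝ) : S2 a b x = S2 b a x := by
  unfold S2
  have : 1 - a - b + x = 1 - b - a + x := by ring
  rw [this]; ring

lemma S1_nonneg {q : ℝ} (h0 : 0 ≤ q) (h1 : q ≤ 1) : 0 ≤ S1 q :=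
  add_nonneg (negMulLog_nonneg h0 h1) (negMulLog_nonneg (by linarith) (by linarith))

lemma S1_zero : S1 0 = 0 := by simp [S1]

lemma S1_one : S1 1 = 0 := by simp [S1]

/-- Gibbs inequality: `- p log p ≤ - p log s + (s - p)`. -/
lemma negMulLog_le {p s : ℝ} (hp : 0 ≤ p) (hs : 0 < s) :
    negMulLog p ≤ -p * log s + (s - p) := by
  rcases hp.eq_or_lt with h | h
  · rw [← h]; simp; exact hs.le
  · unfold negMulLog
    have h1 : log (s / p) ≤ s / p - 1 := log_le_sub_one_of_pos (div_pos hs h)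
    rw [log_div hs.ne' h.ne'] at h1
    have h2 : p * (log s - log p) ≤ p * (s / p - 1) := mul_le_mul_of_nonneg_left h1 h.le
    have h3 : p * (s / p - 1) = s - p := by field_simp
    rw [h3] at h2
    nlinarith

lemma S1_le_log_two {q : ℝ} (h0 : 0 ≤ q) (h1 : q ≤ 1) : S1 q ≤ log 2 := by
  have a := negMulLog_le h0 (show (0:ℝ) < 1/2 by norm_num)
  have b := negMulLog_le (show 0 ≤ 1 - q by linarith) (show (0:ℝ) < 1/2 by norm_num)
  unfold S1
  have : log (1/2 : ℝ) = - log 2 := by rw [one_div, log_inv]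
  rw [this] at a b
  nlinarith

/-- Gibbs bound on `gf` by a linear function. -/
lemma gf_le_lin {u v s t : ℝ} (hu : 0 ≤ u) (hv : 0 ≤ v) (hs : 0 < s) (ht : 0 < t)
    (hst : s + t = 1) : gf u v ≤ -u * log s - v * log t := by
  unfold gf
  rcases (add_nonneg hu hv).eq_or_lt with h | h
  · have h1 : u = 0 := by linarith
    have h2 : v = 0 := by linarith
    simp [h1, h2]
  · have a := negMulLog_le hu (mul_pos h hs)
    have b := negMulLog_le hv (mul_pos h ht)
    rw [log_mul h.ne' hs.ne'] at a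
    rw [log_mul h.ne' ht.ne'] at b
    unfold negMulLog at a b ⊢
    nlinarith

lemma gf_eq_lin {u v : ℝ} (hu : 0 < u) (hv : 0 < v) :
    gf u v = -u * log (u / (u + v)) - v * log (v / (u + v)) := by
  have h := add_pos hu hv
  unfold gf negMulLog
  rw [log_div hu.ne' h.ne', log_div hv.ne' h.ne']
  ring

lemma gf_zero_left (v : ℝ) : gf 0 v = 0 := by simp [gf]

lemma gf_zero_right (u : ℝ) : gf u 0 = 0 := by simp [gf]

lemma gf_nonneg {u v : ℝ} (hu : 0 ≤ u) (hv : 0 ≤ v) : 0 ≤ gf u v := by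
  rcases hu.eq_or_lt with h | h
  · rw [← h, gf_zero_left]
  rcases hv.eq_or_lt with h' | h'
  · rw [← h', gf_zero_right]
  rw [gf_eq_lin h h']
  have h3 := add_pos h h'
  have h1 : log (u / (u + v)) ≤ 0 := log_nonpos (by positivity) (by rw [div_le_one h3]; linarith)
  have h2 : log (v / (u + v)) ≤ 0 := log_nonpos (by positivity) (by rw [div_le_one h3]; linarith)
  nlinarith

/-- `gf` is concave (two point form with weights `p`, `r`). -/
lemma gf_concave {p r u1 v1 u2 v2 : ℝ} (hp : 0 ≤ p) (hr : 0 ≤ r)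
    (hu1 : 0 ≤ u1) (hv1 : 0 ≤ v1) (hu2 : 0 ≤ u2) (hv2 : 0 ≤ v2) :
    p * gf u1 v1 + r * gf u2 v2 ≤ gf (p * u1 + r * u2) (p * v1 + r * v2) := by
  have hU : 0 ≤ p * u1 + r * u2 := by positivity
  have hV : 0 ≤ p * v1 + r * v2 := by positivity
  rcases hU.eq_or_lt with h | h
  · rw [← h, gf_zero_left]
    have a : p * u1 = 0 := by nlinarith [mul_nonneg hp hu1, mul_nonneg hr hu2]
    have b : r * u2 = 0 := by nlinarith [mul_nonneg hp hu1, mul_nonneg hr hu2]
    have a' : p * gf u1 v1 = 0 := by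
      rcases mul_eq_zero.mp a with h | h <;> simp [h, gf_zero_left]
    have b' : r * gf u2 v2 = 0 := by
      rcases mul_eq_zero.mp b with h | h <;> simp [h, gf_zero_left]
    rw [a', b']; simp
  rcases hV.eq_or_lt with h' | h'
  · rw [← h', gf_zero_right]
    have a : p * v1 = 0 := by nlinarith [mul_nonneg hp hv1, mul_nonneg hr hv2]
    have b : r * v2 = 0 := by nlinarith [mul_nonneg hp hv1, mul_nonneg hr hv2]
    have a' : p * gf u1 v1 = 0 := by
      rcases mul_eq_zero.mp a with h | h <;> simp [h, gf_zero_right]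
    have b' : r * gf u2 v2 = 0 := by
      rcases mul_eq_zero.mp b with h | h <;> simp [h, gf_zero_right]
    rw [a', b']; simp
  rw [gf_eq_lin h h']
  set U := p * u1 + r * u2 with hUd
  set W := p * v1 + r * v2 with hWd
  have hs : 0 < U / (U + W) := by positivity
  have ht : 0 < W / (U + W) := by positivity
  have hst : U / (U + W) + W / (U + W) = 1 := by
    rw [← add_div, div_self (by positivity)]
  have a := mul_le_mul_of_nonneg_left (gf_le_lin hu1 hv1 hs ht hst) hp
  have b := mul_le_mul_of_nonneg_left (gf_le_lin hu2 hv2 hs ht hst) hr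
  calc p * gf u1 v1 + r * gf u2 v2 ≤ p * (-u1 * log (U / (U + W)) - v1 * log (W / (U + W))) +
        r * (-u2 * log (U / (U + W)) - v2 * log (W / (U + W))) := add_le_add a b
    _ = -(p * u1 + r * u2) * log (U / (U + W)) - (p * v1 + r * v2) * log (W / (U + W)) := by ring
    _ = _ := by rw [← hUd, ← hWd]

lemma negMulLog_concave {p r x y : ℝ} (hp : 0 ≤ p) (hr : 0 ≤ r) (hpr : p + r = 1)
    (hx : 0 ≤ x) (hy : 0 ≤ y) :
    p * negMulLog x + r * negMulLog y ≤ negMulLog (p * x + r * y) := by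
  have := concaveOn_negMulLog.2 (show x ∈ Set.Ici (0:ℝ) from hx) (show y ∈ Set.Ici (0:ℝ) from hy)
    hp hr hpr
  simpa using this

lemma S1_concave {p r x y : ℝ} (hp : 0 ≤ p) (hr : 0 ≤ r) (hpr : p + r = 1)
    (hx : 0 ≤ x) (hx1 : x ≤ 1) (hy : 0 ≤ y) (hy1 : y ≤ 1) :
    p * S1 x + r * S1 y ≤ S1 (p * x + r * y) := by
  unfold S1
  have a := negMulLog_concave hp hr hpr hx hy
  have b := negMulLog_concave hp hr hpr (show 0 ≤ 1 - x by linarith) (show 0 ≤ 1 - y by linarith)
  have : p * (1 - x) + r * (1 - y) = 1 - (p * x + r * y) := by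
    calc p * (1 - x) + r * (1 - y) = (p + r) - (p * x + r * y) := by ring
      _ = _ := by rw [hpr]
  rw [this] at b
  linarith

/-- A table of two bits. -/
structure Tab (a b x : ℝ) : Prop where
  h11 : 0 ≤ x
  h10 : 0 ≤ a - x
  h01 : 0 ≤ b - x
  h00 : 0 ≤ 1 - a - b + x

lemma Tab.symm {a b x : ℝ} (h : Tab a b x) : Tab b a x :=
  ⟨h.h11, h.h01, h.h10, by have := h.h00; linarith⟩

lemma Tab.a0 {a b x : ℝ} (h : Tab a b x) : 0 ≤ a := by have := h.h11; have := h.h10; linarith
lemma Tab.a1 {a b x : ℝ} (h : Tab a b x) : a ≤ 1 := by have := h.h01; have := h.h00; linarith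
lemma Tab.b0 {a b x : ℝ} (h : Tab a b x) : 0 ≤ b := h.symm.a0
lemma Tab.b1 {a b x : ℝ} (h : Tab a b x) : b ≤ 1 := h.symm.a1

/-- Concavity of the conditional entropy `S2 - S1`. -/
lemma cond_concave {p r a b x a' b' x' : ℝ} (hp : 0 ≤ p) (hr : 0 ≤ r) (hpr : p + r = 1)
    (h : Tab a b x) (h' : Tab a' b' x') :
    p * (S2 a b x - S1 a) + r * (S2 a' b' x' - S1 a') ≤
      S2 (p * a + r * a') (p * b + r * b') (p * x + r * x') - S1 (p * a + r * a') := by
  rw [S2_eq, S2_eq, S2_eq]
  have e1 := gf_concave hp hr h.h11 h.h10 h'.h11 h'.h10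
  have e2 := gf_concave hp hr h.h01 h.h00 h'.h01 h'.h00
  have i1 : p * (a - x) + r * (a' - x') = p * a + r * a' - (p * x + r * x') := by ring
  have i2 : p * (b - x) + r * (b' - x') = p * b + r * b' - (p * x + r * x') := by ring
  have i3 : p * (1 - a - b + x) + r * (1 - a' - b' + x') =
      1 - (p * a + r * a') - (p * b + r * b') + (p * x + r * x') := by
    calc _ = (p + r) - (p * a + r * a') - (p * b + r * b') + (p * x + r * x') := by ring
      _ = _ := by rw [hpr]
  rw [i1] at e1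
  rw [i2, i3] at e2
  linarith

/-- The information of a bit on a second bit is at most the chi square divergence:
`a` is the mean of the first bit, `p` the probability of the second, `x` of both. -/
lemma info_le {a p x1 x0 : ℝ} (ha : 0 < a) (ha1 : a < 1) (hp : 0 < p) (hp1 : p < 1)
    (hx1 : 0 ≤ x1) (hx11 : x1 ≤ 1) (hx0 : 0 ≤ x0) (hx01 : x0 ≤ 1)
    (hax : a = p * x1 + (1 - p) * x0) :
    S1 a - (p * S1 x1 + (1 - p) * S1 x0) ≤
      (p * (1 - p) * (x1 - x0)) ^ 2 / (a * (1 - a) * (p * (1 - p))) := by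
  -- `- S1 x ≤ x log (x/a) ...`
  have key : ∀ x : ℝ, 0 ≤ x → x ≤ 1 →
      -S1 x ≤ x * log a + (1 - x) * log (1 - a) + (x - a) ^ 2 / (a * (1 - a)) := by
    intro x hx hx'
    -- `x log x ≤ x log a + x (x/a - 1)`
    have h1 : -negMulLog x ≤ x * log a + x * (x / a - 1) := by
      rcases hx.eq_or_lt with h | h
      · rw [← h]; simp
      · have := log_le_sub_one_of_pos (div_pos h ha)
        rw [log_div h.ne' ha.ne'] at this
        unfold negMulLog
        nlinarith [mul_le_mul_of_nonneg_left this hx]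
    have h2 : -negMulLog (1 - x) ≤ (1 - x) * log (1 - a) + (1 - x) * ((1 - x) / (1 - a) - 1) := by
      have h1a : 0 < 1 - a := by linarith
      have h1x : 0 ≤ 1 - x := by linarith
      rcases h1x.eq_or_lt with h | h
      · rw [← h]; simp
      · have := log_le_sub_one_of_pos (div_pos h h1a)
        rw [log_div h.ne' h1a.ne'] at this
        unfold negMulLog
        nlinarith [mul_le_mul_of_nonneg_left this h1x]
    have h3 : x * (x / a - 1) + (1 - x) * ((1 - x) / (1 - a) - 1) =
        (x - a) ^ 2 / (a * (1 - a)) := by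
      have h1a : (1 - a) ≠ 0 := by linarith
      field_simp
      ring
    unfold S1
    linarith
  have k1 := mul_le_mul_of_nonneg_left (key x1 hx1 hx11) hp.le
  have k0 := mul_le_mul_of_nonneg_left (key x0 hx0 hx01) (show 0 ≤ 1 - p by linarith)
  have e : S1 a = -(a * log a) - (1 - a) * log (1 - a) := by unfold S1 negMulLog; ring
  have d1 : x1 - a = (1 - p) * (x1 - x0) := by rw [hax]; ring
  have d0 : x0 - a = -(p * (x1 - x0)) := by rw [hax]; ring
  rw [d1] at k1
  rw [d0] at k0
  have f : p * (((1 - p) * (x1 - x0)) ^ 2 / (a * (1 - a))) +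
      (1 - p) * ((-(p * (x1 - x0))) ^ 2 / (a * (1 - a))) =
      (p * (1 - p) * (x1 - x0)) ^ 2 / (a * (1 - a) * (p * (1 - p))) := by
    have h1a : (1 - a) ≠ 0 := by linarith
    have h1p : (1 - p) ≠ 0 := by linarith
    field_simp
    ring
  have g : p * (x1 * log a + (1 - x1) * log (1 - a)) +
      (1 - p) * (x0 * log a + (1 - x0) * log (1 - a)) = a * log a + (1 - a) * log (1 - a) := by
    rw [hax]; ring
  rw [← f, e]
  linarith

end Pool.Agent.Lib.MP_a763a9_pr.H59
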