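import Pool.Agent.Lib.MP_a763a9_pr.H59.Reveal

/-!
The accumulated far information is small compared with the susceptibility.
-/

set_option autoImplicit false
set_option linter.unusedSectionVars false
set_option linter.unusedVariables false

namespace Pool.Agent.Lib.MP_a763a9_pr.H59

open Finset

variable {V : Type} [Fintype V] [DecidableEq V]
variable {φ : V → Bool → ℝ} {E : Finset (V × V)} {β : ℝ}

/-- Flip the spin at `v`. -/
def flip (v : V) (σ : V → Bool) : V → Bool := Function.update σ v (!(σ v))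

lemma flip_flip (v : V) (σ : V → Bool) : flip v (flip v σ) = σ := by
  unfold flip
  ext x
  by_cases hx : x = v
  · subst hx; simp
  · simp [hx]

lemma flip_self (v : V) (σ : V → Bool) : flip v σ v = !(σ v) := by simp [flip]

lemma flip_ne {v x : V} (h : x ≠ v) (σ : V → Bool) : flip v σ x = σ x := by simp [flip, h]

/-- At most `Δ` edges at every vertex. -/
def DegLe (E : Finset (V × V)) (Δ : ℕ) : Prop :=
  ∀ v, (E.filter fun e => e.1 = v ∨ e.2 = v).card ≤ Δ

lemma sg_prod_le (a b c d : Bool) : sg a * sg b ≤ sg c * sg d + 2 := by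
  cases a <;> cases b <;> cases c <;> cases d <;> simp [sg] <;> norm_num

lemma wgt_le_flip {M : ℝ} {Δ : ℕ} (h : Adm φ) (hβ : 0 ≤ β) (hM : Bdd M φ) (hd : DegLe E Δ)
    {v : V} (hv : Free φ v) (σ : V → Bool) :
    wgt φ E β σ ≤ (M * Real.exp (2 * β * Δ)) * wgt φ E β (flip v σ) := by
  unfold wgt
  have h1 : (∏ x, φ x (σ x)) ≤ M * ∏ x, φ x (flip v σ x) := by
    rw [← mul_prod_erase univ _ (mem_univ v), ← mul_prod_erase univ (fun x => φ x (flip v σ x))
      (mem_univ v)]
    have e : ∏ x ∈ univ.erase v, φ x (flip v σ x) = ∏ x ∈ univ.erase v, φ x (σ x) :=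
      prod_congr rfl fun x hx => by rw [flip_ne (ne_of_mem_erase hx)]
    rw [e, flip_self, ← mul_assoc]
    refine mul_le_mul_of_nonneg_right ?_ (prod_nonneg fun x _ => h.nonneg x _)
    have := hM v hv
    cases σ v
    · exact this.2
    · exact this.1
  have h2 : (∑ e ∈ E, sg (σ e.1) * sg (σ e.2)) ≤
      (∑ e ∈ E, sg (flip v σ e.1) * sg (flip v σ e.2)) + 2 * Δ := by
    have h3 : (∑ e ∈ E, sg (σ e.1) * sg (σ e.2)) ≤
        ∑ e ∈ E, (sg (flip v σ e.1) * sg (flip v σ e.2) +
          (if (e.1 = v ∨ e.2 = v) then 2 else 0)) := by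
      refine sum_le_sum fun e _ => ?_
      split_ifs with he
      · exact sg_prod_le _ _ _ _
      · rw [not_or] at he
        rw [flip_ne he.1, flip_ne he.2]; linarith
    rw [sum_add_distrib, ← sum_filter, sum_const, nsmul_eq_mul] at h3
    have h4 : ((E.filter fun e => e.1 = v ∨ e.2 = v).card : ℝ) ≤ Δ := by exact_mod_cast hd v
    linarith
  have h5 : Real.exp (β * ∑ e ∈ E, sg (σ e.1) * sg (σ e.2)) ≤ Real.exp (2 * β * Δ) *
      Real.exp (β * ∑ e ∈ E, sg (flip v σ e.1) * sg (flip v σ e.2)) := by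
    rw [← Real.exp_add]
    apply Real.exp_le_exp.mpr
    nlinarith [mul_le_mul_of_nonneg_left h2 hβ]
  have hp : 0 ≤ ∏ x, φ x (σ x) := prod_nonneg fun x _ => h.nonneg x _
  calc (∏ x, φ x (σ x)) * Real.exp (β * ∑ e ∈ E, sg (σ e.1) * sg (σ e.2))
      ≤ (M * ∏ x, φ x (flip v σ x)) * (Real.exp (2 * β * Δ) *
      Real.exp (β * ∑ e ∈ E, sg (flip v σ e.1) * sg (flip v σ e.2))) :=
        mul_le_mul h1 h5 (Real.exp_pos _).le (hp.trans h1)
    _ = _ := by ring

lemma Zf_clamp_le {M : ℝ} {Δ : ℕ} (h : Adm φ) (hβ : 0 ≤ β) (hM0 : 0 ≤ M) (hM : Bdd M φ)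
    (hd : DegLe E Δ) {v : V} (hv : Free φ v) (b : Bool) :
    Zf (clamp φ v b) E β ≤ (M * Real.exp (2 * β * Δ)) * Zf (clamp φ v (!b)) E β := by
  unfold Zf
  have e : ∑ σ, wgt (clamp φ v (!b)) E β σ = ∑ σ, wgt (clamp φ v (!b)) E β (flip v σ) :=
    (sum_bij' (fun σ _ => flip v σ) (fun σ _ => flip v σ) (fun _ _ => mem_univ _)
      (fun _ _ => mem_univ _) (fun σ _ => flip_flip v σ) (fun σ _ => flip_flip v σ)
      (fun σ _ => by rw [flip_flip]))
  rw [e, mul_sum]
  refine sum_le_sum fun σ _ => ?_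
  rw [wgt_clamp, wgt_clamp, flip_self]
  by_cases hb : σ v = b
  · rw [if_pos hb, if_pos (by rw [hb])]
    exact wgt_le_flip h hβ hM hd hv σ
  · rw [if_neg hb]
    split_ifs
    · exact mul_nonneg (mul_nonneg hM0 (Real.exp_pos _).le) (wgt_nonneg h _)
    · simp

/-- Marginals of free vertices are bounded away from `0` and `1`. -/
lemma qv_bounds {M : ℝ} {Δ : ℕ} (h : Adm φ) (hβ : 0 ≤ β) (hM0 : 0 ≤ M) (hM : Bdd M φ)
    (hd : DegLe E Δ) {v : V} (hv : Free φ v) :
    1 / (1 + M * Real.exp (2 * β * Δ)) ≤ qv φ E β v ∧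
    1 / (1 + M * Real.exp (2 * β * Δ)) ≤ 1 - qv φ E β v := by
  have hZ := Zf_pos (E := E) (β := β) h
  set K := M * Real.exp (2 * β * Δ) with hK
  have hK0 : 0 ≤ K := mul_nonneg hM0 (Real.exp_pos _).le
  have hT := Zf_clamp_le h hβ hM0 hM hd hv true
  have hF := Zf_clamp_le h hβ hM0 hM hd hv false
  simp only [Bool.not_true, Bool.not_false] at hT hF
  have h1 := Zf_clamp (φ := φ) (E := E) (β := β) v
  have q1 : qv φ E β v = Zf (clamp φ v true) E β / Zf φ E β := qv_eq_pb h v
  have q0 : 1 - qv φ E β v = Zf (clamp φ v false) E β / Zf φ E β := (pb_false h v).symm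
  rw [q0, q1]
  constructor
  · rw [div_le_div_iff₀ (by linarith) hZ]
    nlinarith
  · rw [div_le_div_iff₀ (by linarith) hZ]
    nlinarith

/-- The information is at most a constant times the squared covariance. -/
lemma Jv_le {M : ℝ} {Δ : ℕ} (h : Adm φ) (hβ : 0 ≤ β) (hM0 : 0 ≤ M) (hM : Bdd M φ)
    (hd : DegLe E Δ) {v z : V} (hv : Free φ v) (hz : Free φ z) :
    Jv φ E β z v ≤ (1 + M * Real.exp (2 * β * Δ)) ^ 4 * (cv φ E β v z) ^ 2 := by
  obtain ⟨a0, a1⟩ := qv_bounds h hβ hM0 hM hd hv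
  obtain ⟨p0, p1⟩ := qv_bounds h hβ hM0 hM hd hz
  set K := 1 + M * Real.exp (2 * β * Δ) with hK
  have hK1 : 1 ≤ K := by
    have : 0 ≤ M * Real.exp (2 * β * Δ) := mul_nonneg hM0 (Real.exp_pos _).le
    linarith
  have hK0 : 0 < 1 / K := by positivity
  have hT := hz.adm_clamp h true
  have hF := hz.adm_clamp h false
  have key := info_le (a := qv φ E β v) (p := qv φ E β z)
    (x1 := qv (clamp φ z true) E β v) (x0 := qv (clamp φ z false) E β v)
    (by linarith) (by linarith) (by linarith) (by linarith)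
    (qv_nonneg hT v) (qv_le_one hT v) (qv_nonneg hF v) (qv_le_one hF v) (by
      rw [← pb_false h z, qv_eq_pb (E := E) (β := β) h z]
      exact qv_total h z v)
  have e1 : S1 (qv φ E β v) - (qv φ E β z * S1 (qv (clamp φ z true) E β v) +
      (1 - qv φ E β z) * S1 (qv (clamp φ z false) E β v)) = Jv φ E β z v := by
    unfold Jv
    rw [← pb_false h z, ← qv_eq_pb h z]
  have e2 : qv φ E β z * (1 - qv φ E β z) *
      (qv (clamp φ z true) E β v - qv (clamp φ z false) E β v) = cv φ E β v z := by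
    rw [cv_self_clamp h z v, ← pb_false h z, ← qv_eq_pb h z]
  rw [e1, e2] at key
  refine key.trans ?_
  set a := qv φ E β v
  set p := qv φ E β z
  have hD : (1 / K) ^ 4 ≤ a * (1 - a) * (p * (1 - p)) := by
    have x1 : (1 / K) * (1 / K) ≤ a * (1 - a) :=
      mul_le_mul a0 a1 hK0.le (by linarith)
    have x2 : (1 / K) * (1 / K) ≤ p * (1 - p) :=
      mul_le_mul p0 p1 hK0.le (by linarith)
    calc (1 / K) ^ 4 = ((1 / K) * (1 / K)) * ((1 / K) * (1 / K)) := by ring
      _ ≤ _ := mul_le_mul x1 x2 (by positivity) ((by positivity : (0:ℝ) ≤ 1 / K * (1 / K)).trans x1)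
  have hDpos : 0 < a * (1 - a) * (p * (1 - p)) := lt_of_lt_of_le (by positivity) hD
  rw [div_le_iff₀ hDpos]
  have : 1 ≤ K ^ 4 * (a * (1 - a) * (p * (1 - p))) := by
    calc (1 : ℝ) = K ^ 4 * (1 / K) ^ 4 := by
          have : K ≠ 0 := by positivity
          field_simp
      _ ≤ _ := mul_le_mul_of_nonneg_left hD (by positivity)
  calc cv φ E β v z ^ 2 = cv φ E β v z ^ 2 * 1 := by ring
    _ ≤ cv φ E β v z ^ 2 * (K ^ 4 * (a * (1 - a) * (p * (1 - p)))) :=
        mul_le_mul_of_nonneg_left this (by positivity)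
    _ = _ := by ring

/-- The accumulated far information is at most a small multiple of the susceptibility. -/
theorem XX_le_chi {M : ℝ} {Δ ρ : ℕ} (hβ : 0 ≤ β) (hM0 : 0 ≤ M) (hd : DegLe E Δ)
    {far : V → V → Prop} (hS : Shells E far ρ) (hρ : 0 < ρ) {K : ℝ} (hK : 0 < K) (v : V) :
    ∀ (l : List V) (φ : V → Bool → ℝ), Adm φ → Bdd M φ → l.Nodup → (∀ z ∈ l, Free φ z) →
      XX E β far v l φ ≤
        ((1 + M * Real.exp (2 * β * Δ)) ^ 4 * K / ρ) * (∑ y ∈ l.toFinset, cv φ E β v y) +
        (Real.log 2 / K) * chi φ E β v := by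
  classical
  intro l
  set C0 := (1 + M * Real.exp (2 * β * Δ)) ^ 4 with hC0
  have hC0' : 0 ≤ C0 := by positivity
  have hρ' : (0 : ℝ) < ρ := by exact_mod_cast hρ
  have hlog : 0 ≤ Real.log 2 := Real.log_nonneg (by norm_num)
  induction l with
  | nil =>
    intro φ h _ _ _
    have : 0 ≤ chi φ E β v := sum_nonneg fun y _ => cv_nonneg h hβ v y
    simp only [XX, List.toFinset_nil, sum_empty, mul_zero, zero_add]
    positivity
  | cons z l ih =>
    intro φ h hB hn hl
    have hz : Free φ z := hl z (by simp)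
    have hn' := List.nodup_cons.mp hn
    have hlb : ∀ b, ∀ w ∈ l, Free (clamp φ z b) w := fun b w hw =>
      (free_clamp_iff b).mpr ⟨fun e => hn'.1 (e ▸ hw), hl w (List.mem_cons_of_mem _ hw)⟩
    have hchi : 0 ≤ chi φ E β v := sum_nonneg fun y _ => cv_nonneg h hβ v y
    have hsum : 0 ≤ ∑ y ∈ (z :: l).toFinset, cv φ E β v y :=
      sum_nonneg fun y _ => cv_nonneg h hβ v y
    have hXS := XX_le_S1 (E := E) (β := β) (far := far) v (z :: l) φ h hn hl
    have hA : 0 ≤ (C0 * K / ρ) * (∑ y ∈ (z :: l).toFinset, cv φ E β v y) := by positivity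
    by_cases hv : Free φ v
    swap
    · rw [qv_not_free h hv] at hXS
      have : 0 ≤ (Real.log 2 / K) * chi φ E β v := by positivity
      linarith
    by_cases hc : chi φ E β v ≤ K
    swap
    · push Not at hc
      have h1 : S1 (qv φ E β v) ≤ Real.log 2 := S1_le_log_two (qv_nonneg h v) (qv_le_one h v)
      have h2 : Real.log 2 ≤ (Real.log 2 / K) * chi φ E β v := by
        rw [div_mul_eq_mul_div, le_div_iff₀ hK]
        exact mul_le_mul_of_nonneg_left hc.le hlog
      linarith
    -- main case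
    have iT := ih (clamp φ z true) (hz.adm_clamp h true) (hB.clamp z true) hn'.2 (hlb true)
    have iF := ih (clamp φ z false) (hz.adm_clamp h false) (hB.clamp z false) hn'.2 (hlb false)
    have pT := pb_nonneg (E := E) (β := β) h z true
    have pF := pb_nonneg (E := E) (β := β) h z false
    have aT := mul_le_mul_of_nonneg_left iT pT
    have aF := mul_le_mul_of_nonneg_left iF pF
    have hfst : (if far v z then Jv φ E β z v else 0) ≤ (C0 * K / ρ) * cv φ E β v z := by
      have hcv := cv_nonneg (E := E) h hβ v z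
      split_ifs with hf
      · have h1 := Jv_le h hβ hM0 hB hd hv hz
        have h2 := cv_far h hβ hS hf
        have h3 : cv φ E β v z ≤ K / ρ := by
          rw [le_div_iff₀ hρ']; linarith
        calc Jv φ E β z v ≤ C0 * (cv φ E β v z) ^ 2 := h1
          _ = C0 * (cv φ E β v z * cv φ E β v z) := by ring
          _ ≤ C0 * (K / ρ * cv φ E β v z) :=
              mul_le_mul_of_nonneg_left (mul_le_mul_of_nonneg_right h3 hcv) hC0'
          _ = _ := by ring
      · positivity
    have hs1 : pb φ E β z true * (∑ y ∈ l.toFinset, cv (clamp φ z true) E β v y) +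
        pb φ E β z false * (∑ y ∈ l.toFinset, cv (clamp φ z false) E β v y) ≤
        ∑ y ∈ l.toFinset, cv φ E β v y := by
      rw [mul_sum, mul_sum, ← sum_add_distrib]
      exact sum_le_sum fun y _ => cv_clamp_le h hβ z v y
    have hs2 : pb φ E β z true * chi (clamp φ z true) E β v +
        pb φ E β z false * chi (clamp φ z false) E β v ≤ chi φ E β v := by
      unfold chi
      rw [mul_sum, mul_sum, ← sum_add_distrib]
      exact sum_le_sum fun y _ => cv_clamp_le h hβ z v y
    have hcons : ∑ y ∈ (z :: l).toFinset, cv φ E β v y =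
        cv φ E β v z + ∑ y ∈ l.toFinset, cv φ E β v y := by
      rw [List.toFinset_cons, sum_insert (by simpa using hn'.1)]
    rw [hcons]
    show (if far v z then Jv φ E β z v else 0) +
      (pb φ E β z true * XX E β far v l (clamp φ z true) +
       pb φ E β z false * XX E β far v l (clamp φ z false)) ≤ _
    have k1 := mul_le_mul_of_nonneg_left hs1 (show 0 ≤ C0 * K / ρ by positivity)
    have k2 := mul_le_mul_of_nonneg_left hs2 (show 0 ≤ Real.log 2 / K by positivity)
    calc _ ≤ (C0 * K / ρ) * cv φ E β v z +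
        (pb φ E β z true * ((C0 * K / ρ) * (∑ y ∈ l.toFinset, cv (clamp φ z true) E β v y) +
          (Real.log 2 / K) * chi (clamp φ z true) E β v) +
         pb φ E β z false * ((C0 * K / ρ) * (∑ y ∈ l.toFinset, cv (clamp φ z false) E β v y) +
          (Real.log 2 / K) * chi (clamp φ z false) E β v)) := by linarith
      _ = (C0 * K / ρ) * cv φ E β v z +
        (C0 * K / ρ) * (pb φ E β z true * (∑ y ∈ l.toFinset, cv (clamp φ z true) E β v y) +
          pb φ E β z false * (∑ y ∈ l.toFinset, cv (clamp φ z false) E β v y)) +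
        (Real.log 2 / K) * (pb φ E β z true * chi (clamp φ z true) E β v +
          pb φ E β z false * chi (clamp φ z false) E β v) := by ring
      _ ≤ _ := by linarith

/-- `log Z` is at most the Bethe functional of the true marginals plus a small multiple of the
total susceptibility. -/
theorem log_Zf_le_chi {M : ℝ} {Δ ρ : ℕ} (hβ : 0 ≤ β) (hM0 : 0 ≤ M) (hd : DegLe E Δ)
    {far : V → V → Prop} (hS : Shells E far ρ) (hρ : 0 < ρ) {K : ℝ} (hK : 0 < K)
    (hL : ∀ z, ∃ L, Loser E Δ far z L) (h : Adm φ) (hB : Bdd M φ) (hfree : ∀ v, Free φ v) :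
    Real.log (Zf φ E β) ≤ FBm φ E β +
      Δ * ((1 + M * Real.exp (2 * β * Δ)) ^ 4 * K / ρ + Real.log 2 / K) *
        ∑ v, chi φ E β v := by
  have h1 := log_Zf_le hβ hL (univ : Finset V).toList φ h (nodup_toList _)
    (fun v => by simp [hfree v])
  have h2 : ∀ v, XX E β far v (univ : Finset V).toList φ ≤
      ((1 + M * Real.exp (2 * β * Δ)) ^ 4 * K / ρ + Real.log 2 / K) * chi φ E β v := by
    intro v
    have := XX_le_chi hβ hM0 hd hS hρ hK v (univ : Finset V).toList φ h hB (nodup_toList _)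
      (fun z _ => hfree z)
    rw [toList_toFinset] at this
    rw [add_mul]
    exact this
  have h3 := mul_le_mul_of_nonneg_left (sum_le_sum fun v (_ : v ∈ univ) => h2 v)
    (Nat.cast_nonneg (α := ℝ) Δ)
  rw [← mul_sum, ← mul_assoc] at h3
  linarith

end Pool.Agent.Lib.MP_a763a9_pr.H59
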