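import Pool.Agent.Lib.MP_a763a9_pr.H59.Types

/-!
Convergence in probability of the free energy.
-/

set_option autoImplicit false
set_option linter.unusedVariables false
set_option linter.unusedSectionVars false

namespace Pool.Agent.Lib.MP_a763a9_pr.H59

open Finset MeasureTheory Filter Topology

/-- Comparison of truncated graphs. -/
theorem compare_tr {β : ℝ} (hβ : 0 ≤ β) (θ : ℕ → ℝ) (Δ : ℕ) {ε : ℝ} (hε : 0 < ε) :
    ∃ (R ρ : ℕ) (δ : ℝ), 0 < δ ∧ ∀ (V V' : Type) [Fintype V] [LinearOrder V] [Nonempty V]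
      [Fintype V'] [LinearOrder V'] [Nonempty V'] (G : SimpleGraph V) (G' : SimpleGraph V'),
      (∀ r ≤ R, ∀ γ, |freq (nbG (tr G Δ (2 * ρ + 2))) (lb G Δ) r γ -
        freq (nbG (tr G' Δ (2 * ρ + 2))) (lb G' Δ) r γ| ≤ δ) →
      lZ θ (lb G Δ) (edG (tr G Δ (2 * ρ + 2))) β / Fintype.card V ≤
        lZ θ (lb G' Δ) (edG (tr G' Δ (2 * ρ + 2))) β / Fintype.card V' + ε := by
  obtain ⟨R, ρ, δ, hδ, H⟩ := compare hβ θ Δ (Δ + 2) hε
  refine ⟨R, ρ, δ, hδ, ?_⟩
  intro V V' _ _ _ _ _ _ G G' hfr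
  exact H V V' _ _ _ _ _ _ (edg_G _) (edg_G _) (card_nb_tr G Δ _) (card_nb_tr G' Δ _)
    (lb_lt G Δ) (lb_lt G' Δ) (good_of_noShort (card_nb_tr G Δ _) (noShort_tr G Δ _)) hfr

lemma integrable_fun {Ω : Type} [MeasurableSpace Ω] (P : Measure Ω) [IsProbabilityMeasure P]
    {n : ℕ} {G : Ω → SimpleGraph (Fin n)} (hG : ∀ A, MeasurableSet (G ⁻¹' A))
    (F : SimpleGraph (Fin n) → ℝ) : Integrable (fun ω => F (G ω)) P := by
  have hm : Measurable (fun ω => F (G ω)) := fun S _ => hG (F ⁻¹' S)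
  obtain ⟨C, hC⟩ := (Set.finite_range fun H => ‖F H‖).bddAbove
  exact Integrable.of_bound hm.aestronglyMeasurable C
    (Eventually.of_forall fun ω => hC ⟨G ω, rfl⟩)

lemma hiDeg_eq {n : ℕ} (G : SimpleGraph (Fin n)) (Δ : ℕ) :
    hiDeg G Δ / n = (∑ v, (deg G v : ℝ)) / n -
      ∑ k ∈ range (Δ + 1), (k : ℝ) * frac (fun v => deg G v = k) := by
  have hfrac : ∀ k : ℕ, (k : ℝ) * frac (fun v => deg G v = k) =
      (∑ v with deg G v = k, (deg G v : ℝ)) / n := by
    intro k
    unfold frac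
    rw [sum_congr rfl (g := fun _ => (k:ℝ)) (fun v hv => by rw [(mem_filter.mp hv).2]),
      sum_const, nsmul_eq_mul]
    have : Set.ncard {v | deg G v = k} = #{v | deg G v = k} := by
      rw [← Set.ncard_coe_finset]
      congr 1
      ext v; simp
    rw [this]; ring
  rw [sum_congr rfl fun k _ => hfrac k, ← sum_div, ← sub_div]
  congr 1
  have h1 : ∑ k ∈ range (Δ + 1), ∑ v with deg G v = k, (deg G v : ℝ) =
      ∑ v with deg G v ∈ range (Δ + 1), (deg G v : ℝ) := by
    rw [← sum_fiberwise_of_maps_to (s := univ.filter fun v => deg G v ∈ range (Δ + 1))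
      (t := range (Δ + 1)) (g := deg G) (fun v hv => (mem_filter.mp hv).2)]
    refine sum_congr rfl fun q hq => ?_
    rw [filter_filter]
    refine sum_congr ?_ fun _ _ => rfl
    ext v
    simp only [mem_filter, mem_univ, true_and]
    constructor
    · intro h; exact ⟨h ▸ hq, h⟩
    · intro h; exact h.2
  rw [h1, ← sum_filter_add_sum_filter_not (s := univ) (p := fun v => deg G v ∈ range (Δ + 1))
    (f := fun v => (deg G v : ℝ)), add_sub_cancel_left]
  unfold hiDeg
  rw [← sum_filter]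
  refine sum_congr ?_ fun _ _ => rfl
  ext v
  simp

section

variable {Ω : ℕ → Type} [∀ n, MeasurableSpace (Ω n)] {P : ∀ n, Measure (Ω n)}
  [∀ n, IsProbabilityMeasure (P n)] {G : ∀ n, Ω n → SimpleGraph (Fin n)}

lemma sparse_small (h : LocallyTreeLike P G) {δ : ℝ} (hδ : 0 < δ) :
    ∃ Δ : ℕ, ∀ᶠ n in atTop, ∫ ω, hiDeg (G n ω) Δ / n ∂P n ≤ δ := by
  obtain ⟨ν, hν, hint, hk, hmean⟩ := h.sparse
  have hsum : HasSum (fun k : ℕ => (k : ℝ) * ν.real {k}) (∫ k : ℕ, (k : ℝ) ∂ν) := by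
    have h1 := hasSum_integral_iUnion (μ := ν) (f := fun k : ℕ => (k : ℝ)) (s := fun k : ℕ => {k})
      (fun k => measurableSet_singleton k)
      (fun i j hij => by simpa [Function.onFun] using hij)
      (hint.integrableOn)
    have h2 : (⋃ k : ℕ, ({k} : Set ℕ)) = Set.univ := Set.iUnion_of_singleton ℕ
    rw [h2, Measure.restrict_univ] at h1
    refine h1.congr_fun ?_ |> fun h => h
    intro k
    rw [integral_singleton, smul_eq_mul, mul_comm]
  have ht := hsum.tendsto_sum_nat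
  have ht' : ∀ᶠ K in atTop, (∫ k : ℕ, (k : ℝ) ∂ν) - δ / 2 <
      ∑ k ∈ range K, (k : ℝ) * ν.real {k} :=
    ht.eventually_const_lt (by linarith)
  obtain ⟨K, hK⟩ := ht'.exists_forall_of_atTop
  refine ⟨K, ?_⟩
  have hK' := hK (K + 1) (Nat.le_succ K)
  have hlim : Tendsto (fun n => ∫ ω, hiDeg (G n ω) K / n ∂P n) atTop
      (𝓝 ((∫ k : ℕ, (k : ℝ) ∂ν) - ∑ k ∈ range (K + 1), (k : ℝ) * ν.real {k})) := by
    have e : ∀ n, ∫ ω, hiDeg (G n ω) K / n ∂P n =
        ∫ ω, (∑ v, (deg (G n ω) v : ℝ)) / n ∂P n -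
        ∑ k ∈ range (K + 1), (k : ℝ) * ∫ ω, frac (fun v => deg (G n ω) v = k) ∂P n := by
      intro n
      have i1 := integrable_fun (P n) (h.measurable n) (fun H => (∑ v, (deg H v : ℝ)) / n)
      have i2 : ∀ k : ℕ, Integrable (fun ω => (k : ℝ) * frac (fun v => deg (G n ω) v = k)) (P n) :=
        fun k => integrable_fun (P n) (h.measurable n)
          (fun H => (k : ℝ) * frac (fun v => deg H v = k))
      have e1 : (fun ω => hiDeg (G n ω) K / (n : ℝ)) = fun ω => (∑ v, (deg (G n ω) v : ℝ)) / n -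
          ∑ k ∈ range (K + 1), (k : ℝ) * frac (fun v => deg (G n ω) v = k) := by
        funext ω; exact hiDeg_eq _ _
      rw [e1, integral_sub i1 (integrable_finsetSum _ fun k _ => i2 k),
        integral_finsetSum _ fun k _ => i2 k]
      congr 1
      exact sum_congr rfl fun k _ => integral_const_mul _ _
    simp only [e]
    exact hmean.sub (tendsto_finsetSum _ fun k _ => (hk k).const_mul _)
  exact (hlim.eventually_lt_const (by linarith : (∫ k : ℕ, (k : ℝ) ∂ν) -
    ∑ k ∈ range (K + 1), (k : ℝ) * ν.real {k} < δ)).mono fun n hn => hn.le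

/-- The free energies are Cauchy in probability. -/
theorem cauchy_events (h : LocallyTreeLike P G) {β : ℝ} (hβ : 0 ≤ β) (k h' : ℝ) {ε : ℝ}
    (hε : 0 < ε) : ∃ (N : ℕ) (A : ∀ n, Set (Ω n)), (∀ n ≥ N, P n (A n)ᶜ ≤ ENNReal.ofReal ε) ∧
      ∀ n ≥ N, ∀ m ≥ N, ∀ ω ∈ A n, ∀ ω' ∈ A m, Real.log (Z (G n ω) β k h') / n ≤
        Real.log (Z (G m ω') β k h') / m + ε := by
  classical
  -- sparsity
  set ε1 := ε / (8 * (β + |k| + 1)) with hε1
  have hk0 := abs_nonneg k
  have hε1p : 0 < ε1 := by positivity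
  obtain ⟨Δ, hΔ⟩ := sparse_small h (show 0 < ε1 * (ε / 4) by positivity)
  obtain ⟨R, ρ, δ, hδ, hcomp⟩ := compare_tr hβ (fun a => k * a + h') Δ
    (show 0 < ε / 4 by linarith)
  set ℓ := 2 * ρ + 2 with hℓ
  set R' := R + ℓ + 1 with hR'
  set δ1 := min (δ / 6) (ε / (32 * (β * Δ + 1))) with hδ1
  have hβΔ : 0 ≤ β * Δ := mul_nonneg hβ (Nat.cast_nonneg _)
  have hδ1p : 0 < δ1 := lt_min (by linarith) (by positivity)
  obtain ⟨X, hX, hloc⟩ := h.localLimit
  obtain ⟨t, hta, htm⟩ := exists_types X hX R' hδ1p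
  set π : Ty → ℝ := fun q => X.μ.real {ω | HasTy (X.T ω) (X.root ω) R' q} with hπ
  -- the events
  set A1 : ∀ n, Set (Ω n) := fun n => {ω | ε1 ≤ hiDeg (G n ω) Δ / n} with hA1
  set A2 : ∀ n, Ty → Set (Ω n) := fun n q =>
    {ω | δ1 / (#t + 1) < |frac (fun v => HasTy (G n ω) v R' q) - π q|} with hA2
  have hA1le : ∀ᶠ n in atTop, P n (A1 n) ≤ ENNReal.ofReal (ε / 4) := by
    filter_upwards [hΔ] with n hn
    have hi := integrable_fun (P n) (h.measurable n) (fun H => hiDeg H Δ / (n : ℝ))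
    have hm := mul_meas_ge_le_integral_of_nonneg (μ := P n)
      (Eventually.of_forall fun ω => div_nonneg (hiDeg_nonneg (G n ω) Δ) (Nat.cast_nonneg n))
      hi ε1
    have h1 : (P n).real (A1 n) ≤ ε / 4 := by
      have : ε1 * (P n).real (A1 n) ≤ ε1 * (ε / 4) := hm.trans hn
      exact le_of_mul_le_mul_left this hε1p
    rw [← ENNReal.ofReal_toReal (measure_ne_top (P n) (A1 n))]
    exact ENNReal.ofReal_le_ofReal h1
  have hA2le : ∀ᶠ n in atTop, ∑ q ∈ t, P n (A2 n q) ≤ ENNReal.ofReal (ε / 4) := by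
    have h1 : Tendsto (fun n => ∑ q ∈ t, P n (A2 n q)) atTop (𝓝 (∑ q ∈ t, 0)) := by
      refine tendsto_finsetSum _ fun q _ => ?_
      exact hloc R' (by omega) _ _ _ _ (by positivity)
    rw [sum_const_zero] at h1
    exact h1.eventually_le_const (by positivity)
  obtain ⟨N, hN⟩ := ((hA1le.and hA2le).and (eventually_ge_atTop 1)).exists_forall_of_atTop
  refine ⟨N, fun n => {ω | hiDeg (G n ω) Δ / n < ε1 ∧
    ∀ q ∈ t, |frac (fun v => HasTy (G n ω) v R' q) - π q| ≤ δ1 / (#t + 1)}, ?_, ?_⟩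
  · intro n hn
    obtain ⟨⟨h1, h2⟩, _⟩ := hN n hn
    have hsub : {ω | hiDeg (G n ω) Δ / n < ε1 ∧
        ∀ q ∈ t, |frac (fun v => HasTy (G n ω) v R' q) - π q| ≤ δ1 / (#t + 1)}ᶜ ⊆
        A1 n ∪ ⋃ q ∈ t, A2 n q := by
      intro ω hω
      by_contra hcon
      rw [Set.mem_union, not_or] at hcon
      apply hω
      refine ⟨not_le.mp hcon.1, fun q hq => ?_⟩
      by_contra hc
      apply hcon.2
      rw [Set.mem_iUnion₂]
      exact ⟨q, hq, not_le.mp hc⟩
    calc P n _ ≤ P n (A1 n ∪ ⋃ q ∈ t, A2 n q) := measure_mono hsub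
      _ ≤ P n (A1 n) + P n (⋃ q ∈ t, A2 n q) := measure_union_le _ _
      _ ≤ P n (A1 n) + ∑ q ∈ t, P n (A2 n q) := by
        gcongr
        exact measure_biUnion_finset_le _ _
      _ ≤ ENNReal.ofReal (ε / 4) + ENNReal.ofReal (ε / 4) := add_le_add h1 h2
      _ = ENNReal.ofReal (ε / 4 + ε / 4) := (ENNReal.ofReal_add (by linarith) (by linarith)).symm
      _ ≤ ENNReal.ofReal ε := ENNReal.ofReal_le_ofReal (by linarith)
  · -- the comparison on the events
    have key : ∀ n ≥ N, ∀ ω, (hiDeg (G n ω) Δ / n < ε1 ∧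
        ∀ q ∈ t, |frac (fun v => HasTy (G n ω) v R' q) - π q| ≤ δ1 / (#t + 1)) →
        |Real.log (Z (G n ω) β k h') / n -
          lZ (fun a => k * a + h') (lb (G n ω) Δ) (edG (tr (G n ω) Δ ℓ)) β / n| ≤ ε / 4 ∧
        ∀ s ≤ R, ∀ γ, |freq (nbG (tr (G n ω) Δ ℓ)) (lb (G n ω) Δ) s γ -
          ∑ q ∈ t, (if col (nbG (tr q.out.2.1 Δ ℓ)) (lb q.out.2.1 Δ) s q.out.2.2 = γ
            then (1:ℝ) else 0) * π q| ≤ 3 * δ1 := by
      intro n hn ω ⟨h1, h2⟩
      have hn1 : 1 ≤ n := (hN n hn).2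
      have hn0 : 0 < n := hn1
      have hn' : (0 : ℝ) < n := by exact_mod_cast hn0
      have hcol : ∀ v, ∀ q ∈ t, HasTy (G n ω) v R' q → ¬ Bad (G n ω) ℓ v ∧ ∀ s ≤ R,
          col (nbG (tr (G n ω) Δ ℓ)) (lb (G n ω) Δ) s v =
          col (nbG (tr q.out.2.1 Δ ℓ)) (lb q.out.2.1 Δ) s q.out.2.2 :=
        fun v q hq hv => col_of_ball (R := R) (by omega) (hta q hq) hv
      constructor
      · have hb := average_types hn0 (G n ω) R' t π hδ1p.le htm h2
          (fun v => if Bad (G n ω) ℓ v then 1 else 0) (fun _ => 0)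
          (fun v => by split_ifs <;> norm_num) (fun v => by split_ifs <;> norm_num)
          (fun q => by simp) (fun v q hq hv => by rw [if_neg (hcol v q hq hv).1])
        have hnb : nBad (G n ω) ℓ / n ≤ 3 * δ1 := by
          have e : nBad (G n ω) ℓ = ∑ v, if Bad (G n ω) ℓ v then (1:ℝ) else 0 := by
            unfold nBad
            rw [card_filter, Nat.cast_sum]
            exact sum_congr rfl fun v _ => by split_ifs <;> simp
          rw [e]
          simp only [zero_mul, sum_const_zero, sub_zero] at hb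
          exact (le_abs_self _).trans hb
        have hd := abs_log_Z_sub_le (G n ω) Δ ℓ hβ k h'
        rw [← sub_div, abs_div, abs_of_pos hn']
        have h3 : (β * (hiDeg (G n ω) Δ + Δ * nBad (G n ω) ℓ) + |k| * hiDeg (G n ω) Δ) / n =
            (β + |k|) * (hiDeg (G n ω) Δ / n) + β * Δ * (nBad (G n ω) ℓ / n) := by
          field_simp
          ring
        have h4 : (β + |k|) * (hiDeg (G n ω) Δ / n) ≤ (β + |k|) * ε1 :=
          mul_le_mul_of_nonneg_left h1.le (by positivity)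
        have h5 : β * Δ * (nBad (G n ω) ℓ / n) ≤ β * Δ * (3 * δ1) :=
          mul_le_mul_of_nonneg_left hnb hβΔ
        have h6 : (β + |k|) * ε1 ≤ ε / 8 := by
          rw [hε1, mul_div_assoc', div_le_div_iff₀ (by positivity) (by norm_num)]
          nlinarith
        have h7 : β * Δ * (3 * δ1) ≤ ε / 8 := by
          have : δ1 ≤ ε / (32 * (β * Δ + 1)) := min_le_right _ _
          have h8 : δ1 * (32 * (β * Δ + 1)) ≤ ε := by
            rwa [le_div_iff₀ (by positivity)] at this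
          nlinarith [mul_nonneg hβΔ hδ1p.le]
        refine (div_le_div_of_nonneg_right hd hn'.le).trans ?_
        rw [h3]
        linarith
      · intro s hs γ
        have hb := average_types hn0 (G n ω) R' t π hδ1p.le htm h2
          (fun v => if col (nbG (tr (G n ω) Δ ℓ)) (lb (G n ω) Δ) s v = γ then 1 else 0)
          (fun q => if col (nbG (tr q.out.2.1 Δ ℓ)) (lb q.out.2.1 Δ) s q.out.2.2 = γ
            then (1:ℝ) else 0)
          (fun v => by split_ifs <;> norm_num) (fun v => by split_ifs <;> norm_num)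
          (fun q => by split_ifs <;> simp) (fun v q hq hv => by rw [(hcol v q hq hv).2 s hs])
        have e : freq (nbG (tr (G n ω) Δ ℓ)) (lb (G n ω) Δ) s γ =
            (∑ v, if col (nbG (tr (G n ω) Δ ℓ)) (lb (G n ω) Δ) s v = γ then (1:ℝ) else 0) / n := by
          unfold freq
          rw [card_filter, Nat.cast_sum, Fintype.card_fin]
          congr 1
          exact sum_congr rfl fun v _ => by split_ifs <;> simp
        rw [e]; exact hb
    intro n hn m hm ω hω ω' hω'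
    obtain ⟨a1, a2⟩ := key n hn ω hω
    obtain ⟨b1, b2⟩ := key m hm ω' hω'
    have hn0 : 0 < n := (hN n hn).2
    have hm0 : 0 < m := (hN m hm).2
    have : Nonempty (Fin n) := ⟨⟨0, hn0⟩⟩
    have : Nonempty (Fin m) := ⟨⟨0, hm0⟩⟩
    have hc := hcomp (Fin n) (Fin m) (G n ω) (G m ω') (fun s hs γ => by
      have c1 := a2 s hs γ
      have c2 := b2 s hs γ
      have hδ6 : δ1 ≤ δ / 6 := min_le_left _ _
      rw [abs_le] at c1 c2 ⊢
      constructor <;> linarith [c1.1, c1.2, c2.1, c2.2])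
    rw [Fintype.card_fin, Fintype.card_fin] at hc
    have d1 := (abs_le.mp a1).2
    have d2 := (abs_le.mp b1).1
    linarith

end

/-- A sequence which is Cauchy in probability converges in probability to a constant. -/
theorem exists_limit {Ω : ℕ → Type} [∀ n, MeasurableSpace (Ω n)] {P : ∀ n, Measure (Ω n)}
    [∀ n, IsProbabilityMeasure (P n)] (X : ∀ n, Ω n → ℝ)
    (hX : ∀ ε > 0, ∃ (N : ℕ) (A : ∀ n, Set (Ω n)), (∀ n ≥ N, P n (A n)ᶜ ≤ ENNReal.ofReal ε) ∧
      ∀ n ≥ N, ∀ m ≥ N, ∀ ω ∈ A n, ∀ ω' ∈ A m, X n ω ≤ X m ω' + ε) :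
    ∃ c, TendstoInProb P X c := by
  set e : ℕ → ℝ := fun j => 1 / ((j : ℝ) + 3) with he
  have e0 : ∀ j, 0 < e j := fun j => by simp only [he]; positivity
  have e3 : ∀ j, e j ≤ 1 / 3 := fun j => by
    simp only [he]
    exact one_div_le_one_div_of_le (by norm_num) (by have := Nat.cast_nonneg (α := ℝ) j; linarith)
  have emono : ∀ i j, i ≤ j → e j ≤ e i := fun i j hij => by
    simp only [he]
    have : (i : ℝ) ≤ j := by exact_mod_cast hij
    exact one_div_le_one_div_of_le (by positivity) (by linarith)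
  have elim : Tendsto e atTop (𝓝 0) := by
    have h1 : Tendsto (fun j : ℕ => (j : ℝ) + 3) atTop atTop :=
      tendsto_atTop_add_const_right _ _ tendsto_natCast_atTop_atTop
    exact h1.inv_tendsto_atTop.congr fun j => by simp [he]
  choose N A hA hcomp using fun j => hX (e j) (e0 j)
  -- two such events meet
  have hmeet : ∀ i j, ∀ n ≥ max (N i) (N j), (A i n ∩ A j n).Nonempty := by
    intro i j n hn
    by_contra hemp
    rw [Set.not_nonempty_iff_eq_empty] at hemp
    have h1 : (Set.univ : Set (Ω n)) ⊆ (A i n)ᶜ ∪ (A j n)ᶜ := by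
      rw [← Set.compl_inter, hemp, Set.compl_empty]
    have h2 : (1 : ENNReal) ≤ ENNReal.ofReal (2 / 3) := by
      calc (1 : ENNReal) = P n Set.univ := measure_univ.symm
        _ ≤ P n ((A i n)ᶜ ∪ (A j n)ᶜ) := measure_mono h1
        _ ≤ P n (A i n)ᶜ + P n (A j n)ᶜ := measure_union_le _ _
        _ ≤ ENNReal.ofReal (e i) + ENNReal.ofReal (e j) :=
          add_le_add (hA i n ((le_max_left _ _).trans hn)) (hA j n ((le_max_right _ _).trans hn))
        _ = ENNReal.ofReal (e i + e j) := (ENNReal.ofReal_add (e0 i).le (e0 j).le).symm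
        _ ≤ ENNReal.ofReal (2 / 3) := ENNReal.ofReal_le_ofReal (by linarith [e3 i, e3 j])
    rw [← ENNReal.ofReal_one, ENNReal.ofReal_le_ofReal_iff (by norm_num)] at h2
    norm_num at h2
  choose ω0 hω0 using fun j => (hmeet j j (N j) (by simp)).mono Set.inter_subset_left
  set y : ℕ → ℝ := fun j => X (N j) (ω0 j) with hy
  have hclose : ∀ j, ∀ n ≥ N j, ∀ ω ∈ A j n, |X n ω - y j| ≤ e j := by
    intro j n hn ω hω
    have h1 := hcomp j n hn (N j) le_rfl ω hω (ω0 j) (hω0 j)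
    have h2 := hcomp j (N j) le_rfl n hn (ω0 j) (hω0 j) ω hω
    rw [abs_le]; constructor <;> simp only [hy] <;> linarith
  have hyy : ∀ i j, |y i - y j| ≤ e i + e j := by
    intro i j
    obtain ⟨ω, h1, h2⟩ := hmeet i j (max (N i) (N j)) le_rfl
    have c1 := hclose i _ (le_max_left _ _) ω h1
    have c2 := hclose j _ (le_max_right _ _) ω h2
    rw [abs_le] at c1 c2 ⊢
    constructor <;> linarith [c1.1, c1.2, c2.1, c2.2]
  have hcauchy : CauchySeq y := by
    refine cauchySeq_of_le_tendsto_0 (fun j => 2 * e j) (fun n m K hn hm => ?_) ?_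
    · rw [Real.dist_eq]
      refine (hyy n m).trans ?_
      have := emono K n hn
      have := emono K m hm
      linarith
    · simpa using elim.const_mul 2
  obtain ⟨c, hc⟩ := cauchySeq_tendsto_of_complete hcauchy
  have hyc : ∀ j, |y j - c| ≤ e j := by
    intro j
    have h1 : Tendsto (fun i => |y j - y i|) atTop (𝓝 |y j - c|) :=
      (tendsto_const_nhds.sub hc).abs
    have h2 : Tendsto (fun i => e j + e i) atTop (𝓝 (e j + 0)) := elim.const_add _
    rw [add_zero] at h2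
    exact le_of_tendsto_of_tendsto' h1 h2 fun i => hyy j i
  refine ⟨c, fun ε hε => ?_⟩
  rw [ENNReal.tendsto_nhds_zero]
  intro ε' hε'
  have h1 : ∀ᶠ j in atTop, 2 * e j < ε :=
    (by simpa using elim.const_mul 2 : Tendsto (fun j => 2 * e j) atTop (𝓝 0)).eventually_lt_const hε
  have h2 : ∀ᶠ j in atTop, ENNReal.ofReal (e j) < ε' := by
    have : Tendsto (fun j => ENNReal.ofReal (e j)) atTop (𝓝 (ENNReal.ofReal 0)) :=
      ENNReal.tendsto_ofReal elim
    rw [ENNReal.ofReal_zero] at this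
    exact this.eventually_lt_const hε'
  obtain ⟨j, hj1, hj2⟩ := (h1.and h2).exists
  filter_upwards [eventually_ge_atTop (N j)] with n hn
  refine le_trans (measure_mono ?_) ((hA j n hn).trans hj2.le)
  intro ω hω hωA
  have c1 := hclose j n hn ω hωA
  have c2 := hyc j
  have : |X n ω - c| ≤ 2 * e j := by
    rw [abs_le] at c1 c2 ⊢
    constructor <;> linarith [c1.1, c1.2, c2.1, c2.2]
  have hω : ε < |X n ω - c| := hω
  linarith

/-- The free energy of the extended Ising model converges in probability on every locally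
tree-like sequence. -/
theorem main {Ω : ℕ → Type} [∀ n, MeasurableSpace (Ω n)] {P : ∀ n, Measure (Ω n)}
    [∀ n, IsProbabilityMeasure (P n)] {G : ∀ n, Ω n → SimpleGraph (Fin n)}
    (hG : LocallyTreeLike P G) (β k h : ℝ) (hβ : 0 ≤ β) :
    ∃ c : ℝ, TendstoInProb P (fun n ω => Real.log (Z (G n ω) β k h) / n) c :=
  exists_limit _ fun ε hε => cauchy_events hG hβ k h hε

end Pool.Agent.Lib.MP_a763a9_pr.H59
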