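import Mathlib

/-!
Functions of levels, their extension to fuzzy levels, and the comonotone averaging argument.
-/

set_option autoImplicit false
set_option linter.unusedVariables false

namespace Pool.Agent.Lib.MP_a763a9_pr.H59

open Finset MeasureTheory

/-- The extension of a function of one level to fuzzy levels. -/
noncomputable def T1 (L : ℕ) (g : ℕ → ℝ) (F : ℕ → ℝ) : ℝ :=
  g 0 + ∑ i ∈ range L, (g (i + 1) - g i) * F i

/-- The comonotone extension of a function of two levels to fuzzy levels. -/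
noncomputable def T2 (L : ℕ) (h : ℕ → ℕ → ℝ) (F F' : ℕ → ℝ) : ℝ :=
  h 0 0 + ∑ j ∈ range L, (h 0 (j + 1) - h 0 j) * F' j +
    ∑ i ∈ range L, (h (i + 1) 0 - h i 0) * F i +
    ∑ i ∈ range L, ∑ j ∈ range L,
      (h (i + 1) (j + 1) - h i (j + 1) - h (i + 1) j + h i j) * min (F i) (F' j)

/-- The fuzzy level of a level. -/
noncomputable def crisp (l : ℕ) (i : ℕ) : ℝ := if i < l then 1 else 0

lemma sum_crisp {L l : ℕ} (hl : l ≤ L) (g : ℕ → ℝ) :
    ∑ i ∈ range L, (g (i + 1) - g i) * crisp l i = g l - g 0 := by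
  rw [← sum_range_sub]
  unfold crisp
  simp only [mul_ite, mul_one, mul_zero]
  rw [← sum_filter]
  refine sum_congr ?_ (fun _ _ => rfl)
  ext i
  simp only [mem_filter, mem_range]
  omega

lemma T1_crisp {L l : ℕ} (hl : l ≤ L) (g : ℕ → ℝ) : T1 L g (crisp l) = g l := by
  unfold T1
  rw [sum_crisp hl]; ring

lemma min_crisp (l m i j : ℕ) : min (crisp l i) (crisp m j) = crisp l i * crisp m j := by
  unfold crisp
  split_ifs <;> simp

lemma T2_crisp {L l m : ℕ} (hl : l ≤ L) (hm : m ≤ L) (h : ℕ → ℕ → ℝ) :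
    T2 L h (crisp l) (crisp m) = h l m := by
  unfold T2
  rw [sum_crisp hm (fun j => h 0 j), sum_crisp hl (fun i => h i 0)]
  have : ∑ i ∈ range L, ∑ j ∈ range L,
      (h (i + 1) (j + 1) - h i (j + 1) - h (i + 1) j + h i j) * min (crisp l i) (crisp m j) =
      ∑ i ∈ range L, ((h (i + 1) m - h (i + 1) 0) - (h i m - h i 0)) * crisp l i := by
    refine sum_congr rfl fun i _ => ?_
    have e := sum_crisp hm (fun j => h (i + 1) j - h i j)
    have e' : (h (i + 1) m - h (i + 1) 0) - (h i m - h i 0) =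
        (h (i + 1) m - h i m) - (h (i + 1) 0 - h i 0) := by ring
    rw [e', ← e, sum_mul]
    refine sum_congr rfl fun j _ => ?_
    rw [min_crisp]; ring
  rw [this, sum_crisp hl (fun i => h i m - h i 0)]
  ring

lemma T1_bound {L : ℕ} (g : ℕ → ℝ) {F : ℕ → ℝ} (h0 : ∀ i, 0 ≤ F i) (h1 : ∀ i, F i ≤ 1) :
    |T1 L g F| ≤ |g 0| + ∑ i ∈ range L, |g (i + 1) - g i| := by
  unfold T1
  refine (abs_add_le _ _).trans (add_le_add le_rfl ?_)
  refine (abs_sum_le_sum_abs _ _).trans (sum_le_sum fun i _ => ?_)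
  rw [abs_mul, abs_of_nonneg (h0 i)]
  exact mul_le_of_le_one_right (abs_nonneg _) (h1 i)

/-- The bound for `T2`. -/
noncomputable def t2 (L : ℕ) (h : ℕ → ℕ → ℝ) : ℝ :=
  |h 0 0| + ∑ j ∈ range L, |h 0 (j + 1) - h 0 j| + ∑ i ∈ range L, |h (i + 1) 0 - h i 0| +
    ∑ i ∈ range L, ∑ j ∈ range L, |h (i + 1) (j + 1) - h i (j + 1) - h (i + 1) j + h i j|

lemma T2_bound {L : ℕ} (h : ℕ → ℕ → ℝ) {F F' : ℕ → ℝ} (h0 : ∀ i, 0 ≤ F i) (h1 : ∀ i, F i ≤ 1)
    (h0' : ∀ i, 0 ≤ F' i) (h1' : ∀ i, F' i ≤ 1) : |T2 L h F F'| ≤ t2 L h := by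
  unfold T2 t2
  refine (abs_add_le _ _).trans (add_le_add ((abs_add_le _ _).trans (add_le_add
    ((abs_add_le _ _).trans (add_le_add le_rfl ?_)) ?_)) ?_)
  · refine (abs_sum_le_sum_abs _ _).trans (sum_le_sum fun i _ => ?_)
    rw [abs_mul, abs_of_nonneg (h0' i)]
    exact mul_le_of_le_one_right (abs_nonneg _) (h1' i)
  · refine (abs_sum_le_sum_abs _ _).trans (sum_le_sum fun i _ => ?_)
    rw [abs_mul, abs_of_nonneg (h0 i)]
    exact mul_le_of_le_one_right (abs_nonneg _) (h1 i)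
  · refine (abs_sum_le_sum_abs _ _).trans (sum_le_sum fun i _ => ?_)
    refine (abs_sum_le_sum_abs _ _).trans (sum_le_sum fun j _ => ?_)
    rw [abs_mul, abs_of_nonneg (le_min (h0 i) (h0' j))]
    exact mul_le_of_le_one_right (abs_nonneg _) ((min_le_left _ _).trans (h1 i))

lemma T2_symm {L : ℕ} {h : ℕ → ℕ → ℝ} (hs : ∀ i ≤ L, ∀ j ≤ L, h i j = h j i) (F F' : ℕ → ℝ) :
    T2 L h F F' = T2 L h F' F := by
  unfold T2
  have e1 : ∑ j ∈ range L, (h 0 (j + 1) - h 0 j) * F' j =
      ∑ i ∈ range L, (h (i + 1) 0 - h i 0) * F' i := by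
    refine sum_congr rfl fun i hi => ?_
    have := mem_range.mp hi
    rw [hs 0 (by omega) (i + 1) (by omega), hs 0 (by omega) i (by omega)]
  have e2 : ∑ j ∈ range L, (h 0 (j + 1) - h 0 j) * F j =
      ∑ i ∈ range L, (h (i + 1) 0 - h i 0) * F i := by
    refine sum_congr rfl fun i hi => ?_
    have := mem_range.mp hi
    rw [hs 0 (by omega) (i + 1) (by omega), hs 0 (by omega) i (by omega)]
  have e3 : ∑ i ∈ range L, ∑ j ∈ range L,
      (h (i + 1) (j + 1) - h i (j + 1) - h (i + 1) j + h i j) * min (F i) (F' j) =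
      ∑ i ∈ range L, ∑ j ∈ range L,
      (h (i + 1) (j + 1) - h i (j + 1) - h (i + 1) j + h i j) * min (F' i) (F j) := by
    rw [sum_comm]
    refine sum_congr rfl fun i hi => sum_congr rfl fun j hj => ?_
    have h1 := mem_range.mp hi
    have h2 := mem_range.mp hj
    rw [min_comm, hs (j + 1) (by omega) (i + 1) (by omega), hs j (by omega) (i + 1) (by omega),
      hs (j + 1) (by omega) i (by omega), hs j (by omega) i (by omega)]
    ring
  rw [e1, e2, e3]; ring

/-! ### Integration over the threshold -/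

/-- `f` is integrable on `[0,1]` with integral `I`. -/
def HasInt (f : ℝ → ℝ) (I : ℝ) : Prop :=
  IntervalIntegrable f volume 0 1 ∧ ∫ u in (0:ℝ)..1, f u = I

lemma HasInt.const (c : ℝ) : HasInt (fun _ => c) c := by
  refine ⟨intervalIntegrable_const, ?_⟩
  simp

lemma HasInt.add {f g : ℝ → ℝ} {I J : ℝ} (hf : HasInt f I) (hg : HasInt g J) :
    HasInt (fun u => f u + g u) (I + J) :=
  ⟨hf.1.add hg.1, by rw [intervalIntegral.integral_add hf.1 hg.1, hf.2, hg.2]⟩

lemma HasInt.const_mul {f : ℝ → ℝ} {I : ℝ} (c : ℝ) (hf : HasInt f I) :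
    HasInt (fun u => c * f u) (c * I) :=
  ⟨hf.1.const_mul c, by rw [intervalIntegral.integral_const_mul, hf.2]⟩

lemma HasInt.sum {ι : Type} (s : Finset ι) {f : ι → ℝ → ℝ} {I : ι → ℝ}
    (h : ∀ i ∈ s, HasInt (f i) (I i)) : HasInt (fun u => ∑ i ∈ s, f i u) (∑ i ∈ s, I i) := by
  classical
  induction s using Finset.induction_on with
  | empty => simpa using HasInt.const 0
  | insert a s ha ih =>
    simp only [sum_insert ha]
    exact (h a (mem_insert_self a s)).add (ih fun i hi => h i (mem_insert_of_mem hi))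

lemma HasInt.ind {c : ℝ} (h0 : 0 ≤ c) (h1 : c ≤ 1) :
    HasInt (fun u => if u ≤ c then 1 else 0) c := by
  have e : (fun u : ℝ => if u ≤ c then (1:ℝ) else 0) = Set.indicator (Set.Iic c) (fun _ => 1) := by
    funext u
    simp only [Set.indicator, Set.mem_Iic]
  have hint : IntervalIntegrable (fun u : ℝ => if u ≤ c then (1:ℝ) else 0) volume 0 1 := by
    rw [e, intervalIntegrable_iff]
    refine Integrable.indicator ?_ measurableSet_Iic
    exact integrableOn_const (by simp)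
  refine ⟨hint, ?_⟩
  have h2 : IntervalIntegrable (fun u : ℝ => if u ≤ c then (1:ℝ) else 0) volume 0 c :=
    hint.mono_set (by
      rw [Set.uIcc_of_le h0, Set.uIcc_of_le zero_le_one]
      exact Set.Icc_subset_Icc le_rfl h1)
  have h3 : IntervalIntegrable (fun u : ℝ => if u ≤ c then (1:ℝ) else 0) volume c 1 :=
    hint.mono_set (by
      rw [Set.uIcc_of_le h1, Set.uIcc_of_le zero_le_one]
      exact Set.Icc_subset_Icc h0 le_rfl)
  rw [← intervalIntegral.integral_add_adjacent_intervals h2 h3]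
  have i1 : ∫ u in (0:ℝ)..c, (if u ≤ c then (1:ℝ) else 0) = c := by
    rw [intervalIntegral.integral_congr (g := fun _ => (1:ℝ))]
    · simp
    · intro u hu
      rw [Set.uIcc_of_le h0] at hu
      simp [hu.2]
  have i2 : ∫ u in c..1, (if u ≤ c then (1:ℝ) else 0) = 0 := by
    rw [intervalIntegral.integral_congr_ae (g := fun _ => (0:ℝ))]
    · simp
    · refine Filter.Eventually.of_forall fun u hu => ?_
      rw [Set.uIoc_of_le h1] at hu
      simp [hu.1]
  rw [i1, i2]; ring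

lemma HasInt.le {f : ℝ → ℝ} {I B : ℝ} (hf : HasInt f I) (h : ∀ u, f u ≤ B) : I ≤ B := by
  rw [← hf.2]
  have := intervalIntegral.integral_mono (μ := volume) (zero_le_one (α := ℝ)) hf.1
    (intervalIntegrable_const (c := B)) h
  simpa using this

/-- The level at threshold `u`. -/
noncomputable def lev (L : ℕ) (F : ℕ → ℝ) (u : ℝ) : ℕ := #{i ∈ range L | u ≤ F i}

lemma lev_le (L : ℕ) (F : ℕ → ℝ) (u : ℝ) : lev L F u ≤ L := by
  unfold lev
  exact (card_filter_le _ _).trans (by simp)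

lemma crisp_lev {L : ℕ} {F : ℕ → ℝ} (hF : Antitone F) (u : ℝ) {i : ℕ} (hi : i < L) :
    crisp (lev L F u) i = if u ≤ F i then 1 else 0 := by
  unfold crisp
  have : i < lev L F u ↔ u ≤ F i := by
    unfold lev
    constructor
    · intro h
      by_contra hc
      have hsub : {j ∈ range L | u ≤ F j} ⊆ range i := by
        intro j hj
        obtain ⟨h1, h2⟩ := mem_filter.mp hj
        rw [mem_range]
        by_contra hji
        push Not at hji
        exact hc (h2.trans (hF hji))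
      have := card_le_card hsub
      rw [card_range] at this
      omega
    · intro h
      have hsub : range (i + 1) ⊆ {j ∈ range L | u ≤ F j} := by
        intro j hj
        have hj' := mem_range.mp hj
        exact mem_filter.mpr ⟨mem_range.mpr (by omega), h.trans (hF (by omega))⟩
      have := card_le_card hsub
      rw [card_range] at this
      omega
  simp only [this]

lemma hasInt_T1 {L : ℕ} (g : ℕ → ℝ) {F : ℕ → ℝ} (hF : Antitone F) (h0 : ∀ i, 0 ≤ F i)
    (h1 : ∀ i, F i ≤ 1) : HasInt (fun u => g (lev L F u)) (T1 L g F) := by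
  have e : (fun u => g (lev L F u)) =
      fun u => g 0 + ∑ i ∈ range L, (g (i + 1) - g i) * (if u ≤ F i then 1 else 0) := by
    funext u
    rw [← T1_crisp (lev_le L F u) g]
    unfold T1
    congr 1
    exact sum_congr rfl fun i hi => by rw [crisp_lev hF u (mem_range.mp hi)]
  rw [e]
  exact (HasInt.const _).add (HasInt.sum _ fun i _ => (HasInt.ind (h0 i) (h1 i)).const_mul _)

lemma hasInt_T2 {L : ℕ} (h : ℕ → ℕ → ℝ) {F F' : ℕ → ℝ} (hF : Antitone F) (hF' : Antitone F')
    (h0 : ∀ i, 0 ≤ F i) (h1 : ∀ i, F i ≤ 1) (h0' : ∀ i, 0 ≤ F' i) (h1' : ∀ i, F' i ≤ 1) :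
    HasInt (fun u => h (lev L F u) (lev L F' u)) (T2 L h F F') := by
  have e : (fun u => h (lev L F u) (lev L F' u)) =
      fun u => h 0 0 + ∑ j ∈ range L, (h 0 (j + 1) - h 0 j) * (if u ≤ F' j then 1 else 0) +
      ∑ i ∈ range L, (h (i + 1) 0 - h i 0) * (if u ≤ F i then 1 else 0) +
      ∑ i ∈ range L, ∑ j ∈ range L,
      (h (i + 1) (j + 1) - h i (j + 1) - h (i + 1) j + h i j) *
        (if u ≤ min (F i) (F' j) then 1 else 0) := by
    funext u
    rw [← T2_crisp (lev_le L F u) (lev_le L F' u) h]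
    unfold T2
    congr 1
    · congr 1
      · congr 1
        exact sum_congr rfl fun i hi => by rw [crisp_lev hF' u (mem_range.mp hi)]
      · exact sum_congr rfl fun i hi => by rw [crisp_lev hF u (mem_range.mp hi)]
    · refine sum_congr rfl fun i hi => sum_congr rfl fun j hj => ?_
      rw [crisp_lev hF u (mem_range.mp hi), crisp_lev hF' u (mem_range.mp hj)]
      congr 1
      simp only [le_min_iff]
      by_cases a : u ≤ F i <;> by_cases b : u ≤ F' j <;> simp [a, b]
  rw [e]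
  refine (((HasInt.const _).add (HasInt.sum _ fun i _ => ?_)).add (HasInt.sum _ fun i _ => ?_)).add
    (HasInt.sum _ fun i _ => HasInt.sum _ fun j _ => ?_)
  · exact (HasInt.ind (h0' i) (h1' i)).const_mul _
  · exact (HasInt.ind (h0 i) (h1 i)).const_mul _
  · exact (HasInt.ind (le_min (h0 i) (h0' j)) ((min_le_left _ _).trans (h1 i))).const_mul _

/-- If the functional is at most `B` on all assignments of levels, its comonotone extension is
at most `B` on all fuzzy assignments. -/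
theorem fuzzy {V : Type} [Fintype V] (A : Finset (V × V)) (L : ℕ) (g : V → ℕ → ℝ)
    (h : ℕ → ℕ → ℝ) (F : V → ℕ → ℝ) (hF : ∀ v, Antitone (F v)) (h0 : ∀ v i, 0 ≤ F v i)
    (h1 : ∀ v i, F v i ≤ 1) (B : ℝ)
    (H : ∀ l : V → ℕ, (∀ v, l v ≤ L) →
      ∑ v, g v (l v) + 1 / 2 * ∑ p ∈ A, h (l p.1) (l p.2) ≤ B) :
    ∑ v, T1 L (g v) (F v) + 1 / 2 * ∑ p ∈ A, T2 L h (F p.1) (F p.2) ≤ B := by
  have key : HasInt (fun u => ∑ v, g v (lev L (F v) u) +
      1 / 2 * ∑ p ∈ A, h (lev L (F p.1) u) (lev L (F p.2) u))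
      (∑ v, T1 L (g v) (F v) + 1 / 2 * ∑ p ∈ A, T2 L h (F p.1) (F p.2)) := by
    refine (HasInt.sum _ fun v _ => ?_).add ((HasInt.sum _ fun p _ => ?_).const_mul _)
    · exact hasInt_T1 (g v) (hF v) (h0 v) (h1 v)
    · exact hasInt_T2 h (hF _) (hF _) (h0 _) (h1 _) (h0 _) (h1 _)
  exact key.le fun u => H (fun v => lev L (F v) u) (fun v => lev_le _ _ _)

end Pool.Agent.Lib.MP_a763a9_pr.H59
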