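import Pool.Agent.Lib.MP_a763a9_pr.H59.Compare

/-!
Graphs without short cycles have shell and loser structures.
-/

set_option autoImplicit false
set_option linter.unusedVariables false
set_option linter.unusedSectionVars false

namespace Pool.Agent.Lib.MP_a763a9_pr.H59

open Finset

section

variable {V : Type} [Fintype V]

open Classical in
/-- The neighbours of a vertex. -/
noncomputable def nbG (G : SimpleGraph V) (v : V) : Finset V := univ.filter fun w => G.Adj v w

open Classical in
/-- The edges, with the smaller endpoint first. -/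
noncomputable def edG [LinearOrder V] (G : SimpleGraph V) : Finset (V × V) :=
  univ.filter fun p => p.1 < p.2 ∧ G.Adj p.1 p.2

lemma mem_nbG (G : SimpleGraph V) (v w : V) : w ∈ nbG G v ↔ G.Adj v w := by
  simp [nbG]

lemma mem_edG [LinearOrder V] (G : SimpleGraph V) (p : V × V) :
    p ∈ edG G ↔ p.1 < p.2 ∧ G.Adj p.1 p.2 := by
  simp [edG]

lemma edg_G [LinearOrder V] (G : SimpleGraph V) : Edg (nbG G) (edG G) := by
  refine ⟨fun x y => ?_, fun x y h h' => ?_⟩
  · rw [mem_nbG, mem_edG, mem_edG]
    simp only
    constructor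
    · intro h
      rcases lt_or_gt_of_ne h.ne with h1 | h1
      · exact Or.inl ⟨h1, h⟩
      · exact Or.inr ⟨h1, h.symm⟩
    · rintro (h | h)
      · exact h.2
      · exact h.2.symm
  · rw [mem_edG] at h h'
    exact lt_asymm h.1 h'.1

end

/-- No cycle of length at most `ℓ`. -/
def NoShort {V : Type} (G : SimpleGraph V) (ℓ : ℕ) : Prop :=
  ∀ (v : V) (c : G.Walk v v), c.IsCycle → ℓ < c.length

lemma edges_eq_of_short {V : Type} {G : SimpleGraph V} {ℓ : ℕ} (hG : NoShort G ℓ) {a b : V}
    (p q : G.Walk a b) (hp : p.IsPath) (hq : q.IsPath) (hl : p.length + q.length ≤ ℓ) :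
    p.edges = q.edges := by
  classical
  set H := SimpleGraph.fromEdgeSet {e | e ∈ p.edges ∨ e ∈ q.edges} with hH
  have hpe : ∀ e ∈ p.edges, e ∈ H.edgeSet := by
    intro e he
    rw [hH, SimpleGraph.edgeSet_fromEdgeSet]
    exact ⟨Or.inl he, fun hd => G.not_isDiag_of_mem_edgeSet (p.edges_subset_edgeSet he) hd⟩
  have hqe : ∀ e ∈ q.edges, e ∈ H.edgeSet := by
    intro e he
    rw [hH, SimpleGraph.edgeSet_fromEdgeSet]
    exact ⟨Or.inr he, fun hd => G.not_isDiag_of_mem_edgeSet (q.edges_subset_edgeSet he) hd⟩
  have hHG : H ≤ G := by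
    rw [← SimpleGraph.edgeSet_subset_edgeSet, hH, SimpleGraph.edgeSet_fromEdgeSet]
    rintro e ⟨he | he, _⟩
    · exact p.edges_subset_edgeSet he
    · exact q.edges_subset_edgeSet he
  have hac : H.IsAcyclic := by
    intro v c hc
    have h1 := hG v (c.mapLe hHG) (hc.mapLe hHG)
    rw [SimpleGraph.Walk.length_map] at h1
    have h2 : c.edges ⊆ p.edges ++ q.edges := by
      intro e he
      have := c.edges_subset_edgeSet he
      rw [hH, SimpleGraph.edgeSet_fromEdgeSet] at this
      rw [List.mem_append]
      exact this.1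
    have h3 := (List.subperm_of_subset hc.edges_nodup h2).length_le
    rw [List.length_append, SimpleGraph.Walk.length_edges, SimpleGraph.Walk.length_edges,
      SimpleGraph.Walk.length_edges] at h3
    omega
  have := hac.path_unique ⟨p.transfer H hpe, hp.transfer hpe⟩ ⟨q.transfer H hqe, hq.transfer hqe⟩
  have h4 := congrArg (fun w : H.Path a b => (w : H.Walk a b).edges) this
  simpa using h4

lemma near_unique {V : Type} {G : SimpleGraph V} {ρ : ℕ} (hG : NoShort G (2 * ρ + 2)) {z v u u' : V}
    (hv : G.edist z v ≤ ρ) (hu : G.Adj u v) (hu' : G.Adj u' v)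
    (h : G.edist z u ≤ G.edist z v) (h' : G.edist z u' ≤ G.edist z v) : u = u' := by
  classical
  have hvt : G.edist z v ≠ ⊤ := ne_top_of_le_ne_top (ENat.natCast_ne_top ρ) hv
  have key : ∀ w, G.Adj w v → G.edist z w ≤ G.edist z v →
      ∃ p : G.Walk z w, (∀ h : G.Adj w v, (p.concat h).IsPath) ∧ p.length ≤ ρ := by
    intro w hw hle
    have hwt : G.edist z w ≠ ⊤ := ne_top_of_le_ne_top hvt hle
    have hr : G.Reachable z w := SimpleGraph.reachable_of_edist_ne_top hwt
    obtain ⟨p, hp, hpl⟩ := hr.exists_path_of_dist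
    have hpl' : (p.length : ℕ∞) = G.edist z w := by
      rw [hpl]; exact hr.coe_dist_eq_edist
    refine ⟨p, fun hadj => ?_, ?_⟩
    · rw [SimpleGraph.Walk.concat_isPath_iff]
      refine ⟨hp, fun hmem => ?_⟩
      have h1 := (p.takeUntil v hmem).edist_le
      have h2 := congrArg SimpleGraph.Walk.length (p.take_spec hmem)
      rw [SimpleGraph.Walk.length_append] at h2
      have h3 : (p.dropUntil v hmem).length ≠ 0 := by
        intro h0
        exact hadj.ne (SimpleGraph.Walk.eq_of_length_eq_zero h0).symm
      have h4 : (p.length : ℕ∞) ≤ (p.takeUntil v hmem).length :=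
        hpl'.le.trans (hle.trans h1)
      have h5 : p.length ≤ (p.takeUntil v hmem).length := by exact_mod_cast h4
      omega
    · have : (p.length : ℕ∞) ≤ ρ := by rw [hpl']; exact hle.trans hv
      exact_mod_cast this
  obtain ⟨p, hp, hpl⟩ := key u hu h
  obtain ⟨p', hp', hpl'⟩ := key u' hu' h'
  have he := edges_eq_of_short hG (p.concat hu) (p'.concat hu') (hp hu) (hp' hu') (by
    rw [SimpleGraph.Walk.length_concat, SimpleGraph.Walk.length_concat]; omega)
  rw [SimpleGraph.Walk.edges_concat, SimpleGraph.Walk.edges_concat, List.concat_eq_append,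
    List.concat_eq_append] at he
  have := (List.append_inj_right' he (by simp))
  have hs : s(u, v) = s(u', v) := by simpa using this
  rw [Sym2.eq_iff] at hs
  rcases hs with h1 | h1
  · exact h1.1
  · rw [h1.1, h1.2]

/-- A graph without short cycles has shells and losers. -/
theorem good_of_noShort {V : Type} [Fintype V] [LinearOrder V] {G : SimpleGraph V} {Δ ρ : ℕ}
    (hd : ∀ v, #(nbG G v) ≤ Δ) (hG : NoShort G (2 * ρ + 2)) : Good (edG G) Δ ρ := by
  classical
  refine ⟨fun v z => (ρ : ℕ∞) < G.edist v z, ?_, ?_⟩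
  · -- shells
    intro v
    refine ⟨fun j => univ.filter fun y => G.edist v y = (j + 1 : ℕ), ?_, ?_⟩
    · intro i j hij
      rw [disjoint_left]
      intro y h1 h2
      rw [mem_filter] at h1 h2
      have := h1.2.symm.trans h2.2
      have : i + 1 = j + 1 := by exact_mod_cast this
      omega
    · intro z hz j hj
      refine ⟨univ.filter fun y => ((j + 1 : ℕ) : ℕ∞) < G.edist v y, ?_, ?_, ?_, ?_⟩
      · rw [disjoint_left]
        intro y h1 h2
        rw [mem_filter] at h1 h2
        exact absurd h2.2 h1.2.ne'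
      · simp
      · rw [mem_filter]
        refine ⟨mem_univ _, lt_of_le_of_lt ?_ hz⟩
        exact_mod_cast hj
      · intro e he h
        rw [mem_edG] at he
        have step : ∀ x y, G.Adj x y → ((j + 1 : ℕ) : ℕ∞) < G.edist v x →
            ((j + 1 : ℕ) : ℕ∞) ≤ G.edist v y := by
          intro x y hxy hx
          have h1 : G.edist v x ≤ G.edist v y + 1 := by
            refine (SimpleGraph.edist_triangle (v := y)).trans ?_
            gcongr
            exact (SimpleGraph.edist_eq_one_iff_adj.mpr hxy.symm).le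
          have h2 := lt_of_lt_of_le hx h1
          exact Order.le_of_lt_add_one h2
        have mem : ∀ y, ((j + 1 : ℕ) : ℕ∞) ≤ G.edist v y →
            y ∈ (univ.filter fun y => ((j + 1 : ℕ) : ℕ∞) < G.edist v y) ∪
              (univ.filter fun y => G.edist v y = (j + 1 : ℕ)) := by
          intro y hy
          rw [mem_union, mem_filter, mem_filter]
          rcases hy.lt_or_eq with h | h
          · exact Or.inl ⟨mem_univ _, h⟩
          · exact Or.inr ⟨mem_univ _, h.symm⟩
        rcases h with h | h
        · rw [mem_filter] at h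
          exact ⟨mem _ h.2.le, mem _ (step _ _ he.2 h.2)⟩
        · rw [mem_filter] at h
          exact ⟨mem _ (step _ _ he.2.symm h.2), mem _ h.2.le⟩
  · -- losers
    intro z
    refine ⟨fun e => if G.edist z e.1 < G.edist z e.2 then e.2 else e.1, ?_, ?_, ?_, ?_⟩
    · intro e _
      split_ifs
      · exact Or.inr rfl
      · exact Or.inl rfl
    · intro e he
      rw [mem_edG] at he
      split_ifs with h
      · rintro h2
        rw [h2, SimpleGraph.edist_self] at h
        exact absurd h (by simp)
      · rintro h1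
        rw [h1, SimpleGraph.edist_self] at h
        apply h
        rw [h1] at he
        exact pos_iff_ne_zero.mpr (fun h0 => he.2.ne (SimpleGraph.edist_eq_zero_iff.mp h0))
    · intro v hvz hfar
      have hfar : G.edist z v ≤ ρ := by
        rw [SimpleGraph.edist_comm]; exact not_lt.mp hfar
      rw [card_le_one]
      -- the other endpoint
      have other : ∀ e ∈ (edG G).filter
          (fun e => (if G.edist z e.1 < G.edist z e.2 then e.2 else e.1) = v),
          (∃ u, G.Adj u v ∧ G.edist z u ≤ G.edist z v ∧ ((e = (u, v) ∧ u < v) ∨ (e = (v, u) ∧ v < u))) := by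
        rintro ⟨x, y⟩ he
        rw [mem_filter, mem_edG] at he
        obtain ⟨⟨hlt, hadj⟩, hL⟩ := he
        simp only at hlt hadj hL
        split_ifs at hL with h
        · subst hL
          exact ⟨x, hadj, h.le, Or.inl ⟨rfl, hlt⟩⟩
        · subst hL
          exact ⟨y, hadj.symm, not_lt.mp h, Or.inr ⟨rfl, hlt⟩⟩
      intro e he e' he'
      obtain ⟨u, h1, h2, h3⟩ := other e he
      obtain ⟨u', h1', h2', h3'⟩ := other e' he'
      have huu := near_unique hG hfar h1 h1' h2 h2'
      subst huu
      rcases h3 with ⟨a, b⟩ | ⟨a, b⟩ <;> rcases h3' with ⟨a', b'⟩ | ⟨a', b'⟩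
      · rw [a, a']
      · exact absurd b (lt_asymm b')
      · exact absurd b (lt_asymm b')
      · rw [a, a']
    · intro v
      refine le_trans (card_le_card ?_) ((edg_G G).degLe hd v)
      intro e he
      rw [mem_filter] at he ⊢
      refine ⟨he.1, ?_⟩
      have := he.2
      split_ifs at this
      · exact Or.inr this
      · exact Or.inl this

end Pool.Agent.Lib.MP_a763a9_pr.H59
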