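import Pool.Agent.Lib.MP_a763a9_pr.H59.Trunc

/-!
The colours of the truncated graph are determined by the isomorphism type of a ball.
-/

set_option autoImplicit false
set_option linter.unusedVariables false
set_option linter.unusedSectionVars false

namespace Pool.Agent.Lib.MP_a763a9_pr.H59

open Finset

theorem col_of_ball {V : Type} [Fintype V] {G : SimpleGraph V} {Δ ℓ R R' : ℕ}
    (hR : R + ℓ + 1 ≤ R') {v : V} {m : ℕ} {H : SimpleGraph (Fin m)} {o : Fin m}
    (hH : H.IsAcyclic) (hb : BallIso G v R' H o) :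
    ¬ Bad G ℓ v ∧ ∀ s ≤ R, col (nbG (tr G Δ ℓ)) (lb G Δ) s v =
      col (nbG (tr H Δ ℓ)) (lb H Δ) s o := by
  classical
  obtain ⟨f, hf⟩ := hb
  set F : Fin m → V := fun x => (f x : V) with hF
  have hFo : F o = v := hf
  have hinj : Function.Injective F := fun x y h => f.injective (Subtype.ext h)
  have hA' : ∀ x y, H.Adj x y → G.Adj (F x) (F y) := fun x y h => by
    have := f.map_adj_iff.mpr h
    exact this
  have hA'' : ∀ x y, G.Adj (F x) (F y) → H.Adj x y := fun x y h => f.map_adj_iff.mp h
  have step : ∀ x w, G.Adj x w → G.edist v w ≤ G.edist v x + 1 := by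
    intro x w h
    refine (SimpleGraph.edist_triangle (v := x)).trans ?_
    gcongr
    exact (SimpleGraph.edist_eq_one_iff_adj.mpr h).le
  have hA : ∀ x w, G.edist v (F x) + 1 ≤ R' → G.Adj (F x) w → ∃ y, F y = w ∧ H.Adj x y := by
    intro x w hx hw
    have hwB : w ∈ {w | G.edist v w ≤ (R' : ℕ∞)} := (step _ _ hw).trans hx
    refine ⟨f.symm ⟨w, hwB⟩, ?_, ?_⟩
    · simp [hF]
    · apply hA''
      simpa [hF] using hw
  have hdeg : ∀ x, G.edist v (F x) + 1 ≤ R' → deg G (F x) = deg H x := by
    intro x hx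
    unfold deg
    have : G.neighborSet (F x) = F '' H.neighborSet x := by
      ext w
      simp only [SimpleGraph.mem_neighborSet, Set.mem_image]
      constructor
      · intro h
        obtain ⟨y, h1, h2⟩ := hA x w hx h
        exact ⟨y, h2, h1⟩
      · rintro ⟨y, h1, h2⟩
        rw [← h2]; exact hA' x y h1
    rw [this, Set.ncard_image_of_injective _ hinj]
  have hbG : ∀ x, G.edist v (F x) ≤ R → ¬ Bad G ℓ (F x) := by
    rintro x hx ⟨c, hc, hl⟩
    have hw : ∀ w ∈ c.support, w ∈ {w | G.edist v w ≤ (R' : ℕ∞)} := by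
      intro w hw
      have h1 := (c.takeUntil w hw).edist_le
      have h2 : (c.takeUntil w hw).length ≤ ℓ := (c.length_takeUntil_le_length hw).trans hl
      have h3 : G.edist (F x) w ≤ ℓ := h1.trans (by exact_mod_cast h2)
      show G.edist v w ≤ R'
      calc G.edist v w ≤ G.edist v (F x) + G.edist (F x) w := SimpleGraph.edist_triangle
        _ ≤ (R : ℕ∞) + (ℓ : ℕ∞) := add_le_add hx h3
        _ ≤ R' := by
          have : R + ℓ ≤ R' := by omega
          exact_mod_cast this
    have hc' : (c.induce {w | G.edist v w ≤ (R' : ℕ∞)} hw).IsCycle := by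
      have e := SimpleGraph.Walk.map_induce c hw
      rw [← e] at hc
      exact (SimpleGraph.Walk.isCycle_map_iff_of_injective
        (SimpleGraph.Embedding.induce (G := G) {w | G.edist v w ≤ (R' : ℕ∞)}).injective).mp hc
    exact hH _ (hc'.map (f := f.symm.toHom) f.symm.injective)
  have hbH : ∀ x, ¬ Bad H ℓ x := by
    rintro x ⟨c, hc, _⟩
    exact hH c hc
  have main : ∀ s, ∀ x, G.edist v (F x) + (s : ℕ) ≤ R →
      col (nbG (tr G Δ ℓ)) (lb G Δ) s (F x) = col (nbG (tr H Δ ℓ)) (lb H Δ) s x := by
    have bound : ∀ x, G.edist v (F x) ≤ R → G.edist v (F x) + 1 ≤ R' := by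
      intro x hx
      calc G.edist v (F x) + 1 ≤ (R : ℕ∞) + 1 := by gcongr
        _ ≤ R' := by
          have : R + 1 ≤ R' := by omega
          exact_mod_cast this
    intro s
    induction s with
    | zero =>
      intro x hx
      have hx' : G.edist v (F x) ≤ R := by simpa using hx
      show lb G Δ (F x) = lb H Δ x
      unfold lb
      rw [hdeg x (bound x hx')]
    | succ s ih =>
      intro x hx
      have hxs : G.edist v (F x) + (s : ℕ) ≤ R := by
        refine le_trans ?_ hx
        gcongr
        exact_mod_cast Nat.le_succ s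
      have hx' : G.edist v (F x) ≤ R := le_trans (le_self_add) hx
      have hx1 : G.edist v (F x) + 1 + (s : ℕ) ≤ R := by
        refine le_trans (le_of_eq ?_) hx
        push_cast
        rw [add_assoc, add_comm (1 : ℕ∞)]
      have hy' : ∀ y, H.Adj x y → G.edist v (F y) + (s : ℕ) ≤ R := by
        intro y hy
        refine le_trans ?_ hx1
        gcongr
        exact step _ _ (hA' x y hy)
      have hset : nbG (tr G Δ ℓ) (F x) = (nbG (tr H Δ ℓ) x).map ⟨F, hinj⟩ := by
        ext w
        simp only [mem_nbG, mem_map, Function.Embedding.coeFn_mk, tr_adj]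
        constructor
        · rintro ⟨h1, ⟨h2, h3⟩, h4, h5⟩
          obtain ⟨y, rfl, h7⟩ := hA x w (bound x hx') h1
          have hyR : G.edist v (F y) ≤ R := le_trans (le_self_add) (hy' y h7)
          refine ⟨y, ⟨h7, ⟨?_, hbH x⟩, ?_, hbH y⟩, rfl⟩
          · rw [← hdeg x (bound x hx')]; exact h2
          · rw [← hdeg y (bound y hyR)]; exact h4
        · rintro ⟨y, ⟨h1, ⟨h2, _⟩, h4, _⟩, rfl⟩
          have hyR : G.edist v (F y) ≤ R := le_trans (le_self_add) (hy' y h1)
          refine ⟨hA' x y h1, ⟨?_, hbG x hx'⟩, ?_, hbG y hyR⟩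
          · rw [hdeg x (bound x hx')]; exact h2
          · rw [hdeg y (bound y hyR)]; exact h4
      show Encodable.encode (col (nbG (tr G Δ ℓ)) (lb G Δ) s (F x),
          (nbG (tr G Δ ℓ) (F x)).val.map (col (nbG (tr G Δ ℓ)) (lb G Δ) s)) =
        Encodable.encode (col (nbG (tr H Δ ℓ)) (lb H Δ) s x,
          (nbG (tr H Δ ℓ) x).val.map (col (nbG (tr H Δ ℓ)) (lb H Δ) s))
      congr 2
      · exact ih x hxs
      · rw [hset, Finset.map_val, Multiset.map_map]
        refine Multiset.map_congr rfl fun y hy => ?_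
        have : y ∈ nbG (tr H Δ ℓ) x := hy
        rw [mem_nbG] at this
        exact ih y (hy' y this.1)
  constructor
  · have := hbG o (by rw [hFo, SimpleGraph.edist_self]; exact zero_le)
    rwa [hFo] at this
  · intro s hs
    have := main s o (by
      rw [hFo, SimpleGraph.edist_self, zero_add]
      exact_mod_cast hs)
    rwa [hFo] at this

end Pool.Agent.Lib.MP_a763a9_pr.H59
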