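import Mathlib

/-!
Finite Ising models with nonnegative site weights and ferromagnetic pair interaction:
partition function, expectations, clamping one spin, FKG.
-/

set_option autoImplicit false
set_option linter.unusedSectionVars false

namespace Pool.Agent.Lib.MP_a763a9_pr.H59

open Finset

variable {V : Type} [Fintype V] [DecidableEq V]

/-- The spin value of a bit. -/
def sg (b : Bool) : ℝ := if b then 1 else -1

/-- The indicator of a bit. -/
def ind (b : Bool) : ℝ := if b then 1 else 0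

/-- The weight of a configuration. -/
noncomputable def wgt (φ : V → Bool → ℝ) (E : Finset (V × V)) (β : ℝ) (σ : V → Bool) : ℝ :=
  (∏ v, φ v (σ v)) * Real.exp (β * ∑ e ∈ E, sg (σ e.1) * sg (σ e.2))

/-- The partition function. -/
noncomputable def Zf (φ : V → Bool → ℝ) (E : Finset (V × V)) (β : ℝ) : ℝ :=
  ∑ σ, wgt φ E β σ

/-- The expectation. -/
noncomputable def Ex (φ : V → Bool → ℝ) (E : Finset (V × V)) (β : ℝ)
    (f : (V → Bool) → ℝ) : ℝ := (∑ σ, wgt φ E β σ * f σ) / Zf φ E β

/-- Admissible site weights. -/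
structure Adm (φ : V → Bool → ℝ) : Prop where
  nonneg : ∀ v b, 0 ≤ φ v b
  pos : ∀ v, ∃ b, 0 < φ v b

/-- Clamp the spin at `z` to `b`. -/
noncomputable def clamp (φ : V → Bool → ℝ) (z : V) (b : Bool) : V → Bool → ℝ :=
  Function.update φ z (fun c => if c = b then φ z c else 0)

variable {φ : V → Bool → ℝ} {E : Finset (V × V)} {β : ℝ}

lemma wgt_nonneg (h : Adm φ) (σ : V → Bool) : 0 ≤ wgt φ E β σ :=
  mul_nonneg (prod_nonneg fun v _ => h.nonneg v _) (Real.exp_pos _).le

lemma Zf_pos (h : Adm φ) : 0 < Zf φ E β := by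
  choose τ hτ using h.pos
  refine lt_of_lt_of_le ?_ (single_le_sum (f := fun σ => wgt φ E β σ)
    (fun σ _ => wgt_nonneg h σ) (mem_univ τ))
  exact mul_pos (prod_pos fun v _ => hτ v) (Real.exp_pos _)

lemma wgt_clamp (z : V) (b : Bool) (σ : V → Bool) :
    wgt (clamp φ z b) E β σ = if σ z = b then wgt φ E β σ else 0 := by
  unfold wgt
  split_ifs with h
  · congr 1
    refine prod_congr rfl fun v _ => ?_
    unfold clamp
    by_cases hv : v = z
    · subst hv; simp [h]
    · simp [Function.update_of_ne hv]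
  · have : ∏ v, clamp φ z b v (σ v) = 0 := by
      refine prod_eq_zero (mem_univ z) ?_
      unfold clamp
      simp [h]
    rw [this, zero_mul]

lemma clamp_nonneg (h : ∀ v b, 0 ≤ φ v b) (z : V) (b : Bool) (v : V) (c : Bool) :
    0 ≤ clamp φ z b v c := by
  unfold clamp
  by_cases hv : v = z
  · subst hv; simp only [Function.update_self]; split_ifs
    · exact h _ _
    · exact le_rfl
  · rw [Function.update_of_ne hv]; exact h _ _

lemma clamp_adm (h : Adm φ) (z : V) (b : Bool) (hb : 0 < φ z b) : Adm (clamp φ z b) := by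
  refine ⟨clamp_nonneg h.nonneg z b, fun v => ?_⟩
  by_cases hv : v = z
  · subst hv; exact ⟨b, by unfold clamp; simpa using hb⟩
  · obtain ⟨c, hc⟩ := h.pos v
    exact ⟨c, by unfold clamp; rw [Function.update_of_ne hv]; exact hc⟩

lemma sum_clamp (z : V) (f : (V → Bool) → ℝ) :
    ∑ σ, wgt φ E β σ * f σ = (∑ σ, wgt (clamp φ z true) E β σ * f σ) +
      ∑ σ, wgt (clamp φ z false) E β σ * f σ := by
  rw [← sum_add_distrib]
  refine sum_congr rfl fun σ _ => ?_
  rw [wgt_clamp, wgt_clamp]
  cases h : σ z <;> simp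

lemma Zf_clamp (z : V) : Zf φ E β = Zf (clamp φ z true) E β + Zf (clamp φ z false) E β := by
  have := sum_clamp (φ := φ) (E := E) (β := β) z (fun _ => 1)
  simpa [Zf] using this

lemma Zf_clamp_nonneg (h : Adm φ) (z : V) (b : Bool) : 0 ≤ Zf (clamp φ z b) E β := by
  refine sum_nonneg fun σ _ => ?_
  rw [wgt_clamp]
  split_ifs
  · exact wgt_nonneg h σ
  · exact le_rfl

/-- The probability of a bit at `z`. -/
noncomputable def pb (φ : V → Bool → ℝ) (E : Finset (V × V)) (β : ℝ) (z : V) (b : Bool) : ℝ :=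
  Zf (clamp φ z b) E β / Zf φ E β

lemma pb_nonneg (h : Adm φ) (z : V) (b : Bool) : 0 ≤ pb φ E β z b :=
  div_nonneg (Zf_clamp_nonneg h z b) (Zf_pos h).le

lemma pb_add (h : Adm φ) (z : V) : pb φ E β z true + pb φ E β z false = 1 := by
  unfold pb
  rw [← add_div, ← Zf_clamp, div_self (Zf_pos h).ne']

lemma Ex_total (h : Adm φ) (z : V) (f : (V → Bool) → ℝ) :
    Ex φ E β f = pb φ E β z true * Ex (clamp φ z true) E β f +
      pb φ E β z false * Ex (clamp φ z false) E β f := by
  have hZ := Zf_pos (E := E) (β := β) h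
  have key : ∀ b, pb φ E β z b * Ex (clamp φ z b) E β f =
      (∑ σ, wgt (clamp φ z b) E β σ * f σ) / Zf φ E β := by
    intro b
    unfold pb Ex
    by_cases h0 : Zf (clamp φ z b) E β = 0
    · have h1 : ∀ σ, wgt (clamp φ z b) E β σ = 0 := by
        intro σ
        have := (sum_eq_zero_iff_of_nonneg (s := univ)
          (f := fun σ => wgt (clamp φ z b) E β σ) (fun σ _ => ?_)).mp h0 σ (mem_univ σ)
        · exact this
        · rw [wgt_clamp]; split_ifs
          · exact wgt_nonneg h σ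
          · exact le_rfl
      simp [h0, h1]
    · field_simp
  rw [key, key, ← add_div, ← sum_clamp]
  rfl

lemma Ex_add (f g : (V → Bool) → ℝ) :
    Ex φ E β (fun σ => f σ + g σ) = Ex φ E β f + Ex φ E β g := by
  unfold Ex
  rw [← add_div, ← sum_add_distrib]
  simp only [mul_add]

lemma Ex_const_mul (c : ℝ) (f : (V → Bool) → ℝ) :
    Ex φ E β (fun σ => c * f σ) = c * Ex φ E β f := by
  unfold Ex
  rw [mul_div_assoc', mul_sum]
  congr 1
  exact sum_congr rfl fun σ _ => by ring

lemma Ex_const (h : Adm φ) (c : ℝ) : Ex φ E β (fun _ => c) = c := by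
  unfold Ex
  rw [← sum_mul]
  have := (Zf_pos (E := E) (β := β) h).ne'
  unfold Zf at this ⊢
  field_simp

lemma Ex_sum {ι : Type} (s : Finset ι) (f : ι → (V → Bool) → ℝ) :
    Ex φ E β (fun σ => ∑ i ∈ s, f i σ) = ∑ i ∈ s, Ex φ E β (f i) := by
  unfold Ex
  rw [← sum_div]
  congr 1
  rw [sum_comm]
  exact sum_congr rfl fun σ _ => by rw [mul_sum]

lemma Ex_mono (h : Adm φ) {f g : (V → Bool) → ℝ} (hfg : ∀ σ, f σ ≤ g σ) :
    Ex φ E β f ≤ Ex φ E β g := by
  unfold Ex
  refine div_le_div_of_nonneg_right ?_ (Zf_pos h).le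
  exact sum_le_sum fun σ _ => mul_le_mul_of_nonneg_left (hfg σ) (wgt_nonneg h σ)

/-- Two functions which agree where the weight is positive have the same expectation. -/
lemma Ex_congr {f g : (V → Bool) → ℝ} (hfg : ∀ σ, wgt φ E β σ ≠ 0 → f σ = g σ) :
    Ex φ E β f = Ex φ E β g := by
  unfold Ex
  congr 1
  refine sum_congr rfl fun σ _ => ?_
  by_cases h : wgt φ E β σ = 0
  · rw [h]; ring
  · rw [hfg σ h]

lemma wgt_lsm (h : Adm φ) (hβ : 0 ≤ β) (a b : V → Bool) :
    wgt φ E β a * wgt φ E β b ≤ wgt φ E β (a ⊓ b) * wgt φ E β (a ⊔ b) := by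
  unfold wgt
  have h1 : (∏ v, φ v (a v)) * (∏ v, φ v (b v)) =
      (∏ v, φ v ((a ⊓ b) v)) * (∏ v, φ v ((a ⊔ b) v)) := by
    rw [← prod_mul_distrib, ← prod_mul_distrib]
    refine prod_congr rfl fun v _ => ?_
    simp only [Pi.inf_apply, Pi.sup_apply]
    cases a v <;> cases b v <;> simp [mul_comm]
  have h2 : (β * ∑ e ∈ E, sg (a e.1) * sg (a e.2)) + (β * ∑ e ∈ E, sg (b e.1) * sg (b e.2)) ≤
      (β * ∑ e ∈ E, sg ((a ⊓ b) e.1) * sg ((a ⊓ b) e.2)) +
      (β * ∑ e ∈ E, sg ((a ⊔ b) e.1) * sg ((a ⊔ b) e.2)) := by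
    rw [← mul_add, ← mul_add, ← sum_add_distrib, ← sum_add_distrib]
    refine mul_le_mul_of_nonneg_left (sum_le_sum fun e _ => ?_) hβ
    simp only [Pi.inf_apply, Pi.sup_apply]
    cases a e.1 <;> cases a e.2 <;> cases b e.1 <;> cases b e.2 <;> simp [sg] <;> norm_num
  calc (∏ v, φ v (a v)) * Real.exp (β * ∑ e ∈ E, sg (a e.1) * sg (a e.2)) *
        ((∏ v, φ v (b v)) * Real.exp (β * ∑ e ∈ E, sg (b e.1) * sg (b e.2)))
      = ((∏ v, φ v (a v)) * (∏ v, φ v (b v))) *
        Real.exp ((β * ∑ e ∈ E, sg (a e.1) * sg (a e.2)) +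
          (β * ∑ e ∈ E, sg (b e.1) * sg (b e.2))) := by rw [Real.exp_add]; ring
    _ ≤ ((∏ v, φ v (a v)) * (∏ v, φ v (b v))) *
        Real.exp ((β * ∑ e ∈ E, sg ((a ⊓ b) e.1) * sg ((a ⊓ b) e.2)) +
          (β * ∑ e ∈ E, sg ((a ⊔ b) e.1) * sg ((a ⊔ b) e.2))) :=
        mul_le_mul_of_nonneg_left (Real.exp_le_exp.mpr h2)
          (mul_nonneg (prod_nonneg fun v _ => h.nonneg v _) (prod_nonneg fun v _ => h.nonneg v _))
    _ = _ := by rw [Real.exp_add, h1]; ring

/-- The FKG inequality for real functions. -/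
theorem Ex_fkg (h : Adm φ) (hβ : 0 ≤ β) {f g : (V → Bool) → ℝ} (hf : Monotone f)
    (hg : Monotone g) : Ex φ E β f * Ex φ E β g ≤ Ex φ E β (fun σ => f σ * g σ) := by
  have hZ := Zf_pos (E := E) (β := β) h
  set c := ∑ σ, |f σ| with hc
  set d := ∑ σ, |g σ| with hd
  have hf0 : 0 ≤ fun σ => f σ + c := by
    intro σ
    have : |f σ| ≤ c := single_le_sum (f := fun σ => |f σ|) (fun σ _ => abs_nonneg _) (mem_univ σ)
    have h2 := neg_abs_le (f σ)
    show 0 ≤ f σ + c
    linarith
  have hg0 : 0 ≤ fun σ => g σ + d := by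
    intro σ
    have : |g σ| ≤ d := single_le_sum (f := fun σ => |g σ|) (fun σ _ => abs_nonneg _) (mem_univ σ)
    have h2 := neg_abs_le (g σ)
    show 0 ≤ g σ + d
    linarith
  have key := fkg (μ := fun σ => wgt φ E β σ) (f := fun σ => f σ + c) (g := fun σ => g σ + d)
    (fun σ => wgt_nonneg h σ) hf0 hg0 (fun a b hab => by have := hf hab; simpa using this)
    (fun a b hab => by have := hg hab; simpa using this) (wgt_lsm h hβ)
  have key2 : Ex φ E β (fun σ => f σ + c) * Ex φ E β (fun σ => g σ + d) ≤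
      Ex φ E β (fun σ => (f σ + c) * (g σ + d)) := by
    unfold Ex
    rw [div_mul_div_comm, div_le_div_iff₀ (mul_pos hZ hZ) hZ]
    calc _ ≤ ((∑ σ, wgt φ E β σ) * ∑ σ, wgt φ E β σ * ((f σ + c) * (g σ + d))) * Zf φ E β :=
          mul_le_mul_of_nonneg_right key hZ.le
      _ = _ := by unfold Zf; ring
  have e1 : Ex φ E β (fun σ => f σ + c) = Ex φ E β f + c := by
    rw [Ex_add, Ex_const h]
  have e2 : Ex φ E β (fun σ => g σ + d) = Ex φ E β g + d := by
    rw [Ex_add, Ex_const h]
  have e3 : Ex φ E β (fun σ => (f σ + c) * (g σ + d)) =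
      Ex φ E β (fun σ => f σ * g σ) + d * Ex φ E β f + c * Ex φ E β g + c * d := by
    have : (fun σ => (f σ + c) * (g σ + d)) =
        fun σ => (((f σ * g σ) + d * f σ) + c * g σ) + c * d := by
      funext σ; ring
    rw [this, Ex_add, Ex_add, Ex_add, Ex_const h, Ex_const_mul, Ex_const_mul]
  rw [e1, e2, e3] at key2
  nlinarith

/-- The probability that the spin at `v` is up. -/
noncomputable def qv (φ : V → Bool → ℝ) (E : Finset (V × V)) (β : ℝ) (v : V) : ℝ :=
  Ex φ E β (fun σ => ind (σ v))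

/-- The probability that both spins are up. -/
noncomputable def xv (φ : V → Bool → ℝ) (E : Finset (V × V)) (β : ℝ) (x y : V) : ℝ :=
  Ex φ E β (fun σ => ind (σ x) * ind (σ y))

/-- The covariance of the two up-indicators. -/
noncomputable def cv (φ : V → Bool → ℝ) (E : Finset (V × V)) (β : ℝ) (x y : V) : ℝ :=
  xv φ E β x y - qv φ E β x * qv φ E β y

lemma ind_mono {a b : V → Bool} (h : a ≤ b) (v : V) : ind (a v) ≤ ind (b v) := by
  have := h v
  revert this
  cases a v <;> cases b v <;> simp [ind]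

lemma monotone_ind (v : V) : Monotone (fun σ : V → Bool => ind (σ v)) :=
  fun _ _ h => ind_mono h v

lemma cv_nonneg (h : Adm φ) (hβ : 0 ≤ β) (x y : V) : 0 ≤ cv φ E β x y := by
  have := Ex_fkg (E := E) h hβ (monotone_ind x) (monotone_ind y)
  unfold cv qv xv
  linarith

lemma cv_comm (x y : V) : cv φ E β x y = cv φ E β y x := by
  unfold cv xv
  rw [mul_comm (qv φ E β x)]
  congr 2
  funext σ; ring

lemma qv_total (h : Adm φ) (z v : V) : qv φ E β v =
    pb φ E β z true * qv (clamp φ z true) E β v +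
    pb φ E β z false * qv (clamp φ z false) E β v := Ex_total h z _

lemma xv_total (h : Adm φ) (z x y : V) : xv φ E β x y =
    pb φ E β z true * xv (clamp φ z true) E β x y +
    pb φ E β z false * xv (clamp φ z false) E β x y := Ex_total h z _

lemma wgt_clamp_ne (z : V) (b : Bool) (σ : V → Bool) (h : wgt (clamp φ z b) E β σ ≠ 0) :
    σ z = b := by
  rw [wgt_clamp] at h
  by_contra h2
  simp [h2] at h

lemma qv_eq_pb (h : Adm φ) (z : V) : qv φ E β z = pb φ E β z true := by
  rw [qv_total h z z]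
  have h1 : ∀ b, pb φ E β z b * qv (clamp φ z b) E β z = pb φ E β z b * ind b := by
    intro b
    by_cases hb : 0 < φ z b
    · congr 1
      unfold qv
      rw [Ex_congr (g := fun _ => ind b) (fun σ hσ => by rw [wgt_clamp_ne z b σ hσ]),
        Ex_const (clamp_adm h z b hb)]
    · have h0 : φ z b = 0 := le_antisymm (not_lt.mp hb) (h.nonneg z b)
      have : Zf (clamp φ z b) E β = 0 := by
        refine sum_eq_zero fun σ _ => ?_
        rw [wgt_clamp]
        split_ifs with hs
        · unfold wgt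
          rw [prod_eq_zero (mem_univ z) (by rw [hs, h0]), zero_mul]
        · rfl
      unfold pb
      rw [this]; simp
  rw [h1, h1]
  simp [ind]

lemma pb_false (h : Adm φ) (z : V) : pb φ E β z false = 1 - qv φ E β z := by
  rw [qv_eq_pb h, ← pb_add (E := E) (β := β) h z]; ring

lemma xv_clamp_true (z x : V) :
    xv (clamp φ z true) E β x z = qv (clamp φ z true) E β x := by
  unfold xv qv
  refine Ex_congr fun σ hσ => ?_
  rw [wgt_clamp_ne z true σ hσ]
  simp [ind]

lemma xv_clamp_false (z x : V) :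
    xv (clamp φ z false) E β x z = 0 := by
  unfold xv
  rw [Ex_congr (g := fun _ => 0 * 1) (fun σ hσ => by rw [wgt_clamp_ne z false σ hσ]; simp [ind]),
    Ex_const_mul]
  simp

lemma cv_self_clamp (h : Adm φ) (z x : V) : cv φ E β x z =
    pb φ E β z true * pb φ E β z false *
      (qv (clamp φ z true) E β x - qv (clamp φ z false) E β x) := by
  unfold cv
  rw [xv_total h z x z, xv_clamp_true, xv_clamp_false, qv_total h z x, qv_eq_pb h z]
  have := pb_add (E := E) (β := β) h z
  have h2 : pb φ E β z false = 1 - pb φ E β z true := by linarith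
  rw [h2]; ring

/-- Covariances decrease on average when a spin is revealed. -/
theorem cv_clamp_le (h : Adm φ) (hβ : 0 ≤ β) (z x y : V) :
    pb φ E β z true * cv (clamp φ z true) E β x y +
    pb φ E β z false * cv (clamp φ z false) E β x y ≤ cv φ E β x y := by
  have hx := cv_nonneg (E := E) h hβ x z
  have hy := cv_nonneg (E := E) h hβ y z
  rw [cv_self_clamp h z x] at hx
  rw [cv_self_clamp h z y] at hy
  have h1 := pb_add (E := E) (β := β) h z
  have hT := pb_nonneg (E := E) (β := β) h z true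
  have hF := pb_nonneg (E := E) (β := β) h z false
  unfold cv
  rw [xv_total h z x y, qv_total h z x, qv_total h z y]
  set p := pb φ E β z true
  set r := pb φ E β z false
  have hr : r = 1 - p := by linarith
  set X1 := qv (clamp φ z true) E β x
  set X0 := qv (clamp φ z false) E β x
  set Y1 := qv (clamp φ z true) E β y
  set Y0 := qv (clamp φ z false) E β y
  have key : 0 ≤ p * r * ((X1 - X0) * (Y1 - Y0)) := by
    rcases (mul_nonneg hT hF).eq_or_lt with h0 | h0
    · rw [← h0]; simp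
    · have a := nonneg_of_mul_nonneg_right hx h0
      have b := nonneg_of_mul_nonneg_right hy h0
      exact mul_nonneg h0.le (mul_nonneg a b)
  rw [hr] at key ⊢
  nlinarith [key]

end Pool.Agent.Lib.MP_a763a9_pr.H59
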