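import Pool.Agent.Lib.MP_a763a9_pr.H59.Fuzzy

/-!
Averages over colour classes; a regularity argument for refining colourings.
-/

set_option autoImplicit false
set_option linter.unusedVariables false
set_option linter.unusedSectionVars false

namespace Pool.Agent.Lib.MP_a763a9_pr.H59

open Finset

variable {V : Type} [Fintype V] [DecidableEq V]

/-- The average of `χ` over the class of colour `γ`. -/
noncomputable def avc (c : V → ℕ) (χ : V → ℝ) (γ : ℕ) : ℝ :=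
  (∑ w with c w = γ, χ w) / (#{w | c w = γ} : ℝ)

lemma avc_nonneg {c : V → ℕ} {χ : V → ℝ} (h : ∀ v, 0 ≤ χ v) (γ : ℕ) : 0 ≤ avc c χ γ :=
  div_nonneg (sum_nonneg fun v _ => h v) (Nat.cast_nonneg _)

lemma avc_le_one {c : V → ℕ} {χ : V → ℝ} (h : ∀ v, χ v ≤ 1) (γ : ℕ) : avc c χ γ ≤ 1 := by
  unfold avc
  refine div_le_one_of_le₀ ?_ (Nat.cast_nonneg _)
  have : ∑ w with c w = γ, χ w ≤ ∑ w with c w = γ, 1 := sum_le_sum fun v _ => h v
  simpa using this

lemma avc_mono {c : V → ℕ} {χ χ' : V → ℝ} (h : ∀ v, χ v ≤ χ' v) (γ : ℕ) :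
    avc c χ γ ≤ avc c χ' γ :=
  div_le_div_of_nonneg_right (sum_le_sum fun v _ => h v) (Nat.cast_nonneg _)

lemma sum_avc (c : V → ℕ) (χ κ : V → ℝ) (hκ : ∀ v w, c v = c w → κ v = κ w) :
    ∑ v, κ v * χ v = ∑ v, κ v * avc c χ (c v) := by
  rw [← sum_fiberwise_of_maps_to (g := c) (t := univ.image c)
      (fun v _ => mem_image_of_mem c (mem_univ v)),
    ← sum_fiberwise_of_maps_to (s := univ) (g := c) (t := univ.image c)
      (fun v _ => mem_image_of_mem c (mem_univ v))]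
  refine sum_congr rfl fun γ hγ => ?_
  obtain ⟨v0, _, hv0⟩ := mem_image.mp hγ
  have e1 : ∑ v with c v = γ, κ v * χ v = κ v0 * ∑ v with c v = γ, χ v := by
    rw [mul_sum]
    refine sum_congr rfl fun v hv => ?_
    rw [hκ v v0 (by rw [(mem_filter.mp hv).2, hv0])]
  have e2 : ∑ v with c v = γ, κ v * avc c χ (c v) =
      (#{w | c w = γ} : ℝ) * (κ v0 * avc c χ γ) := by
    rw [← nsmul_eq_mul, ← sum_const]
    refine sum_congr rfl fun v hv => ?_
    rw [hκ v v0 (by rw [(mem_filter.mp hv).2, hv0]), (mem_filter.mp hv).2]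
  have hne : (#{w | c w = γ} : ℝ) ≠ 0 := by
    rw [Nat.cast_ne_zero, Finset.card_ne_zero]
    exact ⟨v0, mem_filter.mpr ⟨mem_univ _, hv0⟩⟩
  rw [e1, e2]
  unfold avc
  field_simp

/-- `c'` refines `c` and the numbers of neighbours of the colours of `c`. -/
structure Refines (nb : V → Finset V) (c c' : V → ℕ) : Prop where
  base : ∀ x x', c' x = c' x' → c x = c x'
  cnt : ∀ x x', c' x = c' x' → ∀ b, #{y ∈ nb x | c y = b} = #{y ∈ nb x' | c y = b}

/-- The ordered pairs of neighbours. -/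
def prs (nb : V → Finset V) : Finset (V × V) := univ.filter fun p => p.2 ∈ nb p.1

lemma sum_fiber (nb : V → Finset V) (c : V → ℕ) (a b : ℕ) (f : V → ℝ) :
    ∑ p ∈ (prs nb).filter (fun p => (c p.1, c p.2) = (a, b)), f p.1 =
      ∑ x, (if c x = a then (#{y ∈ nb x | c y = b} : ℝ) else 0) * f x := by
  unfold prs
  rw [filter_filter, sum_filter, Fintype.sum_prod_type]
  refine sum_congr rfl fun x _ => ?_
  rw [← sum_filter]
  simp only
  rw [sum_const, nsmul_eq_mul]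
  congr 1
  split_ifs with h
  · congr 2
    ext y
    simp [h]
  · rw [Nat.cast_eq_zero, card_eq_zero]
    ext y
    simp [h]

lemma fiber_avc {nb : V → Finset V} {c c' : V → ℕ} (hR : Refines nb c c') (a b : ℕ)
    (χ : V → ℝ) :
    ∑ p ∈ (prs nb).filter (fun p => (c p.1, c p.2) = (a, b)), χ p.1 =
      ∑ p ∈ (prs nb).filter (fun p => (c p.1, c p.2) = (a, b)), avc c' χ (c' p.1) := by
  rw [sum_fiber nb c a b χ, sum_fiber nb c a b (fun x => avc c' χ (c' x))]
  refine sum_avc c' χ _ fun v w hvw => ?_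
  rw [hR.base v w hvw, hR.cnt v w hvw b]

lemma sum_prs_swap {nb : V → Finset V} (hsym : ∀ x y, y ∈ nb x ↔ x ∈ nb y) (P : V → V → Prop)
    [∀ x y, Decidable (P x y)] (f : V → V → ℝ) :
    ∑ p ∈ (prs nb).filter (fun p => P p.1 p.2), f p.1 p.2 =
      ∑ p ∈ (prs nb).filter (fun p => P p.2 p.1), f p.2 p.1 := by
  refine sum_equiv (Equiv.prodComm V V) (fun p => ?_) (fun p _ => rfl)
  simp only [prs, mem_filter, mem_univ, true_and, Equiv.prodComm_apply, Prod.fst_swap,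
    Prod.snd_swap]
  rw [hsym p.1 p.2]

lemma fiber_avc' {nb : V → Finset V} (hsym : ∀ x y, y ∈ nb x ↔ x ∈ nb y) {c c' : V → ℕ}
    (hR : Refines nb c c') (a b : ℕ) (χ : V → ℝ) :
    ∑ p ∈ (prs nb).filter (fun p => (c p.1, c p.2) = (a, b)), χ p.2 =
      ∑ p ∈ (prs nb).filter (fun p => (c p.1, c p.2) = (a, b)), avc c' χ (c' p.2) := by
  have h := fiber_avc hR b a χ
  have e1 := sum_prs_swap hsym (fun x y => (c x, c y) = (b, a)) (fun x _ => χ x)
  have e2 := sum_prs_swap hsym (fun x y => (c x, c y) = (b, a)) (fun x _ => avc c' χ (c' x))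
  rw [e1, e2] at h
  have e3 : (prs nb).filter (fun p => (c p.1, c p.2) = (a, b)) =
      (prs nb).filter (fun p => (c p.2, c p.1) = (b, a)) := by
    ext p
    simp only [mem_filter, Prod.mk.injEq]
    tauto
  rw [e3]; exact h

/-- The pair inequality. -/
theorem pair_le {nb : V → Finset V} (hsym : ∀ x y, y ∈ nb x ↔ x ∈ nb y) {c c' : V → ℕ}
    (hR : Refines nb c c') {χ χ' : V → ℝ} (h0 : ∀ v, 0 ≤ χ v) (h1 : ∀ v, χ v ≤ 1)
    (h0' : ∀ v, 0 ≤ χ' v) (h1' : ∀ v, χ' v ≤ 1) :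
    ∑ p ∈ prs nb, χ p.1 * χ' p.2 ≤
      ∑ p ∈ prs nb, min (avc c χ (c p.1)) (avc c χ' (c p.2)) +
      (∑ p ∈ prs nb, |avc c' χ (c' p.1) - avc c χ (c p.1)| +
       ∑ p ∈ prs nb, |avc c' χ' (c' p.2) - avc c χ' (c p.2)|) := by
  set t := (prs nb).image (fun p => (c p.1, c p.2)) with ht
  have hm : ∀ p ∈ prs nb, (c p.1, c p.2) ∈ t := fun p hp => mem_image_of_mem _ hp
  rw [← sum_fiberwise_of_maps_to hm, ← sum_fiberwise_of_maps_to (s := prs nb) hm,
    ← sum_fiberwise_of_maps_to (s := prs nb) hm, ← sum_fiberwise_of_maps_to (s := prs nb) hm,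
    ← sum_add_distrib, ← sum_add_distrib]
  refine sum_le_sum fun k _ => ?_
  obtain ⟨a, b⟩ := k
  set S := (prs nb).filter (fun p => (c p.1, c p.2) = (a, b)) with hS
  have hSa : ∀ p ∈ S, c p.1 = a ∧ c p.2 = b := fun p hp => by
    have := (mem_filter.mp hp).2
    simpa using this
  have u1 : ∑ p ∈ S, χ p.1 * χ' p.2 ≤ (#S : ℝ) * avc c χ a +
      ∑ p ∈ S, |avc c' χ (c' p.1) - avc c χ (c p.1)| := by
    calc ∑ p ∈ S, χ p.1 * χ' p.2 ≤ ∑ p ∈ S, χ p.1 :=
          sum_le_sum fun p _ => mul_le_of_le_one_right (h0 _) (h1' _)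
      _ = ∑ p ∈ S, avc c' χ (c' p.1) := fiber_avc hR a b χ
      _ ≤ ∑ p ∈ S, (avc c χ a + |avc c' χ (c' p.1) - avc c χ (c p.1)|) := by
          refine sum_le_sum fun p hp => ?_
          rw [(hSa p hp).1]
          have := le_abs_self (avc c' χ (c' p.1) - avc c χ a)
          linarith
      _ = _ := by rw [sum_add_distrib, sum_const, nsmul_eq_mul]
  have u2 : ∑ p ∈ S, χ p.1 * χ' p.2 ≤ (#S : ℝ) * avc c χ' b +
      ∑ p ∈ S, |avc c' χ' (c' p.2) - avc c χ' (c p.2)| := by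
    calc ∑ p ∈ S, χ p.1 * χ' p.2 ≤ ∑ p ∈ S, χ' p.2 :=
          sum_le_sum fun p _ => mul_le_of_le_one_left (h0' _) (h1 _)
      _ = ∑ p ∈ S, avc c' χ' (c' p.2) := fiber_avc' hsym hR a b χ'
      _ ≤ ∑ p ∈ S, (avc c χ' b + |avc c' χ' (c' p.2) - avc c χ' (c p.2)|) := by
          refine sum_le_sum fun p hp => ?_
          rw [(hSa p hp).2]
          have := le_abs_self (avc c' χ' (c' p.2) - avc c χ' b)
          linarith
      _ = _ := by rw [sum_add_distrib, sum_const, nsmul_eq_mul]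
  have e3 : ∑ p ∈ S, min (avc c χ (c p.1)) (avc c χ' (c p.2)) =
      (#S : ℝ) * min (avc c χ a) (avc c χ' b) := by
    rw [← nsmul_eq_mul, ← sum_const]
    exact sum_congr rfl fun p hp => by rw [(hSa p hp).1, (hSa p hp).2]
  rw [e3]
  have n1 : 0 ≤ ∑ p ∈ S, |avc c' χ (c' p.1) - avc c χ (c p.1)| :=
    sum_nonneg fun _ _ => abs_nonneg _
  have n2 : 0 ≤ ∑ p ∈ S, |avc c' χ' (c' p.2) - avc c χ' (c p.2)| :=
    sum_nonneg fun _ _ => abs_nonneg _
  rcases min_choice (avc c χ a) (avc c χ' b) with h | h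
  · rw [h]; linarith
  · rw [h]; linarith

/-- The linear inequality. -/
theorem lin_le {nb : V → Finset V} {c c' : V → ℕ} (hR : Refines nb c c') (χ : V → ℝ) :
    |∑ p ∈ prs nb, χ p.1 - ∑ p ∈ prs nb, avc c χ (c p.1)| ≤
      ∑ p ∈ prs nb, |avc c' χ (c' p.1) - avc c χ (c p.1)| := by
  have e : ∑ p ∈ prs nb, χ p.1 = ∑ p ∈ prs nb, avc c' χ (c' p.1) := by
    set t := (prs nb).image (fun p => (c p.1, c p.2)) with ht
    have hm : ∀ p ∈ prs nb, (c p.1, c p.2) ∈ t := fun p hp => mem_image_of_mem _ hp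
    rw [← sum_fiberwise_of_maps_to hm, ← sum_fiberwise_of_maps_to (s := prs nb) hm]
    exact sum_congr rfl fun k _ => fiber_avc hR k.1 k.2 χ
  rw [e, ← sum_sub_distrib]
  exact abs_sum_le_sum_abs _ _

lemma sum_prs_fst {nb : V → Finset V} {Δ : ℕ} (hd : ∀ v, #(nb v) ≤ Δ) {f : V → ℝ}
    (hf : ∀ v, 0 ≤ f v) : ∑ p ∈ prs nb, f p.1 ≤ Δ * ∑ v, f v := by
  unfold prs
  rw [sum_filter, Fintype.sum_prod_type, mul_sum]
  refine sum_le_sum fun x _ => ?_
  simp only
  rw [← sum_filter, sum_const, nsmul_eq_mul]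
  refine mul_le_mul_of_nonneg_right ?_ (hf x)
  have : (univ.filter fun y => y ∈ nb x) = nb x := by ext y; simp
  rw [this]
  exact_mod_cast hd x

lemma sum_prs_snd {nb : V → Finset V} (hsym : ∀ x y, y ∈ nb x ↔ x ∈ nb y) (f : V → ℝ) :
    ∑ p ∈ prs nb, f p.2 = ∑ p ∈ prs nb, f p.1 := by
  have := sum_prs_swap hsym (fun _ _ => True) (fun x _ => f x)
  simp only [filter_true] at this
  exact this.symm

/-- The symmetrized functional of levels is at most its comonotone extension, up to the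
increments of the averages. -/
theorem T2_le {nb : V → Finset V} {Δ : ℕ} (hsym : ∀ x y, y ∈ nb x ↔ x ∈ nb y)
    (hd : ∀ v, #(nb v) ≤ Δ) {c c' : V → ℕ} (hR : Refines nb c c') {L : ℕ} {h : ℕ → ℕ → ℝ}
    (hh : ∀ i < L, ∀ j < L, 0 ≤ h (i + 1) (j + 1) - h i (j + 1) - h (i + 1) j + h i j)
    {l : V → ℕ} (hl : ∀ v, l v ≤ L) {s : ℝ} (hs0 : 0 ≤ s)
    (hs : ∀ i < L, ∑ v, |avc c' (fun v => crisp (l v) i) (c' v) -
      avc c (fun v => crisp (l v) i) (c v)| ≤ s) :
    ∑ p ∈ prs nb, h (l p.1) (l p.2) ≤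
      ∑ p ∈ prs nb, T2 L h (fun i => avc c (fun v => crisp (l v) i) (c p.1))
        (fun i => avc c (fun v => crisp (l v) i) (c p.2)) + 2 * (Δ * s) * t2 L h := by
  have cr0 : ∀ i v, 0 ≤ crisp (l v) i := fun i v => by unfold crisp; split_ifs <;> norm_num
  have cr1 : ∀ i v, crisp (l v) i ≤ 1 := fun i v => by unfold crisp; split_ifs <;> norm_num
  set F : ℕ → ℕ → ℝ := fun γ i => avc c (fun v => crisp (l v) i) γ with hF
  set err : ℕ → V → ℝ := fun i v => |avc c' (fun v => crisp (l v) i) (c' v) -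
      avc c (fun v => crisp (l v) i) (c v)| with herr
  have err0 : ∀ i v, 0 ≤ err i v := fun i v => abs_nonneg _
  have hD : (0 : ℝ) ≤ Δ := Nat.cast_nonneg _
  have E1 : ∀ i < L, ∑ p ∈ prs nb, err i p.1 ≤ Δ * s := fun i hi =>
    (sum_prs_fst hd (err0 i)).trans (mul_le_mul_of_nonneg_left (hs i hi) hD)
  have E2 : ∀ i < L, ∑ p ∈ prs nb, err i p.2 ≤ Δ * s := fun i hi => by
    rw [sum_prs_snd hsym (err i)]; exact E1 i hi
  have e0 : ∑ p ∈ prs nb, h (l p.1) (l p.2) =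
      ∑ p ∈ prs nb, T2 L h (crisp (l p.1)) (crisp (l p.2)) :=
    sum_congr rfl fun p _ => (T2_crisp (hl _) (hl _) h).symm
  rw [e0]
  unfold T2
  simp only [sum_add_distrib]
  have s1 : ∑ p ∈ prs nb, ∑ j ∈ range L, (h 0 (j + 1) - h 0 j) * crisp (l p.2) j ≤
      ∑ p ∈ prs nb, ∑ j ∈ range L, (h 0 (j + 1) - h 0 j) * F (c p.2) j +
      ∑ j ∈ range L, |h 0 (j + 1) - h 0 j| * (Δ * s) := by
    rw [sum_comm, sum_comm (s := prs nb), ← sum_add_distrib]
    refine sum_le_sum fun j hj => ?_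
    have hj := mem_range.mp hj
    rw [← mul_sum, ← mul_sum]
    have a := lin_le hR (fun v => crisp (l v) j)
    rw [← sum_prs_snd hsym (fun v => crisp (l v) j),
      ← sum_prs_snd hsym (fun v => avc c (fun v => crisp (l v) j) (c v))] at a
    have b : (h 0 (j + 1) - h 0 j) * (∑ p ∈ prs nb, crisp (l p.2) j -
        ∑ p ∈ prs nb, F (c p.2) j) ≤ |h 0 (j + 1) - h 0 j| * (Δ * s) := by
      refine (le_abs_self _).trans ?_
      rw [abs_mul]
      exact mul_le_mul_of_nonneg_left (a.trans (E1 j hj)) (abs_nonneg _)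
    linarith
  have s2 : ∑ p ∈ prs nb, ∑ i ∈ range L, (h (i + 1) 0 - h i 0) * crisp (l p.1) i ≤
      ∑ p ∈ prs nb, ∑ i ∈ range L, (h (i + 1) 0 - h i 0) * F (c p.1) i +
      ∑ i ∈ range L, |h (i + 1) 0 - h i 0| * (Δ * s) := by
    rw [sum_comm, sum_comm (s := prs nb), ← sum_add_distrib]
    refine sum_le_sum fun j hj => ?_
    have hj := mem_range.mp hj
    rw [← mul_sum, ← mul_sum]
    have a := lin_le hR (fun v => crisp (l v) j)
    have b : (h (j + 1) 0 - h j 0) * (∑ p ∈ prs nb, crisp (l p.1) j -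
        ∑ p ∈ prs nb, F (c p.1) j) ≤ |h (j + 1) 0 - h j 0| * (Δ * s) := by
      refine (le_abs_self _).trans ?_
      rw [abs_mul]
      exact mul_le_mul_of_nonneg_left (a.trans (E1 j hj)) (abs_nonneg _)
    linarith
  have s3 : ∑ p ∈ prs nb, ∑ i ∈ range L, ∑ j ∈ range L,
      (h (i + 1) (j + 1) - h i (j + 1) - h (i + 1) j + h i j) *
        min (crisp (l p.1) i) (crisp (l p.2) j) ≤
      ∑ p ∈ prs nb, ∑ i ∈ range L, ∑ j ∈ range L,
      (h (i + 1) (j + 1) - h i (j + 1) - h (i + 1) j + h i j) * min (F (c p.1) i) (F (c p.2) j) +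
      ∑ i ∈ range L, ∑ j ∈ range L,
        |h (i + 1) (j + 1) - h i (j + 1) - h (i + 1) j + h i j| * (2 * (Δ * s)) := by
    rw [sum_comm, sum_comm (s := prs nb), ← sum_add_distrib]
    refine sum_le_sum fun i hi => ?_
    rw [sum_comm, sum_comm (s := prs nb), ← sum_add_distrib]
    refine sum_le_sum fun j hj => ?_
    have hi := mem_range.mp hi
    have hj := mem_range.mp hj
    rw [← mul_sum, ← mul_sum, abs_of_nonneg (hh i hi j hj), ← mul_add]
    refine mul_le_mul_of_nonneg_left ?_ (hh i hi j hj)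
    have a := pair_le hsym hR (cr0 i) (cr1 i) (cr0 j) (cr1 j)
    have e : ∑ p ∈ prs nb, min (crisp (l p.1) i) (crisp (l p.2) j) =
        ∑ p ∈ prs nb, crisp (l p.1) i * crisp (l p.2) j :=
      sum_congr rfl fun p _ => min_crisp _ _ _ _
    rw [e]
    have b1 := E1 i hi
    have b2 := E2 j hj
    simp only [herr] at b1 b2
    linarith
  have hDs : 0 ≤ Δ * s := mul_nonneg hD hs0
  have fin : ∑ j ∈ range L, |h 0 (j + 1) - h 0 j| * (Δ * s) +
      ∑ i ∈ range L, |h (i + 1) 0 - h i 0| * (Δ * s) +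
      ∑ i ∈ range L, ∑ j ∈ range L,
        |h (i + 1) (j + 1) - h i (j + 1) - h (i + 1) j + h i j| * (2 * (Δ * s)) ≤
      2 * (Δ * s) * t2 L h := by
    simp only [← sum_mul]
    unfold t2
    have a1 : 0 ≤ |h 0 0| := abs_nonneg _
    have a2 : 0 ≤ ∑ j ∈ range L, |h 0 (j + 1) - h 0 j| := sum_nonneg fun _ _ => abs_nonneg _
    have a3 : 0 ≤ ∑ i ∈ range L, |h (i + 1) 0 - h i 0| := sum_nonneg fun _ _ => abs_nonneg _
    nlinarith [mul_nonneg hDs a1, mul_nonneg hDs a2, mul_nonneg hDs a3]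
  simp only [hF] at s1 s2 s3 ⊢
  linarith

/-- Orthogonality of the increments. -/
lemma sum_sq_incr {c c' : V → ℕ} (hb : ∀ x x', c' x = c' x' → c x = c x') (χ : V → ℝ) :
    ∑ v, (avc c' χ (c' v) - avc c χ (c v)) ^ 2 =
      ∑ v, avc c' χ (c' v) ^ 2 - ∑ v, avc c χ (c v) ^ 2 := by
  have h1 := sum_avc c' χ (fun v => avc c χ (c v)) (fun v w hvw => by rw [hb v w hvw])
  have h2 := sum_avc c χ (fun v => avc c χ (c v)) (fun v w hvw => by rw [hvw])
  rw [h1] at h2
  have : ∑ v, (avc c' χ (c' v) - avc c χ (c v)) ^ 2 = ∑ v, avc c' χ (c' v) ^ 2 +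
      ∑ v, avc c χ (c v) ^ 2 - 2 * ∑ v, avc c χ (c v) * avc c' χ (c' v) := by
    rw [mul_sum, ← sum_add_distrib, ← sum_sub_distrib]
    exact sum_congr rfl fun v _ => by ring
  rw [this, h2]
  have : ∑ v, avc c χ (c v) * avc c χ (c v) = ∑ v, avc c χ (c v) ^ 2 :=
    sum_congr rfl fun v _ => by ring
  rw [this]; ring

/-- Some level has small increments. -/
theorem exists_level (c : ℕ → V → ℕ) (hb : ∀ r x x', c (r + 1) x = c (r + 1) x' → c r x = c r x')
    (L R : ℕ) (hR : 0 < R) (l : V → ℕ) :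
    ∃ r < R, ∀ i < L, ∑ v, |avc (c (r + 1)) (fun v => crisp (l v) i) (c (r + 1) v) -
      avc (c r) (fun v => crisp (l v) i) (c r v)| ≤ Fintype.card V * Real.sqrt (L / R) := by
  have cr0 : ∀ i v, 0 ≤ crisp (l v) i := fun i v => by unfold crisp; split_ifs <;> norm_num
  have cr1 : ∀ i v, crisp (l v) i ≤ 1 := fun i v => by unfold crisp; split_ifs <;> norm_num
  set D : ℕ → ℕ → V → ℝ := fun r i v => avc (c (r + 1)) (fun v => crisp (l v) i) (c (r + 1) v) -
      avc (c r) (fun v => crisp (l v) i) (c r v) with hD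
  set Q : ℕ → ℕ → ℝ := fun i r => ∑ v, avc (c r) (fun v => crisp (l v) i) (c r v) ^ 2 with hQ
  have tel : ∀ i, ∑ r ∈ range R, ∑ v, D r i v ^ 2 ≤ Fintype.card V := by
    intro i
    have : ∀ r, ∑ v, D r i v ^ 2 = Q i (r + 1) - Q i r := fun r => sum_sq_incr (hb r) _
    rw [sum_congr rfl fun r _ => this r, sum_range_sub]
    have h0 : 0 ≤ Q i 0 := sum_nonneg fun v _ => sq_nonneg _
    have h1 : Q i R ≤ Fintype.card V := by
      have : Q i R ≤ ∑ v : V, 1 := by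
        refine sum_le_sum fun v _ => ?_
        have a := avc_nonneg (c := c R) (fun v => cr0 i v) (c R v)
        have b := avc_le_one (c := c R) (fun v => cr1 i v) (c R v)
        nlinarith
      simpa using this
    linarith
  have tot : ∑ r ∈ range R, ∑ i ∈ range L, ∑ v, D r i v ^ 2 ≤
      ∑ r ∈ range R, (Fintype.card V * (L / R) : ℝ) := by
    rw [sum_comm, sum_const, card_range, nsmul_eq_mul]
    have hR' : (R : ℝ) ≠ 0 := by exact_mod_cast hR.ne'
    have e : (R : ℝ) * (Fintype.card V * (L / R)) = ∑ i ∈ range L, (Fintype.card V : ℝ) := by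
      rw [sum_const, card_range, nsmul_eq_mul]; field_simp
    rw [e]
    exact sum_le_sum fun i _ => tel i
  obtain ⟨r, hr, hle⟩ := exists_le_of_sum_le ⟨0, mem_range.mpr hR⟩ tot
  refine ⟨r, mem_range.mp hr, fun i hi => ?_⟩
  have h1 : ∑ v, D r i v ^ 2 ≤ Fintype.card V * (L / R) :=
    (single_le_sum (f := fun i => ∑ v, D r i v ^ 2)
      (fun i _ => sum_nonneg fun v _ => sq_nonneg _) (mem_range.mpr hi)).trans hle
  have h2 : (∑ v, |D r i v|) ^ 2 ≤ Fintype.card V * ∑ v, |D r i v| ^ 2 := by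
    have := sq_sum_le_card_mul_sum_sq (s := (univ : Finset V)) (f := fun v => |D r i v|)
    simpa using this
  have h3 : ∑ v, |D r i v| ^ 2 = ∑ v, D r i v ^ 2 := sum_congr rfl fun v _ => sq_abs _
  rw [h3] at h2
  have hn : (0 : ℝ) ≤ Fintype.card V := Nat.cast_nonneg _
  refine le_of_sq_le_sq ?_ (by positivity)
  rw [mul_pow, Real.sq_sqrt (by positivity)]
  calc (∑ v, |D r i v|) ^ 2 ≤ Fintype.card V * ∑ v, D r i v ^ 2 := h2
    _ ≤ Fintype.card V * (Fintype.card V * (L / R)) := mul_le_mul_of_nonneg_left h1 hn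
    _ = _ := by ring

end Pool.Agent.Lib.MP_a763a9_pr.H59
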