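import Pool.Agent.Lib.MP_a763a9_pr.H59.Shell
import Pool.Agent.Lib.MP_a763a9_pr.H59.Entropy

/-!
Revealing the spins one at a time: `log Z` is at most the Bethe functional of the true
marginals plus an error controlled by the covariances.
-/

set_option autoImplicit false
set_option linter.unusedSectionVars false
set_option linter.unusedVariables false

namespace Pool.Agent.Lib.MP_a763a9_pr.H59

open Finset

variable {V : Type} [Fintype V] [DecidableEq V]
variable {φ : V → Bool → ℝ} {E : Finset (V × V)} {β : ℝ}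

/-- The edge term of the Bethe functional. -/
noncomputable def Ke (β a b x : ℝ) : ℝ :=
  β * (1 - 2 * a - 2 * b + 4 * x) + S2 a b x - S1 a - S1 b

/-- The vertex term of the Bethe functional. -/
noncomputable def Fv (φ : V → Bool → ℝ) (v : V) (q : ℝ) : ℝ :=
  q * Real.log (φ v true) + (1 - q) * Real.log (φ v false) + S1 q

/-- The Bethe functional. -/
noncomputable def FB (φ : V → Bool → ℝ) (E : Finset (V × V)) (β : ℝ) (q : V → ℝ)
    (ξ : V × V → ℝ) : ℝ :=
  ∑ v, Fv φ v (q v) + ∑ e ∈ E, Ke β (q e.1) (q e.2) (ξ e)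

/-- `v` is not clamped. -/
def Free (φ : V → Bool → ℝ) (v : V) : Prop := 0 < φ v true ∧ 0 < φ v false

lemma Free.adm_clamp (h : Adm φ) {z : V} (hz : Free φ z) (b : Bool) : Adm (clamp φ z b) :=
  clamp_adm h z b (by cases b; exacts [hz.2, hz.1])

lemma clamp_of_ne {z v : V} (b : Bool) (hv : v ≠ z) : clamp φ z b v = φ v := by
  unfold clamp; rw [Function.update_of_ne hv]

lemma clamp_self_same (z : V) (b : Bool) : clamp φ z b z b = φ z b := by
  unfold clamp; simp

lemma clamp_self_not (z : V) (b : Bool) : clamp φ z b z (!b) = 0 := by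
  unfold clamp; cases b <;> simp

lemma free_clamp_iff {z v : V} (b : Bool) : Free (clamp φ z b) v ↔ v ≠ z ∧ Free φ v := by
  constructor
  · intro h
    have hv : v ≠ z := by
      rintro rfl
      have := clamp_self_not (φ := φ) v b
      cases b
      · simp only [Bool.not_false] at this; have := h.1; linarith
      · simp only [Bool.not_true] at this; have := h.2; linarith
    refine ⟨hv, ?_⟩
    unfold Free at h ⊢
    rwa [clamp_of_ne b hv] at h
  · rintro ⟨hv, h⟩
    unfold Free at h ⊢
    rwa [clamp_of_ne b hv]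

lemma xv_nonneg (h : Adm φ) (x y : V) : 0 ≤ xv φ E β x y := by
  have := Ex_mono (E := E) (β := β) h (f := fun _ => (0:ℝ)) (g := fun σ => ind (σ x) * ind (σ y))
    (fun σ => mul_nonneg (ind_nonneg _) (ind_nonneg _))
  rwa [Ex_const h] at this

lemma qv_nonneg (h : Adm φ) (x : V) : 0 ≤ qv φ E β x := by
  have := Ex_mono (E := E) (β := β) h (f := fun _ => (0:ℝ)) (g := fun σ => ind (σ x))
    (fun σ => ind_nonneg _)
  rwa [Ex_const h] at this

lemma qv_le_one (h : Adm φ) (x : V) : qv φ E β x ≤ 1 := by
  have := Ex_mono (E := E) (β := β) h (g := fun _ => (1:ℝ)) (f := fun σ => ind (σ x))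
    (fun σ => ind_le_one _)
  rwa [Ex_const h] at this

lemma tab_xv (h : Adm φ) (x y : V) : Tab (qv φ E β x) (qv φ E β y) (xv φ E β x y) := by
  refine ⟨xv_nonneg h x y, ?_, ?_, ?_⟩
  · have := Ex_mono (E := E) (β := β) h (f := fun σ => ind (σ x) * ind (σ y))
      (g := fun σ => ind (σ x))
      (fun σ => mul_le_of_le_one_right (ind_nonneg _) (ind_le_one _))
    unfold qv xv; linarith
  · have := Ex_mono (E := E) (β := β) h (f := fun σ => ind (σ x) * ind (σ y))
      (g := fun σ => ind (σ y))
      (fun σ => mul_le_of_le_one_left (ind_nonneg _) (ind_le_one _))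
    unfold qv xv; linarith
  · have := Ex_mono (E := E) (β := β) h
      (f := fun σ => (ind (σ x) + ind (σ y)) + (-1) * (ind (σ x) * ind (σ y)))
      (g := fun σ => 1) (fun σ => by
        cases σ x <;> cases σ y <;> simp [ind])
    rw [Ex_add, Ex_add, Ex_const_mul, Ex_const h] at this
    unfold qv xv; linarith

/-- The information of the spin at `z` on the spin at `v`. -/
noncomputable def Jv (φ : V → Bool → ℝ) (E : Finset (V × V)) (β : ℝ) (z v : V) : ℝ :=
  S1 (qv φ E β v) - (pb φ E β z true * S1 (qv (clamp φ z true) E β v) +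
    pb φ E β z false * S1 (qv (clamp φ z false) E β v))

/-- The information of the spin at `z` on a pair of spins. -/
noncomputable def Je (φ : V → Bool → ℝ) (E : Finset (V × V)) (β : ℝ) (z x y : V) : ℝ :=
  S2 (qv φ E β x) (qv φ E β y) (xv φ E β x y) -
    (pb φ E β z true * S2 (qv (clamp φ z true) E β x) (qv (clamp φ z true) E β y)
      (xv (clamp φ z true) E β x y) +
    pb φ E β z false * S2 (qv (clamp φ z false) E β x) (qv (clamp φ z false) E β y)
      (xv (clamp φ z false) E β x y))

lemma Jv_nonneg (h : Adm φ) {z : V} (hz : Free φ z) (v : V) : 0 ≤ Jv φ E β z v := by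
  have hT := hz.adm_clamp h true
  have hF := hz.adm_clamp h false
  have := S1_concave (pb_nonneg (E := E) (β := β) h z true) (pb_nonneg h z false) (pb_add h z)
    (qv_nonneg (E := E) (β := β) hT v) (qv_le_one hT v)
    (qv_nonneg (E := E) (β := β) hF v) (qv_le_one hF v)
  rw [← qv_total h z v] at this
  unfold Jv; linarith

lemma Je_ge_left (h : Adm φ) {z : V} (hz : Free φ z) (x y : V) :
    Jv φ E β z x ≤ Je φ E β z x y := by
  have hT := hz.adm_clamp h true
  have hF := hz.adm_clamp h false
  have := cond_concave (pb_nonneg (E := E) (β := β) h z true) (pb_nonneg h z false) (pb_add h z)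
    (tab_xv (E := E) (β := β) hT x y) (tab_xv (E := E) (β := β) hF x y)
  rw [← qv_total h z x, ← qv_total h z y, ← xv_total h z x y] at this
  unfold Jv Je; linarith

lemma xv_comm (x y : V) : xv φ E β x y = xv φ E β y x := by
  unfold xv
  congr 1
  funext σ; ring

lemma Je_comm (z x y : V) : Je φ E β z x y = Je φ E β z y x := by
  unfold Je
  rw [S2_comm, xv_comm x y, S2_comm (qv (clamp φ z true) E β x), xv_comm x y,
    S2_comm (qv (clamp φ z false) E β x), xv_comm x y]

lemma Je_ge_right (h : Adm φ) {z : V} (hz : Free φ z) (x y : V) :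
    Jv φ E β z y ≤ Je φ E β z x y := by
  rw [Je_comm]; exact Je_ge_left h hz y x

lemma qv_clamp_self (h : Adm φ) {z : V} (hz : Free φ z) (b : Bool) :
    qv (clamp φ z b) E β z = ind b := by
  unfold qv
  rw [Ex_congr (g := fun _ => ind b) (fun σ hσ => by rw [wgt_clamp_ne z b σ hσ]),
    Ex_const (hz.adm_clamp h b)]

lemma S1_ind (b : Bool) : S1 (ind b) = 0 := by cases b <;> simp [ind, S1_zero, S1_one]

lemma Jv_self (h : Adm φ) {z : V} (hz : Free φ z) : Jv φ E β z z = S1 (qv φ E β z) := by
  unfold Jv
  rw [qv_clamp_self h hz, qv_clamp_self h hz, S1_ind, S1_ind]; ring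

/-- The log partition function under revealing. -/
lemma log_Zf_reveal (h : Adm φ) {z : V} (hz : Free φ z) :
    Real.log (Zf φ E β) = S1 (qv φ E β z) +
      (pb φ E β z true * Real.log (Zf (clamp φ z true) E β) +
       pb φ E β z false * Real.log (Zf (clamp φ z false) E β)) := by
  have hZ := Zf_pos (E := E) (β := β) h
  have hT := Zf_pos (E := E) (β := β) (hz.adm_clamp h true)
  have hF := Zf_pos (E := E) (β := β) (hz.adm_clamp h false)
  have h1 := pb_add (E := E) (β := β) h z
  have e1 : Real.log (Zf (clamp φ z true) E β) =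
      Real.log (pb φ E β z true) + Real.log (Zf φ E β) := by
    unfold pb
    rw [Real.log_div hT.ne' hZ.ne']; ring
  have e2 : Real.log (Zf (clamp φ z false) E β) =
      Real.log (pb φ E β z false) + Real.log (Zf φ E β) := by
    unfold pb
    rw [Real.log_div hF.ne' hZ.ne']; ring
  rw [e1, e2, qv_eq_pb h]
  have : 1 - pb φ E β z true = pb φ E β z false := by linarith
  unfold S1 Real.negMulLog
  rw [this]
  have : Real.log (Zf φ E β) = (pb φ E β z true + pb φ E β z false) * Real.log (Zf φ E β) := by
    rw [h1, one_mul]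
  linarith

/-- The Bethe functional of the true marginals. -/
noncomputable def FBm (φ : V → Bool → ℝ) (E : Finset (V × V)) (β : ℝ) : ℝ :=
  FB φ E β (qv φ E β) (fun e => xv φ E β e.1 e.2)

lemma Fv_reveal (h : Adm φ) {z : V} (hz : Free φ z) (v : V) :
    Fv φ v (qv φ E β v) =
      (pb φ E β z true * Fv (clamp φ z true) v (qv (clamp φ z true) E β v) +
       pb φ E β z false * Fv (clamp φ z false) v (qv (clamp φ z false) E β v)) +
      Jv φ E β z v := by
  have h1 := pb_add (E := E) (β := β) h z
  unfold Fv Jv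
  by_cases hv : v = z
  · subst hv
    rw [qv_clamp_self h hz, qv_clamp_self h hz]
    have a : clamp φ v true v true = φ v true := clamp_self_same v true
    have b : clamp φ v false v false = φ v false := clamp_self_same v false
    rw [a, b, S1_ind, S1_ind, qv_eq_pb h]
    simp only [ind]
    have : 1 - pb φ E β v true = pb φ E β v false := by linarith
    rw [this]; simp
  · rw [clamp_of_ne true hv, clamp_of_ne false hv]
    have := qv_total (E := E) (β := β) h z v
    have h2 : (1 : ℝ) - qv φ E β v = pb φ E β z true * (1 - qv (clamp φ z true) E β v) +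
        pb φ E β z false * (1 - qv (clamp φ z false) E β v) := by
      calc (1 : ℝ) - qv φ E β v = (pb φ E β z true + pb φ E β z false) - qv φ E β v := by rw [h1]
        _ = _ := by rw [this]; ring
    have h3 : qv φ E β v * Real.log (φ v true) =
        (pb φ E β z true * qv (clamp φ z true) E β v +
          pb φ E β z false * qv (clamp φ z false) E β v) * Real.log (φ v true) := by rw [← this]
    rw [h2, h3]
    ring

lemma Ke_reveal (h : Adm φ) {z : V} (hz : Free φ z) (x y : V) :
    Ke β (qv φ E β x) (qv φ E β y) (xv φ E β x y) =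
      (pb φ E β z true * Ke β (qv (clamp φ z true) E β x) (qv (clamp φ z true) E β y)
        (xv (clamp φ z true) E β x y) +
       pb φ E β z false * Ke β (qv (clamp φ z false) E β x) (qv (clamp φ z false) E β y)
        (xv (clamp φ z false) E β x y)) +
      (Je φ E β z x y - Jv φ E β z x - Jv φ E β z y) := by
  have h1 := pb_add (E := E) (β := β) h z
  have hx := qv_total (E := E) (β := β) h z x
  have hy := qv_total (E := E) (β := β) h z y
  have hxy := xv_total (E := E) (β := β) h z x y
  unfold Ke Je Jv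
  have key : β * (1 - 2 * qv φ E β x - 2 * qv φ E β y + 4 * xv φ E β x y) =
      pb φ E β z true * (β * (1 - 2 * qv (clamp φ z true) E β x - 2 * qv (clamp φ z true) E β y
        + 4 * xv (clamp φ z true) E β x y)) +
      pb φ E β z false * (β * (1 - 2 * qv (clamp φ z false) E β x -
        2 * qv (clamp φ z false) E β y + 4 * xv (clamp φ z false) E β x y)) := by
    have : (1:ℝ) = pb φ E β z true + pb φ E β z false := h1.symm
    calc _ = β * ((pb φ E β z true + pb φ E β z false) - 2 * qv φ E β x - 2 * qv φ E β y +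
          4 * xv φ E β x y) := by rw [h1]
      _ = _ := by rw [hx, hy, hxy]; ring
  rw [key]; ring

lemma FBm_reveal (h : Adm φ) {z : V} (hz : Free φ z) :
    FBm φ E β = (pb φ E β z true * FBm (clamp φ z true) E β +
      pb φ E β z false * FBm (clamp φ z false) E β) +
      (∑ v, Jv φ E β z v +
       ∑ e ∈ E, (Je φ E β z e.1 e.2 - Jv φ E β z e.1 - Jv φ E β z e.2)) := by
  unfold FBm FB
  rw [sum_congr rfl (fun v _ => Fv_reveal h hz v),
    sum_congr rfl (fun (e : V × V) _ => Ke_reveal (β := β) (E := E) h hz e.1 e.2)]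
  simp only [sum_add_distrib, ← mul_sum]
  ring

/-- A choice, for each edge, of its endpoint farther from `z`. -/
structure Loser (E : Finset (V × V)) (Δ : ℕ) (far : V → V → Prop) (z : V) (L : V × V → V) :
    Prop where
  mem : ∀ e ∈ E, L e = e.1 ∨ L e = e.2
  ne : ∀ e ∈ E, L e ≠ z
  one : ∀ v, v ≠ z → ¬ far v z → (E.filter fun e => L e = v).card ≤ 1
  deg : ∀ v, (E.filter fun e => L e = v).card ≤ Δ

open Classical in
lemma bethe_gain (h : Adm φ) {z : V} (hz : Free φ z) {Δ : ℕ} {far : V → V → Prop}
    {L : V × V → V} (hL : Loser E Δ far z L) :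
    S1 (qv φ E β z) - Δ * ∑ v, (if far v z then Jv φ E β z v else 0) ≤
      ∑ v, Jv φ E β z v +
       ∑ e ∈ E, (Je φ E β z e.1 e.2 - Jv φ E β z e.1 - Jv φ E β z e.2) := by
  have h1 : ∑ e ∈ E, (-(Jv φ E β z (L e))) ≤
      ∑ e ∈ E, (Je φ E β z e.1 e.2 - Jv φ E β z e.1 - Jv φ E β z e.2) := by
    refine sum_le_sum fun e he => ?_
    rcases hL.mem e he with h2 | h2
    · rw [h2]; have := Je_ge_right (E := E) (β := β) h hz e.1 e.2; linarith
    · rw [h2]; have := Je_ge_left (E := E) (β := β) h hz e.1 e.2; linarith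
  have h2 : ∑ e ∈ E, Jv φ E β z (L e) =
      ∑ v, ((E.filter fun e => L e = v).card : ℝ) * Jv φ E β z v := by
    rw [← sum_fiberwise_of_maps_to (g := L) (t := univ) (fun _ _ => mem_univ _)]
    refine sum_congr rfl fun v _ => ?_
    rw [sum_congr rfl (g := fun _ => Jv φ E β z v) (fun e he => by rw [(mem_filter.mp he).2]),
      sum_const, nsmul_eq_mul]
  have h3 : S1 (qv φ E β z) - Δ * ∑ v, (if far v z then Jv φ E β z v else 0) ≤
      ∑ v, (Jv φ E β z v - ((E.filter fun e => L e = v).card : ℝ) * Jv φ E β z v) := by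
    have : S1 (qv φ E β z) - Δ * ∑ v, (if far v z then Jv φ E β z v else 0) =
        ∑ v, ((if v = z then Jv φ E β z z else 0) -
          Δ * (if far v z then Jv φ E β z v else 0)) := by
      rw [sum_sub_distrib, ← mul_sum, sum_ite_eq' univ z, if_pos (mem_univ z), Jv_self h hz]
    rw [this]
    refine sum_le_sum fun v _ => ?_
    have hJ := Jv_nonneg (E := E) (β := β) h hz v
    by_cases hv : v = z
    · subst hv
      have h0 : (E.filter fun e => L e = v) = ∅ := by
        rw [filter_eq_empty_iff]
        exact fun e he => hL.ne e he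
      rw [if_pos rfl, h0]
      simp only [card_empty, Nat.cast_zero, zero_mul, sub_zero]
      split_ifs
      · have : 0 ≤ (Δ : ℝ) * Jv φ E β v v := mul_nonneg (Nat.cast_nonneg _) hJ
        linarith
      · simp
    · rw [if_neg hv]
      by_cases hf : far v z
      · rw [if_pos hf]
        have : ((E.filter fun e => L e = v).card : ℝ) ≤ Δ := by exact_mod_cast hL.deg v
        nlinarith
      · rw [if_neg hf]
        have : ((E.filter fun e => L e = v).card : ℝ) ≤ 1 := by exact_mod_cast hL.one v hv hf
        nlinarith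
  rw [sum_sub_distrib, ← h2] at h3
  rw [sum_neg_distrib] at h1
  linarith

/-- The accumulated far information on the spin at `v`. -/
noncomputable def XX (E : Finset (V × V)) (β : ℝ) (far : V → V → Prop) (v : V) :
    List V → (V → Bool → ℝ) → ℝ
  | [], _ => 0
  | z :: l, φ => (open Classical in if far v z then Jv φ E β z v else 0) +
      (pb φ E β z true * XX E β far v l (clamp φ z true) +
       pb φ E β z false * XX E β far v l (clamp φ z false))

/-- When every spin is clamped, `log Z` is the Bethe functional. -/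
lemma log_Zf_clamped (h : Adm φ) (hall : ∀ v, ¬ Free φ v) :
    Real.log (Zf φ E β) = FBm φ E β := by
  choose τ hτ using h.pos
  have h0 : ∀ v b, b ≠ τ v → φ v b = 0 := by
    intro v b hb
    by_contra hne
    have hpos : 0 < φ v b := lt_of_le_of_ne (h.nonneg v b) (Ne.symm hne)
    apply hall v
    have := hτ v
    revert hb hpos this
    cases b <;> cases τ v <;> simp [Free] <;> intro a b <;> exact ⟨by assumption, by assumption⟩
  have hw : ∀ σ, σ ≠ τ → wgt φ E β σ = 0 := by
    intro σ hσ
    obtain ⟨v, hv⟩ := Function.ne_iff.mp hσ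
    unfold wgt
    rw [prod_eq_zero (mem_univ v) (h0 v _ hv), zero_mul]
  have hZ : Zf φ E β = wgt φ E β τ := by
    unfold Zf
    exact sum_eq_single τ (fun σ _ hσ => hw σ hσ) (fun h => absurd (mem_univ _) h)
  have hE : ∀ f : (V → Bool) → ℝ, Ex φ E β f = f τ := by
    intro f
    have h1 : Ex φ E β f = Ex φ E β (fun _ => f τ) :=
      Ex_congr fun σ hσ => by
        have : σ = τ := by by_contra hne; exact hσ (hw σ hne)
        rw [this]
    rw [h1, Ex_const h]
  rw [hZ]
  unfold FBm FB wgt
  have hp : 0 < ∏ v, φ v (τ v) := prod_pos fun v _ => hτ v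
  rw [Real.log_mul hp.ne' (Real.exp_pos _).ne', Real.log_exp, Real.log_prod (fun v _ => (hτ v).ne'),
    mul_sum]
  congr 1
  · refine sum_congr rfl fun v _ => ?_
    unfold qv
    rw [hE]
    unfold Fv
    cases τ v <;> simp [ind, S1_zero, S1_one]
  · refine sum_congr rfl fun e _ => ?_
    unfold qv xv
    simp only [hE]
    unfold Ke S2
    cases τ e.1 <;> cases τ e.2 <;> simp [ind, sg, S1_zero, S1_one] <;> ring

/-- `log Z` is at most the Bethe functional plus the accumulated far information. -/
theorem log_Zf_le (hβ : 0 ≤ β) {Δ : ℕ} {far : V → V → Prop}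
    (hL : ∀ z, ∃ L, Loser E Δ far z L) :
    ∀ (l : List V) (φ : V → Bool → ℝ), Adm φ → l.Nodup → (∀ v, v ∈ l ↔ Free φ v) →
      Real.log (Zf φ E β) ≤ FBm φ E β + Δ * ∑ v, XX E β far v l φ := by
  intro l
  induction l with
  | nil =>
    intro φ h _ hl
    rw [log_Zf_clamped h (fun v hv => by have := (hl v).mpr hv; simp at this)]
    simp [XX]
  | cons z l ih =>
    intro φ h hn hl
    have hz : Free φ z := (hl z).mp (by simp)
    obtain ⟨L, hL'⟩ := hL z
    have hn' := List.nodup_cons.mp hn
    have hlb : ∀ b v, v ∈ l ↔ Free (clamp φ z b) v := by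
      intro b v
      rw [free_clamp_iff, ← hl v]
      constructor
      · intro hv
        exact ⟨fun e => hn'.1 (e ▸ hv), List.mem_cons_of_mem _ hv⟩
      · rintro ⟨h1, h2⟩
        rcases List.mem_cons.mp h2 with h3 | h3
        · exact absurd h3 h1
        · exact h3
    have iT := ih (clamp φ z true) (hz.adm_clamp h true) hn'.2 (hlb true)
    have iF := ih (clamp φ z false) (hz.adm_clamp h false) hn'.2 (hlb false)
    have pT := pb_nonneg (E := E) (β := β) h z true
    have pF := pb_nonneg (E := E) (β := β) h z false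
    have g := bethe_gain (E := E) (β := β) h hz hL'
    rw [log_Zf_reveal h hz, FBm_reveal h hz]
    have hX : ∑ v, XX E β far v (z :: l) φ =
        (∑ v, (open Classical in if far v z then Jv φ E β z v else 0)) +
        (pb φ E β z true * ∑ v, XX E β far v l (clamp φ z true) +
         pb φ E β z false * ∑ v, XX E β far v l (clamp φ z false)) := by
      simp only [XX, sum_add_distrib, ← mul_sum]
    rw [hX]
    have aT := mul_le_mul_of_nonneg_left iT pT
    have aF := mul_le_mul_of_nonneg_left iF pF
    nlinarith [aT, aF, g]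

lemma XX_le_S1 {far : V → V → Prop} (v : V) :
    ∀ (l : List V) (φ : V → Bool → ℝ), Adm φ → l.Nodup → (∀ z ∈ l, Free φ z) →
      XX E β far v l φ ≤ S1 (qv φ E β v) := by
  classical
  intro l
  induction l with
  | nil => intro φ h _ _; exact S1_nonneg (qv_nonneg h v) (qv_le_one h v)
  | cons z l ih =>
    intro φ h hn hl
    have hz : Free φ z := hl z (by simp)
    have hn' := List.nodup_cons.mp hn
    have hlb : ∀ b, ∀ w ∈ l, Free (clamp φ z b) w := fun b w hw =>
      (free_clamp_iff b).mpr ⟨fun e => hn'.1 (e ▸ hw), hl w (List.mem_cons_of_mem _ hw)⟩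
    have iT := ih (clamp φ z true) (hz.adm_clamp h true) hn'.2 (hlb true)
    have iF := ih (clamp φ z false) (hz.adm_clamp h false) hn'.2 (hlb false)
    have pT := pb_nonneg (E := E) (β := β) h z true
    have pF := pb_nonneg (E := E) (β := β) h z false
    have aT := mul_le_mul_of_nonneg_left iT pT
    have aF := mul_le_mul_of_nonneg_left iF pF
    have hJ := Jv_nonneg (E := E) (β := β) h hz v
    have e : Jv φ E β z v = S1 (qv φ E β v) -
      (pb φ E β z true * S1 (qv (clamp φ z true) E β v) +
       pb φ E β z false * S1 (qv (clamp φ z false) E β v)) := rfl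
    show (if far v z then Jv φ E β z v else 0) +
      (pb φ E β z true * XX E β far v l (clamp φ z true) +
       pb φ E β z false * XX E β far v l (clamp φ z false)) ≤ S1 (qv φ E β v)
    split_ifs <;> linarith

lemma qv_not_free (h : Adm φ) {v : V} (hv : ¬ Free φ v) : S1 (qv φ E β v) = 0 := by
  obtain ⟨b, hb⟩ := h.pos v
  have h0 : φ v (!b) = 0 := by
    by_contra hne
    have hpos : 0 < φ v (!b) := lt_of_le_of_ne (h.nonneg v _) (Ne.symm hne)
    apply hv
    revert hb hpos
    cases b <;> simp [Free] <;> intro a b <;> exact ⟨by assumption, by assumption⟩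
  have : qv φ E β v = ind b := by
    unfold qv
    rw [Ex_congr (g := fun _ => ind b), Ex_const h]
    intro σ hσ
    congr 1
    by_contra hne
    apply hσ
    have : σ v = !b := by
      revert hne; cases σ v <;> cases b <;> simp
    unfold wgt
    rw [prod_eq_zero (mem_univ v) (by rw [this, h0]), zero_mul]
  rw [this, S1_ind]

/-- The sum of the covariances with `v`. -/
noncomputable def chi (φ : V → Bool → ℝ) (E : Finset (V × V)) (β : ℝ) (v : V) : ℝ :=
  ∑ y, cv φ E β v y

/-- Bounded site weights. -/
def Bdd (M : ℝ) (φ : V → Bool → ℝ) : Prop :=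
  ∀ v, Free φ v → φ v true ≤ M * φ v false ∧ φ v false ≤ M * φ v true

lemma Bdd.clamp {M : ℝ} (h : Bdd M φ) (z : V) (b : Bool) : Bdd M (clamp φ z b) := by
  intro v hv
  rw [free_clamp_iff] at hv
  rw [clamp_of_ne b hv.1]
  exact h v hv.2

/-- Shells around every vertex separating it from the far vertices. -/
def Shells (E : Finset (V × V)) (far : V → V → Prop) (ρ : ℕ) : Prop :=
  ∀ v, ∃ S : ℕ → Finset V, (∀ i j, i ≠ j → Disjoint (S i) (S j)) ∧
    ∀ z, far v z → ∀ j < ρ, ∃ C : Finset V, Disjoint C (S j) ∧ v ∉ C ∧ z ∈ C ∧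
      ∀ e ∈ E, (e.1 ∈ C ∨ e.2 ∈ C) → (e.1 ∈ C ∪ S j ∧ e.2 ∈ C ∪ S j)

lemma cv_far (h : Adm φ) (hβ : 0 ≤ β) {far : V → V → Prop} {ρ : ℕ} (hS : Shells E far ρ)
    {v z : V} (hf : far v z) : ρ * cv φ E β v z ≤ chi φ E β v := by
  obtain ⟨S, hd, hsep⟩ := hS v
  have h1 : ∀ j ∈ range ρ, cv φ E β v z ≤ ∑ y ∈ S j, cv φ E β v y := by
    intro j hj
    obtain ⟨C, c1, c2, c3, c4⟩ := hsep z hf j (mem_range.mp hj)
    exact cv_shell h hβ C (S j) c1 v z c2 c3 c4
  have h2 := sum_le_sum h1
  rw [sum_const, card_range, nsmul_eq_mul] at h2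
  refine h2.trans ?_
  rw [← sum_biUnion (fun i _ j _ hij => hd i j hij)]
  exact sum_le_sum_of_subset_of_nonneg (subset_univ _) (fun y _ _ => cv_nonneg h hβ v y)

end Pool.Agent.Lib.MP_a763a9_pr.H59
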