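import Pool.Agent.Lib.MP_a763a9_pr.H59.EdgeFn

/-!
Symmetric second differences, and the algebra of the second variation of the edge term.
-/

set_option autoImplicit false
set_option linter.unusedVariables false

namespace Pool.Agent.Lib.MP_a763a9_pr.H59

open Real Filter Topology

/-- The symmetric second derivative of `f` at `0` is `D`. -/
def Sec (f : ℝ → ℝ) (D : ℝ) : Prop :=
  Tendsto (fun t : ℝ => (f t + f (-t) - 2 * f 0) / t ^ 2) (𝓝[>] 0) (𝓝 D)

lemma Sec.add {f g : ℝ → ℝ} {D D' : ℝ} (hf : Sec f D) (hg : Sec g D') :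
    Sec (fun t => f t + g t) (D + D') := by
  have := Tendsto.add hf hg
  refine this.congr fun t => ?_
  ring

lemma Sec.const_mul {f : ℝ → ℝ} {D : ℝ} (c : ℝ) (hf : Sec f D) :
    Sec (fun t => c * f t) (c * D) := by
  have := Tendsto.const_mul c hf
  refine this.congr fun t => ?_
  ring

lemma Sec.neg {f : ℝ → ℝ} {D : ℝ} (hf : Sec f D) : Sec (fun t => -f t) (-D) := by
  have := hf.const_mul (-1)
  simpa using this

lemma Sec.sub {f g : ℝ → ℝ} {D D' : ℝ} (hf : Sec f D) (hg : Sec g D') :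
    Sec (fun t => f t - g t) (D - D') := by
  have := hf.add hg.neg
  simpa [sub_eq_add_neg] using this

lemma Sec.sum {ι : Type} (s : Finset ι) {f : ι → ℝ → ℝ} {D : ι → ℝ}
    (h : ∀ i ∈ s, Sec (f i) (D i)) : Sec (fun t => ∑ i ∈ s, f i t) (∑ i ∈ s, D i) := by
  have := tendsto_finsetSum s h
  refine this.congr fun t => ?_
  rw [← Finset.sum_div, Finset.sum_sub_distrib, Finset.sum_add_distrib, Finset.mul_sum]

lemma Sec.affine (a b : ℝ) : Sec (fun t => a + t * b) 0 := by
  unfold Sec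
  refine tendsto_const_nhds.congr fun t => ?_
  have : a + t * b + (a + -t * b) - 2 * (a + 0 * b) = 0 := by ring
  rw [this, zero_div]

lemma Sec.congr {f g : ℝ → ℝ} {D D' : ℝ} (hf : Sec f D) (h : ∀ t, g t = f t) (hD : D' = D) :
    Sec g D' := by
  have : g = f := funext h
  rw [this, hD]; exact hf

lemma Sec.sq (c : ℝ) : Sec (fun t => c * t ^ 2) (2 * c) := by
  unfold Sec
  refine (tendsto_const_nhds (x := 2 * c)).congr' ?_
  filter_upwards [self_mem_nhdsWithin] with t ht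
  have ht' : t ≠ 0 := ne_of_gt ht
  field_simp
  ring

lemma abs_log_one_add {u : ℝ} (hu : |u| ≤ 1 / 2) : |log (1 + u) - (u - u ^ 2 / 2)| ≤ 2 * |u| ^ 3 := by
  have h := Real.abs_log_sub_add_sum_range_le (x := -u) (by rw [abs_neg]; linarith) 2
  rw [Finset.sum_range_succ, Finset.sum_range_succ, Finset.sum_range_zero, abs_neg] at h
  have e : 0 + (-u) ^ (0 + 1) / ((0 : ℕ) + 1 : ℝ) + (-u) ^ (1 + 1) / ((1 : ℕ) + 1 : ℝ) +
      log (1 - -u) = log (1 + u) - (u - u ^ 2 / 2) := by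
    push_cast
    rw [sub_neg_eq_add]; ring
  rw [e] at h
  refine h.trans ?_
  rw [div_le_iff₀ (by linarith)]
  have : 0 ≤ |u| ^ 3 := by positivity
  have e2 : |u| ^ (2 + 1) = |u| ^ 3 := rfl
  rw [e2]
  nlinarith

lemma xlogx_second {u : ℝ} (hu : |u| ≤ 1 / 2) :
    |(1 + u) * log (1 + u) + (1 - u) * log (1 - u) - u ^ 2| ≤ 6 * |u| ^ 3 := by
  have h1 := abs_log_one_add hu
  have h2 := abs_log_one_add (u := -u) (by rwa [abs_neg])
  rw [abs_neg, ← sub_eq_add_neg] at h2
  have e : (1 + u) * log (1 + u) + (1 - u) * log (1 - u) - u ^ 2 =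
      (1 + u) * (log (1 + u) - (u - u ^ 2 / 2)) +
      (1 - u) * (log (1 - u) - (-u - (-u) ^ 2 / 2)) := by ring
  have hb := abs_le.mp hu
  have a1 : |(1 + u)| ≤ 3 / 2 := by rw [abs_le]; constructor <;> linarith
  have a2 : |(1 - u)| ≤ 3 / 2 := by rw [abs_le]; constructor <;> linarith
  rw [e]
  refine (abs_add_le _ _).trans ?_
  rw [abs_mul, abs_mul]
  have b1 := mul_le_mul a1 h1 (abs_nonneg _) (by norm_num)
  have b2 := mul_le_mul a2 h2 (abs_nonneg _) (by norm_num)
  linarith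

lemma negMulLog_second {a u : ℝ} (ha : 0 < a) (hu : |u| ≤ 1 / 2) :
    |negMulLog (a * (1 + u)) + negMulLog (a * (1 - u)) - 2 * negMulLog a + a * u ^ 2| ≤
      a * (6 * |u| ^ 3) := by
  have h := xlogx_second hu
  have hb := abs_le.mp hu
  have e : negMulLog (a * (1 + u)) + negMulLog (a * (1 - u)) - 2 * negMulLog a + a * u ^ 2 =
      -(a * ((1 + u) * log (1 + u) + (1 - u) * log (1 - u) - u ^ 2)) := by
    unfold negMulLog
    rw [log_mul ha.ne' (by linarith), log_mul ha.ne' (by linarith)]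
    ring
  rw [e, abs_neg, abs_mul, abs_of_pos ha]
  exact mul_le_mul_of_nonneg_left h ha.le

lemma Sec.negMulLog {a : ℝ} (b : ℝ) (ha : 0 < a) :
    Sec (fun t => Real.negMulLog (a + t * b)) (-(b ^ 2 / a)) := by
  unfold Sec
  -- distance bound
  have hb : ∀ᶠ t : ℝ in 𝓝[>] 0, |t * b / a| ≤ 1 / 2 := by
    have : Tendsto (fun t : ℝ => |t * b / a|) (𝓝 0) (𝓝 |0 * b / a|) := by
      apply Continuous.tendsto; fun_prop
    have h2 : |0 * b / a| < 1 / 2 := by simp
    exact (this.mono_left nhdsWithin_le_nhds).eventually_le_const h2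
  have key : ∀ᶠ t : ℝ in 𝓝[>] 0,
      ‖(Real.negMulLog (a + t * b) + Real.negMulLog (a + -t * b) - 2 * Real.negMulLog (a + 0 * b)) /
        t ^ 2 - (-(b ^ 2 / a))‖ ≤ t * (a * (6 * |b / a| ^ 3)) := by
    filter_upwards [hb, self_mem_nhdsWithin] with t ht ht0
    have ht0' : 0 < t := ht0
    have h := negMulLog_second ha ht
    have e1 : a * (1 + t * b / a) = a + t * b := by field_simp
    have e2 : a * (1 - t * b / a) = a + -t * b := by field_simp; ring
    have e3 : a + 0 * b = a := by ring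
    rw [e1, e2] at h
    rw [e3, Real.norm_eq_abs]
    have e4 : (Real.negMulLog (a + t * b) + Real.negMulLog (a + -t * b) - 2 * Real.negMulLog a) /
        t ^ 2 - (-(b ^ 2 / a)) = (Real.negMulLog (a + t * b) + Real.negMulLog (a + -t * b) -
        2 * Real.negMulLog a + a * (t * b / a) ^ 2) / t ^ 2 := by
      field_simp
      ring
    rw [e4, abs_div, abs_of_pos (show 0 < t ^ 2 by positivity), div_le_iff₀ (by positivity)]
    refine h.trans (le_of_eq ?_)
    have e5 : |t * b / a| = t * |b / a| := by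
      rw [mul_div_assoc, abs_mul, abs_of_pos ht0']
    rw [e5]; ring
  rw [tendsto_iff_norm_sub_tendsto_zero]
  refine squeeze_zero' (Eventually.of_forall fun t => norm_nonneg _) key ?_
  have : Tendsto (fun t : ℝ => t * (a * (6 * |b / a| ^ 3))) (𝓝 0)
      (𝓝 (0 * (a * (6 * |b / a| ^ 3)))) := by
    apply Continuous.tendsto; fun_prop
  rw [zero_mul] at this
  exact this.mono_left nhdsWithin_le_nhds

lemma Sec.S1 {a : ℝ} (b : ℝ) (ha : 0 < a) (ha1 : a < 1) :
    Sec (fun t => Pool.Agent.Lib.MP_a763a9_pr.H59.S1 (a + t * b)) (-(b ^ 2 / (a * (1 - a)))) := by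
  have h1 := Sec.negMulLog b ha
  have h2 := Sec.negMulLog (-b) (show 0 < 1 - a by linarith)
  refine (h1.add h2).congr (fun t => ?_) ?_
  · unfold Pool.Agent.Lib.MP_a763a9_pr.H59.S1
    congr 2; ring
  · have : 1 - a ≠ 0 := by linarith
    field_simp
    ring

/-- The covariance of an optimal table is smaller than the variances. -/
lemma Opt.cov_lt {β a b x : ℝ} (h : Opt β a b x) :
    x - a * b < a * (1 - a) ∧ x - a * b < b * (1 - b) := by
  have h1 := h.p11
  have h2 := h.p10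
  have h3 := h.p01
  have h4 := h.p00
  constructor
  · nlinarith [mul_pos h2 h3, mul_pos h2 h4, mul_pos h1 h3]
  · nlinarith [mul_pos h2 h3, mul_pos h3 h4, mul_pos h1 h2]

lemma Opt.T_pos {β a b x : ℝ} (h : Opt β a b x) :
    0 < a * (1 - a) * (b * (1 - b)) - (x - a * b) ^ 2 := by
  obtain ⟨h1, h2⟩ := h.cov_lt
  have h3 := h.cov
  nlinarith [mul_lt_mul'' h1 h2 h3 h3]

/-- The direction of the table. -/
noncomputable def dd (a b x wa wb : ℝ) : ℝ :=
  x * (((b * (1 - b) * wa - (x - a * b) * wb) * (1 - a) +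
    (a * (1 - a) * wb - (x - a * b) * wa) * (1 - b)) /
      (a * (1 - a) * (b * (1 - b)) - (x - a * b) ^ 2))

/-- The second variation of the edge term. -/
noncomputable def De (a b x wa wb : ℝ) : ℝ :=
  (x - a * b) / (a * (1 - a) * (b * (1 - b)) - (x - a * b) ^ 2) *
    (wa * (wb - (x - a * b) / (a * (1 - a)) * wa) + wb * (wa - (x - a * b) / (b * (1 - b)) * wb))

lemma second_algebra {a b x b1 c1 : ℝ} (ha : 0 < a) (ha1 : 0 < 1 - a) (hb : 0 < b)
    (hb1 : 0 < 1 - b) (h11 : 0 < x) (h10 : 0 < a - x) (h01 : 0 < b - x) (h00 : 0 < 1 - a - b + x)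
    {wa wb d : ℝ} (hwa : wa = b1 * (a * (1 - a)) + c1 * (x - a * b))
    (hwb : wb = b1 * (x - a * b) + c1 * (b * (1 - b)))
    (hd : d = x * (b1 * (1 - a) + c1 * (1 - b))) :
    d ^ 2 / x + (wa - d) ^ 2 / (a - x) + (wb - d) ^ 2 / (b - x) +
      (d - wa - wb) ^ 2 / (1 - a - b + x) = b1 * wa + c1 * wb := by
  have e10 : wa - d = (a - x) * (b1 * (1 - a) - c1 * b) := by rw [hwa, hd]; ring
  have e01 : wb - d = (b - x) * (-b1 * a + c1 * (1 - b)) := by rw [hwb, hd]; ring
  have e00 : d - wa - wb = (1 - a - b + x) * (-(b1 * a + c1 * b)) := by rw [hwa, hwb, hd]; ring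
  rw [e10, e01, e00, hd]
  have f1 : (x * (b1 * (1 - a) + c1 * (1 - b))) ^ 2 / x = x * (b1 * (1 - a) + c1 * (1 - b)) ^ 2 := by
    field_simp
  have f2 : ((a - x) * (b1 * (1 - a) - c1 * b)) ^ 2 / (a - x) =
      (a - x) * (b1 * (1 - a) - c1 * b) ^ 2 := by field_simp
  have f3 : ((b - x) * (-b1 * a + c1 * (1 - b))) ^ 2 / (b - x) =
      (b - x) * (-b1 * a + c1 * (1 - b)) ^ 2 := by field_simp
  have f4 : ((1 - a - b + x) * (-(b1 * a + c1 * b))) ^ 2 / (1 - a - b + x) =
      (1 - a - b + x) * (-(b1 * a + c1 * b)) ^ 2 := by field_simp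
  rw [f1, f2, f3, f4, hwa, hwb]
  ring

lemma Sec.Ke {β a b x : ℝ} (h : Opt β a b x) (ha : 0 < a) (ha1 : a < 1) (hb : 0 < b)
    (hb1 : b < 1) (wa wb : ℝ) :
    Sec (fun t => Pool.Agent.Lib.MP_a763a9_pr.H59.Ke β (a + t * wa) (b + t * wb)
      (x + t * dd a b x wa wb)) (De a b x wa wb) := by
  have hT := h.T_pos
  have hA : 0 < 1 - a := by linarith
  have hB : 0 < 1 - b := by linarith
  set d := dd a b x wa wb with hd
  have s1 := Sec.negMulLog d h.p11
  have s2 := Sec.negMulLog (wa - d) h.p10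
  have s3 := Sec.negMulLog (wb - d) h.p01
  have s4 := Sec.negMulLog (d - wa - wb) h.p00
  have s5 := Sec.S1 wa ha ha1
  have s6 := Sec.S1 wb hb hb1
  have s0 := Sec.affine (β * (1 - 2 * a - 2 * b + 4 * x)) (β * (-2 * wa - 2 * wb + 4 * d))
  refine ((((((s0.add s1).add s2).add s3).add s4).sub s5).sub s6).congr (fun t => ?_) ?_
  · unfold Pool.Agent.Lib.MP_a763a9_pr.H59.Ke S2
    have e1 : a + t * wa - (x + t * d) = a - x + t * (wa - d) := by ring
    have e2 : b + t * wb - (x + t * d) = b - x + t * (wb - d) := by ring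
    have e3 : 1 - (a + t * wa) - (b + t * wb) + (x + t * d) =
        1 - a - b + x + t * (d - wa - wb) := by ring
    rw [e1, e2, e3]
    ring
  · set T := a * (1 - a) * (b * (1 - b)) - (x - a * b) ^ 2 with hTd
    set b1 := (b * (1 - b) * wa - (x - a * b) * wb) / T with hb1d
    set c1 := (a * (1 - a) * wb - (x - a * b) * wa) / T with hc1d
    have hwa : wa = b1 * (a * (1 - a)) + c1 * (x - a * b) := by
      rw [hb1d, hc1d, div_mul_eq_mul_div, div_mul_eq_mul_div, ← add_div, eq_div_iff hT.ne', hTd]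
      ring
    have hwb : wb = b1 * (x - a * b) + c1 * (b * (1 - b)) := by
      rw [hb1d, hc1d, div_mul_eq_mul_div, div_mul_eq_mul_div, ← add_div, eq_div_iff hT.ne', hTd]
      ring
    have hdd : d = x * (b1 * (1 - a) + c1 * (1 - b)) := by
      rw [hd]; unfold dd
      rw [← hTd, hb1d, hc1d, div_mul_eq_mul_div, div_mul_eq_mul_div, ← add_div]
    have key := second_algebra ha hA hb hB h.p11 h.p10 h.p01 h.p00 hwa hwb hdd
    have e : 0 + -(d ^ 2 / x) + -((wa - d) ^ 2 / (a - x)) + -((wb - d) ^ 2 / (b - x)) +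
        -((d - wa - wb) ^ 2 / (1 - a - b + x)) - -(wa ^ 2 / (a * (1 - a))) -
        -(wb ^ 2 / (b * (1 - b))) = wa ^ 2 / (a * (1 - a)) + wb ^ 2 / (b * (1 - b)) -
        (b1 * wa + c1 * wb) := by rw [← key]; ring
    rw [e]
    unfold De
    rw [← hTd, hb1d, hc1d]
    have h1 := ha.ne'
    have h2 := hb.ne'
    have h3 := hA.ne'
    have h4 := hB.ne'
    have h5 := hT.ne'
    field_simp
    rw [hTd]
    ring

end Pool.Agent.Lib.MP_a763a9_pr.H59
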