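import Pool.Agent.Lib.MP_a763a9_pr.H59.Model

/-!
The shell inequality: if `S` separates `v` from `z`, then
`Cov(v, z) ≤ ∑ y ∈ S, Cov(v, y)`.
-/

set_option autoImplicit false
set_option linter.unusedSectionVars false

namespace Pool.Agent.Lib.MP_a763a9_pr.H59

open Finset

variable {V : Type} [Fintype V] [DecidableEq V]
variable {φ : V → Bool → ℝ} {E : Finset (V × V)} {β : ℝ}

/-- The configuration equal to `τ` on `C` and to `σ` off `C`. -/
def mix (C : Finset V) (σ τ : V → Bool) : V → Bool := fun x => if x ∈ C then τ x else σ x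

lemma sum_mix (C : Finset V) (F : (V → Bool) → ℝ) :
    ∑ σ : V → Bool, ∑ τ : V → Bool, F (mix C σ τ) =
      (Fintype.card (V → Bool) : ℝ) * ∑ σ, F σ := by
  have h1 : ∑ σ : V → Bool, ∑ τ : V → Bool, F (mix C σ τ) =
      ∑ p : (V → Bool) × (V → Bool), F (mix C p.1 p.2) := by
    rw [← univ_product_univ, sum_product]
  have h2 : ∑ p : (V → Bool) × (V → Bool), F (mix C p.1 p.2) =
      ∑ p : (V → Bool) × (V → Bool), F p.1 := by
    refine sum_bij' (fun p _ => (mix C p.1 p.2, mix C p.2 p.1))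
      (fun p _ => (mix C p.1 p.2, mix C p.2 p.1)) (fun _ _ => mem_univ _)
      (fun _ _ => mem_univ _) ?_ ?_ ?_
    · intro p _
      ext x <;> simp only [mix] <;> split_ifs <;> rfl
    · intro p _
      ext x <;> simp only [mix] <;> split_ifs <;> rfl
    · intro p _; rfl
  rw [h1, h2, ← univ_product_univ, sum_product]
  simp [mul_sum]

/-- The inner part of the weight. -/
noncomputable def W2 (φ : V → Bool → ℝ) (E : Finset (V × V)) (β : ℝ) (C : Finset V)
    (σ : V → Bool) : ℝ :=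
  (∏ v ∈ C, φ v (σ v)) *
    Real.exp (β * ∑ e ∈ E with (e.1 ∈ C ∨ e.2 ∈ C), sg (σ e.1) * sg (σ e.2))

/-- The outer part of the weight. -/
noncomputable def W1 (φ : V → Bool → ℝ) (E : Finset (V × V)) (β : ℝ) (C : Finset V)
    (σ : V → Bool) : ℝ :=
  (∏ v ∈ Cᶜ, φ v (σ v)) *
    Real.exp (β * ∑ e ∈ E with ¬ (e.1 ∈ C ∨ e.2 ∈ C), sg (σ e.1) * sg (σ e.2))

lemma wgt_split (C : Finset V) (σ : V → Bool) :
    wgt φ E β σ = W1 φ E β C σ * W2 φ E β C σ := by
  unfold wgt W1 W2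
  rw [← prod_mul_prod_compl C, ← sum_filter_add_sum_filter_not E
    (fun e : V × V => e.1 ∈ C ∨ e.2 ∈ C), mul_add, Real.exp_add]
  ring

lemma W1_mix (C : Finset V) (σ τ : V → Bool) : W1 φ E β C (mix C σ τ) = W1 φ E β C σ := by
  unfold W1
  congr 1
  · refine prod_congr rfl fun v hv => ?_
    rw [mem_compl] at hv
    simp [mix, hv]
  · congr 2
    refine sum_congr rfl fun e he => ?_
    rw [mem_filter, not_or] at he
    simp [mix, he.2.1, he.2.2]

lemma W2_congr (C S : Finset V)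
    (hE : ∀ e ∈ E, (e.1 ∈ C ∨ e.2 ∈ C) → (e.1 ∈ C ∪ S ∧ e.2 ∈ C ∪ S))
    {σ σ' : V → Bool} (h : ∀ x ∈ C ∪ S, σ x = σ' x) : W2 φ E β C σ = W2 φ E β C σ' := by
  unfold W2
  congr 1
  · exact prod_congr rfl fun v hv => by rw [h v (mem_union_left _ hv)]
  · congr 2
    refine sum_congr rfl fun e he => ?_
    rw [mem_filter] at he
    have := hE e he.1 he.2
    rw [h _ this.1, h _ this.2]

lemma W2_nonneg (h : Adm φ) (C : Finset V) (σ : V → Bool) : 0 ≤ W2 φ E β C σ :=
  mul_nonneg (prod_nonneg fun v _ => h.nonneg v _) (Real.exp_pos _).le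

/-- The numerator of the conditional probability that `z` is up. -/
noncomputable def cN (φ : V → Bool → ℝ) (E : Finset (V × V)) (β : ℝ) (C : Finset V) (z : V)
    (σ : V → Bool) : ℝ := ∑ τ, W2 φ E β C (mix C σ τ) * ind (τ z)

noncomputable def cD (φ : V → Bool → ℝ) (E : Finset (V × V)) (β : ℝ) (C : Finset V)
    (σ : V → Bool) : ℝ := ∑ τ, W2 φ E β C (mix C σ τ)

/-- The conditional probability that `z ∈ C` is up given the spins off `C`. -/
noncomputable def ch (φ : V → Bool → ℝ) (E : Finset (V × V)) (β : ℝ) (C : Finset V) (z : V)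
    (σ : V → Bool) : ℝ := cN φ E β C z σ / cD φ E β C σ

lemma cD_pos (h : Adm φ) (C : Finset V) (σ : V → Bool) : 0 < cD φ E β C σ := by
  choose τ hτ using h.pos
  refine lt_of_lt_of_le ?_ (single_le_sum (f := fun τ => W2 φ E β C (mix C σ τ))
    (fun σ _ => W2_nonneg h C _) (mem_univ τ))
  refine mul_pos (prod_pos fun v hv => ?_) (Real.exp_pos _)
  simp only [mix, hv, if_true]
  exact hτ v

lemma ind_nonneg (b : Bool) : 0 ≤ ind b := by cases b <;> simp [ind]
lemma ind_le_one (b : Bool) : ind b ≤ 1 := by cases b <;> simp [ind]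

lemma ch_nonneg (h : Adm φ) (C : Finset V) (z : V) (σ : V → Bool) : 0 ≤ ch φ E β C z σ :=
  div_nonneg (sum_nonneg fun _ _ => mul_nonneg (W2_nonneg h C _) (ind_nonneg _))
    (cD_pos h C σ).le

lemma ch_le_one (h : Adm φ) (C : Finset V) (z : V) (σ : V → Bool) : ch φ E β C z σ ≤ 1 := by
  unfold ch
  rw [div_le_one (cD_pos h C σ)]
  exact sum_le_sum fun τ _ => mul_le_of_le_one_right (W2_nonneg h C _) (ind_le_one _)

lemma ch_congr (C S : Finset V) (hS : Disjoint C S) (z : V)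
    (hE : ∀ e ∈ E, (e.1 ∈ C ∨ e.2 ∈ C) → (e.1 ∈ C ∪ S ∧ e.2 ∈ C ∪ S))
    {σ σ' : V → Bool} (h : ∀ x ∈ S, σ x = σ' x) : ch φ E β C z σ = ch φ E β C z σ' := by
  have key : ∀ τ, W2 φ E β C (mix C σ τ) = W2 φ E β C (mix C σ' τ) := by
    intro τ
    refine W2_congr C S hE fun x hx => ?_
    unfold mix
    split_ifs with hC
    · rfl
    · rcases mem_union.mp hx with h1 | h1
      · exact absurd h1 hC
      · exact h x h1
  unfold ch cN cD
  simp only [key]

lemma Ex_ch (h : Adm φ) (C S : Finset V) (hS : Disjoint C S) (z : V) (hz : z ∈ C)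
    (hE : ∀ e ∈ E, (e.1 ∈ C ∨ e.2 ∈ C) → (e.1 ∈ C ∪ S ∧ e.2 ∈ C ∪ S))
    (g : (V → Bool) → ℝ) (hg : ∀ σ τ, g (mix C σ τ) = g σ) :
    Ex φ E β (fun σ => g σ * ind (σ z)) = Ex φ E β (fun σ => g σ * ch φ E β C z σ) := by
  unfold Ex
  congr 1
  have hcard : (Fintype.card (V → Bool) : ℝ) ≠ 0 := by
    exact_mod_cast Fintype.card_ne_zero
  apply mul_left_cancel₀ hcard
  rw [← sum_mix C, ← sum_mix C]
  refine sum_congr rfl fun σ _ => ?_
  have e1 : ∀ τ, wgt φ E β (mix C σ τ) * (g (mix C σ τ) * ind (mix C σ τ z)) =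
      (W1 φ E β C σ * g σ) * (W2 φ E β C (mix C σ τ) * ind (τ z)) := by
    intro τ
    rw [wgt_split C, W1_mix, hg]
    have : mix C σ τ z = τ z := by simp [mix, hz]
    rw [this]; ring
  have e2 : ∀ τ, wgt φ E β (mix C σ τ) * (g (mix C σ τ) * ch φ E β C z (mix C σ τ)) =
      (W1 φ E β C σ * g σ * ch φ E β C z σ) * (W2 φ E β C (mix C σ τ)) := by
    intro τ
    rw [wgt_split C, W1_mix, hg]
    have : ch φ E β C z (mix C σ τ) = ch φ E β C z σ := by
      refine ch_congr C S hS z hE fun x hx => ?_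
      have : x ∉ C := fun hC => (disjoint_left.mp hS hC) hx
      simp [mix, this]
    rw [this]; ring
  simp only [e1, e2]
  rw [← mul_sum, ← mul_sum]
  have hD := (cD_pos (E := E) (β := β) h C σ).ne'
  have : ch φ E β C z σ * ∑ τ, W2 φ E β C (mix C σ τ) =
      ∑ τ, W2 φ E β C (mix C σ τ) * ind (τ z) := by
    unfold ch cN cD
    unfold cD at hD
    field_simp
  rw [mul_assoc _ (ch φ E β C z σ), this]

/-- The shell inequality. -/
theorem cv_shell (h : Adm φ) (hβ : 0 ≤ β) (C S : Finset V) (hS : Disjoint C S) (v z : V)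
    (hv : v ∉ C) (hz : z ∈ C)
    (hE : ∀ e ∈ E, (e.1 ∈ C ∨ e.2 ∈ C) → (e.1 ∈ C ∪ S ∧ e.2 ∈ C ∪ S)) :
    cv φ E β v z ≤ ∑ y ∈ S, cv φ E β v y := by
  set H := fun σ : V → Bool => ch φ E β C z σ with hH
  have mono : Monotone (fun σ : V → Bool => (∑ y ∈ S, ind (σ y)) + (-1) * H σ) := by
    intro σ σ' hle
    by_cases hag : ∀ x ∈ S, σ x = σ' x
    · have h1 : H σ = H σ' := ch_congr C S hS z hE hag
      have h2 : ∑ y ∈ S, ind (σ y) = ∑ y ∈ S, ind (σ' y) :=
        sum_congr rfl fun y hy => by rw [hag y hy]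
      show (∑ y ∈ S, ind (σ y)) + (-1) * H σ ≤ (∑ y ∈ S, ind (σ' y)) + (-1) * H σ'
      rw [h1, h2]
    · push Not at hag
      obtain ⟨y0, hy0, hne⟩ := hag
      have hlt : ind (σ y0) + 1 ≤ ind (σ' y0) := by
        have := hle y0
        revert this hne
        cases σ y0 <;> cases σ' y0 <;> simp [ind]
      have h2 : (∑ y ∈ S, ind (σ y)) + 1 ≤ ∑ y ∈ S, ind (σ' y) := by
        rw [← add_sum_erase S _ hy0, ← add_sum_erase S (fun y => ind (σ' y)) hy0]
        have : ∑ y ∈ S.erase y0, ind (σ y) ≤ ∑ y ∈ S.erase y0, ind (σ' y) :=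
          sum_le_sum fun y _ => ind_mono hle y
        linarith
      have a := ch_nonneg (E := E) (β := β) h C z σ
      have b := ch_le_one (E := E) (β := β) h C z σ'
      show (∑ y ∈ S, ind (σ y)) + (-1) * H σ ≤ (∑ y ∈ S, ind (σ' y)) + (-1) * H σ'
      simp only [hH]
      linarith
  have fk := Ex_fkg (E := E) h hβ (monotone_ind v) mono
  have e1 : Ex φ E β (fun σ => ind (σ v) * ((∑ y ∈ S, ind (σ y)) + (-1) * H σ)) =
      (∑ y ∈ S, xv φ E β v y) + (-1) * Ex φ E β (fun σ => ind (σ v) * H σ) := by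
    have : (fun σ : V → Bool => ind (σ v) * ((∑ y ∈ S, ind (σ y)) + (-1) * H σ)) =
        fun σ => (∑ y ∈ S, ind (σ v) * ind (σ y)) + (-1) * (ind (σ v) * H σ) := by
      funext σ
      rw [mul_add, mul_sum]; ring
    rw [this, Ex_add, Ex_sum, Ex_const_mul]
    rfl
  have e2 : Ex φ E β (fun σ => (∑ y ∈ S, ind (σ y)) + (-1) * H σ) =
      (∑ y ∈ S, qv φ E β y) + (-1) * Ex φ E β H := by
    rw [Ex_add, Ex_sum, Ex_const_mul]
    rfl
  have e3 : Ex φ E β (fun σ => ind (σ v) * H σ) = xv φ E β v z := by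
    unfold xv
    refine (Ex_ch h C S hS z hz hE (fun σ => ind (σ v)) fun σ τ => ?_).symm
    simp [mix, hv]
  have e4 : Ex φ E β H = qv φ E β z := by
    unfold qv
    have := Ex_ch (β := β) h C S hS z hz hE (fun _ => 1) (fun σ τ => rfl)
    simpa [hH] using this.symm
  rw [e1, e2, e3, e4] at fk
  unfold cv
  rw [sum_sub_distrib, ← mul_sum]
  have : Ex φ E β (fun σ => ind (σ v)) = qv φ E β v := rfl
  rw [this] at fk
  linarith

end Pool.Agent.Lib.MP_a763a9_pr.H59
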