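import Pool.Agent.Lib.MP_a763a9_pr.H59.Defs
import Pool.Agent.Lib.MP_a763a9_pr.H59.Girth

/-!
Truncation of a finite graph: isolating the vertices of high degree and the vertices on short
cycles.
-/

set_option autoImplicit false
set_option linter.unusedVariables false
set_option linter.unusedSectionVars false

namespace Pool.Agent.Lib.MP_a763a9_pr.H59

open Finset

/-- `v` lies on a cycle of length at most `ℓ`. -/
def Bad {V : Type} (G : SimpleGraph V) (ℓ : ℕ) (v : V) : Prop :=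
  ∃ c : G.Walk v v, c.IsCycle ∧ c.length ≤ ℓ

/-- The truncated graph. -/
def tr {V : Type} (G : SimpleGraph V) (Δ ℓ : ℕ) : SimpleGraph V where
  Adj u v := G.Adj u v ∧ (deg G u ≤ Δ ∧ ¬ Bad G ℓ u) ∧ (deg G v ≤ Δ ∧ ¬ Bad G ℓ v)
  symm := ⟨fun u v h => ⟨h.1.symm, h.2.2, h.2.1⟩⟩
  loopless := ⟨fun u h => G.irrefl h.1⟩

lemma tr_adj {V : Type} (G : SimpleGraph V) (Δ ℓ : ℕ) (u v : V) : (tr G Δ ℓ).Adj u v ↔
    G.Adj u v ∧ (deg G u ≤ Δ ∧ ¬ Bad G ℓ u) ∧ (deg G v ≤ Δ ∧ ¬ Bad G ℓ v) := Iff.rfl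

lemma tr_le {V : Type} (G : SimpleGraph V) (Δ ℓ : ℕ) : tr G Δ ℓ ≤ G := fun u v h => h.1

lemma noShort_tr {V : Type} (G : SimpleGraph V) (Δ ℓ : ℕ) : NoShort (tr G Δ ℓ) ℓ := by
  intro v c hc
  by_contra hcon
  push Not at hcon
  have hbad : Bad G ℓ v := ⟨c.mapLe (tr_le G Δ ℓ), hc.mapLe (tr_le G Δ ℓ), by
    rw [SimpleGraph.Walk.length_map]; exact hcon⟩
  cases c with
  | nil => exact absurd hc (by simp)
  | cons h p => exact h.2.1.2 hbad

section

variable {V : Type} [Fintype V]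

lemma deg_eq (G : SimpleGraph V) (v : V) : deg G v = #(nbG G v) := by
  unfold deg
  rw [← Set.ncard_coe_finset]
  congr 1
  ext w
  simp [mem_nbG]

lemma card_nb_tr (G : SimpleGraph V) (Δ ℓ : ℕ) (v : V) : #(nbG (tr G Δ ℓ) v) ≤ Δ := by
  by_cases h : deg G v ≤ Δ
  · refine le_trans (card_le_card ?_) ((deg_eq G v).symm.trans_le h)
    intro w hw
    rw [mem_nbG] at hw ⊢
    exact hw.1
  · have : nbG (tr G Δ ℓ) v = ∅ := by
      ext w
      rw [mem_nbG]
      constructor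
      · intro hw; exact absurd hw.2.1.1 h
      · intro hw; simp at hw
    rw [this]; simp

/-- The truncated degree label. -/
noncomputable def lb (G : SimpleGraph V) (Δ : ℕ) (v : V) : ℕ := min (deg G v) (Δ + 1)

lemma lb_lt (G : SimpleGraph V) (Δ : ℕ) (v : V) : lb G Δ v < Δ + 2 := by
  unfold lb; omega

end

section

variable {V : Type} [Fintype V] [LinearOrder V]

lemma spin_eq_sg (b : Bool) : spin b = sg b := by
  cases b <;> simp [spin, sg]

lemma wgt_fw_eq (θ : V → ℝ) (E : Finset (V × V)) (β : ℝ) (σ : V → Bool) :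
    wgt (fw θ 0) E β σ =
      Real.exp (β * ∑ e ∈ E, sg (σ e.1) * sg (σ e.2) + ∑ v, θ v * sg (σ v)) := by
  unfold wgt fw
  rw [← Real.exp_sum, ← Real.exp_add]
  congr 1
  simp only [add_zero]
  ring

open Classical in
lemma edge_sum_eq (G : SimpleGraph V) (σ : V → Bool) :
    (1 / 2 : ℝ) * ∑ u, ∑ v, (if G.Adj u v then spin (σ u) * spin (σ v) else 0) =
      ∑ e ∈ edG G, sg (σ e.1) * sg (σ e.2) := by
  have h := (edg_G G).sum_prs (fun x y => sg (σ x) * sg (σ y))
  have e1 : ∑ p ∈ prs (nbG G), sg (σ p.1) * sg (σ p.2) =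
      ∑ u, ∑ v, (if G.Adj u v then spin (σ u) * spin (σ v) else 0) := by
    unfold prs
    rw [sum_filter, Fintype.sum_prod_type]
    refine sum_congr rfl fun u _ => sum_congr rfl fun v _ => ?_
    simp only [mem_nbG, spin_eq_sg]
  rw [← e1, h, mul_sum]
  exact sum_congr rfl fun e _ => by ring

lemma Z_eq (G : SimpleGraph V) (β k h : ℝ) :
    Z G β k h = Zf (fw (fun v => k * deg G v + h) 0) (edG G) β := by
  unfold Z Zf
  refine sum_equiv (Equiv.refl (V → Bool)) (fun σ => ?_) (fun σ _ => ?_)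
  · simp only [mem_univ]
  rw [wgt_fw_eq, edge_sum_eq]
  simp only [spin_eq_sg, Equiv.refl_apply]

lemma log_Zf_le_of {θ θ' : V → ℝ} {E E' : Finset (V × V)} {β K : ℝ}
    (hK : ∀ σ : V → Bool, β * ∑ e ∈ E, sg (σ e.1) * sg (σ e.2) + ∑ v, θ v * sg (σ v) ≤
      β * ∑ e ∈ E', sg (σ e.1) * sg (σ e.2) + ∑ v, θ' v * sg (σ v) + K) :
    Real.log (Zf (fw θ 0) E β) ≤ Real.log (Zf (fw θ' 0) E' β) + K := by
  have h0 := Zf_pos (E := E) (β := β) (fw_adm (θ := θ) 0)
  have h1 := Zf_pos (E := E') (β := β) (fw_adm (θ := θ') 0)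
  have h2 : Zf (fw θ 0) E β ≤ Real.exp K * Zf (fw θ' 0) E' β := by
    unfold Zf
    rw [mul_sum]
    refine sum_le_sum fun σ _ => ?_
    rw [wgt_fw_eq, wgt_fw_eq, ← Real.exp_add]
    exact Real.exp_le_exp.mpr (by linarith [hK σ])
  have h3 := Real.log_le_log h0 h2
  rw [Real.log_mul (Real.exp_pos _).ne' h1.ne', Real.log_exp] at h3
  linarith

lemma abs_sg (b : Bool) : |sg b| = 1 := by cases b <;> simp [sg]

/-- The sum of the high degrees. -/
noncomputable def hiDeg (G : SimpleGraph V) (Δ : ℕ) : ℝ :=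
  ∑ v, if Δ < deg G v then (deg G v : ℝ) else 0

open Classical in
/-- The number of vertices on short cycles. -/
noncomputable def nBad (G : SimpleGraph V) (ℓ : ℕ) : ℝ := (#{v | Bad G ℓ v} : ℝ)

lemma hiDeg_nonneg (G : SimpleGraph V) (Δ : ℕ) : 0 ≤ hiDeg G Δ :=
  sum_nonneg fun v _ => by split_ifs <;> positivity

lemma card_removed (G : SimpleGraph V) (Δ ℓ : ℕ) :
    (#(edG G \ edG (tr G Δ ℓ)) : ℝ) ≤ hiDeg G Δ + Δ * nBad G ℓ := by
  classical
  have h1 : #(edG G \ edG (tr G Δ ℓ)) ≤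
      #((prs (nbG G)).filter fun p => Δ < deg G p.1 ∨ Bad G ℓ p.1) := by
    refine card_le_card_of_injOn
      (fun e => if Δ < deg G e.1 ∨ Bad G ℓ e.1 then e else e.swap) ?_ ?_
    · intro e he
      simp only [coe_sdiff, Set.mem_sdiff, mem_coe, mem_edG] at he
      obtain ⟨⟨h1, h2⟩, h3⟩ := he
      simp only [coe_filter, Set.mem_ofPred_eq, prs, mem_filter, mem_univ, true_and, mem_nbG]
      split_ifs with hc
      · exact ⟨h2, hc⟩
      · refine ⟨h2.symm, ?_⟩
        simp only [Prod.fst_swap]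
        push Not at hc
        by_contra hcon
        push Not at hcon
        exact h3 ⟨h1, h2, ⟨hc.1, hc.2⟩, ⟨hcon.1, hcon.2⟩⟩
    · intro e he e' he' heq
      simp only [coe_sdiff, Set.mem_sdiff, mem_coe, mem_edG] at he he'
      simp only at heq
      split_ifs at heq with a b b
      · exact heq
      · exfalso
        have h1 := he.1.1
        have h2 := he'.1.1
        rw [heq] at h1
        simp only [Prod.fst_swap, Prod.snd_swap] at h1
        exact lt_asymm h1 h2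
      · exfalso
        have h1 := he.1.1
        have h2 := he'.1.1
        rw [← heq] at h2
        simp only [Prod.fst_swap, Prod.snd_swap] at h2
        exact lt_asymm h1 h2
      · exact Prod.swap_injective heq
  have h2 : (#((prs (nbG G)).filter fun p => Δ < deg G p.1 ∨ Bad G ℓ p.1) : ℝ) =
      ∑ v, if Δ < deg G v ∨ Bad G ℓ v then (deg G v : ℝ) else 0 := by
    rw [card_filter, Nat.cast_sum]
    unfold prs
    rw [sum_filter, Fintype.sum_prod_type]
    refine sum_congr rfl fun x _ => ?_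
    simp only
    rw [← sum_filter]
    have : (univ.filter fun y => y ∈ nbG G x) = nbG G x := by ext y; simp
    rw [this]
    by_cases hc : Δ < deg G x ∨ Bad G ℓ x
    · simp [deg_eq]
    · simp [hc]
  have h3 : ∑ v, (if Δ < deg G v ∨ Bad G ℓ v then (deg G v : ℝ) else 0) ≤
      hiDeg G Δ + Δ * nBad G ℓ := by
    have e : nBad G ℓ = ∑ v, if Bad G ℓ v then (1:ℝ) else 0 := by
      unfold nBad
      rw [card_filter, Nat.cast_sum]
      exact sum_congr rfl fun v _ => by split_ifs <;> simp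
    rw [e]
    unfold hiDeg
    rw [mul_sum, ← sum_add_distrib]
    refine sum_le_sum fun v _ => ?_
    by_cases a : Δ < deg G v
    · simp only [a, true_or, if_true]
      have : (0:ℝ) ≤ Δ * (if Bad G ℓ v then (1:ℝ) else 0) := by split_ifs <;> positivity
      linarith
    · by_cases b : Bad G ℓ v
      · simp only [a, b, or_true, if_true, if_false, zero_add, mul_one]
        have : deg G v ≤ Δ := not_lt.mp a
        exact_mod_cast this
      · simp [a, b]
  calc (#(edG G \ edG (tr G Δ ℓ)) : ℝ) ≤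
        (#((prs (nbG G)).filter fun p => Δ < deg G p.1 ∨ Bad G ℓ p.1) : ℝ) := by exact_mod_cast h1
    _ ≤ _ := h2.trans_le h3

lemma edG_tr_subset (G : SimpleGraph V) (Δ ℓ : ℕ) : edG (tr G Δ ℓ) ⊆ edG G := by
  intro e he
  rw [mem_edG] at he ⊢
  exact ⟨he.1, he.2.1⟩

/-- Truncation changes the free energy little. -/
theorem abs_log_Z_sub_le (G : SimpleGraph V) (Δ ℓ : ℕ) {β : ℝ} (hβ : 0 ≤ β) (k h : ℝ) :
    |Real.log (Z G β k h) - lZ (fun a => k * a + h) (lb G Δ) (edG (tr G Δ ℓ)) β| ≤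
      β * (hiDeg G Δ + Δ * nBad G ℓ) + |k| * hiDeg G Δ := by
  have hE : ∀ σ : V → Bool, |∑ e ∈ edG G, sg (σ e.1) * sg (σ e.2) -
      ∑ e ∈ edG (tr G Δ ℓ), sg (σ e.1) * sg (σ e.2)| ≤ hiDeg G Δ + Δ * nBad G ℓ := by
    intro σ
    have e1 : ∑ e ∈ edG G, sg (σ e.1) * sg (σ e.2) -
        ∑ e ∈ edG (tr G Δ ℓ), sg (σ e.1) * sg (σ e.2) =
        ∑ e ∈ edG G \ edG (tr G Δ ℓ), sg (σ e.1) * sg (σ e.2) := by
      rw [← sum_sdiff (edG_tr_subset G Δ ℓ)]; ring
    rw [e1]
    refine (abs_sum_le_sum_abs _ _).trans (le_trans (le_of_eq ?_) (card_removed G Δ ℓ))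
    rw [sum_congr rfl (g := fun _ => (1:ℝ)) fun e _ => by rw [abs_mul, abs_sg, abs_sg, one_mul]]
    simp
  have hV : ∀ σ : V → Bool, |∑ v, (k * deg G v + h) * sg (σ v) -
      ∑ v, (k * (lb G Δ v : ℕ) + h) * sg (σ v)| ≤ |k| * hiDeg G Δ := by
    intro σ
    rw [← sum_sub_distrib]
    refine (abs_sum_le_sum_abs _ _).trans ?_
    unfold hiDeg
    rw [mul_sum]
    refine sum_le_sum fun v _ => ?_
    rw [← sub_mul, abs_mul, abs_sg, mul_one]
    have e : k * (deg G v : ℝ) + h - (k * (lb G Δ v : ℝ) + h) =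
        k * ((deg G v : ℝ) - (lb G Δ v : ℝ)) := by ring
    rw [e, abs_mul]
    refine mul_le_mul_of_nonneg_left ?_ (abs_nonneg _)
    unfold lb
    split_ifs with hc
    · have h1 : ((min (deg G v) (Δ + 1) : ℕ) : ℝ) ≤ deg G v := by
        exact_mod_cast min_le_left _ _
      have h2 : (0:ℝ) ≤ ((min (deg G v) (Δ + 1) : ℕ) : ℝ) := Nat.cast_nonneg _
      rw [abs_of_nonneg (by linarith)]
      linarith
    · have : min (deg G v) (Δ + 1) = deg G v := by omega
      rw [this]; simp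
  rw [Z_eq]
  unfold lZ
  rw [abs_sub_le_iff]
  constructor
  · have := log_Zf_le_of (β := β) (θ := fun v => k * deg G v + h)
      (θ' := fun v => k * (lb G Δ v : ℕ) + h) (E := edG G) (E' := edG (tr G Δ ℓ))
      (K := β * (hiDeg G Δ + Δ * nBad G ℓ) + |k| * hiDeg G Δ) (fun σ => by
        have a := mul_le_mul_of_nonneg_left ((le_abs_self _).trans (hE σ)) hβ
        have b := (le_abs_self _).trans (hV σ)
        linarith)
    linarith
  · have := log_Zf_le_of (β := β) (θ' := fun v => k * deg G v + h)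
      (θ := fun v => k * (lb G Δ v : ℕ) + h) (E' := edG G) (E := edG (tr G Δ ℓ))
      (K := β * (hiDeg G Δ + Δ * nBad G ℓ) + |k| * hiDeg G Δ) (fun σ => by
        have a := mul_le_mul_of_nonneg_left ((neg_le_abs _).trans (hE σ)) hβ
        have b := (neg_le_abs _).trans (hV σ)
        linarith)
    linarith

end

end Pool.Agent.Lib.MP_a763a9_pr.H59
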