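import Pool.Agent.Lib.MP_a763a9_pr.H59.Final

/-!
The limit of the free energies depends only on the local limit.
-/

set_option autoImplicit false
set_option linter.unusedVariables false
set_option linter.unusedSectionVars false

namespace Pool.Agent.Lib.MP_a763a9_pr.H59

open Finset MeasureTheory Filter Topology

/-- The sequence of random graphs `G n` on `n` vertices converges locally in probability to the
random rooted graph `X`, which is almost surely a tree. -/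
def HasLocalLimit {Ω : ℕ → Type} [∀ n, MeasurableSpace (Ω n)] (P : ∀ n, Measure (Ω n))
    (G : ∀ n, Ω n → SimpleGraph (Fin n)) (X : RandomRooted) : Prop :=
  (∀ᵐ ω ∂X.μ, (X.T ω).IsTree) ∧
    ∀ (r : ℕ), 1 ≤ r → ∀ (m : ℕ) (H : SimpleGraph (Fin m)) (o : Fin m),
      TendstoInProb P (fun n ω => frac (fun v => BallIso (G n ω) v r H o))
        (X.μ.real {ω | BallIso (X.T ω) (X.root ω) r H o})

lemma hiDeg_anti {V : Type} [Fintype V] (G : SimpleGraph V) {Δ Δ' : ℕ} (h : Δ ≤ Δ') :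
    hiDeg G Δ' ≤ hiDeg G Δ := by
  unfold hiDeg
  refine sum_le_sum fun v _ => ?_
  have h0 : (0 : ℝ) ≤ deg G v := Nat.cast_nonneg _
  split_ifs with h1 h2
  · exact le_rfl
  · exact absurd (lt_of_le_of_lt h h1) h2
  · exact h0
  · exact le_rfl

section

variable {Ω : ℕ → Type} [∀ n, MeasurableSpace (Ω n)] {P : ∀ n, Measure (Ω n)}
  [∀ n, IsProbabilityMeasure (P n)] {G : ∀ n, Ω n → SimpleGraph (Fin n)}

lemma sparse_mono (h : LocallyTreeLike P G) {δ : ℝ} {Δ Δ' : ℕ} (hΔ : Δ ≤ Δ')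
    (h1 : ∀ᶠ n in atTop, ∫ ω, hiDeg (G n ω) Δ / n ∂P n ≤ δ) :
    ∀ᶠ n in atTop, ∫ ω, hiDeg (G n ω) Δ' / n ∂P n ≤ δ := by
  filter_upwards [h1] with n hn
  refine le_trans (integral_mono ?_ ?_ fun ω => ?_) hn
  · exact integrable_fun (P n) (h.measurable n) (fun H => hiDeg H Δ' / (n : ℝ))
  · exact integrable_fun (P n) (h.measurable n) (fun H => hiDeg H Δ / (n : ℝ))
  · exact div_le_div_of_nonneg_right (hiDeg_anti _ hΔ) (Nat.cast_nonneg n)

/-- The expected statistics of the local limit. -/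
noncomputable def stat (X : RandomRooted) (Δ ℓ R' s : ℕ) (t : Finset Ty) (γ : ℕ) : ℝ :=
  ∑ q ∈ t, (if col (nbG (tr q.out.2.1 Δ ℓ)) (lb q.out.2.1 Δ) s q.out.2.2 = γ
    then (1:ℝ) else 0) * X.μ.real {ω | HasTy (X.T ω) (X.root ω) R' q}

/-- One sequence of random graphs: with high probability the free energy is close to the one of
the truncated graph, and the statistics are close to the statistics of the local limit. -/
theorem one_seq (h : LocallyTreeLike P G) (X : RandomRooted) (hX : HasLocalLimit P G X)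
    {β : ℝ} (hβ : 0 ≤ β) (k h' : ℝ) {ε : ℝ} (hε : 0 < ε) (Δ R ℓ R' : ℕ) (hR' : R' = R + ℓ + 1)
    {ε1 δ1 : ℝ} (hε1 : ε1 = ε / (8 * (β + |k| + 1))) (hδ1p : 0 < δ1)
    (hδ1 : δ1 ≤ ε / (32 * (β * Δ + 1)))
    (hΔ : ∀ᶠ n in atTop, ∫ ω, hiDeg (G n ω) Δ / n ∂P n ≤ ε1 * (ε / 4))
    (t : Finset Ty) (hta : ∀ q ∈ t, (q.out.2.1).IsAcyclic)
    (htm : 1 - δ1 ≤ ∑ q ∈ t, X.μ.real {ω | HasTy (X.T ω) (X.root ω) R' q}) :
    ∃ (N : ℕ) (A : ∀ n, Set (Ω n)), (∀ n ≥ N, 1 ≤ n ∧ P n (A n)ᶜ ≤ ENNReal.ofReal ε) ∧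
      ∀ n ≥ N, ∀ ω ∈ A n, |Real.log (Z (G n ω) β k h') / n -
          lZ (fun a => k * a + h') (lb (G n ω) Δ) (edG (tr (G n ω) Δ ℓ)) β / n| ≤ ε / 4 ∧
        ∀ s ≤ R, ∀ γ, |freq (nbG (tr (G n ω) Δ ℓ)) (lb (G n ω) Δ) s γ -
          stat X Δ ℓ R' s t γ| ≤ 3 * δ1 := by
  classical
  have hk0 := abs_nonneg k
  have hε1p : 0 < ε1 := by rw [hε1]; positivity
  have hβΔ : 0 ≤ β * Δ := mul_nonneg hβ (Nat.cast_nonneg _)
  set π : Ty → ℝ := fun q => X.μ.real {ω | HasTy (X.T ω) (X.root ω) R' q} with hπ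
  -- the events
  set A1 : ∀ n, Set (Ω n) := fun n => {ω | ε1 ≤ hiDeg (G n ω) Δ / n} with hA1
  set A2 : ∀ n, Ty → Set (Ω n) := fun n q =>
    {ω | δ1 / (#t + 1) < |frac (fun v => HasTy (G n ω) v R' q) - π q|} with hA2
  have hA1le : ∀ᶠ n in atTop, P n (A1 n) ≤ ENNReal.ofReal (ε / 4) := by
    filter_upwards [hΔ] with n hn
    have hi := integrable_fun (P n) (h.measurable n) (fun H => hiDeg H Δ / (n : ℝ))
    have hm := mul_meas_ge_le_integral_of_nonneg (μ := P n)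
      (Eventually.of_forall fun ω => div_nonneg (hiDeg_nonneg (G n ω) Δ) (Nat.cast_nonneg n))
      hi ε1
    have h1 : (P n).real (A1 n) ≤ ε / 4 := by
      have : ε1 * (P n).real (A1 n) ≤ ε1 * (ε / 4) := hm.trans hn
      exact le_of_mul_le_mul_left this hε1p
    rw [← ENNReal.ofReal_toReal (measure_ne_top (P n) (A1 n))]
    exact ENNReal.ofReal_le_ofReal h1
  have hA2le : ∀ᶠ n in atTop, ∑ q ∈ t, P n (A2 n q) ≤ ENNReal.ofReal (ε / 4) := by
    have h1 : Tendsto (fun n => ∑ q ∈ t, P n (A2 n q)) atTop (𝓝 (∑ q ∈ t, 0)) := by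
      refine tendsto_finsetSum _ fun q _ => ?_
      exact hX.2 R' (by omega) _ _ _ _ (by positivity)
    rw [sum_const_zero] at h1
    exact h1.eventually_le_const (by positivity)
  obtain ⟨N, hN⟩ := ((hA1le.and hA2le).and (eventually_ge_atTop 1)).exists_forall_of_atTop
  refine ⟨N, fun n => {ω | hiDeg (G n ω) Δ / n < ε1 ∧
    ∀ q ∈ t, |frac (fun v => HasTy (G n ω) v R' q) - π q| ≤ δ1 / (#t + 1)}, ?_, ?_⟩
  · intro n hn
    obtain ⟨⟨h1, h2⟩, h3⟩ := hN n hn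
    refine ⟨h3, ?_⟩
    have hsub : {ω | hiDeg (G n ω) Δ / n < ε1 ∧
        ∀ q ∈ t, |frac (fun v => HasTy (G n ω) v R' q) - π q| ≤ δ1 / (#t + 1)}ᶜ ⊆
        A1 n ∪ ⋃ q ∈ t, A2 n q := by
      intro ω hω
      by_contra hcon
      rw [Set.mem_union, not_or] at hcon
      apply hω
      refine ⟨not_le.mp hcon.1, fun q hq => ?_⟩
      by_contra hc
      apply hcon.2
      rw [Set.mem_iUnion₂]
      exact ⟨q, hq, not_le.mp hc⟩
    calc P n _ ≤ P n (A1 n ∪ ⋃ q ∈ t, A2 n q) := measure_mono hsub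
      _ ≤ P n (A1 n) + P n (⋃ q ∈ t, A2 n q) := measure_union_le _ _
      _ ≤ P n (A1 n) + ∑ q ∈ t, P n (A2 n q) := by
        gcongr
        exact measure_biUnion_finset_le _ _
      _ ≤ ENNReal.ofReal (ε / 4) + ENNReal.ofReal (ε / 4) := add_le_add h1 h2
      _ = ENNReal.ofReal (ε / 4 + ε / 4) := (ENNReal.ofReal_add (by linarith) (by linarith)).symm
      _ ≤ ENNReal.ofReal ε := ENNReal.ofReal_le_ofReal (by linarith)
  · intro n hn ω ⟨h1, h2⟩
    have hn1 : 1 ≤ n := (hN n hn).2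
    have hn0 : 0 < n := hn1
    have hn' : (0 : ℝ) < n := by exact_mod_cast hn0
    have hcol : ∀ v, ∀ q ∈ t, HasTy (G n ω) v R' q → ¬ Bad (G n ω) ℓ v ∧ ∀ s ≤ R,
        col (nbG (tr (G n ω) Δ ℓ)) (lb (G n ω) Δ) s v =
        col (nbG (tr q.out.2.1 Δ ℓ)) (lb q.out.2.1 Δ) s q.out.2.2 :=
      fun v q hq hv => col_of_ball (R := R) (by omega) (hta q hq) hv
    constructor
    · have hb := average_types hn0 (G n ω) R' t π hδ1p.le htm h2
        (fun v => if Bad (G n ω) ℓ v then 1 else 0) (fun _ => 0)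
        (fun v => by split_ifs <;> norm_num) (fun v => by split_ifs <;> norm_num)
        (fun q => by simp) (fun v q hq hv => by rw [if_neg (hcol v q hq hv).1])
      have hnb : nBad (G n ω) ℓ / n ≤ 3 * δ1 := by
        have e : nBad (G n ω) ℓ = ∑ v, if Bad (G n ω) ℓ v then (1:ℝ) else 0 := by
          unfold nBad
          rw [card_filter, Nat.cast_sum]
          exact sum_congr rfl fun v _ => by split_ifs <;> simp
        rw [e]
        simp only [zero_mul, sum_const_zero, sub_zero] at hb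
        exact (le_abs_self _).trans hb
      have hd := abs_log_Z_sub_le (G n ω) Δ ℓ hβ k h'
      rw [← sub_div, abs_div, abs_of_pos hn']
      have h3 : (β * (hiDeg (G n ω) Δ + Δ * nBad (G n ω) ℓ) + |k| * hiDeg (G n ω) Δ) / n =
          (β + |k|) * (hiDeg (G n ω) Δ / n) + β * Δ * (nBad (G n ω) ℓ / n) := by
        field_simp
        ring
      have h4 : (β + |k|) * (hiDeg (G n ω) Δ / n) ≤ (β + |k|) * ε1 :=
        mul_le_mul_of_nonneg_left h1.le (by positivity)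
      have h5 : β * Δ * (nBad (G n ω) ℓ / n) ≤ β * Δ * (3 * δ1) :=
        mul_le_mul_of_nonneg_left hnb hβΔ
      have h6 : (β + |k|) * ε1 ≤ ε / 8 := by
        rw [hε1, mul_div_assoc', div_le_div_iff₀ (by positivity) (by norm_num)]
        nlinarith
      have h7 : β * Δ * (3 * δ1) ≤ ε / 8 := by
        have h8 : δ1 * (32 * (β * Δ + 1)) ≤ ε := by
          rwa [le_div_iff₀ (by positivity)] at hδ1
        nlinarith [mul_nonneg hβΔ hδ1p.le]
      refine (div_le_div_of_nonneg_right hd hn'.le).trans ?_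
      rw [h3]
      linarith
    · intro s hs γ
      have hb := average_types hn0 (G n ω) R' t π hδ1p.le htm h2
        (fun v => if col (nbG (tr (G n ω) Δ ℓ)) (lb (G n ω) Δ) s v = γ then 1 else 0)
        (fun q => if col (nbG (tr q.out.2.1 Δ ℓ)) (lb q.out.2.1 Δ) s q.out.2.2 = γ
          then (1:ℝ) else 0)
        (fun v => by split_ifs <;> norm_num) (fun v => by split_ifs <;> norm_num)
        (fun q => by split_ifs <;> simp) (fun v q hq hv => by rw [(hcol v q hq hv).2 s hs])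
      have e : freq (nbG (tr (G n ω) Δ ℓ)) (lb (G n ω) Δ) s γ =
          (∑ v, if col (nbG (tr (G n ω) Δ ℓ)) (lb (G n ω) Δ) s v = γ then (1:ℝ) else 0) / n := by
        unfold freq
        rw [card_filter, Nat.cast_sum, Fintype.card_fin]
        congr 1
        exact sum_congr rfl fun v _ => by split_ifs <;> simp
      rw [e]; exact hb

end

section

variable {Ω : ℕ → Type} [∀ n, MeasurableSpace (Ω n)] {P : ∀ n, Measure (Ω n)}
  [∀ n, IsProbabilityMeasure (P n)] {G : ∀ n, Ω n → SimpleGraph (Fin n)}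
  {Ω₂ : ℕ → Type} [∀ n, MeasurableSpace (Ω₂ n)] {P₂ : ∀ n, Measure (Ω₂ n)}
  [∀ n, IsProbabilityMeasure (P₂ n)] {G₂ : ∀ n, Ω₂ n → SimpleGraph (Fin n)}

/-- Comparison of two sequences with the same local limit. -/
theorem cross_events (h : LocallyTreeLike P G) (h₂ : LocallyTreeLike P₂ G₂) (X : RandomRooted)
    (hX : HasLocalLimit P G X) (hX₂ : HasLocalLimit P₂ G₂ X) {β : ℝ} (hβ : 0 ≤ β) (k h' : ℝ)
    {ε : ℝ} (hε : 0 < ε) : ∃ (N : ℕ) (A : ∀ n, Set (Ω n)) (A₂ : ∀ n, Set (Ω₂ n)),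
      (∀ n ≥ N, P n (A n)ᶜ ≤ ENNReal.ofReal ε) ∧ (∀ n ≥ N, P₂ n (A₂ n)ᶜ ≤ ENNReal.ofReal ε) ∧
      ∀ n ≥ N, ∀ m ≥ N, ∀ ω ∈ A n, ∀ ω' ∈ A₂ m, Real.log (Z (G n ω) β k h') / n ≤
        Real.log (Z (G₂ m ω') β k h') / m + ε := by
  set ε1 := ε / (8 * (β + |k| + 1)) with hε1
  have hk0 := abs_nonneg k
  have hε1p : 0 < ε1 := by positivity
  obtain ⟨Δ₁, hΔ₁⟩ := sparse_small h (show 0 < ε1 * (ε / 4) by positivity)
  obtain ⟨Δ₂, hΔ₂⟩ := sparse_small h₂ (show 0 < ε1 * (ε / 4) by positivity)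
  set Δ := max Δ₁ Δ₂ with hΔdef
  have hΔ := sparse_mono h (le_max_left Δ₁ Δ₂) hΔ₁
  have hΔ' := sparse_mono h₂ (le_max_right Δ₁ Δ₂) hΔ₂
  obtain ⟨R, ρ, δ, hδ, hcomp⟩ := compare_tr hβ (fun a => k * a + h') Δ
    (show 0 < ε / 4 by linarith)
  set δ1 := min (δ / 6) (ε / (32 * (β * Δ + 1))) with hδ1
  have hβΔ : 0 ≤ β * Δ := mul_nonneg hβ (Nat.cast_nonneg _)
  have hδ1p : 0 < δ1 := lt_min (by linarith) (by positivity)
  obtain ⟨t, hta, htm⟩ := exists_types X hX.1 (R + (2 * ρ + 2) + 1) hδ1p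
  obtain ⟨N, A, hA, hA'⟩ := one_seq h X hX hβ k h' hε Δ R (2 * ρ + 2) (R + (2 * ρ + 2) + 1) rfl
    hε1 hδ1p (min_le_right _ _) hΔ t hta htm
  obtain ⟨N₂, A₂, hA₂, hA₂'⟩ := one_seq h₂ X hX₂ hβ k h' hε Δ R (2 * ρ + 2)
    (R + (2 * ρ + 2) + 1) rfl hε1 hδ1p (min_le_right _ _) hΔ' t hta htm
  refine ⟨max N N₂, A, A₂, fun n hn => (hA n (le_of_max_le_left hn)).2,
    fun n hn => (hA₂ n (le_of_max_le_right hn)).2, ?_⟩
  intro n hn m hm ω hω ω' hω'
  have hn := le_of_max_le_left hn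
  have hm := le_of_max_le_right hm
  obtain ⟨a1, a2⟩ := hA' n hn ω hω
  obtain ⟨b1, b2⟩ := hA₂' m hm ω' hω'
  have hn0 : 0 < n := (hA n hn).1
  have hm0 : 0 < m := (hA₂ m hm).1
  have : Nonempty (Fin n) := ⟨⟨0, hn0⟩⟩
  have : Nonempty (Fin m) := ⟨⟨0, hm0⟩⟩
  have hc := hcomp (Fin n) (Fin m) (G n ω) (G₂ m ω') (fun s hs γ => by
    have c1 := a2 s hs γ
    have c2 := b2 s hs γ
    have hδ6 : δ1 ≤ δ / 6 := min_le_left _ _
    rw [abs_le] at c1 c2 ⊢
    constructor <;> linarith [c1.1, c1.2, c2.1, c2.2])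
  rw [Fintype.card_fin, Fintype.card_fin] at hc
  have d1 := (abs_le.mp a1).2
  have d2 := (abs_le.mp b1).1
  linarith

/-- The limits are equal. -/
theorem limit_le (h : LocallyTreeLike P G) (h₂ : LocallyTreeLike P₂ G₂) (X : RandomRooted)
    (hX : HasLocalLimit P G X) (hX₂ : HasLocalLimit P₂ G₂ X) {β : ℝ} (hβ : 0 ≤ β) (k h' : ℝ)
    {c c₂ : ℝ} (hc : TendstoInProb P (fun n ω => Real.log (Z (G n ω) β k h') / n) c)
    (hc₂ : TendstoInProb P₂ (fun n ω => Real.log (Z (G₂ n ω) β k h') / n) c₂) : c ≤ c₂ := by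
  refine le_of_forall_pos_le_add fun η hη => ?_
  set ε := min (η / 3) (1 / 3) with hε
  have hεp : 0 < ε := lt_min (by linarith) (by norm_num)
  have hε1 : ε ≤ η / 3 := min_le_left _ _
  have hε2 : ε ≤ 1 / 3 := min_le_right _ _
  obtain ⟨N, A, A₂, hA, hA₂, hcomp⟩ := cross_events h h₂ X hX hX₂ hβ k h' hεp
  have key : ∀ {Ω : ℕ → Type} [∀ n, MeasurableSpace (Ω n)] (P : ∀ n, Measure (Ω n))
      [∀ n, IsProbabilityMeasure (P n)] (Y : ∀ n, Ω n → ℝ) (c : ℝ) (hc : TendstoInProb P Y c)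
      (A : ∀ n, Set (Ω n)) (hA : ∀ n ≥ N, P n (A n)ᶜ ≤ ENNReal.ofReal ε),
      ∃ n ≥ N, ∃ ω ∈ A n, |Y n ω - c| ≤ ε := by
    intro Ω _ P _ Y c hc A hA
    have h1 : ∀ᶠ n in atTop, P n {ω | ε < |Y n ω - c|} < ENNReal.ofReal (1 / 3) :=
      (hc ε hεp).eventually_lt_const (by positivity)
    obtain ⟨n, h2, hn⟩ := (h1.and (eventually_ge_atTop N)).exists
    refine ⟨n, hn, ?_⟩
    by_contra hcon
    push Not at hcon
    have h3 : (Set.univ : Set (Ω n)) ⊆ (A n)ᶜ ∪ {ω | ε < |Y n ω - c|} := by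
      intro ω _
      by_cases hω : ω ∈ A n
      · exact Or.inr (hcon ω hω)
      · exact Or.inl hω
    have h4 : (1 : ENNReal) ≤ ENNReal.ofReal (2 / 3) := by
      calc (1 : ENNReal) = P n Set.univ := measure_univ.symm
        _ ≤ P n ((A n)ᶜ ∪ {ω | ε < |Y n ω - c|}) := measure_mono h3
        _ ≤ P n (A n)ᶜ + P n {ω | ε < |Y n ω - c|} := measure_union_le _ _
        _ ≤ ENNReal.ofReal (1 / 3) + ENNReal.ofReal (1 / 3) :=
          add_le_add ((hA n hn).trans (ENNReal.ofReal_le_ofReal hε2)) h2.le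
        _ = ENNReal.ofReal (1 / 3 + 1 / 3) :=
          (ENNReal.ofReal_add (by norm_num) (by norm_num)).symm
        _ ≤ ENNReal.ofReal (2 / 3) := ENNReal.ofReal_le_ofReal (by norm_num)
    rw [← ENNReal.ofReal_one, ENNReal.ofReal_le_ofReal_iff (by norm_num)] at h4
    norm_num at h4
  obtain ⟨n, hn, ω, hω, h1⟩ := key P _ c hc A hA
  obtain ⟨m, hm, ω', hω', h2⟩ := key P₂ _ c₂ hc₂ A₂ hA₂
  have h3 := hcomp n hn m hm ω hω ω' hω'
  have h4 := (abs_le.mp h1).1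
  have h5 := (abs_le.mp h2).2
  linarith

end

/-- **Theorem.** The limit depends only on the local limit. -/
theorem main_limit (X : RandomRooted) (β k h : ℝ) (hβ : 0 ≤ β) :
    ∃ φ : ℝ, ∀ {Ω : ℕ → Type} [∀ n, MeasurableSpace (Ω n)] (P : ∀ n, Measure (Ω n))
      [∀ n, IsProbabilityMeasure (P n)] (G : ∀ n, Ω n → SimpleGraph (Fin n)),
      LocallyTreeLike P G → HasLocalLimit P G X →
      TendstoInProb P (fun n ω => Real.log (Z (G n ω) β k h) / n) φ := by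
  by_cases hex : ∃ (Ω : ℕ → Type) (_ : ∀ n, MeasurableSpace (Ω n)) (P : ∀ n, Measure (Ω n))
      (_ : ∀ n, IsProbabilityMeasure (P n)) (G : ∀ n, Ω n → SimpleGraph (Fin n)),
      LocallyTreeLike P G ∧ HasLocalLimit P G X
  · obtain ⟨Ω, _, P, _, G, hG, hX⟩ := hex
    obtain ⟨φ, hφ⟩ := main hG β k h hβ
    refine ⟨φ, ?_⟩
    intro Ω₂ _ P₂ _ G₂ hG₂ hX₂
    obtain ⟨φ₂, hφ₂⟩ := main hG₂ β k h hβ
    have h1 := limit_le hG hG₂ X hX hX₂ hβ k h hφ hφ₂
    have h2 := limit_le hG₂ hG X hX₂ hX hβ k h hφ₂ hφ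
    rwa [le_antisymm h1 h2]
  · refine ⟨0, ?_⟩
    intro Ω₂ _ P₂ _ G₂ hG₂ hX₂
    exact absurd ⟨Ω₂, inferInstance, P₂, inferInstance, G₂, hG₂, hX₂⟩ hex

end Pool.Agent.Lib.MP_a763a9_pr.H59
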