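import Pool.Agent.Lib.MP_a763a9_pr.H59.LocalCol

/-!
Isomorphism types of finite rooted graphs, and a finite family of types carrying most of the mass
of a random rooted tree.
-/

set_option autoImplicit false
set_option linter.unusedVariables false
set_option linter.unusedSectionVars false

namespace Pool.Agent.Lib.MP_a763a9_pr.H59

open Finset MeasureTheory

/-- Codes of finite rooted graphs. -/
abbrev Code : Type := Σ m : ℕ, SimpleGraph (Fin m) × Fin m

/-- Rooted isomorphism. -/
def RIso (a b : Code) : Prop := ∃ f : a.2.1 ≃g b.2.1, f a.2.2 = b.2.2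

lemma riso_equivalence : Equivalence RIso where
  refl a := ⟨SimpleGraph.Iso.refl, rfl⟩
  symm := by
    rintro a b ⟨f, hf⟩
    exact ⟨f.symm, by rw [← hf]; simp⟩
  trans := by
    rintro a b c ⟨f, hf⟩ ⟨g, hg⟩
    exact ⟨f.trans g, by simp [hf, hg]⟩

/-- The setoid of rooted isomorphism. -/
def codeSetoid : Setoid Code := ⟨RIso, riso_equivalence⟩

/-- Isomorphism types of finite rooted graphs. -/
abbrev Ty : Type := Quotient codeSetoid

instance : Countable Ty := by
  have : Countable Code := inferInstance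
  exact Quotient.countable

/-- The ball around `v` has type `q`. -/
def HasTy {V : Type} (G : SimpleGraph V) (v : V) (r : ℕ) (q : Ty) : Prop :=
  BallIso G v r q.out.2.1 q.out.2.2

lemma ballIso_riso {V : Type} {G : SimpleGraph V} {v : V} {r : ℕ} {a b : Code}
    (ha : BallIso G v r a.2.1 a.2.2) (hb : BallIso G v r b.2.1 b.2.2) : RIso a b := by
  obtain ⟨f, hf⟩ := ha
  obtain ⟨g, hg⟩ := hb
  refine ⟨f.trans g.symm, ?_⟩
  have : f a.2.2 = g b.2.2 := Subtype.ext (hf.trans hg.symm)
  simp [this]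

lemma ballIso_of_riso {V : Type} {G : SimpleGraph V} {v : V} {r : ℕ} {a b : Code}
    (ha : BallIso G v r a.2.1 a.2.2) (h : RIso a b) : BallIso G v r b.2.1 b.2.2 := by
  obtain ⟨f, hf⟩ := ha
  obtain ⟨g, hg⟩ := h
  refine ⟨g.symm.trans f, ?_⟩
  rw [← hg]
  simp [hf]

lemma hasTy_unique {V : Type} {G : SimpleGraph V} {v : V} {r : ℕ} {q q' : Ty}
    (h : HasTy G v r q) (h' : HasTy G v r q') : q = q' := by
  have := ballIso_riso h h'
  rw [← Quotient.out_eq q, ← Quotient.out_eq q']
  exact Quotient.sound this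

lemma ball_finite {V : Type} {G : SimpleGraph V} (hG : ∀ v, (G.neighborSet v).Finite) (v : V)
    (r : ℕ) : {w | G.edist v w ≤ (r : ℕ∞)}.Finite := by
  induction r with
  | zero =>
    refine (Set.finite_singleton v).subset ?_
    intro w hw
    have : G.edist v w = 0 := le_antisymm hw (by simp)
    exact (SimpleGraph.edist_eq_zero_iff.mp this).symm
  | succ r ih =>
    refine (ih.union (ih.biUnion fun u _ => hG u)).subset ?_
    intro w hw
    have hw : G.edist v w ≤ ((r + 1 : ℕ) : ℕ∞) := hw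
    have ht : G.edist w v ≠ ⊤ := by
      rw [SimpleGraph.edist_comm]
      exact ne_top_of_le_ne_top (ENat.natCast_ne_top _) hw
    obtain ⟨p, hp⟩ := SimpleGraph.exists_walk_of_edist_ne_top ht
    cases p with
    | nil => left; simp
    | @cons _ x _ h q =>
      right
      rw [Set.mem_iUnion₂]
      refine ⟨x, ?_, h.symm⟩
      have h1 : q.length + 1 ≤ r + 1 := by
        have : ((q.length + 1 : ℕ) : ℕ∞) ≤ ((r + 1 : ℕ) : ℕ∞) := by
          rw [← SimpleGraph.Walk.length_cons h q, hp, SimpleGraph.edist_comm]; exact hw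
        exact_mod_cast this
      have h2 : G.edist x v ≤ q.length := q.edist_le
      show G.edist v x ≤ (r : ℕ∞)
      rw [SimpleGraph.edist_comm]
      refine h2.trans ?_
      have : q.length ≤ r := by omega
      exact_mod_cast this

lemma exists_hasTy {V : Type} {G : SimpleGraph V} (hG : ∀ v, (G.neighborSet v).Finite) (v : V)
    (r : ℕ) : ∃ q : Ty, HasTy G v r q := by
  have hfin := ball_finite hG v r
  set B : Set V := {w | G.edist v w ≤ (r : ℕ∞)} with hB
  have : Fintype B := hfin.fintype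
  let e : Fin (Fintype.card B) ≃ B := (Fintype.equivFin B).symm
  have hv : v ∈ B := by rw [hB]; simp
  let c : Code := ⟨Fintype.card B, (G.induce B).comap e, e.symm ⟨v, hv⟩⟩
  have hc : BallIso G v r c.2.1 c.2.2 := by
    refine ⟨SimpleGraph.Iso.comap e (G.induce B), ?_⟩
    show ((e (e.symm ⟨v, hv⟩) : B) : V) = v
    rw [Equiv.apply_symm_apply]
  refine ⟨Quotient.mk codeSetoid c, ?_⟩
  exact ballIso_of_riso hc (riso_equivalence.symm (Quotient.mk_out (s := codeSetoid) c))

lemma acyclic_of_hasTy {V : Type} {G : SimpleGraph V} (hG : G.IsAcyclic) {v : V} {r : ℕ} {q : Ty}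
    (h : HasTy G v r q) : q.out.2.1.IsAcyclic := by
  obtain ⟨f, hf⟩ := h
  intro x c hc
  have h1 := hc.map (f := f.toHom) f.injective
  have h2 := h1.map (f := (SimpleGraph.Embedding.induce (G := G) {w | G.edist v w ≤ (r : ℕ∞)}).toHom)
    (SimpleGraph.Embedding.induce (G := G) {w | G.edist v w ≤ (r : ℕ∞)}).injective
  exact hG _ h2

/-- Finitely many tree types carry most of the mass. -/
theorem exists_types (X : RandomRooted) (hX : ∀ᵐ ω ∂X.μ, (X.T ω).IsTree) (r : ℕ) {δ : ℝ}
    (hδ : 0 < δ) : ∃ t : Finset Ty, (∀ q ∈ t, q.out.2.1.IsAcyclic) ∧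
      1 - δ ≤ ∑ q ∈ t, X.μ.real {ω | HasTy (X.T ω) (X.root ω) r q} := by
  classical
  set E : Ty → Set X.Ω := fun q => {ω | HasTy (X.T ω) (X.root ω) r q} with hE
  have hmeas : ∀ q, MeasurableSet (E q) := fun q => X.measurable r _ _ _
  have hdisj : Pairwise (Function.onFun Disjoint E) := by
    intro q q' hne
    rw [Function.onFun, Set.disjoint_left]
    intro ω h h'
    exact hne (hasTy_unique h h')
  have hunion : ⋃ q, E q = Set.univ := by
    rw [Set.eq_univ_iff_forall]
    intro ω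
    obtain ⟨q, hq⟩ := exists_hasTy (X.locallyFinite ω) (X.root ω) r
    exact Set.mem_iUnion.mpr ⟨q, hq⟩
  have hsum : ∑' q, X.μ (E q) = 1 := by
    rw [← measure_iUnion hdisj hmeas, hunion]
    exact measure_univ
  have hlt : ENNReal.ofReal (1 - δ) < ⨆ s : Finset Ty, ∑ q ∈ s, X.μ (E q) := by
    rw [← ENNReal.tsum_eq_iSup_sum, hsum]
    rw [← ENNReal.ofReal_one]
    exact (ENNReal.ofReal_lt_ofReal_iff one_pos).mpr (by linarith)
  obtain ⟨s, hs⟩ := lt_iSup_iff.mp hlt
  have hnull : ∀ q, ¬ q.out.2.1.IsAcyclic → X.μ (E q) = 0 := by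
    intro q hq
    refine measure_mono_null ?_ (MeasureTheory.ae_iff.mp hX)
    intro ω hω hT
    exact hq (acyclic_of_hasTy hT.isAcyclic hω)
  refine ⟨s.filter fun q => q.out.2.1.IsAcyclic, fun q hq => (mem_filter.mp hq).2, ?_⟩
  have h1 : ∑ q ∈ s with q.out.2.1.IsAcyclic, X.μ.real (E q) = ∑ q ∈ s, X.μ.real (E q) := by
    rw [sum_filter]
    refine sum_congr rfl fun q _ => ?_
    split_ifs with h
    · rfl
    · unfold Measure.real
      rw [hnull q h]; simp
  rw [h1]
  have h2 : ∑ q ∈ s, X.μ.real (E q) = (∑ q ∈ s, X.μ (E q)).toReal := by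
    rw [ENNReal.toReal_sum (fun q _ => measure_ne_top _ _)]
    rfl
  rw [h2]
  have h3 : ∑ q ∈ s, X.μ (E q) ≠ ⊤ := by
    rw [ne_eq, ENNReal.sum_eq_top]
    push Not
    exact fun q _ => measure_ne_top _ _
  exact (ENNReal.ofReal_le_iff_le_toReal h3).mp hs.le

/-- The fraction of the vertices with a given type. -/
lemma frac_nonneg {n : ℕ} (p : Fin n → Prop) : 0 ≤ frac p :=
  div_nonneg (Nat.cast_nonneg _) (Nat.cast_nonneg _)

/-- Averages of functions of the type. -/
theorem average_types {n : ℕ} (hn : 0 < n) (G : SimpleGraph (Fin n)) (r : ℕ) (t : Finset Ty)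
    (π : Ty → ℝ) {δ : ℝ} (hδ : 0 ≤ δ) (hπ : 1 - δ ≤ ∑ q ∈ t, π q)
    (hfr : ∀ q ∈ t, |frac (fun v => HasTy G v r q) - π q| ≤ δ / (#t + 1))
    (f : Fin n → ℝ) (g : Ty → ℝ) (f0 : ∀ v, 0 ≤ f v) (f1 : ∀ v, f v ≤ 1)
    (g0 : ∀ q, |g q| ≤ 1) (hfg : ∀ v, ∀ q ∈ t, HasTy G v r q → f v = g q) :
    |(∑ v, f v) / n - ∑ q ∈ t, g q * π q| ≤ 3 * δ := by
  classical
  have hn' : (0 : ℝ) < n := by exact_mod_cast hn
  choose cls hcls using fun v => exists_hasTy (G := G) (fun v => Set.toFinite _) v r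
  have hiff : ∀ v q, HasTy G v r q ↔ cls v = q := fun v q =>
    ⟨fun h => hasTy_unique (hcls v) h, fun h => h ▸ hcls v⟩
  have hfrac : ∀ q, frac (fun v => HasTy G v r q) = (#{v | cls v = q} : ℝ) / n := by
    intro q
    unfold frac
    congr 2
    rw [← Set.ncard_coe_finset]
    congr 1
    ext v
    simp [hiff]
  have hsplit : ∀ F : Fin n → ℝ, ∑ v, F v = ∑ q ∈ t, ∑ v with cls v = q, F v +
      ∑ v with cls v ∉ t, F v := by
    intro F
    have h1 : ∑ q ∈ t, ∑ v with cls v = q, F v = ∑ v with cls v ∈ t, F v := by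
      rw [← sum_fiberwise_of_maps_to (s := univ.filter fun v => cls v ∈ t) (t := t) (g := cls)
        (fun v hv => (mem_filter.mp hv).2)]
      refine sum_congr rfl fun q hq => ?_
      rw [filter_filter]
      refine sum_congr ?_ fun _ _ => rfl
      ext v
      simp only [mem_filter, mem_univ, true_and]
      constructor
      · intro h; exact ⟨h ▸ hq, h⟩
      · intro h; exact h.2
    rw [h1, sum_filter_add_sum_filter_not]
  -- the mass of the exceptional set
  have herr : ∑ q ∈ t, |frac (fun v => HasTy G v r q) - π q| ≤ δ := by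
    calc _ ≤ ∑ q ∈ t, δ / (#t + 1) := sum_le_sum hfr
      _ = #t * (δ / (#t + 1)) := by rw [sum_const, nsmul_eq_mul]
      _ ≤ δ := by
        rw [mul_div_assoc', div_le_iff₀ (by positivity)]
        nlinarith [Nat.cast_nonneg (α := ℝ) (#t)]
  have hexc : (∑ v with cls v ∉ t, (1:ℝ)) / n ≤ 2 * δ := by
    have h1 := hsplit (fun _ => 1)
    have h2 : ∑ v : Fin n, (1:ℝ) = n := by simp
    have h3 : ∑ q ∈ t, ∑ v with cls v = q, (1:ℝ) =
        ∑ q ∈ t, n * frac (fun v => HasTy G v r q) := by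
      refine sum_congr rfl fun q _ => ?_
      rw [hfrac, sum_const, nsmul_eq_mul]
      field_simp
    have h4 : ∑ q ∈ t, π q - ∑ q ∈ t, frac (fun v => HasTy G v r q) ≤ δ := by
      rw [← sum_sub_distrib]
      refine le_trans (sum_le_sum fun q _ => ?_) herr
      rw [abs_sub_comm]
      exact le_abs_self _
    rw [h2, h3, ← mul_sum] at h1
    rw [div_le_iff₀ hn']
    nlinarith
  -- the main decomposition
  have hmain : (∑ v, f v) / n = ∑ q ∈ t, g q * frac (fun v => HasTy G v r q) +
      (∑ v with cls v ∉ t, f v) / n := by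
    rw [hsplit f, add_div]
    congr 1
    rw [sum_div]
    refine sum_congr rfl fun q hq => ?_
    rw [hfrac, sum_congr rfl (g := fun _ => g q) (fun v hv => hfg v q hq
      ((hiff v q).mpr (mem_filter.mp hv).2)), sum_const, nsmul_eq_mul]
    ring
  have hexf : (∑ v with cls v ∉ t, f v) / n ≤ 2 * δ :=
    (div_le_div_of_nonneg_right (sum_le_sum fun v _ => f1 v) hn'.le).trans hexc
  have hexf0 : 0 ≤ (∑ v with cls v ∉ t, f v) / n :=
    div_nonneg (sum_nonneg fun v _ => f0 v) hn'.le
  have hdiff : |∑ q ∈ t, g q * frac (fun v => HasTy G v r q) - ∑ q ∈ t, g q * π q| ≤ δ := by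
    rw [← sum_sub_distrib]
    refine (abs_sum_le_sum_abs _ _).trans (le_trans (sum_le_sum fun q _ => ?_) herr)
    rw [← mul_sub, abs_mul]
    exact mul_le_of_le_one_left (abs_nonneg _) (g0 q)
  rw [hmain]
  have h5 := abs_le.mp hdiff
  rw [abs_le]
  constructor <;> linarith

end Pool.Agent.Lib.MP_a763a9_pr.H59
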